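import Mathlib

/-!
# Counting topologies induced by maps into function spaces

For a fixed separable space `Z`, only `2^ℵ₀` many convergence structures on a countable set
are induced by maps into `C(Z, Y)`, `Y` metrizable.
-/

namespace Pool.Agent.V11221.CkCount

open Set Filter Topology

/-- In `C(Z, Y)` with the compact-open topology, convergence is uniform convergence on compacta. -/
theorem tendsto_iff {Z Y ι : Type*} [TopologicalSpace Z] [PseudoMetricSpace Y]
    {l : Filter ι} {F : ι → C(Z, Y)} {f : C(Z, Y)} :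
    Tendsto F l (𝓝 f) ↔ ∀ K : Set Z, IsCompact K → ∀ ε : ℝ, 0 < ε →
      ∀ᶠ i in l, ∀ x ∈ K, dist (f x) (F i x) < ε := by
  rw [ContinuousMap.tendsto_iff_forall_isCompact_tendstoUniformlyOn]
  constructor
  · intro h K hK ε hε
    exact Metric.tendstoUniformlyOn_iff.1 (h K hK) ε hε
  · intro h K hK
    rw [Metric.tendstoUniformlyOn_iff]
    exact h K hK

/-- The data attached to a map into a function space. -/
theorem data_determines {Z Y Y' ι T T' : Type*} [TopologicalSpace Z] [PseudoMetricSpace Y]
    [PseudoMetricSpace Y'] [TopologicalSpace T] [TopologicalSpace T']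
    {e : T → C(Z, Y)} (he : IsInducing e) {e' : T' → C(Z, Y')} (he' : IsInducing e')
    {s : Set Z} (hs : Dense s) (d : ι → T) (t : T) (d' : ι → T') (t' : T')
    (hdata : ∀ i, ∀ x ∈ s, dist (e t x) (e (d i) x) = dist (e' t' x) (e' (d' i) x))
    (l : Filter ι) : Tendsto d l (𝓝 t) ↔ Tendsto d' l (𝓝 t') := by
  have hall : ∀ i, ∀ x, dist (e t x) (e (d i) x) = dist (e' t' x) (e' (d' i) x) := by
    intro i
    have h1 : Continuous fun x => dist (e t x) (e (d i) x) :=
      (e t).continuous.dist (e (d i)).continuous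
    have h2 : Continuous fun x => dist (e' t' x) (e' (d' i) x) :=
      (e' t').continuous.dist (e' (d' i)).continuous
    have h3 : (fun x => dist (e t x) (e (d i) x)) = fun x => dist (e' t' x) (e' (d' i) x) :=
      Continuous.ext_on hs h1 h2 (fun x hx => hdata i x hx)
    intro x
    exact congrFun h3 x
  rw [he.tendsto_nhds_iff, he'.tendsto_nhds_iff, tendsto_iff, tendsto_iff]
  simp only [Function.comp, hall]

/-- The counting lemma: `2^𝔠` many spaces `T A`, each with a marked countable family of points
and a marked limit point such that the convergence of filters on the index set to the marked point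
determines `A`, cannot all be embedded into spaces `C(Z, Y)` with `Z` separable fixed and
`Y` metrizable. -/
theorem no_simultaneous_embedding {Z : Type*} [TopologicalSpace Z]
    [TopologicalSpace.SeparableSpace Z] {Y : Type*} [TopologicalSpace Y]
    [TopologicalSpace.PseudoMetrizableSpace Y] {ι : Type} [Countable ι]
    (T : Set (ℕ → Bool) → Type*) [∀ A, TopologicalSpace (T A)]
    (d : ∀ A, ι → T A) (t : ∀ A, T A)
    (hdist : ∀ A A', (∀ l : Filter ι, Tendsto (d A) l (𝓝 (t A)) ↔
      Tendsto (d A') l (𝓝 (t A'))) → A = A')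
    (e : ∀ A, T A → C(Z, Y)) (he : ∀ A, IsInducing (e A)) : False := by
  let _ : PseudoMetricSpace Y := TopologicalSpace.pseudoMetrizableSpacePseudoMetric Y
  obtain ⟨s, hsc, hsd⟩ := TopologicalSpace.exists_countable_dense Z
  have : Countable s := hsc.to_subtype
  obtain ⟨g, hg⟩ : ∃ g : s → ℕ, Function.Injective g := exists_injective_nat s
  obtain ⟨k, hk⟩ : ∃ k : ι → ℕ, Function.Injective k := exists_injective_nat ι
  -- the data as a function `ℕ × ℕ → ℝ`
  classical
  let D : Set (ℕ → Bool) → (ℕ × ℕ → ℝ) := fun A p =>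
    if h : ∃ (i : ι) (x : s), k i = p.1 ∧ g x = p.2 then
      dist (e A (t A) h.choose_spec.choose) (e A (d A h.choose) h.choose_spec.choose)
    else 0
  have hD : ∀ A (i : ι) (x : s), D A (k i, g x) = dist (e A (t A) x) (e A (d A i) x) := by
    intro A i x
    have h : ∃ (j : ι) (y : s), k j = (k i, g x).1 ∧ g y = (k i, g x).2 := ⟨i, x, rfl, rfl⟩
    have h1 : h.choose = i := hk h.choose_spec.choose_spec.1
    have h2 : h.choose_spec.choose = x := hg h.choose_spec.choose_spec.2
    simp only [D]
    rw [dif_pos h]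
    rw [h2, h1]
  have hinj : Function.Injective D := by
    intro A A' hAA'
    apply hdist
    intro l
    refine data_determines (he A) (he A') hsd (d A) (t A) (d A') (t A') ?_ l
    intro i x hx
    have h1 := hD A i ⟨x, hx⟩
    have h2 := hD A' i ⟨x, hx⟩
    rw [hAA'] at h1
    exact h1.symm.trans h2
  have h1 : Cardinal.mk (Set (ℕ → Bool)) ≤ Cardinal.mk (ℕ × ℕ → ℝ) :=
    Cardinal.mk_le_of_injective hinj
  have h2 : Cardinal.mk (ℕ × ℕ → ℝ) = Cardinal.continuum := by
    simp [Cardinal.mk_real]
  have h3 : Cardinal.mk (Set (ℕ → Bool)) = 2 ^ Cardinal.continuum := by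
    rw [Cardinal.mk_set]
    simp
  rw [h2, h3] at h1
  exact absurd h1 (not_le.2 (Cardinal.cantor _))

/-- A variant of the counting lemma for one target space of cardinality at most `𝔠`. -/
theorem no_simultaneous_embedding_card {U : Type} [TopologicalSpace U]
    (hU : Cardinal.mk U ≤ Cardinal.continuum) {ι : Type} [Countable ι]
    (T : Set (ℕ → Bool) → Type*) [∀ A, TopologicalSpace (T A)]
    (d : ∀ A, ι → T A) (t : ∀ A, T A)
    (hdist : ∀ A A', (∀ l : Filter ι, Tendsto (d A) l (𝓝 (t A)) ↔
      Tendsto (d A') l (𝓝 (t A'))) → A = A')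
    (e : ∀ A, T A → U) (he : ∀ A, IsInducing (e A)) : False := by
  let D : Set (ℕ → Bool) → (ι → U) × U := fun A => (fun i => e A (d A i), e A (t A))
  have hinj : Function.Injective D := by
    intro A A' hAA'
    apply hdist
    intro l
    have h1 : (fun i => e A (d A i)) = fun i => e A' (d A' i) := congrArg Prod.fst hAA'
    have h2 : e A (t A) = e A' (t A') := congrArg Prod.snd hAA'
    rw [(he A).tendsto_nhds_iff, (he A').tendsto_nhds_iff]
    change Tendsto (fun i => e A (d A i)) l (𝓝 (e A (t A))) ↔
      Tendsto (fun i => e A' (d A' i)) l (𝓝 (e A' (t A')))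
    rw [h1, h2]
  have h1 : Cardinal.mk (Set (ℕ → Bool)) ≤ Cardinal.mk ((ι → U) × U) :=
    Cardinal.mk_le_of_injective hinj
  have h2 : Cardinal.mk ((ι → U) × U) ≤ Cardinal.continuum := by
    rw [Cardinal.mk_prod]
    simp only [Cardinal.lift_id]
    have h4 : Cardinal.mk (ι → U) ≤ Cardinal.continuum := by
      rw [← Cardinal.power_def]
      calc Cardinal.mk U ^ Cardinal.mk ι ≤ Cardinal.continuum ^ Cardinal.mk ι :=
            Cardinal.power_le_power_right hU
        _ ≤ Cardinal.continuum ^ Cardinal.aleph0 :=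
            Cardinal.power_le_power_left Cardinal.continuum_ne_zero (Cardinal.mk_le_aleph0)
        _ = Cardinal.continuum := Cardinal.continuum_power_aleph0
    calc Cardinal.mk (ι → U) * Cardinal.mk U ≤ Cardinal.continuum * Cardinal.continuum :=
          mul_le_mul' h4 hU
      _ = Cardinal.continuum := Cardinal.continuum_mul_self
  have h3 : Cardinal.mk (Set (ℕ → Bool)) = 2 ^ Cardinal.continuum := by
    rw [Cardinal.mk_set]
    simp
  rw [h3] at h1
  exact absurd (h1.trans h2) (not_le.2 (Cardinal.cantor _))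

/-! ### The function spaces `C(S, ℝ)`, `S ⊆ 2^ω`, as test spaces -/

/-- The indicator of the cylinder `{x | ∀ i < n, x i = true ↔ i ∈ F}`. -/
noncomputable def bump (p : ℕ × Finset ℕ) : C(ℕ → Bool, ℝ) where
  toFun := Set.indicator {x | ∀ i < p.1, x i = decide (i ∈ p.2)} (fun _ => 1)
  continuous_toFun := by
    have hclopen : IsClopen {x : ℕ → Bool | ∀ i < p.1, x i = decide (i ∈ p.2)} := by
      have : {x : ℕ → Bool | ∀ i < p.1, x i = decide (i ∈ p.2)} =
          ⋂ i ∈ Finset.range p.1, {x : ℕ → Bool | x i = decide (i ∈ p.2)} := by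
        ext x
        simp
      rw [this]
      apply isClopen_biInter_finset
      intro i _
      have h : {x : ℕ → Bool | x i = decide (i ∈ p.2)} =
        (fun x : ℕ → Bool => x i) ⁻¹' {decide (i ∈ p.2)} := rfl
      rw [h]
      exact (isClopen_discrete _).preimage (continuous_apply i)
    exact continuous_const.indicator (by
      intro a ha
      rw [hclopen.frontier_eq] at ha
      exact absurd ha (Set.notMem_empty a))

theorem bump_apply (p : ℕ × Finset ℕ) (x : ℕ → Bool) :
    bump p x = Set.indicator {x | ∀ i < p.1, x i = decide (i ∈ p.2)} (fun _ => (1 : ℝ)) x := rfl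

theorem bump_apply_of_mem {p : ℕ × Finset ℕ} {x : ℕ → Bool}
    (h : ∀ i < p.1, x i = decide (i ∈ p.2)) : bump p x = 1 := by
  rw [bump_apply]
  have h' : x ∈ {y : ℕ → Bool | ∀ i < p.1, y i = decide (i ∈ p.2)} := h
  exact Set.indicator_of_mem h' _

theorem bump_apply_of_notMem {p : ℕ × Finset ℕ} {x : ℕ → Bool}
    (h : ¬ ∀ i < p.1, x i = decide (i ∈ p.2)) : bump p x = 0 := by
  rw [bump_apply]
  have h' : x ∉ {y : ℕ → Bool | ∀ i < p.1, y i = decide (i ∈ p.2)} := h
  exact Set.indicator_of_notMem h' _

/-- The index of the `n`-th cylinder around `z`. -/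
def code (z : ℕ → Bool) (n : ℕ) : ℕ × Finset ℕ := (n, (Finset.range n).filter (fun i => z i = true))

theorem code_spec (z x : ℕ → Bool) (n : ℕ) :
    (∀ i < (code z n).1, x i = decide (i ∈ (code z n).2)) ↔ ∀ i < n, x i = z i := by
  constructor
  · intro h i hi
    rw [h i hi]
    cases hz : z i <;> simp [code, hz, hi]
  · intro h i hi
    rw [h i hi]
    have hi' : i < n := hi
    cases hz : z i <;> simp [code, hz, hi']

/-- The restriction of bump functions to `S`. -/
noncomputable def rbump (S : Set (ℕ → Bool)) (p : ℕ × Finset ℕ) : C(S, ℝ) :=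
  (bump p).restrict S

theorem tendsto_rbump_iff (S : Set (ℕ → Bool)) (z : ℕ → Bool) :
    Tendsto (fun n => rbump S (code z n)) atTop (𝓝 (0 : C(S, ℝ))) ↔ z ∉ S := by
  constructor
  · intro h hz
    have h1 := (tendsto_iff.1 h) {⟨z, hz⟩} isCompact_singleton 1 one_pos
    obtain ⟨n, hn⟩ := h1.exists
    have h2 := hn ⟨z, hz⟩ rfl
    have h3 : rbump S (code z n) ⟨z, hz⟩ = 1 := by
      change bump (code z n) z = 1
      exact bump_apply_of_mem ((code_spec z z n).2 (fun i _ => rfl))
    rw [h3] at h2
    simp at h2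
  · intro hz
    rw [tendsto_iff]
    intro K hK ε hε
    have hK' : IsClosed (Subtype.val '' K : Set (ℕ → Bool)) :=
      (hK.image continuous_subtype_val).isClosed
    have hzK : z ∉ (Subtype.val '' K : Set (ℕ → Bool)) := by
      rintro ⟨y, -, rfl⟩
      exact hz y.2
    obtain ⟨n, hn⟩ := PiNat.exists_disjoint_cylinder hK' hzK
    filter_upwards [eventually_ge_atTop n] with m hm x hx
    have : rbump S (code z m) x = 0 := by
      change bump (code z m) x = 0
      apply bump_apply_of_notMem
      intro h
      rw [code_spec] at h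
      have h1 : (x : ℕ → Bool) ∈ PiNat.cylinder z n := by
        rw [PiNat.mem_cylinder_iff]
        intro i hi
        exact h i (lt_of_lt_of_le hi hm)
      exact Set.disjoint_left.1 hn ⟨x, hx, rfl⟩ h1
    rw [this]
    simpa using hε

theorem rbump_dist (A A' : Set (ℕ → Bool))
    (h : ∀ l : Filter (ℕ × Finset ℕ), Tendsto (rbump A) l (𝓝 (0 : C(A, ℝ))) ↔
      Tendsto (rbump A') l (𝓝 (0 : C(A', ℝ)))) : A = A' := by
  ext z
  have h1 := h (Filter.map (code z) atTop)
  rw [tendsto_map'_iff, tendsto_map'_iff] at h1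
  have h2 := tendsto_rbump_iff A z
  have h3 := tendsto_rbump_iff A' z
  have h4 : z ∉ A ↔ z ∉ A' := h2.symm.trans (h1.trans h3)
  exact not_iff_not.1 h4

end Pool.Agent.V11221.CkCount
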