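import Mathlib

/-!
# Covering dimension and general position of families of functions
-/

namespace Pool.Agent.V11221.CovDim

open Set Filter Topology MeasureTheory

universe u

/-- The covering dimension of `X` is at most `n`: each finite open cover has a finite open
refinement of order at most `n`, i.e. each point lies in at most `n + 1` of its members. -/
def CovDimLE (X : Type u) [TopologicalSpace X] (n : ℕ) : Prop :=
  ∀ 𝒰 : Set (Set X), 𝒰.Finite → (∀ U ∈ 𝒰, IsOpen U) → ⋃₀ 𝒰 = Set.univ →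
    ∃ 𝒱 : Set (Set X), 𝒱.Finite ∧ (∀ V ∈ 𝒱, IsOpen V) ∧ ⋃₀ 𝒱 = Set.univ ∧
      (∀ V ∈ 𝒱, ∃ U ∈ 𝒰, V ⊆ U) ∧ ∀ x, {V ∈ 𝒱 | x ∈ V}.encard ≤ n + 1

/-- The affine span of at most `n + 1` points is a null set in `ℝ^{n+1}`. -/
theorem volume_affineSpan {n : ℕ} {ι : Type*} (p : ι → (Fin (n + 1) → ℝ)) (s : Finset ι)
    (hs : s.card ≤ n + 1) :
    (volume : Measure (Fin (n + 1) → ℝ)) (affineSpan ℝ (p '' (s : Set ι))) = 0 := by
  classical
  apply Measure.addHaar_affineSubspace
  intro htop
  have h1 : vectorSpan ℝ (p '' (s : Set ι)) = ⊤ := by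
    rw [← direction_affineSpan, htop, AffineSubspace.direction_top]
  rcases Nat.eq_zero_or_pos s.card with h0 | h0
  · rw [Finset.card_eq_zero] at h0
    subst h0
    simp only [Finset.coe_empty, Set.image_empty, vectorSpan_empty] at h1
    have h2 : Module.finrank ℝ (⊤ : Submodule ℝ (Fin (n + 1) → ℝ)) = n + 1 := by
      rw [finrank_top, Module.finrank_fin_fun]
    rw [← h1, finrank_bot] at h2
    omega
  · obtain ⟨k, hk⟩ : ∃ k, s.card = k + 1 := ⟨s.card - 1, by omega⟩
    have h2 := finrank_vectorSpan_image_finset_le ℝ p s hk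
    rw [Finset.coe_image, h1, finrank_top, Module.finrank_fin_fun] at h2
    omega

/-- Maps into `ℝ^{n+1}` can be pushed off a point. -/
theorem push_off {X : Type u} [TopologicalSpace X] [NormalSpace X] {n : ℕ} (hdim : CovDimLE X n)
    {f : X → (Fin (n + 1) → ℝ)} (hf : Continuous f) {R : ℝ} (hR : ∀ x, ‖f x‖ ≤ R)
    (t : Fin (n + 1) → ℝ) {ε : ℝ} (hε : 0 < ε) :
    ∃ g : X → (Fin (n + 1) → ℝ), Continuous g ∧ (∀ x, ‖g x - f x‖ ≤ ε) ∧
      ∃ δ > 0, ∀ x, δ ≤ ‖g x - t‖ := by
  classical
  -- the cover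
  obtain ⟨c, -, hcfin, hc⟩ := (isCompact_closedBall (0 : Fin (n + 1) → ℝ) R).finite_cover_balls
    (show 0 < ε / 4 by positivity)
  obtain ⟨𝒱, h𝒱fin, h𝒱o, h𝒱c, h𝒱r, h𝒱ord⟩ := hdim
    ((fun y => f ⁻¹' Metric.ball y (ε / 4)) '' c) (hcfin.image _)
    (by
      rintro _ ⟨y, -, rfl⟩
      exact Metric.isOpen_ball.preimage hf)
    (by
      apply Set.eq_univ_of_forall
      intro x
      have h1 : f x ∈ Metric.closedBall (0 : Fin (n + 1) → ℝ) R := by
        simpa using hR x
      have h2 := hc h1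
      simp only [Set.mem_iUnion] at h2
      obtain ⟨y, hy, hxy⟩ := h2
      exact ⟨_, ⟨y, hy, rfl⟩, hxy⟩)
  have hp : ∀ V : 𝒱, ∃ y : Fin (n + 1) → ℝ, ∀ x ∈ V.1, ‖y - f x‖ < ε / 4 := by
    rintro ⟨V, hV⟩
    obtain ⟨_, ⟨y, -, rfl⟩, hVy⟩ := h𝒱r V hV
    refine ⟨y, fun x hx => ?_⟩
    have := hVy hx
    rw [Set.mem_preimage, Metric.mem_ball, dist_comm, dist_eq_norm] at this
    exact this
  choose p hp using hp
  have : Fintype 𝒱 := h𝒱fin.fintype
  obtain ⟨lam, hlam⟩ := PartitionOfUnity.exists_isSubordinate_of_locallyFinite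
    (isClosed_univ (X := X)) (fun V : 𝒱 => V.1) (fun V => h𝒱o V.1 V.2)
    (locallyFinite_of_finite _) (by
      intro x _
      have : x ∈ ⋃₀ 𝒱 := h𝒱c ▸ Set.mem_univ x
      obtain ⟨V, hV, hxV⟩ := this
      exact Set.mem_iUnion.2 ⟨⟨V, hV⟩, hxV⟩)
  have hlam0 : ∀ (V : 𝒱) (x : X), x ∉ V.1 → lam V x = 0 := by
    intro V x hx
    by_contra hne
    exact hx (hlam V (subset_tsupport _ hne))
  have hsum : ∀ x, ∑ V : 𝒱, lam V x = 1 := by
    intro x
    rw [← finsum_eq_sum_of_fintype]
    exact lam.sum_eq_one (Set.mem_univ x)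
  let h : X → (Fin (n + 1) → ℝ) := fun x => ∑ V : 𝒱, lam V x • p V
  have hh : Continuous h := by
    apply continuous_finsetSum
    intro V _
    exact (lam V).continuous.smul continuous_const
  have hhf : ∀ x, ‖h x - f x‖ ≤ ε / 4 := by
    intro x
    have h1 : h x - f x = ∑ V : 𝒱, lam V x • (p V - f x) := by
      simp only [h, smul_sub, Finset.sum_sub_distrib]
      rw [← Finset.sum_smul, hsum x, one_smul]
    rw [h1]
    calc ‖∑ V : 𝒱, lam V x • (p V - f x)‖ ≤ ∑ V : 𝒱, ‖lam V x • (p V - f x)‖ := norm_sum_le _ _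
      _ ≤ ∑ V : 𝒱, lam V x * (ε / 4) := by
        apply Finset.sum_le_sum
        intro V _
        rw [norm_smul, Real.norm_of_nonneg (lam.nonneg V x)]
        by_cases hx : x ∈ V.1
        · exact mul_le_mul_of_nonneg_left (hp V x hx).le (lam.nonneg V x)
        · rw [hlam0 V x hx]
          simp
      _ = ε / 4 := by rw [← Finset.sum_mul, hsum x, one_mul]
  let Z : Set (Fin (n + 1) → ℝ) := ⋃ s ∈ (Finset.univ : Finset (Finset 𝒱)).filter
    (fun s => s.card ≤ n + 1), (affineSpan ℝ (p '' (s : Set 𝒱)) : Set (Fin (n + 1) → ℝ))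
  have hZc : IsClosed Z := by
    apply isClosed_biUnion_finset
    intro s _
    exact (affineSpan ℝ (p '' (s : Set 𝒱))).closed_of_finiteDimensional
  have hZ0 : (volume : Measure (Fin (n + 1) → ℝ)) Z = 0 := by
    refine measure_iUnion_null fun s => measure_iUnion_null fun hs => ?_
    exact volume_affineSpan p s (Finset.mem_filter.1 hs).2
  have hhZ : ∀ x, h x ∈ Z := by
    intro x
    let s : Finset 𝒱 := Finset.univ.filter (fun V => x ∈ V.1)
    have hscard : s.card ≤ n + 1 := by
      have h1 := h𝒱ord x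
      have h2 : {V ∈ 𝒱 | x ∈ V} = Subtype.val '' (s : Set 𝒱) := by
        ext V
        constructor
        · rintro ⟨hV, hx⟩
          exact ⟨⟨V, hV⟩, by simpa [s] using hx, rfl⟩
        · rintro ⟨⟨V, hV⟩, hs, rfl⟩
          exact ⟨hV, by simpa [s] using hs⟩
      rw [h2, Subtype.val_injective.encard_image, Set.encard_coe_eq_coe_finsetCard] at h1
      exact_mod_cast h1
    refine Set.mem_biUnion (Finset.mem_coe.2 (Finset.mem_filter.2 ⟨Finset.mem_univ s, hscard⟩)) ?_
    have h1 : h x = ∑ V ∈ s, lam V x • p V := by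
      symm
      apply Finset.sum_subset (Finset.subset_univ s)
      intro V _ hV
      rw [hlam0 V x (by simpa [s] using hV), zero_smul]
    rw [h1]
    have h2 : ∑ V ∈ s, lam V x = 1 := by
      rw [← hsum x]
      apply Finset.sum_subset (Finset.subset_univ s)
      intro V _ hV
      exact hlam0 V x (by simpa [s] using hV)
    have h3 : Convex ℝ (affineSpan ℝ (p '' (s : Set 𝒱)) : Set (Fin (n + 1) → ℝ)) :=
      AffineSubspace.convex _
    apply h3.sum_mem
    · intro V _
      exact lam.nonneg V x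
    · exact h2
    · intro V hV
      exact subset_affineSpan ℝ _ ⟨V, hV, rfl⟩
  -- choose the translation
  obtain ⟨w, hw1, hw2⟩ : ∃ w ∈ Metric.ball t (ε / 2), w ∉ Z := by
    by_contra hcon
    push Not at hcon
    have h1 : (volume : Measure (Fin (n + 1) → ℝ)) (Metric.ball t (ε / 2)) ≤ 0 :=
      (measure_mono hcon).trans hZ0.le
    exact absurd (Metric.measure_ball_pos volume t (show 0 < ε / 2 by positivity)) (not_lt.2 h1)
  obtain ⟨δ, hδ, hδ'⟩ := Metric.isOpen_iff.1 hZc.isOpen_compl w hw2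
  refine ⟨fun x => h x + (t - w), hh.add continuous_const, ?_, δ, hδ, ?_⟩
  · intro x
    have h1 : h x + (t - w) - f x = (h x - f x) + (t - w) := by abel
    rw [h1]
    have h2 : ‖t - w‖ < ε / 2 := by
      rw [← dist_eq_norm, dist_comm]
      exact hw1
    calc ‖(h x - f x) + (t - w)‖ ≤ ‖h x - f x‖ + ‖t - w‖ := norm_add_le _ _
      _ ≤ ε / 4 + ε / 2 := add_le_add (hhf x) h2.le
      _ ≤ ε := by linarith
  · intro x
    have h1 : h x + (t - w) - t = h x - w := by abel
    rw [h1]
    by_contra hcon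
    push Not at hcon
    have h2 : h x ∈ Metric.ball w δ := by
      rw [Metric.mem_ball, dist_eq_norm]
      exact hcon
    exact hδ' h2 (hhZ x)

/-- General position: a uniformly bounded countable family of continuous functions can be
approximated uniformly by a family such that no point takes the value `1/2` for `n + 1` different
members. -/
theorem general_position {X : Type u} [TopologicalSpace X] [NormalSpace X] {n : ℕ}
    (hdim : CovDimLE X n) {J : Type} [Countable J] (G : J → C(X, ℝ)) {R : ℝ}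
    (hR : ∀ j x, |G j x| ≤ R) {ε : ℝ} (hε : 0 < ε) :
    ∃ F : J → C(X, ℝ), (∀ j x, |F j x - G j x| < ε) ∧
      ∀ s : Fin (n + 1) → J, Function.Injective s → ∀ x, ∃ i, F (s i) x ≠ 1 / 2 := by
  classical
  let _ : TopologicalSpace J := ⊥
  have : DiscreteTopology J := ⟨rfl⟩
  let E := BoundedContinuousFunction (J × X) ℝ
  let G' : E := BoundedContinuousFunction.ofNormedAddCommGroup (fun z => G z.1 z.2) (by
    rw [continuous_prod_of_discrete_left]
    intro j
    exact (G j).continuous) R (fun z => by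
      rw [Real.norm_eq_abs]
      exact hR z.1 z.2)
  let D : (Fin (n + 1) → J) → Set E := fun s =>
    {F | ∃ δ > 0, ∀ x, δ ≤ ‖(fun i => F (s i, x) - 1 / 2 : Fin (n + 1) → ℝ)‖}
  have hDo : ∀ s, IsOpen (D s) := by
    intro s
    rw [Metric.isOpen_iff]
    rintro F ⟨δ, hδ, hF⟩
    refine ⟨δ / 2, half_pos hδ, ?_⟩
    intro F' hF'
    refine ⟨δ / 2, half_pos hδ, fun x => ?_⟩
    have h1 : ‖(fun i => F (s i, x) - 1 / 2 : Fin (n + 1) → ℝ) -
        (fun i => F' (s i, x) - 1 / 2 : Fin (n + 1) → ℝ)‖ ≤ δ / 2 := by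
      rw [pi_norm_le_iff_of_nonneg (half_pos hδ).le]
      intro i
      have h2 : ((fun i => F (s i, x) - 1 / 2 : Fin (n + 1) → ℝ) -
        (fun i => F' (s i, x) - 1 / 2 : Fin (n + 1) → ℝ)) i = F (s i, x) - F' (s i, x) := by
        simp
      rw [h2, ← dist_eq_norm]
      have h3 : dist (F (s i, x)) (F' (s i, x)) ≤ dist F F' :=
        BoundedContinuousFunction.dist_coe_le_dist _
      rw [Metric.mem_ball, dist_comm] at hF'
      exact h3.trans hF'.le
    have h2 := norm_sub_norm_le (fun i => F (s i, x) - 1 / 2 : Fin (n + 1) → ℝ)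
      (fun i => F' (s i, x) - 1 / 2 : Fin (n + 1) → ℝ)
    have h3 := hF x
    linarith
  have hDd : ∀ s : Fin (n + 1) → J, Function.Injective s → Dense (D s) := by
    intro s hs
    rw [Metric.dense_iff]
    intro F r hr
    have hr2 : 0 < r / 2 := half_pos hr
    have hcont : Continuous fun x : X => (fun i => F (s i, x) : Fin (n + 1) → ℝ) :=
      continuous_pi fun i => F.continuous.comp (continuous_const.prodMk continuous_id)
    obtain ⟨g, hg, hgF, δ, hδ, hgδ⟩ := push_off hdim hcont (R := ‖F‖) (fun x => by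
      rw [pi_norm_le_iff_of_nonneg (norm_nonneg F)]
      intro i
      exact F.norm_coe_le_norm _) (fun _ => 1 / 2) hr2
    have hgF' : ∀ x i, |g x i - F (s i, x)| ≤ r / 2 := by
      intro x i
      have := (norm_le_pi_norm (g x - fun i => F (s i, x)) i).trans (hgF x)
      simpa using this
    let F'0 : J × X → ℝ := fun z => if h : ∃ i, s i = z.1 then g z.2 h.choose else F z
    have hF's : ∀ i x, F'0 (s i, x) = g x i := by
      intro i x
      have h : ∃ i', s i' = s i := ⟨i, rfl⟩
      have h1 : h.choose = i := hs h.choose_spec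
      change (if h : ∃ i', s i' = s i then g x h.choose else F (s i, x)) = g x i
      rw [dif_pos h, h1]
    have hF'n : ∀ j, (¬ ∃ i, s i = j) → ∀ x, F'0 (j, x) = F (j, x) := by
      intro j hj x
      change (if h : ∃ i', s i' = j then g x h.choose else F (j, x)) = F (j, x)
      rw [dif_neg hj]
    have hF'dist : ∀ z, |F'0 z - F z| ≤ r / 2 := by
      rintro ⟨j, x⟩
      by_cases hj : ∃ i, s i = j
      · obtain ⟨i, rfl⟩ := hj
        rw [hF's]
        exact hgF' x i
      · rw [hF'n j hj, sub_self, abs_zero]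
        exact hr2.le
    let F' : E := BoundedContinuousFunction.ofNormedAddCommGroup F'0 (by
      rw [continuous_prod_of_discrete_left]
      intro j
      by_cases hj : ∃ i, s i = j
      · obtain ⟨i, rfl⟩ := hj
        have : (fun x => F'0 (s i, x)) = fun x => g x i := funext fun x => hF's i x
        rw [this]
        exact (continuous_apply i).comp hg
      · have : (fun x => F'0 (j, x)) = fun x => F (j, x) := funext fun x => hF'n j hj x
        rw [this]
        exact F.continuous.comp (continuous_const.prodMk continuous_id)) (‖F‖ + r / 2) (fun z => by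
        have h1 := hF'dist z
        have h2 := F.norm_coe_le_norm z
        rw [Real.norm_eq_abs] at h2 ⊢
        calc |F'0 z| = |(F'0 z - F z) + F z| := by ring_nf
          _ ≤ |F'0 z - F z| + |F z| := abs_add_le _ _
          _ ≤ ‖F‖ + r / 2 := by linarith)
    have hF'v : ∀ z, F' z = F'0 z := fun z => rfl
    refine ⟨F', ?_, δ, hδ, fun x => ?_⟩
    · rw [Metric.mem_ball]
      refine lt_of_le_of_lt ?_ (half_lt_self hr)
      rw [BoundedContinuousFunction.dist_le hr2.le]
      intro z
      rw [hF'v, Real.dist_eq]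
      exact hF'dist z
    · have h1 : (fun i => F' (s i, x) - 1 / 2 : Fin (n + 1) → ℝ) = g x - fun _ => 1 / 2 := by
        ext i
        rw [hF'v, hF's]
        rfl
      rw [h1]
      exact hgδ x
  have hdense : Dense (⋂ s : {s : Fin (n + 1) → J // Function.Injective s}, D s.1) :=
    dense_iInter_of_isOpen (fun s => hDo s.1) (fun s => hDd s.1 s.2)
  obtain ⟨F, hF1, hF2⟩ := Metric.dense_iff.1 hdense G' (ε / 2) (half_pos hε)
  refine ⟨fun j => ⟨fun x => F (j, x), F.continuous.comp
    (continuous_const.prodMk continuous_id)⟩, ?_, ?_⟩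
  · intro j x
    have h1 : dist (F (j, x)) (G' (j, x)) ≤ dist F G' :=
      BoundedContinuousFunction.dist_coe_le_dist _
    rw [Metric.mem_ball] at hF1
    have h2 : dist (F (j, x)) (G' (j, x)) = |F (j, x) - G j x| := rfl
    rw [h2] at h1
    change |F (j, x) - G j x| < ε
    linarith
  · intro s hs x
    obtain ⟨δ, hδ, h⟩ := Set.mem_iInter.1 hF2 ⟨s, hs⟩
    by_contra hcon
    push Not at hcon
    have h1 := h x
    have h2 : (fun i => F (s i, x) - 1 / 2 : Fin (n + 1) → ℝ) = 0 := by
      ext i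
      have : F (s i, x) = 1 / 2 := hcon i
      rw [this]
      simp
    rw [h2, norm_zero] at h1
    exact absurd hδ (not_lt.2 h1)

end Pool.Agent.V11221.CovDim
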