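import Mathlib

/-!
Definitions for MP_0880e2_an: upper and lower `ℓ^q(L^p)`-decompositions on the circle and line.
-/

open MeasureTheory Set Filter Topology
open scoped ENNReal FourierTransform SchwartzMap

namespace Pool.Agent.V11221.Fou

/-- The `ℓ^q`-norm (`q ∈ [1,∞]`) of a family in `[0,∞]`. -/
noncomputable def lqNorm {ι : Type*} (q : ℝ≥0∞) (a : ι → ℝ≥0∞) : ℝ≥0∞ :=
  if q = ∞ then ⨆ i, a i else (∑' i, a i ^ q.toReal) ^ (1 / q.toReal)

section
variable {X : Type*} [NormedAddCommGroup X] [NormedSpace ℂ X]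

/-- The `X`-valued trigonometric polynomial `∑ₙ cₙ eₙ` on `𝕋 = ℝ/ℤ`. -/
noncomputable def trigPoly (c : ℤ →₀ X) (t : UnitAddCircle) : X :=
  c.sum fun n x => fourier n t • x

open Classical in
/-- The Fourier projection `D_I f = ∑_{n ∈ I} f̂(n) eₙ` of `f = ∑ₙ cₙ eₙ`. -/
noncomputable def projT (I : Set ℤ) (c : ℤ →₀ X) (t : UnitAddCircle) : X :=
  c.sum fun n x => if n ∈ I then fourier n t • x else 0

/-- The class `𝒮_c(ℝ;X)`: finite sums `∑ φⱼ xⱼ` with `φⱼ` Schwartz, `φ̂ⱼ` compactly supported. -/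
def IsSc (f : ℝ → X) : Prop :=
  ∃ (m : ℕ) (φ : Fin m → 𝓢(ℝ, ℂ)) (x : Fin m → X),
    (∀ j, HasCompactSupport (𝓕 (φ j : ℝ → ℂ))) ∧ ∀ t, f t = ∑ j, φ j t • x j

/-- The Fourier projection `D_I f = 𝓕⁻¹(1_I f̂)` on the line. -/
noncomputable def projR (I : Set ℝ) (f : ℝ → X) : ℝ → X :=
  𝓕⁻ (I.indicator (𝓕 f))

end

/-- Interval partitions of `ℤ`. -/
def IsIntPartZ (P : Set (Set ℤ)) : Prop :=
  Setoid.IsPartition P ∧ ∀ I ∈ P, I.OrdConnected

/-- Interval partitions of `ℝ` into countably many intervals. -/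
def IsIntPartR (P : Set (Set ℝ)) : Prop :=
  Setoid.IsPartition P ∧ (∀ I ∈ P, I.OrdConnected) ∧ P.Countable

/-- Interval partitions of `ℝ` into intervals of positive length. -/
def IsIntPartR' (P : Set (Set ℝ)) : Prop :=
  Setoid.IsPartition P ∧ (∀ I ∈ P, I.OrdConnected) ∧ ∀ I ∈ P, (interior I).Nonempty

section
variable (X : Type*) [NormedAddCommGroup X] [NormedSpace ℂ X]

/-- `X` has upper `ℓ^q(L^p)`-decompositions on `𝕋`. -/
def UpperT (p q : ℝ≥0∞) : Prop :=
  ∃ U : ℝ, 0 < U ∧ ∀ P : Set (Set ℤ), IsIntPartZ P → ∀ c : ℤ →₀ X,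
    eLpNorm (trigPoly c) p volume ≤
      ENNReal.ofReal U * lqNorm q fun I : P => eLpNorm (projT (I : Set ℤ) c) p volume

/-- `X` has lower `ℓ^q(L^p)`-decompositions on `𝕋`. -/
def LowerT (p q : ℝ≥0∞) : Prop :=
  ∃ L : ℝ, 0 < L ∧ ∀ P : Set (Set ℤ), IsIntPartZ P → ∀ c : ℤ →₀ X,
    (lqNorm q fun I : P => eLpNorm (projT (I : Set ℤ) c) p volume) ≤
      ENNReal.ofReal L * eLpNorm (trigPoly c) p volume

/-- `X` has upper `ℓ^q(L^p)`-decompositions on `ℝ`, w.r.t. the class `part` of partitions. -/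
def UpperR (part : Set (Set ℝ) → Prop) (p q : ℝ≥0∞) : Prop :=
  ∃ U : ℝ, 0 < U ∧ ∀ P : Set (Set ℝ), part P → ∀ f : ℝ → X, IsSc f →
    eLpNorm f p volume ≤
      ENNReal.ofReal U * lqNorm q fun I : P => eLpNorm (projR (I : Set ℝ) f) p volume

/-- `X` has lower `ℓ^q(L^p)`-decompositions on `ℝ`, w.r.t. the class `part` of partitions. -/
def LowerR (part : Set (Set ℝ) → Prop) (p q : ℝ≥0∞) : Prop :=
  ∃ L : ℝ, 0 < L ∧ ∀ P : Set (Set ℝ), part P → ∀ f : ℝ → X, IsSc f →
    (lqNorm q fun I : P => eLpNorm (projR (I : Set ℝ) f) p volume) ≤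
      ENNReal.ofReal L * eLpNorm f p volume

end

section lq

variable {ι κ : Type*}

lemma lqNorm_top (a : ι → ℝ≥0∞) : lqNorm ∞ a = ⨆ i, a i := by simp [lqNorm]

lemma lqNorm_of_ne {q : ℝ≥0∞} (hq : q ≠ ∞) (a : ι → ℝ≥0∞) :
    lqNorm q a = (∑' i, a i ^ q.toReal) ^ (1 / q.toReal) := by simp [lqNorm, hq]

lemma toReal_pos_of {q : ℝ≥0∞} (h1 : 1 ≤ q) (hq : q ≠ ∞) : 0 < q.toReal :=
  ENNReal.toReal_pos (by positivity) hq

lemma lqNorm_mono {q : ℝ≥0∞} {a b : ι → ℝ≥0∞} (h : ∀ i, a i ≤ b i) :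
    lqNorm q a ≤ lqNorm q b := by
  by_cases hq : q = ∞
  · subst hq
    rw [lqNorm_top, lqNorm_top]
    exact iSup_mono h
  · rw [lqNorm_of_ne hq, lqNorm_of_ne hq]
    apply ENNReal.rpow_le_rpow _ (by positivity)
    exact ENNReal.tsum_le_tsum fun i => ENNReal.rpow_le_rpow (h i) (by positivity)

lemma lqNorm_const_mul {q : ℝ≥0∞} (h1 : 1 ≤ q) (k : ℝ≥0∞) (a : ι → ℝ≥0∞) :
    lqNorm q (fun i => k * a i) = k * lqNorm q a := by
  by_cases hq : q = ∞
  · subst hq
    rw [lqNorm_top, lqNorm_top, ENNReal.mul_iSup]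
  · have hp := toReal_pos_of h1 hq
    rw [lqNorm_of_ne hq, lqNorm_of_ne hq]
    simp_rw [ENNReal.mul_rpow_of_nonneg _ _ hp.le]
    rw [ENNReal.tsum_mul_left, ENNReal.mul_rpow_of_nonneg _ _ (by positivity),
      ← ENNReal.rpow_mul, mul_one_div_cancel hp.ne', ENNReal.rpow_one]

/-- each term is bounded by the norm -/
lemma le_lqNorm {q : ℝ≥0∞} (h1 : 1 ≤ q) (a : ι → ℝ≥0∞) (i : ι) : a i ≤ lqNorm q a := by
  by_cases hq : q = ∞
  · subst hq
    rw [lqNorm_top]
    exact le_iSup a i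
  · have hp := toReal_pos_of h1 hq
    rw [lqNorm_of_ne hq]
    calc a i = (a i ^ q.toReal) ^ (1 / q.toReal) := by
          rw [← ENNReal.rpow_mul, mul_one_div_cancel hp.ne', ENNReal.rpow_one]
      _ ≤ _ := ENNReal.rpow_le_rpow (ENNReal.le_tsum i) (by positivity)

/-- reindexing: `lqNorm` along an injective map such that the values off the range vanish -/
lemma lqNorm_comp_injective {q : ℝ≥0∞} (h1 : 1 ≤ q) (e : ι → κ) (he : Function.Injective e)
    (a : κ → ℝ≥0∞) (h0 : ∀ k, k ∉ range e → a k = 0) :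
    lqNorm q (fun i => a (e i)) = lqNorm q a := by
  by_cases hq : q = ∞
  · subst hq
    rw [lqNorm_top, lqNorm_top]
    apply le_antisymm
    · exact iSup_le fun i => le_iSup a (e i)
    · refine iSup_le fun k => ?_
      by_cases hk : k ∈ range e
      · obtain ⟨i, rfl⟩ := hk
        exact le_iSup (fun i => a (e i)) i
      · rw [h0 k hk]; exact zero_le
  · have hp := toReal_pos_of h1 hq
    rw [lqNorm_of_ne hq, lqNorm_of_ne hq]
    congr 1
    refine he.tsum_eq (f := fun k => a k ^ q.toReal) ?_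
    intro k hk
    by_contra hk'
    apply hk
    simp [h0 k hk', hp]

/-- Fatou for `lqNorm`. -/
lemma lqNorm_liminf_le {q : ℝ≥0∞} (h1 : 1 ≤ q) (a : ℕ → ι → ℝ≥0∞) (b : ι → ℝ≥0∞)
    (hb : ∀ i, b i ≤ liminf (fun n => a n i) atTop) :
    lqNorm q b ≤ liminf (fun n => lqNorm q (a n)) atTop := by
  by_cases hq : q = ∞
  · subst hq
    simp_rw [lqNorm_top]
    refine iSup_le fun i => (hb i).trans ?_
    exact liminf_le_liminf (Eventually.of_forall fun n => le_iSup (a n) i)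
  · have hp := toReal_pos_of h1 hq
    simp_rw [lqNorm_of_ne hq]
    have key : ∑' i, b i ^ q.toReal ≤ liminf (fun n => ∑' i, a n i ^ q.toReal) atTop := by
      calc ∑' i, b i ^ q.toReal ≤ ∑' i, liminf (fun n => a n i ^ q.toReal) atTop := by
            apply ENNReal.tsum_le_tsum fun i => ?_
            calc b i ^ q.toReal ≤ (liminf (fun n => a n i) atTop) ^ q.toReal :=
                  ENNReal.rpow_le_rpow (hb i) hp.le
              _ = liminf (fun n => a n i ^ q.toReal) atTop := by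
                  exact (ENNReal.orderIsoRpow q.toReal hp).liminf_apply
        _ ≤ _ := by
            let _ : MeasurableSpace ι := ⊤
            have := lintegral_liminf_le (μ := Measure.count) (u := atTop) (f := fun (n : ℕ) i => a n i ^ q.toReal)
              (fun n => measurable_from_top)
            simpa [lintegral_count] using this
    calc _ ≤ (liminf (fun n => ∑' i, a n i ^ q.toReal) atTop) ^ (1 / q.toReal) :=
          ENNReal.rpow_le_rpow key (by positivity)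
      _ = _ := (ENNReal.orderIsoRpow (1 / q.toReal) (by positivity)).liminf_apply

/-- convergence of `lqNorm` of finitely many convergent terms -/
lemma tendsto_lqNorm {q : ℝ≥0∞} (h1 : 1 ≤ q) (s : Finset ι) (a : ℕ → ι → ℝ≥0∞) (b : ι → ℝ≥0∞)
    (hb : ∀ i ∈ s, Tendsto (fun n => a n i) atTop (𝓝 (b i))) (ha0 : ∀ n, ∀ i ∉ s, a n i = 0)
    (hb0 : ∀ i ∉ s, b i = 0) :
    Tendsto (fun n => lqNorm q (a n)) atTop (𝓝 (lqNorm q b)) := by
  by_cases hq : q = ∞
  · subst hq
    simp_rw [lqNorm_top]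
    have h : ∀ c : ι → ℝ≥0∞, (∀ i ∉ s, c i = 0) → ⨆ i, c i = s.sup c := by
      intro c hc
      apply le_antisymm
      · refine iSup_le fun i => ?_
        by_cases hi : i ∈ s
        · exact Finset.le_sup hi
        · rw [hc i hi]; exact zero_le
      · exact Finset.sup_le fun i _ => le_iSup c i
    simp_rw [h b hb0, fun n => h (a n) (ha0 n)]
    exact Tendsto.finset_sup_nhds_apply (fun i hi => hb i hi)
  · have hp := toReal_pos_of h1 hq
    simp_rw [lqNorm_of_ne hq]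
    have h : ∀ c : ι → ℝ≥0∞, (∀ i ∉ s, c i = 0) →
        ∑' i, c i ^ q.toReal = ∑ i ∈ s, c i ^ q.toReal := by
      intro c hc
      apply tsum_eq_sum
      intro i hi
      simp [hc i hi, hp]
    simp_rw [h b hb0, fun n => h (a n) (ha0 n)]
    refine (ENNReal.continuous_rpow_const.tendsto _).comp ?_
    exact tendsto_finsetSum _ fun i hi => (ENNReal.continuous_rpow_const.tendsto _).comp (hb i hi)

end lq

end Pool.Agent.V11221.Fou
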