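import Mathlib
import Pool.Agent.V11221.FouDefs

/-!
From the line to the circle.
-/

open MeasureTheory Set Filter Topology
open scoped ENNReal FourierTransform SchwartzMap

namespace Pool.Agent.V11221.Fou

section basic
variable {X : Type*} [NormedAddCommGroup X] [NormedSpace ℂ X]

/-- the exponential `e^{2π i ξ t}` -/
noncomputable def ee (ξ t : ℝ) : ℂ := Complex.exp (2 * Real.pi * Complex.I * ξ * t)

lemma ee_eq_exp_mul_I (ξ t : ℝ) : ee ξ t = Complex.exp (((2 * Real.pi * ξ * t : ℝ) : ℂ) * Complex.I) := by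
  unfold ee; congr 1; push_cast; ring

lemma norm_ee (ξ t : ℝ) : ‖ee ξ t‖ = 1 := by
  rw [ee_eq_exp_mul_I, Complex.norm_exp_ofReal_mul_I]

lemma ee_continuous_left (t : ℝ) : Continuous fun ξ => ee ξ t := by unfold ee; fun_prop
lemma ee_continuous_right (ξ : ℝ) : Continuous fun t => ee ξ t := by unfold ee; fun_prop

lemma fourier_eq_ee (f : ℝ → X) (ξ : ℝ) : 𝓕 f ξ = ∫ t, ee t (-ξ) • f t := by
  rw [Real.fourier_eq']
  congr 1; ext t; congr 1
  rw [ee]; congr 1
  simp; ring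

lemma fourierInv_eq_ee (f : ℝ → X) (t : ℝ) : 𝓕⁻ f t = ∫ ξ, ee ξ t • f ξ := by
  rw [Real.fourierInv_eq']
  congr 1; ext ξ; congr 1
  rw [ee]; congr 1
  simp; ring

lemma integrable_ee_smul {f : ℝ → X} (hf : Integrable f) (t : ℝ) :
    Integrable fun ξ => ee ξ t • f ξ := by
  refine hf.bdd_smul 1 (ee_continuous_left t).aestronglyMeasurable ?_
  exact Eventually.of_forall fun ξ => (norm_ee ξ t).le

variable [CompleteSpace X]

lemma fourier_sum_smul {ι : Type*} (s : Finset ι) (φ : ι → 𝓢(ℝ, ℂ)) (x : ι → X) (ξ : ℝ) :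
    𝓕 (fun t => ∑ j ∈ s, φ j t • x j) ξ = ∑ j ∈ s, (𝓕 (φ j)) ξ • x j := by
  rw [fourier_eq_ee]
  simp_rw [Finset.smul_sum, smul_smul]
  rw [integral_finsetSum]
  · refine Finset.sum_congr rfl fun j _ => ?_
    rw [integral_smul_const, SchwartzMap.fourier_coe, fourier_eq_ee]
    simp [smul_eq_mul]
  · intro j _
    have := integrable_ee_smul (φ j).integrable (-ξ)
    simp_rw [smul_eq_mul] at this
    exact this.smul_const _

lemma fourierInv_sum_smul {ι : Type*} (s : Finset ι) (φ : ι → 𝓢(ℝ, ℂ)) (x : ι → X) (t : ℝ) :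
    𝓕⁻ (fun ξ => ∑ j ∈ s, φ j ξ • x j) t = ∑ j ∈ s, (𝓕⁻ (φ j)) t • x j := by
  rw [fourierInv_eq_ee]
  simp_rw [Finset.smul_sum, smul_smul]
  rw [integral_finsetSum]
  · refine Finset.sum_congr rfl fun j _ => ?_
    rw [integral_smul_const, SchwartzMap.fourierInv_coe, fourierInv_eq_ee]
    simp [smul_eq_mul]
  · intro j _
    have := integrable_ee_smul (φ j).integrable t
    simp_rw [smul_eq_mul] at this
    exact this.smul_const _

omit [CompleteSpace X] in
lemma isSc_of_finset {ι : Type*} (s : Finset ι) (φ : ι → 𝓢(ℝ, ℂ)) (x : ι → X)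
    (h : ∀ j ∈ s, HasCompactSupport (𝓕 (φ j : ℝ → ℂ))) (f : ℝ → X)
    (hf : ∀ t, f t = ∑ j ∈ s, φ j t • x j) : IsSc f := by
  refine ⟨s.card, fun i => φ (s.equivFin.symm i), fun i => x (s.equivFin.symm i), ?_, ?_⟩
  · intro j; exact h _ (s.equivFin.symm j).2
  · intro t
    rw [hf t, ← Finset.sum_coe_sort s]
    exact (Equiv.sum_comp s.equivFin.symm (fun i : s => φ i t • x i)).symm

end basic

section bump

/-- the smooth bump on the frequency side -/
noncomputable def bmp : ContDiffBump (0 : ℝ) where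
  rIn := 1 / 16
  rOut := 1 / 8
  rIn_pos := by norm_num
  rIn_lt_rOut := by norm_num

lemma bmp_cs : HasCompactSupport fun ξ : ℝ => ((bmp ξ : ℝ) : ℂ) :=
  bmp.hasCompactSupport.comp_left Complex.ofReal_zero

lemma bmp_smooth : ContDiff ℝ ((⊤ : ℕ∞) : WithTop ℕ∞) fun ξ : ℝ => ((bmp ξ : ℝ) : ℂ) :=
  Complex.ofRealCLM.contDiff.comp bmp.contDiff

/-- the bump as Schwartz function -/
noncomputable def Ps : 𝓢(ℝ, ℂ) := bmp_cs.toSchwartzMap bmp_smooth

lemma Ps_apply (ξ : ℝ) : Ps ξ = ((bmp ξ : ℝ) : ℂ) := rfl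

/-- the band-limited function -/
noncomputable def ph : 𝓢(ℝ, ℂ) := 𝓕⁻ Ps

/-- the modulations of `ph` -/
noncomputable def phn (n : ℤ) : 𝓢(ℝ, ℂ) := 𝓕⁻ (SchwartzMap.compSubConstCLM ℂ (n : ℝ) Ps)

lemma ph_eq (t : ℝ) : ph t = ∫ ξ, ee ξ t * ((bmp ξ : ℝ) : ℂ) := by
  rw [ph, SchwartzMap.fourierInv_coe, fourierInv_eq_ee]
  rfl

lemma phn_eq (n : ℤ) (t : ℝ) : phn n t = ee n t * ph t := by
  rw [phn, SchwartzMap.fourierInv_coe, fourierInv_eq_ee, ph_eq]
  simp only [SchwartzMap.compSubConstCLM_apply, Ps_apply, smul_eq_mul]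
  rw [← integral_sub_right_eq_self (fun ξ => ee ξ t * ((bmp ξ : ℝ) : ℂ)) (n : ℝ),
    ← integral_const_mul]
  congr 1; ext ξ
  rw [← mul_assoc]
  congr 1
  rw [ee, ee, ee, ← Complex.exp_add]
  congr 1; push_cast; ring

lemma fourier_phn (n : ℤ) (ξ : ℝ) : (𝓕 (phn n)) ξ = ((bmp (ξ - n) : ℝ) : ℂ) := by
  rw [phn, FourierTransform.fourier_fourierInv_eq]
  rw [SchwartzMap.compSubConstCLM_apply, Ps_apply]

lemma bmp_eq_zero {ξ : ℝ} (h : 1 / 8 ≤ |ξ|) : bmp ξ = 0 := by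
  apply bmp.zero_of_le_dist
  simpa [bmp] using h

lemma fourier_phn_cs (n : ℤ) : HasCompactSupport (𝓕 (phn n : ℝ → ℂ)) := by
  apply HasCompactSupport.of_support_subset_isCompact (isCompact_Icc (a := (n : ℝ) - 1 / 8)
    (b := n + 1 / 8))
  intro ξ hξ
  rw [Function.mem_support, ← SchwartzMap.fourier_coe, fourier_phn] at hξ
  by_contra hcon
  apply hξ
  rw [bmp_eq_zero, Complex.ofReal_zero]
  rw [mem_Icc, not_and_or] at hcon
  rcases hcon with h | h
  · push Not at h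
    rw [le_abs]; right; linarith
  · push Not at h
    rw [le_abs]; left; linarith

/-- lower bound for `ph` on `[0,1]` -/
lemma ph_lower : ∃ c : ℝ, 0 < c ∧ ∀ t ∈ Icc (0 : ℝ) 1, c ≤ ‖ph t‖ := by
  have hint : Integrable fun ξ : ℝ => bmp ξ :=
    bmp.continuous.integrable_of_hasCompactSupport bmp.hasCompactSupport
  have hpos : 0 < ∫ ξ, bmp ξ := bmp.integral_pos
  refine ⟨(1 / 2) * ∫ ξ, bmp ξ, by positivity, fun t ht => ?_⟩
  have h1 : (ph t).re = ∫ ξ, Real.cos (2 * Real.pi * ξ * t) * bmp ξ := by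
    rw [ph_eq]
    have hI : Integrable fun ξ : ℝ => ee ξ t * ((bmp ξ : ℝ) : ℂ) :=
      integrable_ee_smul (X := ℂ) (f := fun ξ => ((bmp ξ : ℝ) : ℂ)) hint.ofReal t
    have := integral_re hI
    simp only [RCLike.re_eq_complex_re] at this
    rw [← this]
    congr 1; ext ξ
    rw [ee_eq_exp_mul_I, Complex.re_mul_ofReal, Complex.exp_ofReal_mul_I_re]
  have h2 : (1 / 2) * ∫ ξ, bmp ξ ≤ (ph t).re := by
    rw [h1, ← integral_const_mul]
    apply integral_mono (hint.const_mul _)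
    · refine hint.bdd_mul (c := 1) (Continuous.aestronglyMeasurable (by fun_prop)) ?_
      exact Eventually.of_forall fun ξ => by
        rw [Real.norm_eq_abs]; exact Real.abs_cos_le_one _
    · intro ξ
      by_cases hξ : |ξ| < 1 / 8
      · have hc : 1 / 2 ≤ Real.cos (2 * Real.pi * ξ * t) := by
          rw [← Real.cos_pi_div_three, ← Real.cos_abs (2 * Real.pi * ξ * t)]
          apply Real.cos_le_cos_of_nonneg_of_le_pi (abs_nonneg _) (by linarith [Real.pi_pos])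
          rw [abs_mul, abs_mul, abs_of_pos (by positivity : 0 < 2 * Real.pi)]
          have ht' : |t| ≤ 1 := abs_le.2 ⟨by linarith [ht.1], ht.2⟩
          have : 2 * Real.pi * |ξ| * |t| ≤ 2 * Real.pi * (1 / 8) * 1 := by
            gcongr
          linarith [Real.pi_pos]
        exact mul_le_mul_of_nonneg_right hc bmp.nonneg
      · simp only [bmp_eq_zero (not_lt.1 hξ), mul_zero, le_refl]
  exact h2.trans (Complex.re_le_norm _)

/-- decay of `ph` -/
lemma ph_decay : ∃ C : ℝ, 0 < C ∧ ∀ t : ℝ, ‖ph t‖ ≤ C / (1 + t ^ 2) := by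
  obtain ⟨C0, h0⟩ := ph.decay 0 0
  obtain ⟨C2, h2⟩ := ph.decay 2 0
  refine ⟨C0 + C2, by linarith [h0.1, h2.1], fun t => ?_⟩
  have a := h0.2 t
  have b := h2.2 t
  simp only [norm_iteratedFDeriv_zero, pow_zero, one_mul, Real.norm_eq_abs, sq_abs] at a b
  rw [le_div_iff₀ (by positivity)]
  nlinarith

end bump

end Pool.Agent.V11221.Fou
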