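import Mathlib
import Pool.Agent.V11221.FouDefs
import Pool.Agent.V11221.FouA

/-!
From the line to the circle, part 2.
-/

open MeasureTheory Set Filter Topology
open scoped ENNReal FourierTransform SchwartzMap

namespace Pool.Agent.V11221.Fou

section circ
variable {X : Type*} [NormedAddCommGroup X] [NormedSpace ℂ X]

lemma fourier_eq_circ (n : ℤ) (t : ℝ) : fourier n (t : UnitAddCircle) = ee n t := by
  rw [fourier_coe_apply, ee]
  congr 1; simp

lemma trigPoly_coe (c : ℤ →₀ X) (t : ℝ) :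
    trigPoly c (t : UnitAddCircle) = ∑ n ∈ c.support, ee n t • c n := by
  simp only [trigPoly, Finsupp.sum, fourier_eq_circ]

lemma continuous_trigPoly (c : ℤ →₀ X) : Continuous (trigPoly c) := by
  unfold trigPoly Finsupp.sum
  exact continuous_finsetSum _ fun n _ => (ContinuousMap.continuous _).smul continuous_const

open Classical in
lemma projT_eq (I : Set ℤ) (c : ℤ →₀ X) : projT I c = trigPoly (c.filter (· ∈ I)) := by
  ext t
  unfold projT trigPoly
  rw [Finsupp.sum_filter_index, Finsupp.sum, Finsupp.support_filter, Finset.sum_filter]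

lemma continuous_projT (I : Set ℤ) (c : ℤ →₀ X) : Continuous (projT I c) := by
  classical
  rw [projT_eq]; exact continuous_trigPoly _

open Classical in
lemma projT_coe (I : Set ℤ) (c : ℤ →₀ X) (t : ℝ) :
    projT I c (t : UnitAddCircle) = ∑ n ∈ c.support with n ∈ I, ee n t • c n := by
  simp only [projT, Finsupp.sum, fourier_eq_circ, Finset.sum_filter]

omit [NormedSpace ℂ X] in
lemma eLpNorm_circle_eq {h : UnitAddCircle → X} (hh : Continuous h) (p : ℝ≥0∞) (a : ℝ) :
    eLpNorm h p volume = eLpNorm (fun t : ℝ => h t) p (volume.restrict (Ioc a (a + 1))) := by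
  have := eLpNorm_comp_measurePreserving (p := p) hh.aestronglyMeasurable
    (UnitAddCircle.measurePreserving_mk a)
  rw [← this]; rfl

lemma norm_lower (p : ℝ≥0∞) : ∃ K : ℝ≥0∞, K ≠ ∞ ∧ ∀ h : UnitAddCircle → X, Continuous h →
    eLpNorm h p volume ≤ K * eLpNorm (fun t : ℝ => ph t • h t) p volume := by
  obtain ⟨c, hc, hlow⟩ := ph_lower
  refine ⟨ENNReal.ofReal c⁻¹, ENNReal.ofReal_ne_top, fun h hh => ?_⟩
  rw [eLpNorm_circle_eq hh p 0]
  calc _ ≤ ENNReal.ofReal c⁻¹ * eLpNorm (fun t : ℝ => ph t • h t) p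
        (volume.restrict (Ioc 0 (0 + 1))) := by
        apply eLpNorm_le_mul_eLpNorm_of_ae_le_mul
        filter_upwards [ae_restrict_mem measurableSet_Ioc] with t ht
        rw [norm_smul, ← mul_assoc]
        have h1 : c ≤ ‖ph t‖ := hlow t ⟨ht.1.le, by linarith [ht.2]⟩
        have h2 : 1 ≤ c⁻¹ * ‖ph t‖ := by
          rw [inv_mul_eq_div, le_div_iff₀ hc]; linarith
        nlinarith [norm_nonneg (h (t : UnitAddCircle))]
    _ ≤ _ := mul_le_mul' le_rfl (eLpNorm_mono_measure _ Measure.restrict_le_self)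

lemma summable_inv_one_add_sq : Summable fun k : ℤ => 1 / (1 + (k : ℝ) ^ 2) := by
  have h := (Real.summable_one_div_int_pow (p := 2)).2 one_lt_two
  refine Summable.of_norm_bounded_eventually (g := fun k : ℤ => 1 / (k : ℝ) ^ 2) h ?_
  have h0 : ∀ᶠ k : ℤ in cofinite, k ≠ 0 :=
    Filter.eventually_cofinite.2 ((Set.finite_singleton (0 : ℤ)).subset fun k hk => by
      simpa using hk)
  filter_upwards [h0] with k hk
  have hk' : (0 : ℝ) < (k : ℝ) ^ 2 := by positivity
  rw [Real.norm_eq_abs, abs_of_pos (by positivity)]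
  apply one_div_le_one_div_of_le hk'; linarith

lemma norm_upper {p : ℝ≥0∞} (hp : 1 ≤ p) : ∃ K : ℝ≥0∞, K ≠ ∞ ∧ ∀ h : UnitAddCircle → X,
    Continuous h → eLpNorm (fun t : ℝ => ph t • h t) p volume ≤ K * eLpNorm h p volume := by
  obtain ⟨C, hC, hdec⟩ := ph_decay
  have hkey : ∀ (k : ℤ) (t : ℝ), t ∈ Ioc (k : ℝ) (k + 1) → ‖ph t‖ ≤ 3 * C * (1 / (1 + (k : ℝ) ^ 2)) := by
    intro k t ht
    refine (hdec t).trans ?_
    rw [mul_one_div, div_le_div_iff₀ (by positivity) (by positivity)]
    have : 1 + (k : ℝ) ^ 2 ≤ 3 * (1 + t ^ 2) := by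
      nlinarith [ht.1, ht.2, sq_nonneg (t + 1), sq_nonneg (t - 1), sq_nonneg ((k : ℝ) + t), sq_nonneg ((k:ℝ) - t)]
    nlinarith
  have hle1 : ∀ k : ℤ, 1 / (1 + (k : ℝ) ^ 2) ≤ 1 := fun k => by
    rw [div_le_one (by positivity)]; nlinarith [sq_nonneg (k : ℝ)]
  by_cases hpt : p = ∞
  · subst hpt
    refine ⟨ENNReal.ofReal (3 * C), ENNReal.ofReal_ne_top, fun h hh => ?_⟩
    rw [eLpNorm_exponent_top]
    apply eLpNormEssSup_le_of_ae_enorm_bound
    have : ∀ᵐ t : ℝ ∂(volume : Measure ℝ), t ∈ (⋃ n : ℤ, Ioc (n : ℝ) (n + 1)) →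
        ‖ph t • h t‖ₑ ≤ ENNReal.ofReal (3 * C) * eLpNorm h ∞ volume := by
      rw [← ae_restrict_iff' (MeasurableSet.iUnion fun _ => measurableSet_Ioc),
        ae_restrict_iUnion_iff]
      intro k
      have hq := (UnitAddCircle.measurePreserving_mk (k : ℝ)).quasiMeasurePreserving
      have h1 : ∀ᵐ s : UnitAddCircle, ‖h s‖ₑ ≤ eLpNorm h ∞ volume := by
        rw [eLpNorm_exponent_top]; exact ae_le_eLpNormEssSup
      have h2 := hq.ae h1
      filter_upwards [h2, ae_restrict_mem measurableSet_Ioc] with t h3 ht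
      rw [enorm_smul]
      gcongr
      rw [← ofReal_norm]
      apply ENNReal.ofReal_le_ofReal
      refine (hkey k t ht).trans ?_
      have := hle1 k
      nlinarith
    filter_upwards [this] with t ht
    exact ht (by rw [iUnion_Ioc_intCast]; trivial)
  · have hp0 : p ≠ 0 := by positivity
    have hpr := toReal_pos_of hp hpt
    have hp1 : 1 ≤ p.toReal := by
      rw [← ENNReal.toReal_one]; exact ENNReal.toReal_mono hpt hp
    set S : ℝ≥0∞ := ∑' k : ℤ, ENNReal.ofReal (1 / (1 + (k : ℝ) ^ 2)) with hS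
    have hSfin : S ≠ ∞ := summable_inv_one_add_sq.tsum_ofReal_ne_top
    refine ⟨ENNReal.ofReal (3 * C) * S ^ (1 / p.toReal), ?_, fun h hh => ?_⟩
    · exact ENNReal.mul_ne_top ENNReal.ofReal_ne_top
        (ENNReal.rpow_ne_top_of_nonneg (by positivity) hSfin)
    rw [eLpNorm_eq_lintegral_rpow_enorm_toReal hp0 hpt,
      eLpNorm_eq_lintegral_rpow_enorm_toReal hp0 hpt]
    set J := ∫⁻ x : UnitAddCircle, ‖h x‖ₑ ^ p.toReal with hJ
    have h1 : ∫⁻ t : ℝ, ‖ph t • h t‖ₑ ^ p.toReal ≤ (ENNReal.ofReal (3 * C)) ^ p.toReal * S * J := by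
      rw [← setLIntegral_univ, ← iUnion_Ioc_intCast (α := ℝ), lintegral_iUnion
        (fun _ => measurableSet_Ioc) (pairwise_disjoint_Ioc_intCast ℝ)]
      rw [mul_assoc, ← ENNReal.tsum_mul_right, ← ENNReal.tsum_mul_left]
      apply ENNReal.tsum_le_tsum fun k => ?_
      calc ∫⁻ t in Ioc (k : ℝ) (k + 1), ‖ph t • h t‖ₑ ^ p.toReal
          ≤ ∫⁻ t in Ioc (k : ℝ) (k + 1), (ENNReal.ofReal (3 * C) ^ p.toReal *
            ENNReal.ofReal (1 / (1 + (k : ℝ) ^ 2))) * ‖h t‖ₑ ^ p.toReal := by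
            apply setLIntegral_mono' measurableSet_Ioc
            intro t ht
            rw [enorm_smul, ENNReal.mul_rpow_of_nonneg _ _ hpr.le]
            gcongr
            calc ‖ph t‖ₑ ^ p.toReal ≤ (ENNReal.ofReal (3 * C) *
                ENNReal.ofReal (1 / (1 + (k : ℝ) ^ 2))) ^ p.toReal := by
                  apply ENNReal.rpow_le_rpow _ hpr.le
                  rw [← ENNReal.ofReal_mul (by positivity), ← ofReal_norm]
                  exact ENNReal.ofReal_le_ofReal (hkey k t ht)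
              _ = ENNReal.ofReal (3 * C) ^ p.toReal *
                ENNReal.ofReal (1 / (1 + (k : ℝ) ^ 2)) ^ p.toReal :=
                  ENNReal.mul_rpow_of_nonneg _ _ hpr.le
              _ ≤ _ := by
                  gcongr
                  apply ENNReal.rpow_le_self_of_le_one _ hp1
                  exact ENNReal.ofReal_le_one.2 (hle1 k)
        _ = (ENNReal.ofReal (3 * C) ^ p.toReal *
            ENNReal.ofReal (1 / (1 + (k : ℝ) ^ 2))) * J := by
            rw [lintegral_const_mul' _ _ (ENNReal.mul_ne_top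
              (ENNReal.rpow_ne_top_of_nonneg hpr.le ENNReal.ofReal_ne_top)
              ENNReal.ofReal_ne_top), hJ]
            congr 1
            exact UnitAddCircle.lintegral_preimage (k : ℝ) fun x => ‖h x‖ₑ ^ p.toReal
        _ = _ := by rw [mul_assoc]
    calc _ ≤ ((ENNReal.ofReal (3 * C)) ^ p.toReal * S * J) ^ (1 / p.toReal) :=
          ENNReal.rpow_le_rpow h1 (by positivity)
      _ = _ := by
          rw [ENNReal.mul_rpow_of_nonneg _ _ (by positivity),
            ENNReal.mul_rpow_of_nonneg _ _ (by positivity), ← ENNReal.rpow_mul,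
            mul_one_div_cancel hpr.ne', ENNReal.rpow_one]

end circ

end Pool.Agent.V11221.Fou
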