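import Mathlib
import Pool.Agent.V11221.FouDefs
import Pool.Agent.V11221.FouA
import Pool.Agent.V11221.FouB

/-!
From the line to the circle, part 3.
-/

open MeasureTheory Set Filter Topology
open scoped ENNReal FourierTransform SchwartzMap

namespace Pool.Agent.V11221.Fou

/-- the interval of `ℝ` attached to an interval of `ℤ` -/
def til (I : Set ℤ) : Set ℝ := {ξ | ⌊ξ + 1 / 2⌋ ∈ I}

lemma mem_til {I : Set ℤ} {ξ : ℝ} : ξ ∈ til I ↔ ⌊ξ + 1 / 2⌋ ∈ I := Iff.rfl

lemma floor_cast_add_half (n : ℤ) : ⌊(n : ℝ) + 1 / 2⌋ = n := by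
  rw [Int.floor_eq_iff]; constructor <;> norm_num

lemma til_injective : Function.Injective til := by
  intro I J h
  ext n
  have : ((n : ℝ) ∈ til I) ↔ ((n : ℝ) ∈ til J) := by rw [h]
  rw [mem_til, mem_til, floor_cast_add_half] at this
  exact this

lemma til_ordConnected {I : Set ℤ} (hI : I.OrdConnected) : (til I).OrdConnected := by
  constructor
  intro a ha b hb c hc
  rw [mem_til] at *
  exact hI.out ha hb ⟨Int.floor_le_floor (by linarith [hc.1]), Int.floor_le_floor (by linarith [hc.2])⟩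

lemma til_interior {I : Set ℤ} {n : ℤ} (hn : n ∈ I) : (interior (til I)).Nonempty := by
  refine ⟨n, mem_interior.2 ⟨Ioo ((n : ℝ) - 1 / 2) (n + 1 / 2), ?_, isOpen_Ioo, ?_⟩⟩
  · intro ξ hξ
    rw [mem_til]
    have : ⌊ξ + 1 / 2⌋ = n := by
      rw [Int.floor_eq_iff]; constructor <;> linarith [hξ.1, hξ.2]
    rwa [this]
  · constructor <;> linarith

lemma til_partition {P : Set (Set ℤ)} (hP : Setoid.IsPartition P) :
    Setoid.IsPartition (til '' P) := by
  constructor
  · rintro ⟨I, hI, he⟩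
    have hne : I.Nonempty := by
      rw [nonempty_iff_ne_empty]; rintro rfl; exact hP.1 hI
    obtain ⟨n, hn⟩ := hne
    have : (n : ℝ) ∈ til I := by rw [mem_til, floor_cast_add_half]; exact hn
    rw [he] at this; exact this
  · intro ξ
    obtain ⟨I, ⟨hI, hmem⟩, huniq⟩ := hP.2 ⌊ξ + 1 / 2⌋
    refine ⟨til I, ⟨mem_image_of_mem _ hI, hmem⟩, ?_⟩
    rintro _ ⟨⟨J, hJ, rfl⟩, hmemJ⟩
    rw [huniq J ⟨hJ, hmemJ⟩]

lemma countable_of_partitionZ {P : Set (Set ℤ)} (hP : Setoid.IsPartition P) : P.Countable := by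
  choose f hf using fun n : ℤ => hP.2 n
  refine (countable_range f).mono ?_
  intro I hI
  have hne : I.Nonempty := by
    rw [nonempty_iff_ne_empty]; rintro rfl; exact hP.1 hI
  obtain ⟨n, hn⟩ := hne
  exact ⟨n, ((hf n).2 I ⟨hI, hn⟩).symm⟩

lemma til_isIntPartR {P : Set (Set ℤ)} (hP : IsIntPartZ P) : IsIntPartR (til '' P) := by
  refine ⟨til_partition hP.1, ?_, (countable_of_partitionZ hP.1).image _⟩
  rintro _ ⟨I, hI, rfl⟩
  exact til_ordConnected (hP.2 I hI)

lemma til_isIntPartR' {P : Set (Set ℤ)} (hP : IsIntPartZ P) : IsIntPartR' (til '' P) := by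
  refine ⟨til_partition hP.1, ?_, ?_⟩
  · rintro _ ⟨I, hI, rfl⟩
    exact til_ordConnected (hP.2 I hI)
  · rintro _ ⟨I, hI, rfl⟩
    have hne : I.Nonempty := by
      rw [nonempty_iff_ne_empty]; rintro rfl; exact hP.1.1 hI
    obtain ⟨n, hn⟩ := hne
    exact til_interior hn

section
variable {X : Type*} [NormedAddCommGroup X] [NormedSpace ℂ X]

/-- the transplanted function -/
noncomputable def tra (c : ℤ →₀ X) (t : ℝ) : X := ph t • trigPoly c (t : UnitAddCircle)

lemma tra_eq (c : ℤ →₀ X) (t : ℝ) : tra c t = ∑ n ∈ c.support, phn n t • c n := by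
  rw [tra, trigPoly_coe, Finset.smul_sum]
  refine Finset.sum_congr rfl fun n _ => ?_
  rw [phn_eq, smul_smul, mul_comm]

lemma tra_isSc (c : ℤ →₀ X) : IsSc (tra c) :=
  isSc_of_finset c.support phn c (fun j _ => fourier_phn_cs j) _ (tra_eq c)

variable [CompleteSpace X]

lemma fourier_tra (c : ℤ →₀ X) (ξ : ℝ) :
    𝓕 (tra c) ξ = ∑ n ∈ c.support, ((bmp (ξ - n) : ℝ) : ℂ) • c n := by
  have : tra c = fun t => ∑ n ∈ c.support, phn n t • c n := funext (tra_eq c)
  rw [this, fourier_sum_smul]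
  simp_rw [fourier_phn]

lemma bmp_ne_zero_imp {ξ : ℝ} {n : ℤ} (h : bmp (ξ - n) ≠ 0) : ⌊ξ + 1 / 2⌋ = n := by
  by_contra hne
  apply h
  apply bmp_eq_zero
  by_contra hlt
  push Not at hlt
  rw [abs_lt] at hlt
  apply hne
  rw [Int.floor_eq_iff]; constructor <;> linarith [hlt.1, hlt.2]

lemma projR_tra (I : Set ℤ) (c : ℤ →₀ X) (t : ℝ) :
    projR (til I) (tra c) t = ph t • projT I c (t : UnitAddCircle) := by
  classical
  rw [projR]
  have h1 : (til I).indicator (𝓕 (tra c)) = fun ξ => ∑ n ∈ c.support with n ∈ I,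
      (SchwartzMap.compSubConstCLM ℂ (n : ℝ) Ps : 𝓢(ℝ, ℂ)) ξ • c n := by
    ext ξ
    simp only [SchwartzMap.compSubConstCLM_apply, Ps_apply]
    rw [Finset.sum_filter]
    by_cases hξ : ξ ∈ til I
    · rw [indicator_of_mem hξ, fourier_tra]
      refine Finset.sum_congr rfl fun n _ => ?_
      split_ifs with hn
      · rfl
      · have : bmp (ξ - n) = 0 := by
          by_contra hne
          rw [mem_til, bmp_ne_zero_imp hne] at hξ
          exact hn hξ
        rw [this]; simp
    · rw [indicator_of_notMem hξ]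
      symm
      apply Finset.sum_eq_zero
      intro n _
      split_ifs with hn
      · have : bmp (ξ - n) = 0 := by
          by_contra hne
          rw [mem_til, bmp_ne_zero_imp hne] at hξ
          exact hξ hn
        rw [this]; simp
      · rfl
  rw [h1, fourierInv_sum_smul, projT_coe, Finset.smul_sum]
  refine Finset.sum_congr rfl fun n _ => ?_
  have : (𝓕⁻ (SchwartzMap.compSubConstCLM ℂ (n : ℝ) Ps : 𝓢(ℝ, ℂ))) t = phn n t := rfl
  rw [this, phn_eq, smul_smul, mul_comm]

omit [CompleteSpace X] in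
/-- reindexing the partition -/
lemma lqNorm_til {q : ℝ≥0∞} (hq : 1 ≤ q) (P : Set (Set ℤ)) (a : Set ℝ → ℝ≥0∞) :
    lqNorm q (fun I : (til '' P : Set (Set ℝ)) => a I) = lqNorm q fun I : P => a (til I) := by
  symm
  let e : P → (til '' P : Set (Set ℝ)) := fun I => ⟨til I, mem_image_of_mem _ I.2⟩
  refine lqNorm_comp_injective hq e ?_ (fun I : (til '' P : Set (Set ℝ)) => a I) ?_
  · intro I J h
    have : til I = til J := congrArg Subtype.val h
    exact Subtype.ext (til_injective this)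
  · rintro ⟨_, I, hI, rfl⟩ hk
    exact absurd ⟨⟨I, hI⟩, rfl⟩ hk

variable (X)

lemma const_real {Q : ℝ≥0∞ → Prop} (hQ : ∀ a b, a ≤ b → Q a → Q b) (K : ℝ≥0∞) (hK : K ≠ ∞)
    (h : Q K) : ∃ U : ℝ, 0 < U ∧ Q (ENNReal.ofReal U) := by
  refine ⟨K.toReal + 1, by positivity, hQ _ _ ?_ h⟩
  rw [ENNReal.ofReal_add (by positivity) zero_le_one, ENNReal.ofReal_toReal hK]
  exact le_self_add

theorem upperT_of_upperR {part : Set (Set ℝ) → Prop} (hpart : ∀ P, IsIntPartZ P → part (til '' P))
    {p q : ℝ≥0∞} (hp : 1 ≤ p) (hq : 1 ≤ q) (h : UpperR X part p q) : UpperT X p q := by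
  obtain ⟨U, hU, hUp⟩ := h
  obtain ⟨K1, hK1, hlow⟩ := norm_lower (X := X) p
  obtain ⟨K2, hK2, hupp⟩ := norm_upper (X := X) hp
  refine const_real (Q := fun K => ∀ P : Set (Set ℤ), IsIntPartZ P → ∀ c : ℤ →₀ X,
    eLpNorm (trigPoly c) p volume ≤
      K * lqNorm q fun I : P => eLpNorm (projT (I : Set ℤ) c) p volume) ?_
    (K1 * (ENNReal.ofReal U * K2)) ?_ ?_
  · intro a b hab ha P hP c
    exact (ha P hP c).trans (mul_le_mul' hab le_rfl)
  · exact ENNReal.mul_ne_top hK1 (ENNReal.mul_ne_top ENNReal.ofReal_ne_top hK2)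
  · intro P hP c
    have h1 := hUp (til '' P) (hpart P hP) (tra c) (tra_isSc c)
    rw [lqNorm_til hq P (fun I => eLpNorm (projR I (tra c)) p volume)] at h1
    calc eLpNorm (trigPoly c) p volume ≤ K1 * eLpNorm (tra c) p volume :=
          hlow _ (continuous_trigPoly c)
      _ ≤ K1 * (ENNReal.ofReal U *
          lqNorm q fun I : P => eLpNorm (projR (til I) (tra c)) p volume) :=
          mul_le_mul' le_rfl h1
      _ ≤ K1 * (ENNReal.ofReal U *
          lqNorm q fun I : P => K2 * eLpNorm (projT (I : Set ℤ) c) p volume) := by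
          refine mul_le_mul' le_rfl (mul_le_mul' le_rfl (lqNorm_mono fun I => ?_))
          have : projR (til I) (tra c) = fun t : ℝ => ph t • projT I c (t : UnitAddCircle) :=
            funext (projR_tra I c)
          rw [this]
          exact hupp _ (continuous_projT _ _)
      _ = _ := by
          rw [lqNorm_const_mul hq]; ring

theorem lowerT_of_lowerR {part : Set (Set ℝ) → Prop} (hpart : ∀ P, IsIntPartZ P → part (til '' P))
    {p q : ℝ≥0∞} (hp : 1 ≤ p) (hq : 1 ≤ q) (h : LowerR X part p q) : LowerT X p q := by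
  obtain ⟨U, hU, hUp⟩ := h
  obtain ⟨K1, hK1, hlow⟩ := norm_lower (X := X) p
  obtain ⟨K2, hK2, hupp⟩ := norm_upper (X := X) hp
  refine const_real (Q := fun K => ∀ P : Set (Set ℤ), IsIntPartZ P → ∀ c : ℤ →₀ X,
    (lqNorm q fun I : P => eLpNorm (projT (I : Set ℤ) c) p volume) ≤
      K * eLpNorm (trigPoly c) p volume) ?_
    (K1 * (ENNReal.ofReal U * K2)) ?_ ?_
  · intro a b hab ha P hP c
    exact (ha P hP c).trans (mul_le_mul' hab le_rfl)
  · exact ENNReal.mul_ne_top hK1 (ENNReal.mul_ne_top ENNReal.ofReal_ne_top hK2)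
  · intro P hP c
    have h1 := hUp (til '' P) (hpart P hP) (tra c) (tra_isSc c)
    rw [lqNorm_til hq P (fun I => eLpNorm (projR I (tra c)) p volume)] at h1
    calc (lqNorm q fun I : P => eLpNorm (projT (I : Set ℤ) c) p volume)
        ≤ lqNorm q fun I : P => K1 * eLpNorm (projR (til I) (tra c)) p volume := by
          refine lqNorm_mono fun I => ?_
          have : projR (til I) (tra c) = fun t : ℝ => ph t • projT I c (t : UnitAddCircle) :=
            funext (projR_tra I c)
          rw [this]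
          exact hlow _ (continuous_projT _ _)
      _ = K1 * lqNorm q fun I : P => eLpNorm (projR (til I) (tra c)) p volume :=
          lqNorm_const_mul hq _ _
      _ ≤ K1 * (ENNReal.ofReal U * eLpNorm (tra c) p volume) := mul_le_mul' le_rfl h1
      _ ≤ K1 * (ENNReal.ofReal U * (K2 * eLpNorm (trigPoly c) p volume)) :=
          mul_le_mul' le_rfl (mul_le_mul' le_rfl (hupp _ (continuous_trigPoly c)))
      _ = _ := by ring

end

end Pool.Agent.V11221.Fou
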