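import Mathlib
import Pool.Agent.V11221.FouDefs
import Pool.Agent.V11221.FouA

/-!
Riemann sums and basic facts about `𝒮_c`.
-/

open MeasureTheory Set Filter Topology
open scoped ENNReal FourierTransform SchwartzMap

namespace Pool.Agent.V11221.Fou

section riemann
variable {X : Type*} [NormedAddCommGroup X] [NormedSpace ℝ X] [CompleteSpace X]

/-- the step function attached to `H` and `N` -/
noncomputable def stp (H : ℝ → X) (R N : ℕ) (ξ : ℝ) : X :=
  ∑ n ∈ Finset.Icc (-((R * N : ℕ) : ℤ)) ((R * N : ℕ) : ℤ),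
    (Ico ((n : ℝ) / N) (((n : ℝ) + 1) / N)).indicator (fun _ => H ((n : ℝ) / N)) ξ

omit [CompleteSpace X] [NormedSpace ℝ X] in
lemma mem_Ico_div {N : ℕ} (hN : 0 < N) (n : ℤ) (ξ : ℝ) :
    ξ ∈ Ico ((n : ℝ) / N) (((n : ℝ) + 1) / N) ↔ ⌊N * ξ⌋ = n := by
  have hN' : (0 : ℝ) < N := by exact_mod_cast hN
  rw [Int.floor_eq_iff, mem_Ico, div_le_iff₀ hN', lt_div_iff₀ hN', mul_comm ξ]

omit [CompleteSpace X] [NormedSpace ℝ X] in
lemma stp_eq {H : ℝ → X} {R N : ℕ} (hN : 0 < N) (hR : ∀ ξ, (R : ℝ) < |ξ| → H ξ = 0) (ξ : ℝ) :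
    stp H R N ξ = H ((⌊N * ξ⌋ : ℝ) / N) := by
  classical
  have hN' : (0 : ℝ) < N := by exact_mod_cast hN
  unfold stp
  by_cases hmem : ⌊N * ξ⌋ ∈ Finset.Icc (-((R * N : ℕ) : ℤ)) ((R * N : ℕ) : ℤ)
  · rw [Finset.sum_eq_single_of_mem _ hmem]
    · rw [indicator_of_mem]
      exact (mem_Ico_div hN _ _).2 rfl
    · intro b _ hb
      rw [indicator_of_notMem]
      rw [mem_Ico_div hN]
      exact fun h => hb h.symm
  · rw [Finset.sum_eq_zero]
    · symm
      apply hR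
      rw [abs_div, abs_of_pos hN', lt_div_iff₀ hN']
      rw [Finset.mem_Icc, not_and_or] at hmem
      rw [lt_abs]
      rcases hmem with h | h
      · right
        push Not at h
        have : ((⌊N * ξ⌋ : ℤ) : ℝ) < ((-((R * N : ℕ) : ℤ) : ℤ) : ℝ) := by exact_mod_cast h
        push_cast at this
        linarith
      · left
        push Not at h
        have : ((((R * N : ℕ) : ℤ) : ℤ) : ℝ) < ((⌊N * ξ⌋ : ℤ) : ℝ) := by exact_mod_cast h
        push_cast at this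
        linarith
    · intro n hn
      rw [indicator_of_notMem]
      rw [mem_Ico_div hN]
      rintro rfl
      exact hmem hn

lemma stp_integral {H : ℝ → X} {R N : ℕ} (hN : 0 < N) :
    ∫ ξ, stp H R N ξ = ∑ n ∈ Finset.Icc (-((R * N : ℕ) : ℤ)) ((R * N : ℕ) : ℤ),
      ((N : ℝ)⁻¹) • H ((n : ℝ) / N) := by
  have hN' : (0 : ℝ) < N := by exact_mod_cast hN
  unfold stp
  rw [integral_finsetSum]
  · refine Finset.sum_congr rfl fun n _ => ?_
    rw [integral_indicator_const _ measurableSet_Ico]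
    congr 1
    rw [Measure.real, Real.volume_Ico, ENNReal.toReal_ofReal]
    · field_simp; ring
    · have : ((n : ℝ) + 1) / N - (n : ℝ) / N = 1 / N := by field_simp; ring
      rw [this]; positivity
  · intro n _
    rw [integrable_indicator_iff measurableSet_Ico]
    refine integrableOn_const ?_
    simp

omit [CompleteSpace X] [NormedSpace ℝ X] in
lemma stp_meas (H : ℝ → X) (R N : ℕ) : AEStronglyMeasurable (stp H R N) volume := by
  unfold stp
  refine (Finset.stronglyMeasurable_fun_sum _ fun n _ => ?_).aestronglyMeasurable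
  exact stronglyMeasurable_const.indicator measurableSet_Ico

/-- Riemann sums converge for bounded a.e. continuous functions with bounded support. -/
lemma riemann_tendsto {H : ℝ → X} {R : ℕ} {M : ℝ} (hM : ∀ ξ, ‖H ξ‖ ≤ M)
    (hR : ∀ ξ, (R : ℝ) < |ξ| → H ξ = 0) (hc : ∀ᵐ ξ : ℝ, ContinuousAt H ξ) :
    Tendsto (fun N : ℕ => ∑ n ∈ Finset.Icc (-((R * (N + 1) : ℕ) : ℤ)) ((R * (N + 1) : ℕ) : ℤ),
      (((N + 1 : ℕ) : ℝ)⁻¹) • H ((n : ℝ) / (N + 1 : ℕ))) atTop (𝓝 (∫ ξ, H ξ)) := by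
  have hM0 : 0 ≤ M := (norm_nonneg _).trans (hM 0)
  simp_rw [← stp_integral (H := H) (R := R) (Nat.succ_pos _)]
  apply tendsto_integral_of_dominated_convergence
    (bound := (Icc (-((R : ℝ) + 1)) (R + 1)).indicator fun _ => M)
  · intro N; exact stp_meas H R (N + 1)
  · rw [integrable_indicator_iff measurableSet_Icc]
    refine integrableOn_const ?_
    simp
  · intro N
    refine Eventually.of_forall fun ξ => ?_
    rw [stp_eq (Nat.succ_pos N) hR]
    by_cases hξ : ξ ∈ Icc (-((R : ℝ) + 1)) (R + 1)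
    · rw [indicator_of_mem hξ]; exact hM _
    · rw [indicator_of_notMem hξ, hR, norm_zero]
      have hN' : (0 : ℝ) < ((N + 1 : ℕ) : ℝ) := by positivity
      rw [abs_div, abs_of_pos hN', lt_div_iff₀ hN']
      rw [mem_Icc, not_and_or] at hξ
      have h1 := Int.floor_le (((N + 1 : ℕ) : ℝ) * ξ)
      have h2 := Int.lt_floor_add_one (((N + 1 : ℕ) : ℝ) * ξ)
      have hN1 : (1 : ℝ) ≤ ((N + 1 : ℕ) : ℝ) := by
        push_cast; linarith [(Nat.cast_nonneg N : (0 : ℝ) ≤ N)]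
      rw [lt_abs]
      rcases hξ with h | h
      · right; push Not at h
        nlinarith
      · left; push Not at h
        nlinarith
  · filter_upwards [hc] with ξ hξ
    have h1 : Tendsto (fun N : ℕ => ((⌊((N + 1 : ℕ) : ℝ) * ξ⌋ : ℝ) / ((N + 1 : ℕ) : ℝ))) atTop
        (𝓝 ξ) := by
      have h2 : Tendsto (fun N : ℕ => ξ - 1 / ((N : ℝ) + 1)) atTop (𝓝 ξ) := by
        simpa using tendsto_const_nhds.sub (tendsto_one_div_add_atTop_nhds_zero_nat (𝕜 := ℝ))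
      refine tendsto_of_tendsto_of_tendsto_of_le_of_le h2 tendsto_const_nhds ?_ ?_
      · intro N
        have hN' : (0 : ℝ) < ((N + 1 : ℕ) : ℝ) := by positivity
        show ξ - 1 / ((N : ℝ) + 1) ≤ _
        rw [le_div_iff₀ hN']
        have h3 := Int.lt_floor_add_one (((N + 1 : ℕ) : ℝ) * ξ)
        have h4 : (ξ - 1 / ((N : ℝ) + 1)) * ((N + 1 : ℕ) : ℝ) = ((N + 1 : ℕ) : ℝ) * ξ - 1 := by
          push_cast; field_simp
        rw [h4]; linarith
      · intro N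
        have hN' : (0 : ℝ) < ((N + 1 : ℕ) : ℝ) := by positivity
        show _ / _ ≤ ξ
        rw [div_le_iff₀ hN']
        have h3 := Int.floor_le (((N + 1 : ℕ) : ℝ) * ξ)
        linarith
    have h5 := hξ.tendsto.comp h1
    refine h5.congr fun N => ?_
    rw [stp_eq (Nat.succ_pos N) hR]; rfl

end riemann

section sc
variable {X : Type*} [NormedAddCommGroup X] [NormedSpace ℂ X]

lemma schwartz_lip (φ : 𝓢(ℝ, ℂ)) : ∃ Λ : ℝ, 0 ≤ Λ ∧ ∀ a b, ‖φ a - φ b‖ ≤ Λ * |a - b| := by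
  obtain ⟨C, hC, h⟩ := φ.decay 0 1
  refine ⟨C, hC.le, fun a b => ?_⟩
  have h1 : ∀ x, ‖deriv φ x‖ ≤ C := by
    intro x
    have := h x
    rw [pow_zero, one_mul, norm_iteratedFDeriv_eq_norm_iteratedDeriv, iteratedDeriv_one] at this
    exact this
  have := Convex.norm_image_sub_le_of_norm_deriv_le (𝕜 := ℝ) (f := φ) (C := C) (s := univ) (x := b)
    (y := a) (fun x _ => φ.differentiableAt) (fun x _ => h1 x) convex_univ trivial trivial
  simpa [Real.norm_eq_abs] using this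

lemma schwartz_bdd (φ : 𝓢(ℝ, ℂ)) : ∃ M : ℝ, 0 ≤ M ∧ ∀ a, ‖φ a‖ ≤ M := by
  obtain ⟨C, hC, h⟩ := φ.decay 0 0
  exact ⟨C, hC.le, fun a => by simpa using h a⟩

lemma cs_bound {g : ℝ → ℂ} (hg : HasCompactSupport g) : ∃ R : ℕ, ∀ ξ, (R : ℝ) < |ξ| → g ξ = 0 := by
  obtain ⟨r, hr⟩ := hg.isCompact.isBounded.subset_closedBall 0
  obtain ⟨R, hR⟩ := exists_nat_ge r
  refine ⟨R, fun ξ hξ => ?_⟩
  by_contra hne
  have := hr (subset_tsupport g hne)
  rw [mem_closedBall_zero_iff, Real.norm_eq_abs] at this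
  linarith

lemma exists_nat_bound {m : ℕ} {Q : Fin m → ℕ → Prop} (hQ : ∀ j a b, a ≤ b → Q j a → Q j b)
    (h : ∀ j, ∃ R, Q j R) : ∃ R, ∀ j, Q j R := by
  choose r hr using h
  exact ⟨Finset.univ.sup r, fun j => hQ j _ _ (Finset.le_sup (Finset.mem_univ j)) (hr j)⟩

variable [CompleteSpace X]

/-- Facts about the Fourier transform of functions in `𝒮_c`. -/
lemma sc_facts {f : ℝ → X} (hf : IsSc f) : ∃ (R : ℕ) (M Λ : ℝ), 1 ≤ R ∧ 0 ≤ M ∧ 0 ≤ Λ ∧
    (∀ ξ, ‖𝓕 f ξ‖ ≤ M) ∧ (∀ ξ, (R : ℝ) < |ξ| → 𝓕 f ξ = 0) ∧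
    (∀ ξ η, ‖𝓕 f ξ - 𝓕 f η‖ ≤ Λ * |ξ - η|) ∧ Continuous (𝓕 f) ∧
    (∀ t, f t = ∫ ξ, ee ξ t • 𝓕 f ξ) := by
  obtain ⟨m, φ, x, hcs, hfe⟩ := hf
  have hfe' : f = fun t => ∑ j, φ j t • x j := funext hfe
  have hF : ∀ ξ, 𝓕 f ξ = ∑ j, (𝓕 (φ j)) ξ • x j := by
    intro ξ; rw [hfe', fourier_sum_smul]
  choose M hM0 hM using fun j => schwartz_bdd (𝓕 (φ j))
  choose L hL0 hL using fun j => schwartz_lip (𝓕 (φ j))
  obtain ⟨R, hR⟩ := exists_nat_bound
    (Q := fun j R => ∀ ξ : ℝ, (R : ℝ) < |ξ| → (𝓕 (φ j) : 𝓢(ℝ, ℂ)) ξ = 0)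
    (by
      intro j a b hab h ξ hξ
      have hab' : (a : ℝ) ≤ b := by exact_mod_cast hab
      exact h ξ (lt_of_le_of_lt hab' hξ))
    (fun j => cs_bound (hcs j))
  refine ⟨R + 1, ∑ j, M j * ‖x j‖, ∑ j, L j * ‖x j‖, by omega,
    Finset.sum_nonneg fun j _ => mul_nonneg (hM0 j) (norm_nonneg _),
    Finset.sum_nonneg fun j _ => mul_nonneg (hL0 j) (norm_nonneg _), ?_, ?_, ?_, ?_, ?_⟩
  · intro ξ
    rw [hF]
    refine (norm_sum_le _ _).trans (Finset.sum_le_sum fun j _ => ?_)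
    rw [norm_smul]
    exact mul_le_mul_of_nonneg_right (hM j ξ) (norm_nonneg _)
  · intro ξ hξ
    rw [hF]
    apply Finset.sum_eq_zero
    intro j _
    rw [hR j ξ (by push_cast at hξ; linarith), zero_smul]
  · intro ξ η
    rw [hF, hF, ← Finset.sum_sub_distrib, Finset.sum_mul]
    refine (norm_sum_le _ _).trans (Finset.sum_le_sum fun j _ => ?_)
    rw [← sub_smul, norm_smul]
    have := hL j ξ η
    have h2 := norm_nonneg (x j)
    nlinarith
  · have : 𝓕 f = fun ξ => ∑ j, (𝓕 (φ j)) ξ • x j := funext hF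
    rw [this]
    exact continuous_finsetSum _ fun j _ => ((𝓕 (φ j)).continuous).smul continuous_const
  · intro t
    have h1 : 𝓕 f = fun ξ => ∑ j, (𝓕 (φ j)) ξ • x j := funext hF
    rw [← fourierInv_eq_ee (𝓕 f) t, h1, fourierInv_sum_smul, hfe]
    refine Finset.sum_congr rfl fun j _ => ?_
    rw [FourierTransform.fourierInv_fourier_eq]

end sc

end Pool.Agent.V11221.Fou
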