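import Mathlib
import Pool.Agent.V11221.FouDefs
import Pool.Agent.V11221.FouA
import Pool.Agent.V11221.FouB
import Pool.Agent.V11221.FouD

/-!
Sampling: from the circle to the line, part 1.
-/

open MeasureTheory Set Filter Topology
open scoped ENNReal FourierTransform SchwartzMap

namespace Pool.Agent.V11221.Fou

section smp
variable {X : Type*} [NormedAddCommGroup X] [NormedSpace ℂ X]

/-- index range -/
noncomputable def rng (R N : ℕ) : Finset ℤ := Finset.Icc (-((R * N : ℕ) : ℤ)) ((R * N : ℕ) : ℤ)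

open Classical in
/-- the sampled coefficients -/
noncomputable def smp (F : ℝ → X) (R N : ℕ) (A : Set ℝ) : ℤ →₀ X :=
  Finsupp.onFinset (rng R N)
    (fun n => if n ∈ rng R N then ((N : ℝ)⁻¹) • A.indicator F ((n : ℝ) / N) else 0)
    (fun n hn => by by_contra h; simp [h] at hn)

/-- the sampled sum as function on `ℝ` -/
noncomputable def gN (F : ℝ → X) (R N : ℕ) (A : Set ℝ) (t : ℝ) : X :=
  ∑ n ∈ rng R N, ((N : ℝ)⁻¹) • A.indicator (fun ξ => ee ξ t • F ξ) ((n : ℝ) / N)

lemma ee_div {N : ℕ} (n : ℤ) (t : ℝ) : ee n (t / N) = ee ((n : ℝ) / N) t := by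
  rw [ee, ee]; congr 1; push_cast; ring

lemma trigPoly_onFinset (s : Finset ℤ) (a : ℤ → X) (ha) (t : ℝ) :
    trigPoly (Finsupp.onFinset s a ha) (t : UnitAddCircle) = ∑ n ∈ s, ee n t • a n := by
  rw [trigPoly_coe]
  apply Finset.sum_subset_zero_on_sdiff Finsupp.support_onFinset_subset
  · intro n hn
    rw [Finset.mem_sdiff, Finsupp.notMem_support_iff] at hn
    have : a n = 0 := by simpa using hn.2
    rw [this, smul_zero]
  · intro n _; rfl

lemma trigPoly_smp (F : ℝ → X) (R N : ℕ) (A : Set ℝ) (t : ℝ) :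
    trigPoly (smp F R N A) ((t / N : ℝ) : UnitAddCircle) = gN F R N A t := by
  classical
  rw [smp, trigPoly_onFinset, gN]
  refine Finset.sum_congr rfl fun n hn => ?_
  rw [if_pos hn, ee_div, smul_comm]
  congr 1
  by_cases h : ((n : ℝ) / N) ∈ A
  · rw [indicator_of_mem h, indicator_of_mem h]
  · rw [indicator_of_notMem h, indicator_of_notMem h, smul_zero]

/-- pull-back of a subset of `ℝ` to `ℤ` -/
def pul (N : ℕ) (I : Set ℝ) : Set ℤ := {n | (n : ℝ) / N ∈ I}

lemma projT_smp (F : ℝ → X) (R N : ℕ) (A I : Set ℝ) :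
    projT (pul N I) (smp F R N A) = trigPoly (smp F R N (A ∩ I)) := by
  classical
  rw [projT_eq]
  congr 1
  ext n
  rw [Finsupp.filter_apply]
  by_cases h : n ∈ pul N I
  · rw [if_pos h]
    simp only [smp, Finsupp.onFinset_apply]
    split_ifs with h2
    · congr 1
      by_cases h3 : ((n : ℝ) / N) ∈ A
      · rw [indicator_of_mem h3, indicator_of_mem (show (n : ℝ) / N ∈ A ∩ I from ⟨h3, h⟩)]
      · rw [indicator_of_notMem h3, indicator_of_notMem (fun h4 => h3 h4.1)]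
    · rfl
  · rw [if_neg h]
    simp only [smp, Finsupp.onFinset_apply]
    split_ifs with h2
    · rw [indicator_of_notMem (fun h4 => h h4.2), smul_zero]
    · rfl

/-- the window -/
def win (N : ℕ) : Set ℝ := Ioc (-((N : ℝ) / 2)) ((N : ℝ) / 2)

omit [NormedSpace ℂ X] in
lemma eLpNorm_scale {h : UnitAddCircle → X} (hh : Continuous h) (p : ℝ≥0∞) {N : ℕ} (hN : 0 < N) :
    eLpNorm ((win N).indicator fun t : ℝ => h ((t / N : ℝ) : UnitAddCircle)) p volume =
      (N : ℝ≥0∞) ^ (1 / p).toReal * eLpNorm h p volume := by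
  have hN' : (0 : ℝ) < N := by exact_mod_cast hN
  have hinv : (N : ℝ)⁻¹ ≠ 0 := inv_ne_zero hN'.ne'
  rw [eLpNorm_indicator_eq_eLpNorm_restrict (by unfold win; exact measurableSet_Ioc)]
  have hmap : (volume.restrict (win N)).map (fun t => (N : ℝ)⁻¹ * t) =
      (N : ℝ≥0∞) • volume.restrict (Ioc (-(1 / 2) : ℝ) (-(1 / 2) + 1)) := by
    have h1 := (measurableEmbedding_mulLeft₀ hinv).restrict_map (μ := volume)
      (Ioc (-(1 / 2) : ℝ) (-(1 / 2) + 1))
    have h2 : (fun t => (N : ℝ)⁻¹ * t) ⁻¹' (Ioc (-(1 / 2) : ℝ) (-(1 / 2) + 1)) = win N := by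
      ext t
      rw [mem_preimage, win, mem_Ioc, mem_Ioc, inv_mul_eq_div, lt_div_iff₀ hN', div_le_iff₀ hN']
      constructor
      · rintro ⟨a, b⟩; constructor <;> linarith
      · rintro ⟨a, b⟩; constructor <;> linarith
    rw [← h2, ← h1, Real.map_volume_mul_left hinv, Measure.restrict_smul]
    congr 1
    rw [inv_inv, abs_of_pos hN', ENNReal.ofReal_natCast]
  have h3 : (fun t : ℝ => h ((t / N : ℝ) : UnitAddCircle)) =
      (fun s : ℝ => h (s : UnitAddCircle)) ∘ (fun t => (N : ℝ)⁻¹ * t) := by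
    ext t; simp only [Function.comp]; congr 3; rw [inv_mul_eq_div]
  have hcont : Continuous (fun s : ℝ => h (s : UnitAddCircle)) :=
    hh.comp (AddCircle.continuous_mk' 1)
  rw [h3, ← eLpNorm_map_measure hcont.aestronglyMeasurable (by fun_prop), hmap,
    eLpNorm_smul_measure_of_ne_zero (by exact_mod_cast hN.ne'), smul_eq_mul,
    ← eLpNorm_circle_eq hh p (-(1 / 2))]

lemma eLpNorm_win {F : ℝ → X} {R N : ℕ} (A : Set ℝ) (p : ℝ≥0∞) (hN : 0 < N) :
    eLpNorm ((win N).indicator (gN F R N A)) p volume =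
      (N : ℝ≥0∞) ^ (1 / p).toReal * eLpNorm (trigPoly (smp F R N A)) p volume := by
  rw [← eLpNorm_scale (continuous_trigPoly _) p hN]
  simp_rw [trigPoly_smp]

end smp

section sbp
variable {X : Type*} [NormedAddCommGroup X] [NormedSpace ℂ X]

lemma sbp_identity (ω : ℂ) (d : ℕ → X) (m : ℕ) :
    (1 - ω) • ∑ i ∈ Finset.range (m + 1), ω ^ i • d i =
      d 0 - ω ^ (m + 1) • d m + ∑ i ∈ Finset.range m, ω ^ (i + 1) • (d (i + 1) - d i) := by
  induction m with
  | zero => simp [sub_smul]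
  | succ m ih =>
    rw [Finset.sum_range_succ, smul_add, ih, Finset.sum_range_succ _ m]
    rw [sub_smul, one_smul, smul_smul, smul_sub, ← pow_succ']
    abel

lemma sbp {ω : ℂ} (hω : ‖ω‖ = 1) (d : ℕ → X) {M δ : ℝ} (hM : ∀ i, ‖d i‖ ≤ M)
    (hδ : ∀ i, ‖d (i + 1) - d i‖ ≤ δ) (m : ℕ) :
    ‖1 - ω‖ * ‖∑ i ∈ Finset.range m, ω ^ i • d i‖ ≤ 2 * M + m * δ := by
  have hM0 : 0 ≤ M := (norm_nonneg _).trans (hM 0)
  have hδ0 : 0 ≤ δ := (norm_nonneg _).trans (hδ 0)
  cases m with
  | zero => simp; positivity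
  | succ m =>
    rw [← norm_smul, sbp_identity]
    have h1 : ‖∑ i ∈ Finset.range m, ω ^ (i + 1) • (d (i + 1) - d i)‖ ≤ m * δ := by
      refine (norm_sum_le _ _).trans ?_
      calc _ ≤ ∑ i ∈ Finset.range m, δ := Finset.sum_le_sum fun i _ => by
            rw [norm_smul, norm_pow, hω, one_pow, one_mul]; exact hδ i
        _ = m * δ := by rw [Finset.sum_const, Finset.card_range, nsmul_eq_mul]
    have h2 : ‖d 0 - ω ^ (m + 1) • d m‖ ≤ 2 * M := by
      refine (norm_sub_le _ _).trans ?_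
      rw [norm_smul, norm_pow, hω, one_pow, one_mul]
      linarith [hM 0, hM m]
    refine (norm_add_le _ _).trans ?_
    push_cast
    linarith

lemma norm_one_sub_ee {N : ℕ} (hN : 0 < N) {t : ℝ} (ht : |t| ≤ N / 2) :
    4 * |t| / N ≤ ‖1 - ee (1 / N) t‖ := by
  have hN' : (0 : ℝ) < N := by exact_mod_cast hN
  have h1 : ee (1 / N) t = Complex.exp (Complex.I * ((2 * Real.pi * (1 / N) * t : ℝ) : ℂ)) := by
    rw [ee]; congr 1; push_cast; ring
  rw [norm_sub_rev, h1, Complex.norm_exp_I_mul_ofReal_sub_one, Real.norm_eq_abs, abs_mul,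
    abs_of_pos (by norm_num : (0 : ℝ) < 2)]
  set x := 2 * Real.pi * (1 / N) * t / 2 with hx
  have hx2 : |x| = Real.pi * |t| / N := by
    have : x = Real.pi * t / N := by rw [hx]; field_simp
    rw [this, abs_div, abs_mul, abs_of_pos Real.pi_pos, abs_of_pos hN']
  have hxle : |x| ≤ Real.pi / 2 := by
    rw [hx2, div_le_iff₀ hN']
    nlinarith [Real.pi_pos]
  have h3 : 2 / Real.pi * |x| ≤ |Real.sin x| := by
    have := Real.mul_le_sin (abs_nonneg x) hxle
    refine this.trans ?_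
    rcases abs_cases x with ⟨h, _⟩ | ⟨h, _⟩
    · rw [h]; exact le_abs_self _
    · rw [h, Real.sin_neg]; exact neg_le_abs _
  have h4 : 4 * |t| / N = 2 * (2 / Real.pi * |x|) := by
    rw [hx2]; field_simp [Real.pi_pos.ne']; ring
  rw [h4]; linarith

omit [NormedSpace ℂ X] in
lemma sum_Icc_int (a b : ℤ) (g : ℤ → X) :
    ∑ n ∈ Finset.Icc a b, g n = ∑ i ∈ Finset.range (b + 1 - a).toNat, g (a + i) := by
  rw [Int.Icc_eq_finset_map, Finset.sum_map]
  rfl

lemma gN_eq_filter (F : ℝ → X) (R N : ℕ) (A : Set ℝ) [DecidablePred fun n : ℤ => (n : ℝ) / N ∈ A]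
    (t : ℝ) : gN F R N A t = ((N : ℝ)⁻¹) • ∑ n ∈ Finset.filter (fun n : ℤ => (n : ℝ) / N ∈ A) (rng R N),
      ee ((n : ℝ) / N) t • F ((n : ℝ) / N) := by
  rw [gN, ← Finset.smul_sum, Finset.sum_filter]
  congr 1
  refine Finset.sum_congr rfl fun n _ => ?_
  by_cases h : (n : ℝ) / N ∈ A
  · rw [indicator_of_mem h, if_pos h]
  · rw [indicator_of_notMem h, if_neg h]

lemma card_rng (R N : ℕ) : (rng R N).card = 2 * (R * N) + 1 := by
  rw [rng, Int.card_Icc]; omega

/-- domination of the sampled sums -/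
lemma gN_dominated {F : ℝ → X} {R : ℕ} {M Λ : ℝ} (hM0 : 0 ≤ M) (hΛ0 : 0 ≤ Λ)
    (hM : ∀ ξ, ‖F ξ‖ ≤ M) (hΛ : ∀ ξ η, ‖F ξ - F η‖ ≤ Λ * |ξ - η|) {I : Set ℝ}
    (hI : I.OrdConnected) {N : ℕ} (hN : 0 < N) {t : ℝ} (ht : |t| ≤ N / 2) :
    ‖gN F R N I t‖ ≤ ((2 * R + 1) * M + (2 * M + (2 * R + 1) * Λ)) / (1 + |t|) := by
  classical
  have hN' : (0 : ℝ) < N := by exact_mod_cast hN
  have hN1 : (1 : ℝ) ≤ N := by exact_mod_cast hN
  set S := Finset.filter (fun n : ℤ => (n : ℝ) / N ∈ I) (rng R N) with hS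
  have hcard : (S.card : ℝ) ≤ (2 * R + 1) * N := by
    have h1 : S.card ≤ 2 * (R * N) + 1 := (Finset.card_filter_le _ _).trans (card_rng R N).le
    have h2 : (S.card : ℝ) ≤ 2 * (R * N) + 1 := by exact_mod_cast h1
    nlinarith
  rw [gN_eq_filter, ← hS, norm_smul, norm_inv, Real.norm_natCast]
  set T := ∑ n ∈ S, ee ((n : ℝ) / N) t • F ((n : ℝ) / N) with hT
  have hb1 : ‖T‖ ≤ (2 * R + 1) * N * M := by
    refine (norm_sum_le _ _).trans ?_
    calc _ ≤ ∑ n ∈ S, M := Finset.sum_le_sum fun n _ => by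
          rw [norm_smul, norm_ee, one_mul]; exact hM _
      _ = S.card * M := by rw [Finset.sum_const, nsmul_eq_mul]
      _ ≤ _ := mul_le_mul_of_nonneg_right hcard hM0
  have hb2 : 4 * |t| / N * ‖T‖ ≤ 2 * M + (2 * R + 1) * Λ := by
    rcases S.eq_empty_or_nonempty with hemp | hne
    · rw [hT, hemp]; simp; positivity
    · set a := S.min' hne with ha
      set b := S.max' hne with hb
      have hSI : S = Finset.Icc a b := by
        ext n
        rw [Finset.mem_Icc]
        constructor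
        · intro hn; exact ⟨S.min'_le n hn, S.le_max' n hn⟩
        · rintro ⟨h1, h2⟩
          have hmina := S.min'_mem hne
          have hmaxb := S.max'_mem hne
          rw [← ha, hS, Finset.mem_filter, rng, Finset.mem_Icc] at hmina
          rw [← hb, hS, Finset.mem_filter, rng, Finset.mem_Icc] at hmaxb
          rw [hS, Finset.mem_filter, rng, Finset.mem_Icc]
          refine ⟨⟨hmina.1.1.trans h1, h2.trans hmaxb.1.2⟩, hI.out hmina.2 hmaxb.2 ⟨?_, ?_⟩⟩
          · apply div_le_div_of_nonneg_right _ hN'.le; exact_mod_cast h1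
          · apply div_le_div_of_nonneg_right _ hN'.le; exact_mod_cast h2
      set m := (b + 1 - a).toNat with hm
      have hmcard : S.card = m := by rw [hSI, Int.card_Icc]
      have hTm : T = ee ((a : ℝ) / N) t • ∑ i ∈ Finset.range m,
          (ee (1 / N) t) ^ i • F (((a : ℝ) + i) / N) := by
        rw [hT, hSI, sum_Icc_int, ← hm, Finset.smul_sum]
        refine Finset.sum_congr rfl fun i _ => ?_
        rw [smul_smul]
        push_cast
        congr 1
        rw [ee, ee, ee, ← Complex.exp_nat_mul, ← Complex.exp_add]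
        congr 1; push_cast; ring
      have h1 := sbp (norm_ee (1 / N) t) (fun i : ℕ => F (((a : ℝ) + i) / N)) (M := M)
        (δ := Λ / N) (fun i => hM _) (by
          intro i
          refine (hΛ _ _).trans ?_
          rw [div_eq_mul_one_div Λ]
          apply mul_le_mul_of_nonneg_left _ hΛ0
          have : ((a : ℝ) + ((i + 1 : ℕ) : ℝ)) / N - ((a : ℝ) + i) / N = 1 / N := by
            push_cast; field_simp; ring
          rw [this, abs_of_pos (by positivity)]) m
      have h2 : ‖T‖ = ‖∑ i ∈ Finset.range m, (ee (1 / N) t) ^ i • F (((a : ℝ) + i) / N)‖ := by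
        rw [hTm, norm_smul, norm_ee, one_mul]
      rw [h2]
      have h3 : (m : ℝ) * (Λ / N) ≤ (2 * R + 1) * Λ := by
        rw [← hmcard]
        calc (S.card : ℝ) * (Λ / N) ≤ ((2 * R + 1) * N) * (Λ / N) := by gcongr
          _ = _ := by field_simp
      calc _ ≤ ‖1 - ee (1 / N) t‖ *
            ‖∑ i ∈ Finset.range m, (ee (1 / N) t) ^ i • F (((a : ℝ) + i) / N)‖ :=
            mul_le_mul_of_nonneg_right (norm_one_sub_ee hN ht) (norm_nonneg _)
        _ ≤ 2 * M + m * (Λ / N) := h1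
        _ ≤ _ := by linarith
  rw [le_div_iff₀ (by positivity)]
  have e1 : (N : ℝ)⁻¹ * ‖T‖ ≤ (2 * R + 1) * M := by
    rw [inv_mul_le_iff₀ hN']; linarith
  have e2 : (N : ℝ)⁻¹ * ‖T‖ * |t| ≤ 2 * M + (2 * R + 1) * Λ := by
    have : 4 * |t| / N * ‖T‖ = 4 * ((N : ℝ)⁻¹ * ‖T‖ * |t|) := by field_simp
    rw [this] at hb2
    have h0 : 0 ≤ (N : ℝ)⁻¹ * ‖T‖ * |t| := by positivity
    linarith
  nlinarith

end sbp

end Pool.Agent.V11221.Fou
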