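import Mathlib
import Pool.Agent.V11221.FouDefs
import Pool.Agent.V11221.FouA
import Pool.Agent.V11221.FouB
import Pool.Agent.V11221.FouD
import Pool.Agent.V11221.FouE

/-!
From the circle to the line: lower decompositions.
-/

open MeasureTheory Set Filter Topology
open scoped ENNReal FourierTransform SchwartzMap

namespace Pool.Agent.V11221.Fou

section conv
variable {X : Type*} [NormedAddCommGroup X] [NormedSpace ℂ X]

lemma projR_eq (I : Set ℝ) (f : ℝ → X) (t : ℝ) :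
    projR I f t = ∫ ξ, I.indicator (fun ξ => ee ξ t • 𝓕 f ξ) ξ := by
  rw [projR, fourierInv_eq_ee]
  congr 1; ext ξ
  by_cases h : ξ ∈ I
  · rw [indicator_of_mem h, indicator_of_mem h]
  · rw [indicator_of_notMem h, indicator_of_notMem h, smul_zero]

lemma continuous_gN (F : ℝ → X) (R N : ℕ) (A : Set ℝ) : Continuous (gN F R N A) := by
  unfold gN
  refine continuous_finsetSum _ fun n _ => ?_
  by_cases h : ((n : ℝ) / N) ∈ A
  · simp_rw [indicator_of_mem h]
    exact ((ee_continuous_right _).smul continuous_const).const_smul _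
  · simp_rw [indicator_of_notMem h]
    exact continuous_const

omit [NormedSpace ℂ X] in
lemma continuousAt_indicator_ae {I : Set ℝ} (hI : I.OrdConnected) {h : ℝ → X}
    (hh : Continuous h) : ∀ᵐ ξ : ℝ, ContinuousAt (I.indicator h) ξ := by
  have h0 : volume (frontier I) = 0 := hI.convex.addHaar_frontier volume
  have h1 : ∀ᵐ ξ : ℝ, ξ ∉ frontier I := measure_eq_zero_iff_ae_notMem.1 h0
  filter_upwards [h1] with ξ hξ
  exact hh.continuousOn.continuousAt_indicator hξ

variable [CompleteSpace X]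

lemma tendsto_gN {F : ℝ → X} {R : ℕ} {M : ℝ} (hM : ∀ ξ, ‖F ξ‖ ≤ M)
    (hR : ∀ ξ, (R : ℝ) < |ξ| → F ξ = 0) (hc : Continuous F) {I : Set ℝ} (hI : I.OrdConnected)
    (t : ℝ) : Tendsto (fun N : ℕ => gN F R (N + 1) I t) atTop
      (𝓝 (∫ ξ, I.indicator (fun ξ => ee ξ t • F ξ) ξ)) := by
  refine riemann_tendsto (R := R) (M := M) ?_ ?_ ?_
  · intro ξ
    by_cases h : ξ ∈ I
    · rw [indicator_of_mem h, norm_smul, norm_ee, one_mul]; exact hM ξ
    · rw [indicator_of_notMem h, norm_zero]; exact (norm_nonneg _).trans (hM 0)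
  · intro ξ hξ
    by_cases h : ξ ∈ I
    · rw [indicator_of_mem h, hR ξ hξ, smul_zero]
    · rw [indicator_of_notMem h]
  · exact continuousAt_indicator_ae hI ((ee_continuous_left t).smul hc)

omit [CompleteSpace X] [NormedSpace ℂ X] in
lemma eventually_mem_win (t : ℝ) : ∀ᶠ N : ℕ in atTop, t ∈ win (N + 1) := by
  obtain ⟨k, hk⟩ := exists_nat_gt (2 * |t|)
  filter_upwards [eventually_ge_atTop k] with N hN
  have h1 : (k : ℝ) ≤ N := by exact_mod_cast hN
  have h2 := neg_abs_le t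
  have h3 := le_abs_self t
  rw [win, mem_Ioc]; push_cast
  constructor <;> linarith

lemma tendsto_win_gN {F : ℝ → X} {R : ℕ} {M : ℝ} (hM : ∀ ξ, ‖F ξ‖ ≤ M)
    (hR : ∀ ξ, (R : ℝ) < |ξ| → F ξ = 0) (hc : Continuous F) {I : Set ℝ} (hI : I.OrdConnected)
    (t : ℝ) : Tendsto (fun N : ℕ => (win (N + 1)).indicator (gN F R (N + 1) I) t) atTop
      (𝓝 (∫ ξ, I.indicator (fun ξ => ee ξ t • F ξ) ξ)) := by
  refine (tendsto_gN hM hR hc hI t).congr' ?_
  filter_upwards [eventually_mem_win t] with N hN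
  rw [indicator_of_mem hN]

omit [CompleteSpace X] in
lemma meas_win_gN (F : ℝ → X) (R N : ℕ) (A : Set ℝ) :
    AEStronglyMeasurable ((win N).indicator (gN F R N A)) volume :=
  (continuous_gN F R N A).aestronglyMeasurable.indicator (by unfold win; exact measurableSet_Ioc)

end conv

section poisson

lemma abs_ge_of_win {N : ℕ} {t : ℝ} (ht : |t| ≤ N / 2) {k : ℤ} (hk : k ≠ 0) :
    |(k : ℝ)| * N / 2 ≤ |t + k * N| := by
  have hk1 : (1 : ℝ) ≤ |(k : ℝ)| := by
    have : (1 : ℤ) ≤ |k| := Int.one_le_abs hk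
    exact_mod_cast this
  have h1 : |(k : ℝ) * N| ≤ |t + k * N| + |t| := by
    have h2 : (k : ℝ) * N = (t + k * N) - t := by ring
    calc |(k : ℝ) * N| = |(t + k * N) - t| := by rw [← h2]
      _ ≤ _ := abs_sub _ _
  rw [abs_mul, Nat.abs_cast] at h1
  have hN : (0 : ℝ) ≤ N := Nat.cast_nonneg N
  nlinarith

lemma fourier_scale (φ : ℝ → ℂ) {N : ℕ} (hN : 0 < N) (ξ : ℝ) :
    𝓕 (fun x => φ (N * x)) ξ = ((N : ℝ)⁻¹) • 𝓕 φ (ξ / N) := by
  have hN' : (0 : ℝ) < N := by exact_mod_cast hN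
  rw [fourier_eq_ee, fourier_eq_ee]
  have := Measure.integral_comp_mul_left (fun y => ee y (-(ξ / N)) • φ y) (N : ℝ)
  rw [abs_of_pos (by positivity)] at this
  rw [← this]
  congr 1; ext x
  congr 1
  have hN'' : (N : ℂ) ≠ 0 := by exact_mod_cast hN.ne'
  rw [ee, ee]; congr 1; push_cast; field_simp

lemma poisson_bound (φ : 𝓢(ℝ, ℂ)) :
    ∃ C : ℝ, 0 ≤ C ∧ ∀ R : ℕ, (∀ ξ : ℝ, (R : ℝ) < |ξ| → 𝓕 (φ : ℝ → ℂ) ξ = 0) →
      ∀ N : ℕ, 0 < N → ∀ t : ℝ, |t| ≤ N / 2 →
      ‖gN (𝓕 (φ : ℝ → ℂ)) R N univ t - φ t‖ ≤ C / (N : ℝ) ^ 2 := by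
  obtain ⟨C0, hC0, hdec⟩ := φ.decay 2 0
  simp only [norm_iteratedFDeriv_zero, Real.norm_eq_abs, sq_abs] at hdec
  have hsum := (Real.summable_one_div_int_pow (p := 2)).2 one_lt_two
  set Z := ∑' k : ℤ, 1 / (k : ℝ) ^ 2 with hZ
  have hZ0 : 0 ≤ Z := tsum_nonneg fun k => by positivity
  refine ⟨4 * C0 * Z, by positivity, fun R hR N hN t ht => ?_⟩
  have hN' : (0 : ℝ) < N := by exact_mod_cast hN
  set h : ℝ → ℂ := fun x => φ (N * x) with hh
  have hFh : ∀ ξ, 𝓕 h ξ = ((N : ℝ)⁻¹) • 𝓕 (φ : ℝ → ℂ) (ξ / N) := fun ξ => fourier_scale φ hN ξ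
  have hFzero : ∀ n : ℤ, n ∉ rng R N → 𝓕 h n = 0 := by
    intro n hn
    rw [hFh, hR, smul_zero]
    rw [abs_div, Nat.abs_cast, lt_div_iff₀ hN']
    rw [rng, Finset.mem_Icc, not_and_or] at hn
    rw [lt_abs]
    rcases hn with hn | hn
    · right
      push Not at hn
      have : (n : ℝ) < ((-((R * N : ℕ) : ℤ) : ℤ) : ℝ) := by exact_mod_cast hn
      push_cast at this; linarith
    · left
      push Not at hn
      have : ((((R * N : ℕ) : ℤ) : ℤ) : ℝ) < (n : ℝ) := by exact_mod_cast hn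
      push_cast at this; linarith
  -- Poisson summation
  have hdec' : ∀ (k : ℤ), k ≠ 0 → ‖h (t / N + k)‖ ≤ 4 * C0 / (N : ℝ) ^ 2 * (1 / (k : ℝ) ^ 2) := by
    intro k hk
    have hk1 : (1 : ℝ) ≤ |(k : ℝ)| := by
      have : (1 : ℤ) ≤ |k| := Int.one_le_abs hk
      exact_mod_cast this
    have e1 : (N : ℝ) * (t / N + k) = t + k * N := by field_simp
    have e2 := hdec (t + k * N)
    have e3 := abs_ge_of_win ht hk
    have e4 : (k : ℝ) ^ 2 * (N : ℝ) ^ 2 / 4 ≤ (t + k * N) ^ 2 := by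
      have := pow_le_pow_left₀ (by positivity) e3 2
      rw [sq_abs] at this
      have e5 : (|(k : ℝ)| * N / 2) ^ 2 = (k : ℝ) ^ 2 * (N : ℝ) ^ 2 / 4 := by
        rw [div_pow, mul_pow, sq_abs]; norm_num
      linarith
    rw [hh]; simp only [e1]
    have hk2 : (0 : ℝ) < (k : ℝ) ^ 2 := by
      rw [← sq_abs]; positivity
    rw [mul_one_div, div_div, le_div_iff₀ (by positivity)]
    have h0 := norm_nonneg (φ (t + k * N))
    nlinarith
  have hsumm : Summable fun k : ℤ => h (t / N + k) := by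
    refine Summable.of_norm_bounded_eventually (g := fun k : ℤ => 4 * C0 / (N : ℝ) ^ 2 *
      (1 / (k : ℝ) ^ 2)) (hsum.mul_left _) ?_
    exact Filter.eventually_cofinite.2 ((Set.finite_singleton (0 : ℤ)).subset fun k hk => by
      by_contra hk0
      exact hk (hdec' k (by simpa using hk0)))
  have hP : ∑' k : ℤ, h (t / N + k) = ∑' n : ℤ, 𝓕 h n * fourier n ((t / N : ℝ) : UnitAddCircle) := by
    apply Real.tsum_eq_tsum_fourier_of_rpow_decay_of_summable (b := 2) _ one_lt_two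
    · have hb : ∀ᶠ x : ℝ in cocompact ℝ, x ≠ 0 := by
        have := (isCompact_singleton (x := (0 : ℝ))).compl_mem_cocompact
        filter_upwards [this] with x hx using hx
      refine Asymptotics.IsBigO.of_bound (C0 / (N : ℝ) ^ 2) ?_
      filter_upwards [hb] with x hx
      have hx2 : (0 : ℝ) < x ^ 2 := by positivity
      have := hdec (N * x)
      have e6 : |x| ^ (-2 : ℝ) = 1 / x ^ 2 := by
        rw [Real.rpow_neg (abs_nonneg _), Real.rpow_two, sq_abs, one_div]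
      rw [e6, Real.norm_eq_abs, abs_of_pos (by positivity), mul_one_div, div_div,
        le_div_iff₀ (by positivity), hh]
      simp only
      linarith [this, mul_comm (‖φ (N * x)‖) ((N : ℝ) ^ 2 * x ^ 2), mul_pow (N : ℝ) x 2]
    · exact summable_of_ne_finset_zero (s := rng R N) fun n hn => hFzero n hn
    · exact φ.continuous.comp (continuous_const.mul continuous_id)
  have hR1 : ∑' n : ℤ, 𝓕 h n * fourier n ((t / N : ℝ) : UnitAddCircle) =
      gN (𝓕 (φ : ℝ → ℂ)) R N univ t := by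
    rw [tsum_eq_sum (s := rng R N) (fun n hn => by rw [hFzero n hn, zero_mul]), gN]
    refine Finset.sum_congr rfl fun n _ => ?_
    rw [indicator_of_mem (mem_univ _), hFh, fourier_eq_circ, ee_div, smul_mul_assoc, mul_comm]
    rfl
  rw [← hR1, ← hP, hsumm.tsum_eq_add_tsum_ite 0]
  have e7 : h (t / N + ((0 : ℤ) : ℝ)) = φ t := by
    rw [hh]; simp only; congr 1; push_cast; field_simp; ring
  rw [e7, add_sub_cancel_left]
  have e8 : HasSum (fun k : ℤ => 4 * C0 / (N : ℝ) ^ 2 * (1 / (k : ℝ) ^ 2))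
      (4 * C0 / (N : ℝ) ^ 2 * Z) := hsum.hasSum.mul_left _
  refine (tsum_of_norm_bounded e8 ?_).trans (le_of_eq ?_)
  · intro k
    by_cases hk : k = 0
    · simp [hk]
    · rw [if_neg hk]; exact hdec' k hk
  · ring

end poisson

section sc
variable {X : Type*} [NormedAddCommGroup X] [NormedSpace ℂ X] [CompleteSpace X]

lemma poisson_sc {f : ℝ → X} (hf : IsSc f) : ∃ (R : ℕ) (C : ℝ), 0 ≤ C ∧
    ∀ R' : ℕ, R ≤ R' → ∀ N : ℕ, 0 < N → ∀ t : ℝ, |t| ≤ N / 2 →
      ‖gN (𝓕 f) R' N univ t - f t‖ ≤ C / (N : ℝ) ^ 2 := by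
  obtain ⟨m, φ, x, hcs, hfe⟩ := hf
  have hfe' : f = fun t => ∑ j, φ j t • x j := funext hfe
  have hF : ∀ ξ, 𝓕 f ξ = ∑ j, (𝓕 (φ j : ℝ → ℂ)) ξ • x j := by
    intro ξ; rw [hfe', fourier_sum_smul]; rfl
  obtain ⟨R, hR⟩ := exists_nat_bound
    (Q := fun j R => ∀ ξ : ℝ, (R : ℝ) < |ξ| → 𝓕 (φ j : ℝ → ℂ) ξ = 0)
    (by
      intro j a b hab h ξ hξ
      have hab' : (a : ℝ) ≤ b := by exact_mod_cast hab
      exact h ξ (lt_of_le_of_lt hab' hξ))
    (fun j => cs_bound (hcs j))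
  choose C hC0 hC using fun j => poisson_bound (φ j)
  refine ⟨R, ∑ j, C j * ‖x j‖, Finset.sum_nonneg fun j _ => mul_nonneg (hC0 j) (norm_nonneg _),
    fun R' hR' N hN t ht => ?_⟩
  have h1 : gN (𝓕 f) R' N univ t = ∑ j, gN (𝓕 (φ j : ℝ → ℂ)) R' N univ t • x j := by
    simp only [gN, indicator_univ, hF, Finset.smul_sum, Finset.sum_smul]
    rw [Finset.sum_comm]
    refine Finset.sum_congr rfl fun j _ => Finset.sum_congr rfl fun n _ => ?_
    rw [smul_assoc, smul_smul, smul_eq_mul]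
  rw [h1, hfe, ← Finset.sum_sub_distrib, Finset.sum_div]
  refine (norm_sum_le _ _).trans (Finset.sum_le_sum fun j _ => ?_)
  rw [← sub_smul, norm_smul]
  have h2 := hC j R' (fun ξ hξ => hR j ξ (by
    have : (R : ℝ) ≤ R' := by exact_mod_cast hR'
    linarith)) N hN t ht
  calc _ ≤ C j / (N : ℝ) ^ 2 * ‖x j‖ := mul_le_mul_of_nonneg_right h2 (norm_nonneg _)
    _ = _ := by ring

omit [CompleteSpace X] in
/-- upper bound for the norms of the sampled sums of the full function -/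
lemma eLpNorm_win_univ_le {f : ℝ → X} (hfc : Continuous f) {F : ℝ → X} {R N : ℕ} {C : ℝ}
    (hC : 0 ≤ C) (hN : 0 < N) {p : ℝ≥0∞} (hp : 1 ≤ p)
    (h : ∀ t : ℝ, |t| ≤ N / 2 → ‖gN F R N univ t - f t‖ ≤ C / (N : ℝ) ^ 2) :
    eLpNorm ((win N).indicator (gN F R N univ)) p volume ≤
      eLpNorm f p volume + ENNReal.ofReal (C / N) := by
  have hN' : (0 : ℝ) < N := by exact_mod_cast hN
  have hmw : MeasurableSet (win N) := by unfold win; exact measurableSet_Ioc
  have h1 : (win N).indicator (gN F R N univ) =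
      (win N).indicator f + (win N).indicator (fun t => gN F R N univ t - f t) := by
    rw [← indicator_add']
    congr 1; ext t; simp
  rw [h1]
  refine (eLpNorm_add_le (hfc.aestronglyMeasurable.indicator hmw)
    (((continuous_gN F R N univ).sub hfc).aestronglyMeasurable.indicator hmw) hp).trans ?_
  refine add_le_add (eLpNorm_indicator_le _) ?_
  calc eLpNorm ((win N).indicator (fun t => gN F R N univ t - f t)) p volume
      ≤ eLpNorm ((win N).indicator (fun _ => C / (N : ℝ) ^ 2)) p volume := by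
        apply eLpNorm_mono
        intro t
        by_cases ht : t ∈ win N
        · rw [indicator_of_mem ht, indicator_of_mem ht, Real.norm_of_nonneg (by positivity)]
          apply h
          rw [win, mem_Ioc] at ht
          rw [abs_le]; exact ⟨by linarith [ht.1], by linarith [ht.2]⟩
        · rw [indicator_of_notMem ht, indicator_of_notMem ht]; simp
    _ ≤ ‖C / (N : ℝ) ^ 2‖ₑ * volume (win N) ^ (1 / p.toReal) := eLpNorm_indicator_const_le _ _
    _ ≤ ‖C / (N : ℝ) ^ 2‖ₑ * volume (win N) ^ (1 : ℝ) := by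
        gcongr
        · rw [win, Real.volume_Ioc]
          rw [← ENNReal.ofReal_one]
          apply ENNReal.ofReal_le_ofReal
          have : (1 : ℝ) ≤ N := by exact_mod_cast hN
          linarith
        · by_cases hpt : p = ∞
          · rw [hpt]; simp
          · have : 1 ≤ p.toReal := by
              rw [← ENNReal.toReal_one]; exact ENNReal.toReal_mono hpt hp
            rw [div_le_one (by linarith)]; exact this
    _ = ENNReal.ofReal (C / N) := by
        rw [ENNReal.rpow_one, win, Real.volume_Ioc, Real.enorm_eq_ofReal (by positivity),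
          ← ENNReal.ofReal_mul (by positivity)]
        congr 1
        field_simp; ring

end sc

section pul

lemma pul_ordConnected {N : ℕ} {I : Set ℝ} (hI : I.OrdConnected) : (pul N I).OrdConnected := by
  constructor
  intro a ha b hb c hc
  have hN : (0 : ℝ) ≤ N := Nat.cast_nonneg N
  refine hI.out ha hb ⟨?_, ?_⟩
  · apply div_le_div_of_nonneg_right _ hN; exact_mod_cast hc.1
  · apply div_le_div_of_nonneg_right _ hN; exact_mod_cast hc.2

/-- the pulled back partition -/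
def pulP (N : ℕ) (P : Set (Set ℝ)) : Set (Set ℤ) := {J | J ≠ ∅ ∧ ∃ I ∈ P, pul N I = J}

lemma pulP_isIntPartZ {N : ℕ} {P : Set (Set ℝ)} (hP : Setoid.IsPartition P)
    (hI : ∀ I ∈ P, I.OrdConnected) : IsIntPartZ (pulP N P) := by
  refine ⟨⟨fun h => h.1 rfl, fun n => ?_⟩, ?_⟩
  · obtain ⟨I, ⟨hIP, hmem⟩, huniq⟩ := hP.2 ((n : ℝ) / N)
    refine ⟨pul N I, ⟨⟨?_, I, hIP, rfl⟩, hmem⟩, ?_⟩
    · intro h; have : n ∈ pul N I := hmem
      rw [h] at this; exact this
    · rintro J ⟨⟨_, I', hI', rfl⟩, hmem'⟩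
      rw [huniq I' ⟨hI', hmem'⟩]
  · rintro J ⟨_, I, hIP, rfl⟩
    exact pul_ordConnected (hI I hIP)

lemma lqNorm_pul {q : ℝ≥0∞} (hq : 1 ≤ q) {N : ℕ} {P : Set (Set ℝ)} (hP : Setoid.IsPartition P)
    (a : Set ℤ → ℝ≥0∞) (ha : a ∅ = 0) :
    lqNorm q (fun J : pulP N P => a J) = lqNorm q (fun I : P => a (pul N I)) := by
  have hch : ∀ J : pulP N P, ∃ I : P, pul N I = J := by
    rintro ⟨J, _, I, hI, h⟩; exact ⟨⟨I, hI⟩, h⟩
  choose e he using hch
  have := lqNorm_comp_injective hq e (by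
    intro J J' h
    apply Subtype.ext
    rw [← he J, ← he J', h]) (fun I : P => a (pul N I)) (by
    intro I hI
    by_cases hem : pul N (I : Set ℝ) = ∅
    · simp only [hem, ha]
    · exfalso
      apply hI
      have hJ : pul N (I : Set ℝ) ∈ pulP N P := ⟨hem, I, I.2, rfl⟩
      refine ⟨⟨_, hJ⟩, ?_⟩
      have h1 := he ⟨_, hJ⟩
      simp only at h1
      obtain ⟨n, hn⟩ := nonempty_iff_ne_empty.2 hem
      have hn' : n ∈ pul N (e ⟨_, hJ⟩ : Set ℝ) := by rw [h1]; exact hn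
      obtain ⟨K, _, huniq⟩ := hP.2 ((n : ℝ) / N)
      apply Subtype.ext
      rw [huniq _ ⟨(e ⟨_, hJ⟩).2, hn'⟩, huniq _ ⟨I.2, hn⟩])
  rw [← this]
  simp only [he]

end pul

section lower
variable (X : Type*) [NormedAddCommGroup X] [NormedSpace ℂ X] [CompleteSpace X]

theorem lowerR_of_lowerT {part : Set (Set ℝ) → Prop}
    (hpart : ∀ P, part P → Setoid.IsPartition P ∧ ∀ I ∈ P, I.OrdConnected)
    {p q : ℝ≥0∞} (hp : 1 ≤ p) (hq : 1 ≤ q) (h : LowerT X p q) : LowerR X part p q := by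
  obtain ⟨L, hL, hlow⟩ := h
  refine ⟨L, hL, fun P hP f hf => ?_⟩
  obtain ⟨hP1, hP2⟩ := hpart P hP
  obtain ⟨R1, M, Λ, hR1, hM0, hΛ0, hM, hR, hΛ, hFc, hfint⟩ := sc_facts hf
  obtain ⟨R2, C, hC, hpoi⟩ := poisson_sc hf
  set R := max R1 R2 with hRdef
  have hfc : Continuous f := by
    obtain ⟨m, φ, x, _, hfe⟩ := hf
    rw [show f = fun t => ∑ j, φ j t • x j from funext hfe]
    exact continuous_finsetSum _ fun j _ => (φ j).continuous.smul continuous_const
  have hR' : ∀ ξ : ℝ, (R : ℝ) < |ξ| → 𝓕 f ξ = 0 := by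
    intro ξ hξ
    apply hR
    have : (R1 : ℝ) ≤ R := by exact_mod_cast le_max_left _ _
    linarith
  -- the inequality at level N
  have hlevel : ∀ N : ℕ, (lqNorm q fun I : P =>
      eLpNorm ((win (N + 1)).indicator (gN (𝓕 f) R (N + 1) (I : Set ℝ))) p volume) ≤
      ENNReal.ofReal L * (eLpNorm f p volume + ENNReal.ofReal (C / ((N + 1 : ℕ) : ℝ))) := by
    intro N
    have hN : 0 < N + 1 := Nat.succ_pos N
    have h1 := hlow (pulP (N + 1) P) (pulP_isIntPartZ hP1 hP2) (smp (𝓕 f) R (N + 1) univ)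
    rw [lqNorm_pul hq hP1 (fun J => eLpNorm (projT J (smp (𝓕 f) R (N + 1) univ)) p volume) (by
      rw [show projT (∅ : Set ℤ) (smp (𝓕 f) R (N + 1) univ) = 0 by
        ext t; simp [projT, Finsupp.sum]]
      simp)] at h1
    simp_rw [projT_smp, univ_inter] at h1
    calc _ = lqNorm q fun I : P => ((N + 1 : ℕ) : ℝ≥0∞) ^ (1 / p).toReal *
            eLpNorm (trigPoly (smp (𝓕 f) R (N + 1) (I : Set ℝ))) p volume := by
          simp_rw [eLpNorm_win _ _ hN]
      _ = ((N + 1 : ℕ) : ℝ≥0∞) ^ (1 / p).toReal * lqNorm q fun I : P =>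
            eLpNorm (trigPoly (smp (𝓕 f) R (N + 1) (I : Set ℝ))) p volume :=
          lqNorm_const_mul hq _ _
      _ ≤ ((N + 1 : ℕ) : ℝ≥0∞) ^ (1 / p).toReal * (ENNReal.ofReal L *
            eLpNorm (trigPoly (smp (𝓕 f) R (N + 1) univ)) p volume) := mul_le_mul' le_rfl h1
      _ = ENNReal.ofReal L *
            eLpNorm ((win (N + 1)).indicator (gN (𝓕 f) R (N + 1) univ)) p volume := by
          rw [eLpNorm_win _ _ hN]; ring
      _ ≤ _ := by
          refine mul_le_mul' le_rfl (eLpNorm_win_univ_le hfc hC hN hp fun t ht => ?_)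
          exact hpoi R (le_max_right _ _) (N + 1) hN t ht
  have hfatou := lqNorm_liminf_le hq
    (fun N (I : P) => eLpNorm ((win (N + 1)).indicator (gN (𝓕 f) R (N + 1) (I : Set ℝ))) p volume)
    (fun I : P => eLpNorm (projR (I : Set ℝ) f) p volume) (by
      intro I
      apply Lp.eLpNorm_lim_le_liminf_eLpNorm (fun N => meas_win_gN _ _ _ _)
      refine Eventually.of_forall fun t => ?_
      rw [projR_eq]
      exact tendsto_win_gN hM hR' hFc (hP2 I I.2) t)
  refine hfatou.trans ?_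
  have hlim : Tendsto (fun N : ℕ => ENNReal.ofReal L *
      (eLpNorm f p volume + ENNReal.ofReal (C / ((N + 1 : ℕ) : ℝ)))) atTop
      (𝓝 (ENNReal.ofReal L * (eLpNorm f p volume + 0))) := by
    apply ENNReal.Tendsto.const_mul _ (Or.inr ENNReal.ofReal_ne_top)
    apply Tendsto.add tendsto_const_nhds
    rw [← ENNReal.ofReal_zero]
    apply ENNReal.tendsto_ofReal
    have := (tendsto_const_div_atTop_nhds_zero_nat C).comp (tendsto_add_atTop_nat 1)
    exact this
  calc _ ≤ liminf (fun N : ℕ => ENNReal.ofReal L *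
        (eLpNorm f p volume + ENNReal.ofReal (C / ((N + 1 : ℕ) : ℝ)))) atTop :=
        liminf_le_liminf (Eventually.of_forall hlevel)
    _ = _ := by rw [hlim.liminf_eq, add_zero]

end lower

end Pool.Agent.V11221.Fou
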