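import Mathlib
import Pool.Agent.V11221.FouDefs
import Pool.Agent.V11221.FouA
import Pool.Agent.V11221.FouB
import Pool.Agent.V11221.FouD
import Pool.Agent.V11221.FouE
import Pool.Agent.V11221.FouF

/-!
From the circle to the line: upper decompositions.
-/

open MeasureTheory Set Filter Topology
open scoped ENNReal FourierTransform SchwartzMap

namespace Pool.Agent.V11221.Fou

section
variable {X : Type*} [NormedAddCommGroup X] [NormedSpace ℂ X]

/-- dominated convergence for `L^p` norms with the bound `C/(1+|t|)`, `1 < p < ∞` -/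
lemma tendsto_eLpNorm_dom {p : ℝ≥0∞} (hp : 1 < p) (hpt : p ≠ ∞) {g : ℕ → ℝ → X} {g0 : ℝ → X}
    {C : ℝ} (hC : 0 ≤ C) (hm : ∀ N, AEStronglyMeasurable (g N) volume)
    (hb : ∀ N t, ‖g N t‖ ≤ C / (1 + |t|)) (hlim : ∀ t, Tendsto (fun N => g N t) atTop (𝓝 (g0 t))) :
    Tendsto (fun N => eLpNorm (g N) p volume) atTop (𝓝 (eLpNorm g0 p volume)) := by
  have hp0 : p ≠ 0 := (zero_lt_one.trans hp).ne'
  have hpr : 1 < p.toReal := by
    rw [← ENNReal.toReal_one]; exact (ENNReal.toReal_lt_toReal ENNReal.one_ne_top hpt).2 hp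
  simp_rw [eLpNorm_eq_lintegral_rpow_enorm_toReal hp0 hpt]
  refine (ENNReal.continuous_rpow_const.tendsto _).comp ?_
  apply tendsto_lintegral_of_dominated_convergence'
    (bound := fun t => ENNReal.ofReal (C ^ p.toReal) * ENNReal.ofReal ((1 + ‖t‖) ^ (-p.toReal)))
  · intro N; exact (hm N).enorm.pow_const _
  · intro N
    refine Eventually.of_forall fun t => ?_
    have h1 : ‖g N t‖ₑ ≤ ENNReal.ofReal (C / (1 + |t|)) := by
      rw [← ofReal_norm]; exact ENNReal.ofReal_le_ofReal (hb N t)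
    calc ‖g N t‖ₑ ^ p.toReal ≤ ENNReal.ofReal (C / (1 + |t|)) ^ p.toReal :=
          ENNReal.rpow_le_rpow h1 (by positivity)
      _ = ENNReal.ofReal ((C / (1 + |t|)) ^ p.toReal) :=
          ENNReal.ofReal_rpow_of_nonneg (by positivity) (by positivity)
      _ = ENNReal.ofReal (C ^ p.toReal) * ENNReal.ofReal ((1 + ‖t‖) ^ (-p.toReal)) := by
          rw [← ENNReal.ofReal_mul (by positivity)]
          congr 1
          rw [Real.div_rpow hC (by positivity), Real.norm_eq_abs, Real.rpow_neg (by positivity),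
            div_eq_mul_inv]
  · rw [lintegral_const_mul' _ _ ENNReal.ofReal_ne_top]
    refine ENNReal.mul_ne_top ENNReal.ofReal_ne_top (ne_of_lt ?_)
    exact finite_integral_one_add_norm (by simpa using hpr)
  · refine Eventually.of_forall fun t => ?_
    exact (ENNReal.continuous_rpow_const.tendsto _).comp ((hlim t).enorm)

lemma gN_sum {P : Set (Set ℝ)} (hP : Setoid.IsPartition P) (F : ℝ → X) (R N : ℕ) (s : Finset P)
    (t : ℝ) : gN F R N (⋃ I ∈ s, (I : Set ℝ)) t = ∑ I ∈ s, gN F R N (I : Set ℝ) t := by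
  classical
  simp only [gN]
  rw [Finset.sum_comm]
  refine Finset.sum_congr rfl fun n _ => ?_
  rw [← Finset.smul_sum]
  congr 1
  obtain ⟨K, ⟨hK, hKm⟩, huniq⟩ := hP.2 ((n : ℝ) / N)
  by_cases h : (⟨K, hK⟩ : P) ∈ s
  · rw [Finset.sum_eq_single_of_mem _ h, indicator_of_mem hKm, indicator_of_mem]
    · exact mem_biUnion h hKm
    · intro J _ hJ
      rw [indicator_of_notMem]
      intro hmem
      exact hJ (Subtype.ext (huniq J ⟨J.2, hmem⟩))
  · rw [indicator_of_notMem, Finset.sum_eq_zero]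
    · intro J hJ
      rw [indicator_of_notMem]
      intro hmem
      have : J = ⟨K, hK⟩ := Subtype.ext (huniq J ⟨J.2, hmem⟩)
      exact h (this ▸ hJ)
    · simp only [mem_iUnion, not_exists]
      intro J hJ hmem
      have : J = ⟨K, hK⟩ := Subtype.ext (huniq J ⟨J.2, hmem⟩)
      exact h (this ▸ hJ)

lemma gN_empty (F : ℝ → X) (R N : ℕ) (t : ℝ) : gN F R N ∅ t = 0 := by simp [gN]

variable [CompleteSpace X]

/-- reduction to finite subfamilies -/
lemma upper_of_finite {p : ℝ≥0∞} {P : Set (Set ℝ)} (hP1 : Setoid.IsPartition P)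
    (hP2 : ∀ I ∈ P, I.OrdConnected) (hP3 : P.Countable) {f : ℝ → X} (hf : IsSc f)
    (K : ℝ≥0∞)
    (h : ∀ s : Finset P, eLpNorm (fun t => ∑ I ∈ s, projR (I : Set ℝ) f t) p volume ≤ K) :
    eLpNorm f p volume ≤ K := by
  obtain ⟨R, M, Λ, hR1, hM0, hΛ0, hM, hR, hΛ, hFc, hfint⟩ := sc_facts hf
  have hct : Countable P := hP3.to_subtype
  have hFint : Integrable (𝓕 f) := by
    apply hFc.integrable_of_hasCompactSupport
    apply HasCompactSupport.of_support_subset_isCompact (isCompact_Icc (a := -(R : ℝ)) (b := R))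
    intro ξ hξ
    by_contra hcon
    apply hξ
    apply hR
    rw [mem_Icc, ← abs_le] at hcon
    exact not_le.1 hcon
  have hU : (⋃ I : P, (I : Set ℝ)) = univ := by
    ext ξ; simp only [mem_iUnion, mem_univ, iff_true]
    obtain ⟨K, ⟨hK, hKm⟩, _⟩ := hP1.2 ξ
    exact ⟨⟨K, hK⟩, hKm⟩
  have hsum : ∀ t, HasSum (fun I : P => projR (I : Set ℝ) f t) (f t) := by
    intro t
    have hint : Integrable fun ξ => ee ξ t • 𝓕 f ξ := integrable_ee_smul hFint t
    have h1 := hasSum_integral_iUnion (μ := volume) (s := fun I : P => (I : Set ℝ))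
      (f := fun ξ => ee ξ t • 𝓕 f ξ)
      (fun I => (hP2 I I.2).measurableSet) (by
        intro I J hIJ
        show Disjoint (I : Set ℝ) (J : Set ℝ)
        rw [Set.disjoint_left]
        intro ξ hI hJ
        obtain ⟨K, _, huniq⟩ := hP1.2 ξ
        exact hIJ (Subtype.ext ((huniq I ⟨I.2, hI⟩).trans (huniq J ⟨J.2, hJ⟩).symm)))
      hint.integrableOn
    rw [hU, setIntegral_univ, ← hfint t] at h1
    convert h1 using 2 with I
    rw [projR_eq, integral_indicator (hP2 I I.2).measurableSet]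
  obtain ⟨sq, hsq⟩ := exists_seq_tendsto (atTop : Filter (Finset P))
  have hmeas : ∀ s : Finset P,
      AEStronglyMeasurable (fun t => ∑ I ∈ s, projR (I : Set ℝ) f t) volume := by
    intro s
    refine Finset.aestronglyMeasurable_fun_sum _ fun I _ => ?_
    have hlim : ∀ t, Tendsto (fun N : ℕ => gN (𝓕 f) R (N + 1) (I : Set ℝ) t) atTop
        (𝓝 (projR (I : Set ℝ) f t)) := by
      intro t; rw [projR_eq]
      exact tendsto_gN hM hR hFc (hP2 I I.2) t
    exact aestronglyMeasurable_of_tendsto_ae atTop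
      (fun N => (continuous_gN _ _ _ _).aestronglyMeasurable) (Eventually.of_forall hlim)
  calc eLpNorm f p volume ≤ liminf (fun k => eLpNorm
        (fun t => ∑ I ∈ sq k, projR (I : Set ℝ) f t) p volume) atTop := by
        apply Lp.eLpNorm_lim_le_liminf_eLpNorm (fun k => hmeas _)
        refine Eventually.of_forall fun t => ?_
        exact (hsum t).comp hsq
    _ ≤ liminf (fun _ : ℕ => K) atTop := liminf_le_liminf (Eventually.of_forall fun k => h _)
    _ = K := liminf_const _

variable (X)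

/-- the case `q = 1` -/
theorem upperR_one {part : Set (Set ℝ) → Prop}
    (hpart : ∀ P, part P → Setoid.IsPartition P ∧ (∀ I ∈ P, I.OrdConnected) ∧ P.Countable)
    {p : ℝ≥0∞} (hp : 1 ≤ p) : UpperR X part p 1 := by
  refine ⟨1, one_pos, fun P hP f hf => ?_⟩
  obtain ⟨hP1, hP2, hP3⟩ := hpart P hP
  rw [ENNReal.ofReal_one, one_mul]
  apply upper_of_finite hP1 hP2 hP3 hf
  intro s
  obtain ⟨R, M, Λ, hR1, hM0, hΛ0, hM, hR, hΛ, hFc, hfint⟩ := sc_facts hf
  have hmeas : ∀ I : P, AEStronglyMeasurable (projR (I : Set ℝ) f) volume := by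
    intro I
    have hlim : ∀ t, Tendsto (fun N : ℕ => gN (𝓕 f) R (N + 1) (I : Set ℝ) t) atTop
        (𝓝 (projR (I : Set ℝ) f t)) := by
      intro t; rw [projR_eq]
      exact tendsto_gN hM hR hFc (hP2 I I.2) t
    exact aestronglyMeasurable_of_tendsto_ae atTop
      (fun N => (continuous_gN _ _ _ _).aestronglyMeasurable) (Eventually.of_forall hlim)
  calc _ = eLpNorm (∑ I ∈ s, projR (I : Set ℝ) f) p volume := by
        congr 1; ext t; rw [Finset.sum_apply]
    _ ≤ ∑ I ∈ s, eLpNorm (projR (I : Set ℝ) f) p volume :=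
        eLpNorm_sum_le (fun I _ => hmeas I) hp
    _ ≤ ∑' I : P, eLpNorm (projR (I : Set ℝ) f) p volume := ENNReal.sum_le_tsum s
    _ = _ := by
        rw [lqNorm_of_ne ENNReal.one_ne_top]; simp

/-- the case `1 < p < ∞` -/
theorem upperR_of_upperT {part : Set (Set ℝ) → Prop}
    (hpart : ∀ P, part P → Setoid.IsPartition P ∧ (∀ I ∈ P, I.OrdConnected) ∧ P.Countable)
    {p q : ℝ≥0∞} (hp : 1 < p) (hpt : p ≠ ∞) (hq : 1 ≤ q) (h : UpperT X p q) :
    UpperR X part p q := by
  classical
  obtain ⟨U, hU, hup⟩ := h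
  refine ⟨U, hU, fun P hP f hf => ?_⟩
  obtain ⟨hP1, hP2, hP3⟩ := hpart P hP
  obtain ⟨R, M, Λ, hR1, hM0, hΛ0, hM, hR, hΛ, hFc, hfint⟩ := sc_facts hf
  apply upper_of_finite hP1 hP2 hP3 hf
  intro s
  set A : Set ℝ := ⋃ I ∈ s, (I : Set ℝ) with hA
  have hAI : ∀ I : P, I ∈ s → A ∩ I = I := by
    intro I hI
    apply inter_eq_self_of_subset_right
    exact subset_biUnion_of_mem (u := fun I : P => (I : Set ℝ)) hI
  have hAI' : ∀ I : P, I ∉ s → A ∩ I = ∅ := by
    intro I hI
    rw [← disjoint_iff_inter_eq_empty, Set.disjoint_left]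
    intro ξ hξ hξI
    simp only [hA, mem_iUnion] at hξ
    obtain ⟨J, hJ, hξJ⟩ := hξ
    obtain ⟨K, _, huniq⟩ := hP1.2 ξ
    have : I = J := Subtype.ext ((huniq I ⟨I.2, hξI⟩).trans (huniq J ⟨J.2, hξJ⟩).symm)
    exact hI (this ▸ hJ)
  have hlevel : ∀ N : ℕ, eLpNorm ((win (N + 1)).indicator (gN (𝓕 f) R (N + 1) A)) p volume ≤
      ENNReal.ofReal U * lqNorm q fun I : P =>
        eLpNorm ((win (N + 1)).indicator (gN (𝓕 f) R (N + 1) (A ∩ I))) p volume := by
    intro N
    have hN : 0 < N + 1 := Nat.succ_pos N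
    have h1 := hup (pulP (N + 1) P) (pulP_isIntPartZ hP1 hP2) (smp (𝓕 f) R (N + 1) A)
    rw [lqNorm_pul hq hP1 (fun J => eLpNorm (projT J (smp (𝓕 f) R (N + 1) A)) p volume) (by
      rw [show projT (∅ : Set ℤ) (smp (𝓕 f) R (N + 1) A) = 0 by
        ext t; simp [projT, Finsupp.sum]]
      simp)] at h1
    simp_rw [projT_smp] at h1
    calc _ = ((N + 1 : ℕ) : ℝ≥0∞) ^ (1 / p).toReal *
            eLpNorm (trigPoly (smp (𝓕 f) R (N + 1) A)) p volume := by
          rw [eLpNorm_win _ _ hN]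
      _ ≤ ((N + 1 : ℕ) : ℝ≥0∞) ^ (1 / p).toReal * (ENNReal.ofReal U * lqNorm q fun I : P =>
            eLpNorm (trigPoly (smp (𝓕 f) R (N + 1) (A ∩ I))) p volume) := mul_le_mul' le_rfl h1
      _ = ENNReal.ofReal U * lqNorm q fun I : P => ((N + 1 : ℕ) : ℝ≥0∞) ^ (1 / p).toReal *
            eLpNorm (trigPoly (smp (𝓕 f) R (N + 1) (A ∩ I))) p volume := by
          rw [lqNorm_const_mul hq]; ring
      _ = _ := by simp_rw [eLpNorm_win _ _ hN]
  set b : P → ℝ≥0∞ := fun I => if I ∈ s then eLpNorm (projR (I : Set ℝ) f) p volume else 0 with hb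
  have hlim : Tendsto (fun N : ℕ => lqNorm q fun I : P =>
        eLpNorm ((win (N + 1)).indicator (gN (𝓕 f) R (N + 1) (A ∩ I))) p volume) atTop
        (𝓝 (lqNorm q b)) := by
    apply tendsto_lqNorm hq s
    · intro I hI
      simp only [hb, if_pos hI, hAI I hI]
      set C := ((2 * R + 1) * M + (2 * M + (2 * R + 1) * Λ)) with hCdef
      have hC : 0 ≤ C := by positivity
      refine tendsto_eLpNorm_dom hp hpt hC (fun N => meas_win_gN _ _ _ _) ?_ ?_
      · intro N t
        by_cases ht : t ∈ win (N + 1)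
        · rw [indicator_of_mem ht]
          apply gN_dominated hM0 hΛ0 hM hΛ (hP2 I I.2) (Nat.succ_pos N)
          rw [win, mem_Ioc] at ht
          rw [abs_le]; exact ⟨by linarith [ht.1], by linarith [ht.2]⟩
        · rw [indicator_of_notMem ht, norm_zero]; positivity
      · intro t
        rw [projR_eq]
        exact tendsto_win_gN hM hR hFc (hP2 I I.2) t
    · intro N I hI
      rw [hAI' I hI]
      have : (win (N + 1)).indicator (gN (𝓕 f) R (N + 1) ∅) = 0 := by
        ext t
        have : gN (𝓕 f) R (N + 1) ∅ = 0 := by ext t; exact gN_empty _ _ _ _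
        rw [this]; simp
      rw [this]; simp
    · intro I hI; simp [hb, hI]
  calc eLpNorm (fun t => ∑ I ∈ s, projR (I : Set ℝ) f t) p volume
      ≤ liminf (fun N : ℕ => eLpNorm ((win (N + 1)).indicator (gN (𝓕 f) R (N + 1) A)) p volume)
        atTop := by
        apply Lp.eLpNorm_lim_le_liminf_eLpNorm (fun N => meas_win_gN _ _ _ _)
        refine Eventually.of_forall fun t => ?_
        have h1 : Tendsto (fun N : ℕ => ∑ I ∈ s,
            (win (N + 1)).indicator (gN (𝓕 f) R (N + 1) (I : Set ℝ)) t) atTop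
            (𝓝 (∑ I ∈ s, projR (I : Set ℝ) f t)) := by
          refine tendsto_finsetSum _ fun I _ => ?_
          rw [projR_eq]
          exact tendsto_win_gN hM hR hFc (hP2 I I.2) t
        refine h1.congr fun N => ?_
        by_cases ht : t ∈ win (N + 1)
        · simp only [indicator_of_mem ht]
          rw [hA, gN_sum hP1]
        · simp only [indicator_of_notMem ht, Finset.sum_const_zero]
    _ ≤ liminf (fun N : ℕ => ENNReal.ofReal U * lqNorm q fun I : P =>
        eLpNorm ((win (N + 1)).indicator (gN (𝓕 f) R (N + 1) (A ∩ I))) p volume) atTop :=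
        liminf_le_liminf (Eventually.of_forall hlevel)
    _ = ENNReal.ofReal U * lqNorm q b :=
        (ENNReal.Tendsto.const_mul hlim (Or.inr ENNReal.ofReal_ne_top)).liminf_eq
    _ ≤ _ := by
        refine mul_le_mul' le_rfl (lqNorm_mono fun I => ?_)
        simp only [hb]
        split_ifs
        · exact le_rfl
        · exact zero_le

end

end Pool.Agent.V11221.Fou
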