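import Mathlib
import Pool.Agent.V11221.FouDefs
import Pool.Agent.V11221.FouA
import Pool.Agent.V11221.FouB

/-!
Failure of upper `ℓ^q(L^p)`-decompositions for `q > 1`, `p ∈ {1, ∞}`.
-/

open MeasureTheory Set Filter Topology
open scoped ENNReal FourierTransform SchwartzMap

namespace Pool.Agent.V11221.Fou

section blocks

/-- blocks of length `L` -/
def blk (L : ℕ) (j : ℤ) : Set ℤ := {n | n / (L : ℤ) = j}

lemma blk_injective {L : ℕ} (hL : 0 < L) : Function.Injective (blk L) := by
  intro i j h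
  have : (L : ℤ) * i ∈ blk L i := by
    show (L : ℤ) * i / L = i
    rw [Int.mul_ediv_cancel_left]; exact_mod_cast hL.ne'
  rw [h] at this
  have h2 : (L : ℤ) * i / L = j := this
  rw [Int.mul_ediv_cancel_left _ (by exact_mod_cast hL.ne')] at h2
  exact h2

lemma blk_part {L : ℕ} (hL : 0 < L) : IsIntPartZ (range (blk L)) := by
  refine ⟨⟨?_, ?_⟩, ?_⟩
  · rintro ⟨j, hj⟩
    have : (L : ℤ) * j ∈ blk L j := by
      show (L : ℤ) * j / L = j
      rw [Int.mul_ediv_cancel_left]; exact_mod_cast hL.ne'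
    rw [hj] at this; exact this
  · intro n
    refine ⟨blk L (n / L), ⟨⟨_, rfl⟩, rfl⟩, ?_⟩
    rintro _ ⟨⟨j, rfl⟩, hj⟩
    have : n / L = j := hj
    rw [this]
  · rintro _ ⟨j, rfl⟩
    constructor
    intro a ha b hb c hc
    have ha' : a / (L : ℤ) = j := ha
    have hb' : b / (L : ℤ) = j := hb
    show c / (L : ℤ) = j
    have hL' : (0 : ℤ) ≤ L := by positivity
    have h1 : a / (L : ℤ) ≤ c / L := Int.ediv_le_ediv (by exact_mod_cast hL) hc.1
    have h2 : c / (L : ℤ) ≤ b / L := Int.ediv_le_ediv (by exact_mod_cast hL) hc.2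
    omega

lemma lqNorm_blk {q : ℝ≥0∞} (hq : 1 ≤ q) {L : ℕ} (hL : 0 < L) (a : Set ℤ → ℝ≥0∞) :
    lqNorm q (fun J : range (blk L) => a J) = lqNorm q (fun j : ℤ => a (blk L j)) := by
  symm
  let e : ℤ → range (blk L) := fun j => ⟨blk L j, j, rfl⟩
  refine lqNorm_comp_injective hq e ?_ (fun J : range (blk L) => a J) ?_
  · intro i j h
    exact blk_injective hL (congrArg Subtype.val h)
  · rintro ⟨_, j, rfl⟩ hk
    exact absurd ⟨j, rfl⟩ hk

lemma lqNorm_le_of_finite {q : ℝ≥0∞} (hq : 1 ≤ q) {a : ℤ → ℝ≥0∞} {m : ℕ} {B : ℝ≥0∞}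
    (h0 : ∀ j ∉ Finset.Ico (0 : ℤ) m, a j = 0) (hB : ∀ j, a j ≤ B) :
    lqNorm q a ≤ B * (m : ℝ≥0∞) ^ (1 / q.toReal) := by
  by_cases hqt : q = ∞
  · subst hqt
    rw [lqNorm_top]
    simp only [ENNReal.toReal_top, div_zero, ENNReal.rpow_zero, mul_one]
    exact iSup_le hB
  · have hp := toReal_pos_of hq hqt
    rw [lqNorm_of_ne hqt]
    have h1 : ∑' j, a j ^ q.toReal = ∑ j ∈ Finset.Ico (0 : ℤ) m, a j ^ q.toReal := by
      apply tsum_eq_sum
      intro j hj
      simp [h0 j hj, hp]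
    calc (∑' j, a j ^ q.toReal) ^ (1 / q.toReal)
        ≤ ((m : ℝ≥0∞) * B ^ q.toReal) ^ (1 / q.toReal) := by
          apply ENNReal.rpow_le_rpow _ (by positivity)
          rw [h1]
          calc _ ≤ ∑ j ∈ Finset.Ico (0 : ℤ) m, B ^ q.toReal :=
                Finset.sum_le_sum fun j _ => ENNReal.rpow_le_rpow (hB j) hp.le
            _ = (m : ℝ≥0∞) * B ^ q.toReal := by
                rw [Finset.sum_const, Int.card_Ico]; simp
      _ = _ := by
          rw [ENNReal.mul_rpow_of_nonneg _ _ (by positivity), ← ENNReal.rpow_mul,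
            mul_one_div_cancel hp.ne', ENNReal.rpow_one, mul_comm]

end blocks

section fails
variable {X : Type*} [NormedAddCommGroup X] [NormedSpace ℂ X]

theorem upperT_false {p q : ℝ≥0∞} (hq : 1 < q)
    (hex : ∀ m : ℕ, 0 < m → ∃ (L : ℕ) (c : ℤ →₀ X), 0 < L ∧
      (∀ j ∉ Finset.Ico (0 : ℤ) m, eLpNorm (projT (blk L j) c) p volume = 0) ∧
      (∀ j, eLpNorm (projT (blk L j) c) p volume ≤ 2) ∧
      (m : ℝ≥0∞) / 2 ≤ eLpNorm (trigPoly c) p volume) : ¬ UpperT X p q := by
  rintro ⟨U, hU, hup⟩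
  set θ := 1 / q.toReal with hθ
  have hθ1 : θ < 1 := by
    by_cases hqt : q = ∞
    · rw [hθ, hqt]; simp
    · have : 1 < q.toReal := by
        rw [← ENNReal.toReal_one]
        exact (ENNReal.toReal_lt_toReal ENNReal.one_ne_top hqt).2 hq
      rw [hθ, div_lt_one (by linarith)]; exact this
  have hθ0 : 0 ≤ θ := by positivity
  have hreal : ∀ m : ℕ, 0 < m → (m : ℝ) ^ (1 - θ) ≤ 4 * U := by
    intro m hm
    have hm' : (0 : ℝ) < m := by exact_mod_cast hm
    obtain ⟨L, c, hL, h0, h2, hlow⟩ := hex m hm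
    have h1 := hup (range (blk L)) (blk_part hL) c
    rw [lqNorm_blk hq.le hL (fun J => eLpNorm (projT J c) p volume)] at h1
    have h3 := lqNorm_le_of_finite hq.le h0 h2
    have h4 : (m : ℝ≥0∞) / 2 ≤ ENNReal.ofReal U * (2 * (m : ℝ≥0∞) ^ θ) :=
      hlow.trans (h1.trans (mul_le_mul' le_rfl h3))
    have h5 : (m : ℝ≥0∞) / 2 = ENNReal.ofReal (m / 2) := by
      rw [ENNReal.ofReal_div_of_pos (by norm_num), ENNReal.ofReal_natCast]; norm_num
    have h6 : ENNReal.ofReal U * (2 * (m : ℝ≥0∞) ^ θ) = ENNReal.ofReal (U * (2 * (m : ℝ) ^ θ)) := by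
      rw [ENNReal.ofReal_mul hU.le, ENNReal.ofReal_mul (by norm_num),
        ← ENNReal.ofReal_rpow_of_pos hm', ENNReal.ofReal_natCast]; norm_num
    rw [h5, h6, ENNReal.ofReal_le_ofReal_iff (by positivity)] at h4
    rw [Real.rpow_sub hm', Real.rpow_one, div_le_iff₀ (by positivity)]
    linarith
  have ht := tendsto_rpow_atTop (sub_pos.2 hθ1)
  have ht2 := ht.comp (tendsto_natCast_atTop_atTop (R := ℝ))
  have ht3 := (ht2.eventually_gt_atTop (4 * U)).and (eventually_gt_atTop 0)
  obtain ⟨m, hm1, hm2⟩ := ht3.exists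
  exact absurd (hreal m hm2) (not_le.2 hm1)

lemma trigPoly_add (c c' : ℤ →₀ X) (t : UnitAddCircle) :
    trigPoly (c + c') t = trigPoly c t + trigPoly c' t := by
  unfold trigPoly
  exact Finsupp.sum_add_index' (fun n => smul_zero _) (fun n a b => smul_add _ _ _)

lemma trigPoly_single (n : ℤ) (x : X) (t : UnitAddCircle) :
    trigPoly (Finsupp.single n x) t = fourier n t • x := by
  unfold trigPoly
  exact Finsupp.sum_single_index (smul_zero _)

lemma trigPoly_zero (t : UnitAddCircle) : trigPoly (0 : ℤ →₀ X) t = 0 := by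
  simp [trigPoly]

lemma trigPoly_sum {ι : Type*} (s : Finset ι) (c : ι → ℤ →₀ X) (t : UnitAddCircle) :
    trigPoly (∑ i ∈ s, c i) t = ∑ i ∈ s, trigPoly (c i) t := by
  classical
  induction s using Finset.induction_on with
  | empty => simp [trigPoly_zero]
  | insert a s ha ih => rw [Finset.sum_insert ha, Finset.sum_insert ha, trigPoly_add, ih]

lemma projT_add (I : Set ℤ) (c c' : ℤ →₀ X) (t : UnitAddCircle) :
    projT I (c + c') t = projT I c t + projT I c' t := by
  classical
  unfold projT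
  refine Finsupp.sum_add_index' (fun n => ?_) (fun n a b => ?_)
  · split_ifs
    · exact smul_zero _
    · rfl
  · split_ifs
    · exact smul_add _ _ _
    · simp

open Classical in
lemma projT_single (I : Set ℤ) (n : ℤ) (x : X) (t : UnitAddCircle) :
    projT I (Finsupp.single n x) t = if n ∈ I then fourier n t • x else 0 := by
  unfold projT
  rw [Finsupp.sum_single_index]
  split_ifs
  · exact smul_zero _
  · rfl

lemma projT_zero (I : Set ℤ) (t : UnitAddCircle) : projT I (0 : ℤ →₀ X) t = 0 := by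
  simp [projT]

lemma projT_sum {ι : Type*} (I : Set ℤ) (s : Finset ι) (c : ι → ℤ →₀ X) (t : UnitAddCircle) :
    projT I (∑ i ∈ s, c i) t = ∑ i ∈ s, projT I (c i) t := by
  classical
  induction s using Finset.induction_on with
  | empty => simp [projT_zero]
  | insert a s ha ih => rw [Finset.sum_insert ha, Finset.sum_insert ha, projT_add, ih]

lemma norm_fourier_apply (n : ℤ) (t : UnitAddCircle) : ‖(fourier n t : ℂ)‖ = 1 := by
  rw [fourier_apply]; exact Circle.norm_coe _

omit [NormedSpace ℂ X] in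
lemma enorm_le_eLpNorm_top {h : UnitAddCircle → X} (hh : Continuous h) (s : UnitAddCircle) :
    ‖h s‖ₑ ≤ eLpNorm h ∞ volume := by
  rw [eLpNorm_exponent_top]
  by_contra hcon
  push Not at hcon
  have hopen : IsOpen {t | eLpNormEssSup h volume < ‖h t‖ₑ} :=
    isOpen_lt continuous_const hh.enorm
  have hnull : volume {t | eLpNormEssSup h volume < ‖h t‖ₑ} = 0 := by
    have := ae_le_eLpNormEssSup (f := h) (μ := (volume : Measure UnitAddCircle))
    rw [ae_iff] at this
    simpa only [not_le] using this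
  rw [hopen.measure_eq_zero_iff volume] at hnull
  have : s ∈ ({t | eLpNormEssSup h volume < ‖h t‖ₑ} : Set UnitAddCircle) := hcon
  rw [hnull] at this
  exact this

variable (X)

lemma exists_unit_vec [Nontrivial X] : ∃ x : X, ‖x‖ = 1 := by
  obtain ⟨y, hy⟩ := exists_ne (0 : X)
  refine ⟨((‖y‖⁻¹ : ℝ) : ℂ) • y, ?_⟩
  have : ‖y‖ ≠ 0 := norm_ne_zero_iff.2 hy
  rw [norm_smul, Complex.norm_real, norm_inv, norm_norm, inv_mul_cancel₀ this]

/-- `p = ∞`, `q > 1` -/
theorem upperT_top_false [Nontrivial X] {q : ℝ≥0∞} (hq : 1 < q) : ¬ UpperT X ∞ q := by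
  classical
  obtain ⟨x, hx⟩ := exists_unit_vec X
  apply upperT_false hq
  intro m hm
  refine ⟨1, ∑ n ∈ Finset.range m, Finsupp.single (n : ℤ) x, one_pos, ?_, ?_, ?_⟩
  · intro j hj
    have : projT (blk 1 j) (∑ n ∈ Finset.range m, Finsupp.single (n : ℤ) x) = 0 := by
      ext t
      rw [projT_sum]
      apply Finset.sum_eq_zero
      intro n hn
      rw [projT_single, if_neg]
      intro hmem
      have h1 : (n : ℤ) / ((1 : ℕ) : ℤ) = j := hmem
      apply hj
      rw [Finset.mem_Ico, ← h1]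
      rw [Finset.mem_range] at hn
      simp; exact_mod_cast hn
    rw [this]; simp
  · intro j
    have : ∀ t, ‖projT (blk 1 j) (∑ n ∈ Finset.range m, Finsupp.single (n : ℤ) x) t‖ ≤ 1 := by
      intro t
      rw [projT_sum]
      by_cases hj : ∃ n ∈ Finset.range m, (n : ℤ) = j
      · obtain ⟨n, hn, rfl⟩ := hj
        rw [Finset.sum_eq_single_of_mem n hn]
        · rw [projT_single, if_pos (by show (n : ℤ) / ((1 : ℕ) : ℤ) = n; simp), norm_smul, hx,
            norm_fourier_apply, one_mul]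
        · intro b _ hb
          rw [projT_single, if_neg]
          intro hmem
          have h1 : (b : ℤ) / ((1 : ℕ) : ℤ) = n := hmem
          simp at h1
          exact hb h1
      · rw [Finset.sum_eq_zero]
        · simp
        · intro n hn
          rw [projT_single, if_neg]
          intro hmem
          have h1 : (n : ℤ) / ((1 : ℕ) : ℤ) = j := hmem
          exact hj ⟨n, hn, by simpa using h1⟩
    rw [eLpNorm_exponent_top]
    refine (eLpNormEssSup_le_of_ae_bound (C := 1) (Eventually.of_forall this)).trans ?_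
    simp
  · have h1 := enorm_le_eLpNorm_top (X := X) (continuous_trigPoly
      (∑ n ∈ Finset.range m, Finsupp.single (n : ℤ) x)) 0
    refine le_trans ?_ h1
    rw [trigPoly_sum]
    have : ∑ n ∈ Finset.range m, trigPoly (Finsupp.single (n : ℤ) x) (0 : UnitAddCircle) =
        ((m : ℂ)) • x := by
      simp_rw [trigPoly_single]
      have h2 : ∀ n : ℕ, (fourier (n : ℤ) (0 : UnitAddCircle) : ℂ) = 1 := by
        intro n; rw [← QuotientAddGroup.mk_zero, fourier_coe_apply]; simp
      simp_rw [h2, one_smul]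
      rw [Finset.sum_const, Finset.card_range, Nat.cast_smul_eq_nsmul]
    rw [this, enorm_smul]
    have h3 : ‖x‖ₑ = 1 := by rw [← ofReal_norm, hx]; simp
    rw [h3, mul_one]
    have h4 : ‖(m : ℂ)‖ₑ = m := by
      rw [← ofReal_norm, Complex.norm_natCast, ENNReal.ofReal_natCast]
    rw [h4]
    exact ENNReal.half_le_self

end fails

end Pool.Agent.V11221.Fou
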