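import Mathlib
import Pool.Agent.V11221.FouDefs
import Pool.Agent.V11221.FouA
import Pool.Agent.V11221.FouB
import Pool.Agent.V11221.FouH

/-!
Failure of upper `ℓ^q(L^1)`-decompositions for `q > 1`.
-/

open MeasureTheory Set Filter Topology
open scoped ENNReal FourierTransform SchwartzMap

namespace Pool.Agent.V11221.Fou

/-- the tent function -/
noncomputable def tent0 (m : ℕ) (t : UnitAddCircle) : ℝ := max 0 (1 - 2 * m * ‖t‖)

lemma tent0_continuous (m : ℕ) : Continuous (tent0 m) := by unfold tent0; fun_prop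

lemma tent0_nonneg (m : ℕ) (t : UnitAddCircle) : 0 ≤ tent0 m t := le_max_left _ _

lemma tent0_int_pos (m : ℕ) : 0 < ∫ t, tent0 m t := by
  apply (tent0_continuous m).integral_pos_of_hasCompactSupport_nonneg_nonzero (x := 0)
    (HasCompactSupport.of_compactSpace _) (tent0_nonneg m)
  simp [tent0]

/-- the normalised tent -/
noncomputable def tent (m : ℕ) (t : UnitAddCircle) : ℝ := (∫ s, tent0 m s)⁻¹ * tent0 m t

lemma tent_continuous (m : ℕ) : Continuous (tent m) := continuous_const.mul (tent0_continuous m)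

lemma tent_nonneg (m : ℕ) (t : UnitAddCircle) : 0 ≤ tent m t :=
  mul_nonneg (inv_nonneg.2 (tent0_int_pos m).le) (tent0_nonneg m t)

lemma tent_lintegral (m : ℕ) : ∫⁻ t, ENNReal.ofReal (tent m t) = 1 := by
  have hint : Integrable (tent m) :=
    (tent_continuous m).integrable_of_hasCompactSupport (HasCompactSupport.of_compactSpace _)
  rw [← ofReal_integral_eq_lintegral_ofReal hint (Eventually.of_forall (tent_nonneg m))]
  unfold tent
  rw [integral_const_mul, inv_mul_cancel₀ (tent0_int_pos m).ne', ENNReal.ofReal_one]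

lemma tent_ne_zero_imp {m : ℕ} (hm : 0 < m) {t : UnitAddCircle} (h : tent m t ≠ 0) :
    ‖t‖ < 1 / (2 * m) := by
  have hm' : (0 : ℝ) < m := by exact_mod_cast hm
  have h0 : tent0 m t ≠ 0 := by
    intro h0; apply h; unfold tent; rw [h0, mul_zero]
  rw [lt_div_iff₀ (by positivity)]
  by_contra hcon
  apply h0
  unfold tent0
  rw [max_eq_left]
  nlinarith

lemma sep {m : ℕ} (hm : 0 < m) {i j : ℕ} (hi : i < m) (hj : j < m) (hij : i ≠ j) :
    1 / (m : ℝ) ≤ ‖((((i : ℝ) / m : ℝ) : UnitAddCircle)) - (((j : ℝ) / m : ℝ) : UnitAddCircle)‖ := by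
  have hm' : (0 : ℝ) < m := by exact_mod_cast hm
  rw [← AddCircle.coe_sub, UnitAddCircle.norm_eq]
  set r := round ((i : ℝ) / m - (j : ℝ) / m) with hr
  have h1 : (i : ℝ) / m - (j : ℝ) / m - r = (((i : ℤ) - j - r * m : ℤ) : ℝ) / m := by
    push_cast; field_simp
  have hne : ((i : ℤ) - j - r * m : ℤ) ≠ 0 := by
    intro h0
    have hdvd : (m : ℤ) ∣ ((i : ℤ) - j) := ⟨r, by linarith⟩
    have := Int.eq_zero_of_abs_lt_dvd hdvd (by
      rw [abs_lt]; constructor <;> omega)
    omega
  rw [h1, abs_div, abs_of_pos hm']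
  apply div_le_div_of_nonneg_right _ hm'.le
  have : (1 : ℤ) ≤ |((i : ℤ) - j - r * m : ℤ)| := Int.one_le_abs hne
  exact_mod_cast this

/-- a trigonometric polynomial uniformly close to the tent -/
lemma exists_kernel (m : ℕ) : ∃ k : ℤ →₀ ℂ, ∀ t : UnitAddCircle,
    ‖trigPoly k t - ((tent m t : ℝ) : ℂ)‖ ≤ 1 / 2 := by
  let b : C(UnitAddCircle, ℂ) := ⟨fun t => ((tent m t : ℝ) : ℂ),
    Complex.continuous_ofReal.comp (tent_continuous m)⟩
  have hb : b ∈ (Submodule.span ℂ (range <| @fourier 1)).topologicalClosure := by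
    rw [span_fourier_closure_eq_top]; trivial
  have hb' : b ∈ closure ((Submodule.span ℂ (range <| @fourier 1) :
      Submodule ℂ C(UnitAddCircle, ℂ)) : Set C(UnitAddCircle, ℂ)) := hb
  obtain ⟨K, hK, hd⟩ := Metric.mem_closure_iff.1 hb' (1 / 2) (by norm_num)
  obtain ⟨k, hk⟩ := Finsupp.mem_span_range_iff_exists_finsupp.1 hK
  refine ⟨k, fun t => ?_⟩
  have h1 : trigPoly k t = K t := by
    rw [← hk, trigPoly, Finsupp.sum, Finsupp.sum, ContinuousMap.sum_apply]
    refine Finset.sum_congr rfl fun n _ => ?_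
    simp [mul_comm]
  have h2 := (ContinuousMap.dist_apply_le_dist t).trans hd.le
  rw [h1, ← dist_eq_norm, dist_comm]
  exact h2

section
variable {X : Type*} [NormedAddCommGroup X] [NormedSpace ℂ X]

/-- the pieces of the counterexample -/
noncomputable def pc (k : ℤ →₀ ℂ) (s : UnitAddCircle) (A : ℤ) (x : X) : ℤ →₀ X :=
  ∑ l ∈ k.support, Finsupp.single (A + l) ((fourier l (-s) * k l) • x)

lemma trigPoly_pc (k : ℤ →₀ ℂ) (s : UnitAddCircle) (A : ℤ) (x : X) (t : UnitAddCircle) :
    trigPoly (pc k s A x) t = (fourier A t * trigPoly k (t - s)) • x := by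
  rw [pc, trigPoly_sum]
  simp_rw [trigPoly_single]
  rw [trigPoly, Finsupp.sum, Finset.mul_sum, Finset.sum_smul]
  refine Finset.sum_congr rfl fun l _ => ?_
  rw [smul_smul]
  congr 1
  have h1 : (fourier l (t - s) : ℂ) = fourier l t * fourier l (-s) := by
    rw [sub_eq_add_neg, fourier_apply, fourier_apply, fourier_apply, zsmul_add,
      AddCircle.toCircle_add, Circle.coe_mul]
  rw [fourier_add, h1, smul_eq_mul]; ring

lemma projT_pc_of_subset {I : Set ℤ} {k : ℤ →₀ ℂ} {s : UnitAddCircle} {A : ℤ} {x : X}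
    (h : ∀ l ∈ k.support, A + l ∈ I) (t : UnitAddCircle) :
    projT I (pc k s A x) t = trigPoly (pc k s A x) t := by
  classical
  rw [pc, projT_sum, trigPoly_sum]
  refine Finset.sum_congr rfl fun l hl => ?_
  rw [projT_single, if_pos (h l hl), trigPoly_single]

lemma projT_pc_of_disjoint {I : Set ℤ} {k : ℤ →₀ ℂ} {s : UnitAddCircle} {A : ℤ} {x : X}
    (h : ∀ l ∈ k.support, A + l ∉ I) (t : UnitAddCircle) :
    projT I (pc k s A x) t = 0 := by
  classical
  rw [pc, projT_sum]
  refine Finset.sum_eq_zero fun l hl => ?_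
  rw [projT_single, if_neg (h l hl)]

lemma supp_bound (k : ℤ →₀ ℂ) : ∃ M : ℕ, ∀ l ∈ k.support, |l| ≤ M := by
  refine ⟨k.support.sup Int.natAbs, fun l hl => ?_⟩
  have : l.natAbs ≤ k.support.sup Int.natAbs := Finset.le_sup hl
  rw [Int.abs_eq_natAbs]
  exact_mod_cast this

lemma blk_mem_iff {M : ℕ} {j i l : ℤ} (hl : |l| ≤ M) :
    ((2 * M + 1 : ℕ) : ℤ) * j + M + l ∈ blk (2 * M + 1) i ↔ j = i := by
  have hl1 := abs_le.1 hl
  have h1 : (((2 * M + 1 : ℕ) : ℤ) * j + M + l) / ((2 * M + 1 : ℕ) : ℤ) = j := by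
    rw [Int.ediv_eq_iff_of_pos (by positivity)]
    constructor
    · push_cast; nlinarith [hl1.1, hl1.2]
    · push_cast; nlinarith [hl1.1, hl1.2]
  show (_ / _ = i) ↔ _
  rw [h1]

end

variable (X : Type*) [NormedAddCommGroup X] [NormedSpace ℂ X]

/-- `p = 1`, `q > 1` -/
theorem upperT_one_false [Nontrivial X] {q : ℝ≥0∞} (hq : 1 < q) : ¬ UpperT X 1 q := by
  classical
  obtain ⟨x, hx⟩ := exists_unit_vec X
  apply upperT_false hq
  intro m hm
  have hm' : (0 : ℝ) < m := by exact_mod_cast hm
  obtain ⟨k, hk⟩ := exists_kernel m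
  obtain ⟨M, hM⟩ := supp_bound k
  set L : ℕ := 2 * M + 1 with hL
  let s : ℕ → UnitAddCircle := fun j => (((j : ℝ) / m : ℝ) : UnitAddCircle)
  let A : ℕ → ℤ := fun j => (L : ℤ) * j + M
  let c : ℤ →₀ X := ∑ j ∈ Finset.range m, pc k (s j) (A j) x
  have hxe : ‖x‖ₑ = 1 := by rw [← ofReal_norm, hx]; simp
  have hproj : ∀ (i : ℤ) (j : ℕ) (t : UnitAddCircle), projT (blk L i) (pc k (s j) (A j) x) t =
      if (j : ℤ) = i then trigPoly (pc k (s j) (A j) x) t else 0 := by
    intro i j t
    split_ifs with h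
    · apply projT_pc_of_subset
      intro l hl
      exact (blk_mem_iff (hM l hl)).2 h
    · apply projT_pc_of_disjoint
      intro l hl hmem
      exact h ((blk_mem_iff (hM l hl)).1 hmem)
  have hnorm : ∀ (j : ℕ) (t : UnitAddCircle), ‖trigPoly (pc k (s j) (A j) x) t‖ =
      ‖trigPoly k (t - s j)‖ := by
    intro j t
    rw [trigPoly_pc, norm_smul, hx, mul_one, norm_mul, norm_fourier_apply, one_mul]
  have hKnorm : ∀ j : ℕ, eLpNorm (trigPoly (pc k (s j) (A j) x)) 1 volume ≤ 2 := by
    intro j
    rw [eLpNorm_one_eq_lintegral_enorm]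
    calc ∫⁻ t, ‖trigPoly (pc k (s j) (A j) x) t‖ₑ
        ≤ ∫⁻ t, (ENNReal.ofReal (tent m (t - s j)) + ENNReal.ofReal (1 / 2)) := by
          apply lintegral_mono
          intro t
          show ‖trigPoly (pc k (s j) (A j) x) t‖ₑ ≤
            ENNReal.ofReal (tent m (t - s j)) + ENNReal.ofReal (1 / 2)
          rw [← ofReal_norm, hnorm, ← ENNReal.ofReal_add (tent_nonneg _ _) (by norm_num)]
          apply ENNReal.ofReal_le_ofReal
          have h1 := hk (t - s j)
          have h2 : ‖((tent m (t - s j) : ℝ) : ℂ)‖ = tent m (t - s j) := by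
            rw [Complex.norm_real, Real.norm_of_nonneg (tent_nonneg _ _)]
          have h3 : ‖trigPoly k (t - s j)‖ ≤ ‖trigPoly k (t - s j) - ((tent m (t - s j) : ℝ) : ℂ)‖ +
              ‖((tent m (t - s j) : ℝ) : ℂ)‖ := by
            calc _ = ‖(trigPoly k (t - s j) - ((tent m (t - s j) : ℝ) : ℂ)) +
                ((tent m (t - s j) : ℝ) : ℂ)‖ := by rw [sub_add_cancel]
              _ ≤ _ := norm_add_le _ _
          linarith
      _ = 1 + ENNReal.ofReal (1 / 2) := by
          rw [lintegral_add_right _ measurable_const,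
            lintegral_sub_right_eq_self (fun t => ENNReal.ofReal (tent m t)) (s j),
            tent_lintegral, lintegral_const, UnitAddCircle.measure_univ, mul_one]
      _ ≤ 1 + 1 := by
          gcongr
          rw [← ENNReal.ofReal_one]
          exact ENNReal.ofReal_le_ofReal (by norm_num)
      _ = 2 := by norm_num
  refine ⟨L, c, by omega, ?_, ?_, ?_⟩
  · intro i hi
    have : projT (blk L i) c = 0 := by
      ext t
      show projT (blk L i) (∑ j ∈ Finset.range m, pc k (s j) (A j) x) t = 0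
      rw [projT_sum]
      apply Finset.sum_eq_zero
      intro j hj
      rw [hproj, if_neg]
      rintro rfl
      apply hi
      rw [Finset.mem_Ico]; rw [Finset.mem_range] at hj
      exact ⟨by positivity, by exact_mod_cast hj⟩
    rw [this]; simp
  · intro i
    by_cases hi : ∃ j ∈ Finset.range m, (j : ℤ) = i
    · obtain ⟨j, hj, rfl⟩ := hi
      have : projT (blk L j) c = trigPoly (pc k (s j) (A j) x) := by
        ext t
        show projT (blk L j) (∑ j ∈ Finset.range m, pc k (s j) (A j) x) t = _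
        rw [projT_sum, Finset.sum_eq_single_of_mem j hj]
        · rw [hproj, if_pos rfl]
        · intro b _ hb
          rw [hproj, if_neg]
          intro h; exact hb (by exact_mod_cast h)
      rw [this]
      exact hKnorm j
    · have : projT (blk L i) c = 0 := by
        ext t
        show projT (blk L i) (∑ j ∈ Finset.range m, pc k (s j) (A j) x) t = 0
        rw [projT_sum]
        apply Finset.sum_eq_zero
        intro j hj
        rw [hproj, if_neg]
        intro h; exact hi ⟨j, hj, h⟩
      rw [this]; simp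
  · rw [eLpNorm_one_eq_lintegral_enorm]
    have hpt : ∀ t : UnitAddCircle, ∑ j ∈ Finset.range m, ENNReal.ofReal (tent m (t - s j)) ≤
        ‖trigPoly c t‖ₑ + (m : ℝ≥0∞) / 2 := by
      intro t
      have h1 : ∑ j ∈ Finset.range m, ENNReal.ofReal (tent m (t - s j)) =
          ‖∑ j ∈ Finset.range m, (fourier (A j) t * ((tent m (t - s j) : ℝ) : ℂ)) • x‖ₑ := by
        have hterm : ∀ j, ‖(fourier (A j) t * ((tent m (t - s j) : ℝ) : ℂ)) • x‖ₑ =
            ENNReal.ofReal (tent m (t - s j)) := by
          intro j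
          rw [enorm_smul, hxe, mul_one, ← ofReal_norm, norm_mul, norm_fourier_apply, one_mul,
            Complex.norm_real, Real.norm_of_nonneg (tent_nonneg _ _)]
        by_cases hex : ∃ j ∈ Finset.range m, tent m (t - s j) ≠ 0
        · obtain ⟨j, hj, hne⟩ := hex
          have hz : ∀ b ∈ Finset.range m, b ≠ j → tent m (t - s b) = 0 := by
            intro b hb hbj
            by_contra hne'
            have e1 := tent_ne_zero_imp hm hne
            have e2 := tent_ne_zero_imp hm hne'
            have e3 := sep hm (Finset.mem_range.1 hb) (Finset.mem_range.1 hj) hbj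
            have e4 : s b - s j = (t - s j) - (t - s b) := by abel
            have e5 : ‖s b - s j‖ < 1 / m := by
              rw [e4]
              refine (norm_sub_le _ _).trans_lt ?_
              have : 1 / (m : ℝ) = 1 / (2 * m) + 1 / (2 * m) := by field_simp; norm_num
              linarith
            exact absurd e3 (not_le.2 e5)
          rw [Finset.sum_eq_single_of_mem j hj (fun b hb hbj => by rw [hz b hb hbj]; simp),
            Finset.sum_eq_single_of_mem j hj (fun b hb hbj => by rw [hz b hb hbj]; simp), hterm]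
        · push Not at hex
          rw [Finset.sum_eq_zero (fun j hj => by rw [hex j hj]; simp),
            Finset.sum_eq_zero (fun j hj => by rw [hex j hj]; simp), enorm_zero]
      rw [h1]
      have h2 : ∑ j ∈ Finset.range m, (fourier (A j) t * ((tent m (t - s j) : ℝ) : ℂ)) • x =
          trigPoly c t + ∑ j ∈ Finset.range m,
            (fourier (A j) t * (((tent m (t - s j) : ℝ) : ℂ) - trigPoly k (t - s j))) • x := by
        show _ = trigPoly (∑ j ∈ Finset.range m, pc k (s j) (A j) x) t + _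
        rw [trigPoly_sum, ← Finset.sum_add_distrib]
        refine Finset.sum_congr rfl fun j _ => ?_
        rw [trigPoly_pc, ← add_smul]
        congr 1; ring
      rw [h2]
      refine (enorm_add_le _ _).trans ?_
      gcongr
      rw [← ofReal_norm]
      have h3 : (m : ℝ≥0∞) / 2 = ENNReal.ofReal (m / 2) := by
        rw [ENNReal.ofReal_div_of_pos (by norm_num), ENNReal.ofReal_natCast]; norm_num
      rw [h3]
      apply ENNReal.ofReal_le_ofReal
      refine (norm_sum_le _ _).trans ?_
      calc _ ≤ ∑ j ∈ Finset.range m, (1 / 2 : ℝ) := by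
            refine Finset.sum_le_sum fun j _ => ?_
            rw [norm_smul, hx, mul_one, norm_mul, norm_fourier_apply, one_mul, norm_sub_rev]
            exact hk (t - s j)
        _ = m / 2 := by rw [Finset.sum_const, Finset.card_range, nsmul_eq_mul]; ring
    have hint : (m : ℝ≥0∞) ≤ (∫⁻ t, ‖trigPoly c t‖ₑ) + (m : ℝ≥0∞) / 2 := by
      calc (m : ℝ≥0∞) = ∑ j ∈ Finset.range m, ∫⁻ t, ENNReal.ofReal (tent m (t - s j)) := by
            simp_rw [lintegral_sub_right_eq_self (fun t => ENNReal.ofReal (tent m t)),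
              tent_lintegral]
            simp
        _ = ∫⁻ t, ∑ j ∈ Finset.range m, ENNReal.ofReal (tent m (t - s j)) := by
            rw [lintegral_finsetSum]
            intro j _
            exact (ENNReal.continuous_ofReal.comp ((tent_continuous m).comp
              (continuous_id.sub continuous_const))).measurable
        _ ≤ ∫⁻ t, (‖trigPoly c t‖ₑ + (m : ℝ≥0∞) / 2) := lintegral_mono hpt
        _ = _ := by
            rw [lintegral_add_right _ measurable_const, lintegral_const, UnitAddCircle.measure_univ, mul_one]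
    have hfin : (m : ℝ≥0∞) / 2 ≠ ∞ := ENNReal.div_ne_top (ENNReal.natCast_ne_top m) (by norm_num)
    have hsplit : (m : ℝ≥0∞) = (m : ℝ≥0∞) / 2 + (m : ℝ≥0∞) / 2 := (ENNReal.add_halves _).symm
    have h9 : (m : ℝ≥0∞) / 2 + (m : ℝ≥0∞) / 2 ≤ (∫⁻ t, ‖trigPoly c t‖ₑ) + (m : ℝ≥0∞) / 2 := by
      rw [← hsplit]; exact hint
    exact (ENNReal.add_le_add_iff_right hfin).1 h9

end Pool.Agent.V11221.Fou
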