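import Mathlib

/-!
Monotone symmetrizations fixing all `H`-symmetric spherical cylinders are projection invariant.
-/

namespace Pool.Agent.V11221.SpherCyl

open Metric Pointwise

/-- `ℝⁿ` with its Euclidean structure. -/
abbrev E (n : ℕ) := EuclideanSpace ℝ (Fin n)

/-- `𝒦ⁿ`: the class of nonempty compact convex subsets of `ℝⁿ`. -/
def Kall (n : ℕ) : Set (Set (E n)) :=
  {K | K.Nonempty ∧ IsCompact K ∧ Convex ℝ K}

/-- `𝒦ⁿ_n`: the class of convex bodies (compact convex sets with nonempty interior). -/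
def Kbody (n : ℕ) : Set (Set (E n)) :=
  {K | IsCompact K ∧ Convex ℝ K ∧ (interior K).Nonempty}

/-- `K|H`, the orthogonal projection of `K` onto `H`. -/
def proj {n : ℕ} (H : Submodule ℝ (E n)) (K : Set (E n)) : Set (E n) :=
  (fun p => H.starProjection p) '' K

/-- the reflection in `H`: `p ↦ 2 (p|H) - p`. -/
noncomputable def refl {n : ℕ} (H : Submodule ℝ (E n)) (p : E n) : E n :=
  (2 : ℝ) • H.starProjection p - p

/-- `K` is `H`-symmetric: it equals its image under the reflection in `H`. -/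
def HSym {n : ℕ} (H : Submodule ℝ (E n)) (K : Set (E n)) : Prop :=
  (refl H) '' K = K

/-- A symmetrization `𝓑 → 𝓑_H`. -/
abbrev Symm {n : ℕ} (B : Set (Set (E n))) (H : Submodule ℝ (E n)) :=
  {K : Set (E n) // K ∈ B} → {K : Set (E n) // K ∈ B ∧ HSym H K}

/-- The spherical cylinder `D_r(x) + s (Bⁿ ∩ H^⊥)`. -/
def cyl {n : ℕ} (H : Submodule ℝ (E n)) (x : E n) (r s : ℝ) : Set (E n) :=
  (closedBall x r ∩ (H : Set (E n))) +
    s • (closedBall (0 : E n) 1 ∩ ((Hᗮ : Submodule ℝ (E n)) : Set (E n)))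

/-- `◇` is monotonic. -/
def Monotonic {n : ℕ} {B : Set (Set (E n))} {H : Submodule ℝ (E n)} (S : Symm B H) : Prop :=
  ∀ K L : {K : Set (E n) // K ∈ B}, K.1 ⊆ L.1 → (S K).1 ⊆ (S L).1

/-- `◇` is strictly monotonic. -/
def StrictlyMonotonic {n : ℕ} {B : Set (Set (E n))} {H : Submodule ℝ (E n)}
    (S : Symm B H) : Prop :=
  Monotonic S ∧ ∀ K L : {K : Set (E n) // K ∈ B}, K.1 ⊆ L.1 → K.1 ≠ L.1 → (S K).1 ≠ (S L).1

/-- `◇` is idempotent: `◇(◇K) = ◇K`. -/
def Idempotent {n : ℕ} {B : Set (Set (E n))} {H : Submodule ℝ (E n)} (S : Symm B H) : Prop :=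
  ∀ K : {K : Set (E n) // K ∈ B}, (S ⟨(S K).1, (S K).2.1⟩).1 = (S K).1

/-- `◇` is invariant on `H`-symmetric spherical cylinders. -/
def InvCyl {n : ℕ} {B : Set (Set (E n))} {H : Submodule ℝ (E n)} (S : Symm B H) : Prop :=
  ∀ K : {K : Set (E n) // K ∈ B}, ∀ x ∈ H, ∀ r > 0, ∀ s > 0,
    K.1 = cyl H x r s → (S K).1 = K.1

/-- `◇` is projection invariant: `(◇K)|H = K|H` for all `K`. -/
def ProjInvariant {n : ℕ} {B : Set (Set (E n))} {H : Submodule ℝ (E n)} (S : Symm B H) : Prop :=
  ∀ K : {K : Set (E n) // K ∈ B}, proj H (S K).1 = proj H K.1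

/-- `F` is strictly increasing. -/
def StrictlyIncreasing {n : ℕ} {B : Set (Set (E n))}
    (F : {K : Set (E n) // K ∈ B} → NNReal) : Prop :=
  ∀ K L : {K : Set (E n) // K ∈ B}, K.1 ⊂ L.1 → F K < F L

/-- `◇` is `F`-preserving. -/
def Preserves {n : ℕ} {B : Set (Set (E n))} {H : Submodule ℝ (E n)}
    (F : {K : Set (E n) // K ∈ B} → NNReal) (S : Symm B H) : Prop :=
  ∀ K : {K : Set (E n) // K ∈ B}, F ⟨(S K).1, (S K).2.1⟩ = F K

section Proofs

variable {n : ℕ} {H : Submodule ℝ (E n)}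

lemma mem_cyl {x : E n} (_hx : x ∈ H) {r s : ℝ} (hs : 0 < s) (p : E n) :
    p ∈ cyl H x r s ↔ ‖H.starProjection p - x‖ ≤ r ∧ ‖p - H.starProjection p‖ ≤ s := by
  unfold cyl
  rw [Set.mem_add]
  constructor
  · rintro ⟨a, ⟨ha, haH⟩, b, hb, rfl⟩
    rw [Set.mem_smul_set] at hb
    obtain ⟨c, ⟨hc, hcH⟩, rfl⟩ := hb
    have hbH : s • c ∈ Hᗮ := Submodule.smul_mem _ _ hcH
    have hpr : H.starProjection (a + s • c) = a := by
      rw [map_add, Submodule.starProjection_eq_self_iff.2 haH,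
        (Submodule.starProjection_apply_eq_zero_iff H).2 hbH, add_zero]
    rw [hpr]
    refine ⟨by simpa [dist_eq_norm] using ha, ?_⟩
    rw [add_sub_cancel_left, norm_smul, Real.norm_of_nonneg hs.le]
    have : ‖c‖ ≤ 1 := by simpa using hc
    nlinarith
  · rintro ⟨h1, h2⟩
    refine ⟨H.starProjection p, ⟨?_, Submodule.starProjection_apply_mem H p⟩,
      p - H.starProjection p, ?_, by abel⟩
    · simpa [dist_eq_norm] using h1
    · rw [Set.mem_smul_set]
      refine ⟨s⁻¹ • (p - H.starProjection p), ⟨?_, ?_⟩, ?_⟩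
      · rw [mem_closedBall, dist_zero_right, norm_smul, norm_inv, Real.norm_of_nonneg hs.le]
        rw [inv_mul_le_iff₀ hs]; simpa using h2
      · exact Submodule.smul_mem _ _ (Submodule.sub_starProjection_mem_orthogonal p)
      · rw [smul_smul, mul_inv_cancel₀ hs.ne', one_smul]

lemma refl_cyl {x : E n} (hx : x ∈ H) {r s : ℝ} (hs : 0 < s) : HSym H (cyl H x r s) := by
  have key : ∀ p, H.starProjection (refl H p) = H.starProjection p := by
    intro p
    unfold refl
    rw [map_sub, map_smul]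
    rw [Submodule.starProjection_eq_self_iff.2 (Submodule.starProjection_apply_mem H p)]
    rw [two_smul]; abel
  have inv : ∀ p, refl H (refl H p) = p := by
    intro p
    have := key p
    conv_lhs => unfold refl
    have h2 : H.starProjection ((2 : ℝ) • H.starProjection p - p) = H.starProjection p := key p
    rw [h2]; abel
  have hmem : ∀ p, p ∈ cyl H x r s → refl H p ∈ cyl H x r s := by
    intro p hp
    rw [mem_cyl hx hs] at hp ⊢
    rw [key]
    refine ⟨hp.1, ?_⟩
    have : refl H p - H.starProjection p = -(p - H.starProjection p) := by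
      unfold refl; rw [two_smul]; abel
    rw [this, norm_neg]; exact hp.2
  unfold HSym
  ext p
  constructor
  · rintro ⟨q, hq, rfl⟩; exact hmem q hq
  · intro hp; exact ⟨refl H p, hmem p hp, inv p⟩

lemma cyl_compact {x : E n} (hx : x ∈ H) {r s : ℝ} (hs : 0 < s) : IsCompact (cyl H x r s) := by
  have hclosed : IsClosed (cyl H x r s) := by
    have : cyl H x r s = {p | ‖H.starProjection p - x‖ ≤ r} ∩ {p | ‖p - H.starProjection p‖ ≤ s} := by
      ext p; exact mem_cyl hx hs p
    rw [this]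
    apply IsClosed.inter
    · exact isClosed_le (by fun_prop) continuous_const
    · exact isClosed_le (by fun_prop) continuous_const
  apply Metric.isCompact_of_isClosed_isBounded hclosed
  rw [Metric.isBounded_iff_subset_closedBall x]
  refine ⟨s + r, ?_⟩
  intro p hp
  rw [mem_cyl hx hs] at hp
  rw [mem_closedBall, dist_eq_norm]
  calc ‖p - x‖ = ‖(p - H.starProjection p) + (H.starProjection p - x)‖ := by congr 1; abel
    _ ≤ ‖p - H.starProjection p‖ + ‖H.starProjection p - x‖ := norm_add_le _ _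
    _ ≤ s + r := add_le_add hp.2 hp.1

lemma cyl_convex {x : E n} {r s : ℝ} : Convex ℝ (cyl H x r s) := by
  unfold cyl
  apply Convex.add
  · exact (convex_closedBall _ _).inter H.convex
  · apply Convex.smul
    exact (convex_closedBall _ _).inter (Hᗮ).convex

lemma cyl_interior {x : E n} (hx : x ∈ H) {r s : ℝ} (hr : 0 < r) (hs : 0 < s) :
    (interior (cyl H x r s)).Nonempty := by
  refine ⟨x, ?_⟩
  rw [mem_interior]
  refine ⟨{p | ‖H.starProjection p - x‖ < r} ∩ {p | ‖p - H.starProjection p‖ < s}, ?_, ?_, ?_⟩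
  · rintro p ⟨h1, h2⟩
    rw [mem_cyl hx hs]
    exact ⟨le_of_lt h1, le_of_lt h2⟩
  · apply IsOpen.inter
    · exact isOpen_lt (by fun_prop) continuous_const
    · exact isOpen_lt (by fun_prop) continuous_const
  · have hxx := Submodule.starProjection_eq_self_iff.2 hx
    constructor
    · show ‖H.starProjection x - x‖ < r
      rw [hxx, sub_self, norm_zero]; exact hr
    · show ‖x - H.starProjection x‖ < s
      rw [hxx, sub_self, norm_zero]; exact hs

lemma cyl_mem {x : E n} (hx : x ∈ H) {r s : ℝ} (hr : 0 < r) (hs : 0 < s)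
    {B : Set (Set (E n))} (hB : B = Kall n ∨ B = Kbody n) : cyl H x r s ∈ B := by
  rcases hB with rfl | rfl
  · exact ⟨(cyl_interior hx hr hs).mono interior_subset, cyl_compact hx hs, cyl_convex⟩
  · exact ⟨cyl_compact hx hs, cyl_convex, cyl_interior hx hr hs⟩

lemma nonempty_of_mem {B : Set (Set (E n))} (hB : B = Kall n ∨ B = Kbody n) {K : Set (E n)}
    (hK : K ∈ B) : K.Nonempty ∧ IsCompact K ∧ Convex ℝ K := by
  rcases hB with rfl | rfl
  · exact hK
  · exact ⟨hK.2.2.mono interior_subset, hK.1, hK.2.1⟩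

/-- The ball bound: if `K|H ⊆ D_r(x)` then `(◇K)|H ⊆ D_r(x)`. -/
lemma ball_bound {B : Set (Set (E n))} (hB : B = Kall n ∨ B = Kbody n) {S : Symm B H}
    (hm : Monotonic S) (hc : InvCyl S) (K : {K : Set (E n) // K ∈ B}) {x : E n} (hx : x ∈ H)
    {r : ℝ} (hr : 0 < r) (hK : ∀ p ∈ K.1, ‖H.starProjection p - x‖ ≤ r) :
    ∀ p ∈ (S K).1, ‖H.starProjection p - x‖ ≤ r := by
  obtain ⟨-, hcomp, -⟩ := nonempty_of_mem hB K.2
  obtain ⟨R, hR⟩ := hcomp.isBounded.exists_norm_le
  obtain ⟨s, hs, hs2⟩ : ∃ s : ℝ, 0 < s ∧ ∀ p ∈ K.1, ‖p - H.starProjection p‖ ≤ s := by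
    have hcont : Continuous (fun p : E n => ‖p - H.starProjection p‖) := by fun_prop
    obtain ⟨M, hM⟩ := hcomp.bddAbove_image hcont.continuousOn
    refine ⟨max M 1, lt_of_lt_of_le one_pos (le_max_right _ _), fun p hp => ?_⟩
    exact le_trans (hM ⟨p, hp, rfl⟩) (le_max_left _ _)
  let C : {K : Set (E n) // K ∈ B} := ⟨cyl H x r s, cyl_mem hx hr hs hB⟩
  have hKC : K.1 ⊆ C.1 := fun p hp => (mem_cyl hx hs p).2 ⟨hK p hp, hs2 p hp⟩
  have hSC : (S C).1 = C.1 := hc C x hx r hr s hs rfl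
  intro p hp
  have := hm K C hKC hp
  rw [hSC] at this
  exact ((mem_cyl hx hs p).1 this).1

lemma upper {B : Set (Set (E n))} (hB : B = Kall n ∨ B = Kbody n) {S : Symm B H}
    (hm : Monotonic S) (hc : InvCyl S) (K : {K : Set (E n) // K ∈ B}) :
    proj H (S K).1 ⊆ proj H K.1 := by
  obtain ⟨hne, hcomp, hconv⟩ := nonempty_of_mem hB K.2
  rintro q ⟨p, hp, rfl⟩
  simp only
  by_contra hq
  set q := H.starProjection p with hqdef
  have hqH : q ∈ H := Submodule.starProjection_apply_mem H p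
  set A := proj H K.1 with hA
  have hAcomp : IsCompact A := hcomp.image (by fun_prop)
  have hAconv : Convex ℝ A := hconv.linear_image (H.starProjection : E n →ₗ[ℝ] E n)
  have hAne : A.Nonempty := hne.image _
  obtain ⟨a, haA, hamin⟩ := hAcomp.exists_infDist_eq_dist hAne q
  have haH : a ∈ H := by
    obtain ⟨k, -, rfl⟩ := haA
    exact Submodule.starProjection_apply_mem H k
  have hva : ∀ z ∈ A, inner ℝ (q - a) (z - a) ≤ 0 := by
    have := (norm_eq_iInf_iff_real_inner_le_zero hAconv haA (u := q)).1 ?_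
    · exact this
    · rw [← dist_eq_norm, ← hamin, Metric.infDist_eq_iInf]
      simp only [dist_eq_norm]
  set v := q - a with hv
  have hv0 : v ≠ 0 := by
    intro h0
    apply hq
    have : q = a := by rw [hv, sub_eq_zero] at h0; exact h0
    rw [this]; exact haA
  have hvpos : 0 < ‖v‖ := norm_pos_iff.2 hv0
  obtain ⟨D, hD0, hD⟩ : ∃ D : ℝ, 0 < D ∧ ∀ z ∈ A, ‖z - a‖ ≤ D := by
    have hcont : Continuous (fun z : E n => ‖z - a‖) := by fun_prop
    obtain ⟨M, hM⟩ := hAcomp.bddAbove_image hcont.continuousOn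
    refine ⟨max M 1, lt_of_lt_of_le one_pos (le_max_right _ _), fun p hp => ?_⟩
    exact le_trans (hM ⟨p, hp, rfl⟩) (le_max_left _ _)
  set t : ℝ := D ^ 2 / ‖v‖ ^ 2 with ht
  have ht0 : 0 < t := by positivity
  have htv : t * ‖v‖ ^ 2 = D ^ 2 := by rw [ht]; field_simp
  set x := a - t • v with hx
  have hxH : x ∈ H := H.sub_mem haH (H.smul_mem _ (H.sub_mem hqH haH))
  set r := Real.sqrt (D ^ 2 + t ^ 2 * ‖v‖ ^ 2) with hr
  have hrpos : 0 < r := Real.sqrt_pos.2 (by positivity)
  have hr2 : r ^ 2 = D ^ 2 + t ^ 2 * ‖v‖ ^ 2 := Real.sq_sqrt (by positivity)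
  have hball := ball_bound hB hm hc K hxH hrpos (by
    intro k hk
    have hz : H.starProjection k ∈ A := ⟨k, hk, rfl⟩
    set z := H.starProjection k
    have h1 := hva z hz
    have h2 := hD z hz
    apply le_of_sq_le_sq _ hrpos.le
    rw [hr2]
    have : z - x = (z - a) + t • v := by rw [hx]; abel
    rw [this, norm_add_sq_real, norm_smul, inner_smul_right, Real.norm_of_nonneg ht0.le,
      real_inner_comm]
    have h3 : ‖z - a‖ ^ 2 ≤ D ^ 2 := pow_le_pow_left₀ (norm_nonneg _) h2 2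
    nlinarith) p hp
  have h4 : q - x = (1 + t) • v := by rw [hx, add_smul, one_smul, hv]; abel
  rw [← hqdef, h4, norm_smul, Real.norm_of_nonneg (by positivity)] at hball
  have h5 : ((1 + t) * ‖v‖) ^ 2 ≤ r ^ 2 := pow_le_pow_left₀ (by positivity) hball 2
  rw [hr2] at h5
  nlinarith [sq_nonneg ‖v‖, sq_pos_of_pos hvpos]

lemma lower {B : Set (Set (E n))} (hB : B = Kall n ∨ B = Kbody n) {S : Symm B H}
    (hm : Monotonic S) (hc : InvCyl S) (K : {K : Set (E n) // K ∈ B}) :
    proj H K.1 ⊆ proj H (S K).1 := by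
  obtain ⟨hne, hcomp, hconv⟩ := nonempty_of_mem hB K.2
  obtain ⟨hSne, hScomp, hSconv⟩ := nonempty_of_mem hB (S K).2.1
  rintro q ⟨p, hp, rfl⟩
  have hcl : IsClosed (proj H (S K).1) := (hScomp.image (by fun_prop)).isClosed
  simp only
  rw [← hcl.closure_eq, Metric.mem_closure_iff]
  intro ε hε
  have hL : K.1 ∩ closedBall p (ε / 2) ∈ B := by
    have hc1 : IsCompact (K.1 ∩ closedBall p (ε / 2)) := hcomp.inter_right isClosed_closedBall
    have hc2 : Convex ℝ (K.1 ∩ closedBall p (ε / 2)) := hconv.inter (convex_closedBall _ _)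
    have hKB := K.2
    generalize K.1 = K' at *
    rcases hB with h | h
    · rw [h]
      exact ⟨⟨p, hp, mem_closedBall_self (by positivity)⟩, hc1, hc2⟩
    · rw [h]
      refine ⟨hc1, hc2, ?_⟩
      rw [h] at hKB
      have hpc : p ∈ closure (interior K') := by
        have : closure (interior K') = closure K' := hconv.closure_interior_eq_closure_of_nonempty_interior hKB.2.2
        rw [this]; exact subset_closure hp
      obtain ⟨z, hz, hzd⟩ := Metric.mem_closure_iff.1 hpc (ε / 2) (by positivity)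
      refine ⟨z, ?_⟩
      rw [interior_inter]
      refine ⟨hz, ?_⟩
      apply ball_subset_interior_closedBall
      rw [mem_ball, dist_comm]; exact hzd
  let L : {K : Set (E n) // K ∈ B} := ⟨_, hL⟩
  have hLK : L.1 ⊆ K.1 := Set.inter_subset_left
  obtain ⟨⟨z, hz⟩, -, -⟩ := nonempty_of_mem hB (S L).2.1
  refine ⟨H.starProjection z, ⟨z, hm L K hLK hz, rfl⟩, ?_⟩
  have hbd := ball_bound hB hm hc L (Submodule.starProjection_apply_mem H p) (r := ε / 2)
    (by positivity) (by
      intro k hk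
      rw [← map_sub]
      refine le_trans (Submodule.norm_starProjection_apply_le H _) ?_
      have := hk.2
      rwa [mem_closedBall, dist_eq_norm] at this) z hz
  rw [dist_comm, dist_eq_norm]
  linarith

/-- Main theorem. -/
theorem main {B : Set (Set (E n))} (hB : B = Kall n ∨ B = Kbody n) {S : Symm B H}
    (hm : Monotonic S) (hc : InvCyl S) : ProjInvariant S :=
  fun K => Set.Subset.antisymm (upper hB hm hc K) (lower hB hm hc K)

end Proofs

end Pool.Agent.V11221.SpherCyl
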