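import Mathlib
import Pool.Agent.V11221.SpherCyl

/-!
Support functions of nonempty compact sets in `ℝⁿ`.
-/

namespace Pool.Agent.V11221.Supp

open Metric Pointwise
open Pool.Agent.V11221.SpherCyl (E)

/-- The support function `h_K(u) = sup_{x ∈ K} ⟨x, u⟩`. -/
noncomputable def h {n : ℕ} (K : Set (E n)) (u : E n) : ℝ :=
  sSup ((fun x : E n => inner ℝ x u) '' K)

variable {n : ℕ}

/-- nonempty and compact -/
def NC (K : Set (E n)) : Prop := K.Nonempty ∧ IsCompact K

lemma bdd {K : Set (E n)} (hK : NC K) (u : E n) :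
    BddAbove ((fun x : E n => inner ℝ x u) '' K) :=
  hK.2.bddAbove_image (by fun_prop)

lemma le_h {K : Set (E n)} (hK : NC K) {x : E n} (hx : x ∈ K) (u : E n) :
    inner ℝ x u ≤ h K u :=
  le_csSup (bdd hK u) ⟨x, hx, rfl⟩

lemma h_le {K : Set (E n)} (hK : NC K) {u : E n} {c : ℝ} (hc : ∀ x ∈ K, inner ℝ x u ≤ c) :
    h K u ≤ c := by
  apply csSup_le (hK.1.image _)
  rintro _ ⟨x, hx, rfl⟩
  exact hc x hx

lemma exists_h {K : Set (E n)} (hK : NC K) (u : E n) : ∃ x ∈ K, inner ℝ x u = h K u := by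
  obtain ⟨x, hx, hmax⟩ := hK.2.exists_isMaxOn hK.1
    (f := fun x : E n => inner ℝ x u) (by fun_prop)
  exact ⟨x, hx, le_antisymm (le_h hK hx u) (h_le hK fun y hy => hmax hy)⟩

lemma h_mono {K L : Set (E n)} (hK : NC K) (hL : NC L) (hKL : K ⊆ L) (u : E n) : h K u ≤ h L u :=
  h_le hK fun x hx => le_h hL (hKL hx) u

lemma NC.add {K L : Set (E n)} (hK : NC K) (hL : NC L) : NC (K + L) :=
  ⟨hK.1.add hL.1, hK.2.add hL.2⟩

lemma NC.smul {K : Set (E n)} (hK : NC K) (c : ℝ) : NC (c • K) :=
  ⟨hK.1.smul_set, hK.2.smul c⟩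

lemma NC.neg {K : Set (E n)} (hK : NC K) : NC (-K) :=
  ⟨hK.1.neg, hK.2.neg⟩

lemma NC.union {K L : Set (E n)} (hK : NC K) (hL : NC L) : NC (K ∪ L) :=
  ⟨hK.1.inl, hK.2.union hL.2⟩

/-- closed convex hull -/
def hull (K : Set (E n)) : Set (E n) := closure (convexHull ℝ K)

lemma NC.hull {K : Set (E n)} (hK : NC K) : NC (hull K) := by
  refine ⟨hK.1.convexHull.closure, ?_⟩
  have h1 : TotallyBounded (convexHull ℝ K) := TotallyBounded.convexHull hK.2.totallyBounded
  exact h1.closure.isCompact_of_isClosed isClosed_closure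

lemma subset_hull (K : Set (E n)) : K ⊆ hull K :=
  (subset_convexHull ℝ K).trans subset_closure

lemma convex_hull (K : Set (E n)) : Convex ℝ (hull K) := (convex_convexHull ℝ K).closure

lemma hull_min {K C : Set (E n)} (hKC : K ⊆ C) (hC : Convex ℝ C) (hC2 : IsClosed C) :
    hull K ⊆ C := closure_minimal (convexHull_min hKC hC) hC2

lemma hull_mono {K L : Set (E n)} (hKL : K ⊆ L) : hull K ⊆ hull L :=
  closure_mono (convexHull_mono hKL)

lemma NC.singleton (x : E n) : NC ({x} : Set (E n)) := ⟨Set.singleton_nonempty x, isCompact_singleton⟩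

lemma NC.closedBall (x : E n) {r : ℝ} (hr : 0 ≤ r) : NC (Metric.closedBall x r) :=
  ⟨⟨x, mem_closedBall_self hr⟩, isCompact_closedBall x r⟩

lemma h_singleton (x u : E n) : h {x} u = inner ℝ x u := by
  unfold h; simp

lemma h_add {K L : Set (E n)} (hK : NC K) (hL : NC L) (u : E n) :
    h (K + L) u = h K u + h L u := by
  apply le_antisymm
  · apply h_le (hK.add hL)
    rintro _ ⟨x, hx, y, hy, rfl⟩
    simp only [inner_add_left]
    exact add_le_add (le_h hK hx u) (le_h hL hy u)
  · obtain ⟨x, hx, hx2⟩ := exists_h hK u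
    obtain ⟨y, hy, hy2⟩ := exists_h hL u
    rw [← hx2, ← hy2, ← inner_add_left]
    exact le_h (hK.add hL) (Set.add_mem_add hx hy) u

lemma h_smul {K : Set (E n)} (hK : NC K) {c : ℝ} (hc : 0 ≤ c) (u : E n) :
    h (c • K) u = c * h K u := by
  apply le_antisymm
  · apply h_le (hK.smul c)
    rintro _ ⟨x, hx, rfl⟩
    simp only [inner_smul_left, conj_trivial]
    exact mul_le_mul_of_nonneg_left (le_h hK hx u) hc
  · obtain ⟨x, hx, hx2⟩ := exists_h hK u
    rw [← hx2]
    have : c * inner ℝ x u = inner ℝ (c • x) u := by simp [inner_smul_left]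
    rw [this]
    exact le_h (hK.smul c) (Set.smul_mem_smul_set hx) u

lemma h_neg {K : Set (E n)} (hK : NC K) (u : E n) : h (-K) u = h K (-u) := by
  apply le_antisymm
  · apply h_le hK.neg
    intro x hx
    have := le_h hK hx (-u)
    simpa using this
  · apply h_le hK
    intro x hx
    have : (-x) ∈ -K := by simpa using hx
    have := le_h hK.neg this u
    simpa using this

lemma h_hull {K : Set (E n)} (hK : NC K) (u : E n) : h (hull K) u = h K u := by
  apply le_antisymm
  · apply h_le hK.hull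
    have hconv : Convex ℝ {x : E n | inner ℝ x u ≤ h K u} := by
      have : {x : E n | inner ℝ x u ≤ h K u} = {x : E n | inner ℝ u x ≤ h K u} := by
        ext x; simp [real_inner_comm]
      rw [this]
      exact convex_halfSpace_le (innerSL ℝ u).toLinearMap.isLinear _
    have hcl : IsClosed {x : E n | inner ℝ x u ≤ h K u} :=
      isClosed_le (by fun_prop) continuous_const
    exact fun x hx => hull_min (fun y hy => le_h hK hy u) hconv hcl hx
  · exact h_mono hK hK.hull (subset_hull K) u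

lemma h_union {K L : Set (E n)} (hK : NC K) (hL : NC L) (u : E n) :
    h (K ∪ L) u = max (h K u) (h L u) := by
  apply le_antisymm
  · apply h_le (hK.union hL)
    rintro x (hx | hx)
    · exact le_max_of_le_left (le_h hK hx u)
    · exact le_max_of_le_right (le_h hL hx u)
  · exact max_le (h_mono hK (hK.union hL) Set.subset_union_left u)
      (h_mono hL (hK.union hL) Set.subset_union_right u)

lemma h_homog {K : Set (E n)} (hK : NC K) {r : ℝ} (hr : 0 ≤ r) (u : E n) :
    h K (r • u) = r * h K u := by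
  apply le_antisymm
  · apply h_le hK
    intro x hx
    rw [inner_smul_right]
    exact mul_le_mul_of_nonneg_left (le_h hK hx u) hr
  · obtain ⟨x, hx, hx2⟩ := exists_h hK u
    rw [← hx2, ← inner_smul_right]
    exact le_h hK hx _

lemma h_ball (u : E n) : h (Metric.closedBall (0 : E n) 1) u = ‖u‖ := by
  apply le_antisymm
  · apply h_le (NC.closedBall 0 zero_le_one)
    intro x hx
    have hx1 : ‖x‖ ≤ 1 := by simpa using hx
    calc inner ℝ x u ≤ ‖x‖ * ‖u‖ := real_inner_le_norm x u
      _ ≤ 1 * ‖u‖ := by gcongr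
      _ = ‖u‖ := one_mul _
  · by_cases hu : u = 0
    · subst hu
      have := le_h (NC.closedBall (0 : E n) zero_le_one) (mem_closedBall_self zero_le_one) 0
      simpa using this
    · have hmem : (‖u‖⁻¹ • u) ∈ Metric.closedBall (0 : E n) 1 := by
        rw [mem_closedBall, dist_zero_right, norm_smul, norm_inv, norm_norm,
          inv_mul_cancel₀ (norm_ne_zero_iff.2 hu)]
      have := le_h (NC.closedBall (0 : E n) zero_le_one) hmem u
      rw [inner_smul_left, real_inner_self_eq_norm_sq] at this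
      simp only [conj_trivial] at this
      have h0 : ‖u‖ ≠ 0 := norm_ne_zero_iff.2 hu
      have h2 : ‖u‖⁻¹ * ‖u‖ ^ 2 = ‖u‖ := by field_simp
      linarith

lemma h_continuous {K : Set (E n)} (hK : NC K) : Continuous (h K) := by
  obtain ⟨R, hR⟩ := hK.2.isBounded.exists_norm_le
  have hR0 : 0 ≤ R := by
    obtain ⟨x, hx⟩ := hK.1
    exact le_trans (norm_nonneg _) (hR x hx)
  have key : ∀ u v, h K u ≤ h K v + R * dist u v := by
    intro u v
    apply h_le hK
    intro x hx
    have h1 : inner ℝ x u = inner ℝ x v + inner ℝ x (u - v) := by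
      rw [← inner_add_right]; congr 1; abel
    rw [h1, dist_eq_norm]
    apply add_le_add (le_h hK hx v)
    calc inner ℝ x (u - v) ≤ ‖x‖ * ‖u - v‖ := real_inner_le_norm _ _
      _ ≤ R * ‖u - v‖ := by gcongr; exact hR x hx
  have : LipschitzWith R.toNNReal (h K) := by
    apply LipschitzWith.of_le_add_mul
    intro u v
    have := key u v
    rwa [Real.coe_toNNReal _ hR0]
  exact this.continuous

lemma h_bound {K : Set (E n)} (hK : NC K) {R : ℝ} (hR : ∀ x ∈ K, ‖x‖ ≤ R) (u : E n) :
    |h K u| ≤ R * ‖u‖ := by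
  obtain ⟨x, hx, hx2⟩ := exists_h hK u
  rw [← hx2]
  calc |inner ℝ x u| ≤ ‖x‖ * ‖u‖ := abs_real_inner_le_norm _ _
    _ ≤ R * ‖u‖ := by gcongr; exact hR x hx

/-- A closed convex set is determined by its support function: if `h_L ≤ h_K` everywhere
(or just in the unit ball) then `L ⊆ K`. -/
lemma subset_of_h_le {K L : Set (E n)} (hK : NC K) (hKc : Convex ℝ K) (hL : NC L)
    (hle : ∀ u : E n, u ∈ Metric.ball (0 : E n) 1 → h L u ≤ h K u) : L ⊆ K := by
  intro x hx
  by_contra hxK
  obtain ⟨f, c, hf1, hf2⟩ := geometric_hahn_banach_closed_point hKc hK.2.isClosed hxK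
  set v : E n := (InnerProductSpace.toDual ℝ (E n)).symm f with hv
  have hfv : ∀ y, f y = inner ℝ y v := by
    intro y
    rw [real_inner_comm, hv, InnerProductSpace.toDual_symm_apply]
  have h1 : h K v ≤ c := h_le hK fun y hy => by rw [← hfv]; exact (hf1 y hy).le
  have h2 : c < h L v := lt_of_lt_of_le (by rw [← hfv]; exact hf2) (le_h hL hx v)
  obtain ⟨r, hr, hr2⟩ : ∃ r : ℝ, 0 < r ∧ r • v ∈ Metric.ball (0 : E n) 1 := by
    refine ⟨(‖v‖ + 1)⁻¹, by positivity, ?_⟩
    rw [mem_ball, dist_zero_right, norm_smul, norm_inv, Real.norm_of_nonneg (by positivity)]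
    rw [inv_mul_lt_iff₀ (by positivity)]; linarith
  have h3 := hle (r • v) hr2
  rw [h_homog hK hr.le, h_homog hL hr.le] at h3
  have := le_of_mul_le_mul_left h3 hr
  linarith

end Pool.Agent.V11221.Supp
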