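import Mathlib
import Pool.Agent.V11221.Supp

/-!
A monotone symmetrization in `{o}` which preserves mean width and all `o`-symmetric sets, but is
not Minkowski symmetrization.
-/

namespace Pool.Agent.V11221.Dia

open Metric Pointwise
open Pool.Agent.V11221.SpherCyl (E)
open Pool.Agent.V11221.Supp

/-- A mean-width-like functional. -/
structure Fnl (n : ℕ) where
  L : (E n → ℝ) → ℝ
  add : ∀ f g : E n → ℝ, Continuous f → Continuous g → L (fun u => f u + g u) = L f + L g
  smul : ∀ (c : ℝ) (f : E n → ℝ), Continuous f → L (fun u => c * f u) = c * L f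
  mono : ∀ f g : E n → ℝ, Continuous f → Continuous g → (∀ u, f u ≤ g u) → L f ≤ L g
  neg : ∀ f : E n → ℝ, Continuous f → L (fun u => f (-u)) = L f
  pos : ∀ f : E n → ℝ, Continuous f → (∀ u, 0 ≤ f u) →
    (∀ (r : ℝ) (u : E n), 0 < r → f (r • u) = r * f u) → (∃ u, 0 < f u) → 0 < L f

variable {n : ℕ}

/-- `conv (K ∪ {o})` -/
noncomputable def Ah (K : Set (E n)) : Set (E n) := hull ({0} ∪ K)

/-- Minkowski symmetrization -/
noncomputable def Mh (A : Set (E n)) : Set (E n) := (1 / 2 : ℝ) • A + (1 / 2 : ℝ) • (-A)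

noncomputable def tK (F : Fnl n) (K : Set (E n)) : ℝ := F.L (h K) / F.L (h (Ah K))

noncomputable def dia (F : Fnl n) (K : Set (E n)) : Set (E n) := tK F K • Mh (Ah K)

lemma NC_zero_union {K : Set (E n)} (hK : NC K) : NC ({0} ∪ K) := (NC.singleton 0).union hK

lemma NC_Ah {K : Set (E n)} (hK : NC K) : NC (Ah K) := (NC_zero_union hK).hull

lemma NC_Mh {A : Set (E n)} (hA : NC A) : NC (Mh A) :=
  (hA.smul _).add (hA.neg.smul _)

lemma NC_dia (F : Fnl n) {K : Set (E n)} (hK : NC K) : NC (dia F K) := (NC_Mh (NC_Ah hK)).smul _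

lemma convex_Mh {A : Set (E n)} (hA : Convex ℝ A) : Convex ℝ (Mh A) :=
  (hA.smul _).add (hA.neg.smul _)

lemma convex_dia (F : Fnl n) (K : Set (E n)) : Convex ℝ (dia F K) :=
  (convex_Mh (convex_hull _)).smul _

lemma neg_Mh (A : Set (E n)) : -(Mh A) = Mh A := by
  unfold Mh
  rw [neg_add, ← Set.smul_set_neg, ← Set.smul_set_neg, neg_neg, add_comm]

lemma neg_dia (F : Fnl n) (K : Set (E n)) : -(dia F K) = dia F K := by
  unfold dia
  rw [← Set.smul_set_neg, neg_Mh]

lemma h_Ah {K : Set (E n)} (hK : NC K) (u : E n) : h (Ah K) u = max (h K u) 0 := by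
  unfold Ah
  rw [h_hull (NC_zero_union hK), h_union (NC.singleton 0) hK, h_singleton, inner_zero_left,
    max_comm]

lemma h_Mh {A : Set (E n)} (hA : NC A) (u : E n) :
    h (Mh A) u = 1 / 2 * h A u + 1 / 2 * h A (-u) := by
  unfold Mh
  rw [h_add (hA.smul _) (hA.neg.smul _), h_smul hA (by norm_num), h_smul hA.neg (by norm_num),
    h_neg hA]

lemma L_zero (F : Fnl n) : F.L (fun _ => 0) = 0 := by
  have := F.smul 0 (fun _ => (0 : ℝ)) continuous_const
  simpa using this

lemma cont_neg {K : Set (E n)} (hK : NC K) : Continuous (fun u => h K (-u)) :=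
  (h_continuous hK).comp continuous_neg

lemma cont_sum {K : Set (E n)} (hK : NC K) : Continuous (fun u => h K u + h K (-u)) :=
  (h_continuous hK).add (cont_neg hK)

lemma cont_negpart {K : Set (E n)} (hK : NC K) : Continuous (fun u => max (-h K u) 0) :=
  (h_continuous hK).neg.max continuous_const

lemma L_negpart_nonneg (F : Fnl n) {K : Set (E n)} (hK : NC K) :
    0 ≤ F.L (fun u => max (-h K u) 0) := by
  have := F.mono (fun _ => 0) _ continuous_const (cont_negpart hK) (fun u => le_max_right _ _)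
  rwa [L_zero] at this

lemma L_h_eq (F : Fnl n) {K : Set (E n)} (hK : NC K) :
    F.L (fun u => h K u + h K (-u)) = 2 * F.L (h K) := by
  rw [F.add _ _ (h_continuous hK) (cont_neg hK), F.neg _ (h_continuous hK)]
  ring

lemma h_add_neg_nonneg {K : Set (E n)} (hK : NC K) (u : E n) : 0 ≤ h K u + h K (-u) := by
  obtain ⟨x, hx⟩ := hK.1
  have h1 := le_h hK hx u
  have h2 := le_h hK hx (-u)
  rw [inner_neg_right] at h2
  linarith

lemma L_h_nonneg (F : Fnl n) {K : Set (E n)} (hK : NC K) : 0 ≤ F.L (h K) := by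
  have h1 : F.L (fun _ => 0) ≤ F.L (fun u => h K u + h K (-u)) := by
    exact F.mono _ _ continuous_const (cont_sum hK) (h_add_neg_nonneg hK)
  rw [L_zero, L_h_eq F hK] at h1
  linarith

lemma L_h_pos (F : Fnl n) {K : Set (E n)} (hK : NC K) {x y : E n} (hx : x ∈ K) (hy : y ∈ K)
    (hxy : x ≠ y) : 0 < F.L (h K) := by
  have h1 : 0 < F.L (fun u => h K u + h K (-u)) := by
    apply F.pos _ (cont_sum hK) (h_add_neg_nonneg hK)
    · intro r u hr
      rw [← smul_neg, h_homog hK hr.le, h_homog hK hr.le]; ring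
    · refine ⟨x - y, ?_⟩
      have h1 := le_h hK hx (x - y)
      have h2 := le_h hK hy (-(x - y))
      have h3 : inner ℝ x (x - y) + inner ℝ y (-(x - y)) = ‖x - y‖ ^ 2 := by
        rw [← real_inner_self_eq_norm_sq, inner_neg_right, inner_sub_left]; ring
      have h4 : 0 < ‖x - y‖ ^ 2 := by
        have : x - y ≠ 0 := sub_ne_zero.2 hxy
        positivity
      linarith
  rw [L_h_eq F hK] at h1
  linarith

lemma L_Mh (F : Fnl n) {A : Set (E n)} (hA : NC A) : F.L (h (Mh A)) = F.L (h A) := by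
  have : h (Mh A) = fun u => (1 / 2 : ℝ) * (h A u + h A (-u)) := by
    ext u; rw [h_Mh hA]; ring
  rw [this, F.smul _ _ (cont_sum hA), L_h_eq F hA]
  ring

lemma L_smul (F : Fnl n) {A : Set (E n)} (hA : NC A) {c : ℝ} (hc : 0 ≤ c) :
    F.L (h (c • A)) = c * F.L (h A) := by
  have : h (c • A) = fun u => c * h A u := by ext u; rw [h_smul hA hc]
  rw [this, F.smul _ _ (h_continuous hA)]

/-- `Λ(h_K) = Λ(h_K⁺) - Λ(h_K⁻)`. -/
lemma L_split (F : Fnl n) {K : Set (E n)} (hK : NC K) :
    F.L (h (Ah K)) = F.L (h K) + F.L (fun u => max (-h K u) 0) := by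
  rw [← F.add _ _ (h_continuous hK) (cont_negpart hK)]
  congr 1
  ext u
  rw [h_Ah hK]
  rcases le_total (h K u) 0 with h0 | h0
  · rw [max_eq_right h0, max_eq_left (by linarith)]; ring
  · rw [max_eq_left h0, max_eq_right (by linarith)]; ring

lemma tK_nonneg (F : Fnl n) {K : Set (E n)} (hK : NC K) : 0 ≤ tK F K :=
  div_nonneg (L_h_nonneg F hK) (L_h_nonneg F (NC_Ah hK))

lemma L_dia (F : Fnl n) {K : Set (E n)} (hK : NC K) : F.L (h (dia F K)) = F.L (h K) := by
  unfold dia
  rw [L_smul F (NC_Mh (NC_Ah hK)) (tK_nonneg F hK), L_Mh F (NC_Ah hK)]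
  unfold tK
  by_cases h0 : F.L (h (Ah K)) = 0
  · have h1 := L_split F hK
    have h2 := L_h_nonneg F hK
    have h3 := L_negpart_nonneg F hK
    rw [h0]
    simp only [mul_zero]
    linarith
  · rw [div_mul_cancel₀ _ h0]

lemma zero_mem_Ah (K : Set (E n)) : (0 : E n) ∈ Ah K :=
  subset_hull _ (Set.mem_union_left _ rfl)

lemma zero_mem_Mh {A : Set (E n)} (hA : (0 : E n) ∈ A) : (0 : E n) ∈ Mh A := by
  refine ⟨0, ⟨0, hA, by simp⟩, 0, ⟨0, by simpa using hA, by simp⟩, by simp⟩

lemma Mh_mono {A B : Set (E n)} (hAB : A ⊆ B) : Mh A ⊆ Mh B := by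
  unfold Mh
  apply Set.add_subset_add
  · exact Set.smul_set_mono hAB
  · exact Set.smul_set_mono (Set.neg_subset_neg.2 hAB)

lemma Ah_mono {K L : Set (E n)} (hKL : K ⊆ L) : Ah K ⊆ Ah L :=
  hull_mono (Set.union_subset_union_right _ hKL)

lemma tK_mono (F : Fnl n) {K L : Set (E n)} (hK : NC K) (hL : NC L) (hKL : K ⊆ L) :
    tK F K ≤ tK F L := by
  have hA := L_h_nonneg F (NC_Ah hK)
  have hAB : F.L (h (Ah K)) ≤ F.L (h (Ah L)) :=
    F.mono _ _ (h_continuous (NC_Ah hK)) (h_continuous (NC_Ah hL))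
      (h_mono (NC_Ah hK) (NC_Ah hL) (Ah_mono hKL))
  rcases hA.eq_or_lt with h0 | h0
  · unfold tK
    rw [← h0, div_zero]
    exact tK_nonneg F hL
  · have hB : 0 < F.L (h (Ah L)) := lt_of_lt_of_le h0 hAB
    unfold tK
    rw [div_le_div_iff₀ h0 hB]
    have h1 := L_split F hK
    have h2 := L_split F hL
    have h3 : F.L (fun u => max (-h L u) 0) ≤ F.L (fun u => max (-h K u) 0) := by
      apply F.mono _ _ (cont_negpart hL) (cont_negpart hK)
      intro u
      apply max_le_max_right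
      have := h_mono hK hL hKL u
      linarith
    have h4 := L_negpart_nonneg F hL
    nlinarith

lemma dia_mono (F : Fnl n) {K L : Set (E n)} (hK : NC K) (hL : NC L) (hKL : K ⊆ L) :
    dia F K ⊆ dia F L := by
  rintro _ ⟨m, hm, rfl⟩
  have hm' : m ∈ Mh (Ah L) := Mh_mono (Ah_mono hKL) hm
  have ht := tK_mono F hK hL hKL
  have ht0 := tK_nonneg F hK
  simp only
  rcases (tK_nonneg F hL).eq_or_lt with h0 | h0
  · have : tK F K = 0 := le_antisymm (by rw [h0]; exact ht) ht0
    rw [this, zero_smul]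
    exact ⟨0, zero_mem_Mh (zero_mem_Ah L), by simp⟩
  · refine ⟨(tK F K / tK F L) • m, ?_, ?_⟩
    · apply (convex_Mh (convex_hull _)).smul_mem_of_zero_mem (zero_mem_Mh (zero_mem_Ah L)) hm'
      exact ⟨div_nonneg ht0 h0.le, (div_le_one h0).2 ht⟩
    · simp only
      rw [smul_smul, mul_div_cancel₀ _ h0.ne']

lemma zero_mem_of_symm {K : Set (E n)} (hK : K.Nonempty) (hc : Convex ℝ K) (hs : -K = K) :
    (0 : E n) ∈ K := by
  obtain ⟨x, hx⟩ := hK
  have hx' : -x ∈ K := by rw [← hs]; simpa using hx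
  have := hc hx hx' (a := 1 / 2) (b := 1 / 2) (by norm_num) (by norm_num) (by norm_num)
  simpa using this

lemma dia_of_symm (F : Fnl n) {K : Set (E n)} (hK : NC K) (hc : Convex ℝ K) (hs : -K = K) :
    dia F K = K := by
  have h0 : (0 : E n) ∈ K := zero_mem_of_symm hK.1 hc hs
  have hA : Ah K = K := by
    unfold Ah
    apply Set.Subset.antisymm
    · apply hull_min _ hc hK.2.isClosed
      rintro x (rfl | hx)
      · exact h0
      · exact hx
    · exact Set.subset_union_right.trans (subset_hull _)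
  have hM : Mh K = K := by
    unfold Mh
    rw [hs]
    rw [← hc.add_smul (by norm_num) (by norm_num)]
    norm_num
  unfold dia
  rw [hA, hM]
  unfold tK
  rw [hA]
  by_cases hz : F.L (h K) = 0
  · have hK0 : K = {0} := by
      apply Set.Subset.antisymm _ (by simpa using h0)
      intro x hx
      by_contra hne
      have := L_h_pos F hK hx h0 hne
      linarith
    rw [hz, hK0]
    simp
  · rw [div_self hz, one_smul]

lemma tK_pos (F : Fnl n) {K : Set (E n)} (hK : NC K) {x y : E n} (hx : x ∈ K) (hy : y ∈ K)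
    (hxy : x ≠ y) : 0 < tK F K := by
  apply div_pos (L_h_pos F hK hx hy hxy)
  apply L_h_pos F (NC_Ah hK) _ _ hxy
  · exact subset_hull _ (Set.mem_union_right _ hx)
  · exact subset_hull _ (Set.mem_union_right _ hy)

lemma subset_Ah (K : Set (E n)) : K ⊆ Ah K := Set.subset_union_right.trans (subset_hull _)

lemma interior_dia (F : Fnl n) {K : Set (E n)} (hK : NC K) (hi : (interior K).Nonempty)
    (hn : Nontrivial (E n)) : (interior (dia F K)).Nonempty := by
  have ht : 0 < tK F K := by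
    obtain ⟨x, hx⟩ := hi
    obtain ⟨v, hv⟩ := exists_ne (0 : E n)
    obtain ⟨ε, hε, hb⟩ := Metric.isOpen_iff.1 isOpen_interior x hx
    have hv' : ‖v‖ ≠ 0 := norm_ne_zero_iff.2 hv
    have hy : x + (ε / 2 / ‖v‖) • v ∈ K := by
      apply interior_subset (s := K)
      apply hb
      rw [mem_ball, dist_eq_norm, add_sub_cancel_left, norm_smul, Real.norm_of_nonneg (by positivity),
        div_mul_cancel₀ _ hv']
      linarith
    apply tK_pos F hK (interior_subset hx) hy
    intro he
    have : (ε / 2 / ‖v‖) • v = 0 := by simpa using he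
    rw [smul_eq_zero] at this
    rcases this with h1 | h1
    · have : 0 < ε / 2 / ‖v‖ := by positivity
      linarith
    · exact hv h1
  unfold dia
  rw [interior_smul₀ ht.ne']
  apply Set.Nonempty.smul_set
  unfold Mh
  have h1 : (interior ((1 / 2 : ℝ) • Ah K)).Nonempty := by
    rw [interior_smul₀ (by norm_num)]
    exact (hi.mono (interior_mono (subset_Ah K))).smul_set
  have h2 : ((1 / 2 : ℝ) • (-(Ah K))).Nonempty := ((NC_Ah hK).1.neg).smul_set
  exact (h1.add h2).mono subset_interior_add_left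

/-- failure of translation invariance -/
lemma dia_ball_ne (F : Fnl n) {a b : E n} (ha : ‖a‖ = 1) (hb : ‖b‖ = 1) (hab : inner ℝ a b = 0) :
    dia F (closedBall (0 : E n) 1 + {(3 : ℝ) • a}) ≠ closedBall (0 : E n) 1 := by
  intro he
  set K := closedBall (0 : E n) 1 + {(3 : ℝ) • a} with hKdef
  have hB : NC (closedBall (0 : E n) 1) := NC.closedBall 0 zero_le_one
  have hK : NC K := hB.add (NC.singleton _)
  have hh : ∀ u : E n, h (dia F K) u =
      tK F K * (1 / 2 * max (‖u‖ + 3 * inner ℝ a u) 0 + 1 / 2 * max (‖u‖ - 3 * inner ℝ a u) 0) := by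
    intro u
    unfold dia
    rw [h_smul (NC_Mh (NC_Ah hK)) (tK_nonneg F hK), h_Mh (NC_Ah hK), h_Ah hK, h_Ah hK, hKdef,
      h_add hB (NC.singleton _), h_add hB (NC.singleton _), h_ball, h_ball, h_singleton,
      h_singleton, norm_neg, inner_neg_right, inner_smul_left]
    simp only [conj_trivial]
    ring_nf
  have h1 := hh a
  have h2 := hh b
  rw [he, h_ball, ha, real_inner_self_eq_norm_sq, ha] at h1
  rw [he, h_ball, hb, hab] at h2
  norm_num at h1 h2
  linarith

end Pool.Agent.V11221.Dia
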