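import Mathlib
import Pool.Agent.V11221.Dia

/-!
Mean width as an integral over the unit ball.
-/

namespace Pool.Agent.V11221.BallInt

open Metric Pointwise MeasureTheory
open Pool.Agent.V11221.SpherCyl (E)
open Pool.Agent.V11221.Supp
open Pool.Agent.V11221.Dia

variable {n : ℕ}

/-- `I f = ∫_{|x| < 1} f(x) dx` -/
noncomputable def I (f : E n → ℝ) : ℝ := ∫ x in ball (0 : E n) 1, f x

lemma intOn {f : E n → ℝ} (hf : Continuous f) : IntegrableOn f (ball (0 : E n) 1) :=
  (hf.continuousOn.integrableOn_compact (isCompact_closedBall 0 1)).mono_set ball_subset_closedBall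

lemma I_add {f g : E n → ℝ} (hf : Continuous f) (hg : Continuous g) :
    I (fun u => f u + g u) = I f + I g :=
  integral_add (intOn hf) (intOn hg)

lemma I_smul (c : ℝ) (f : E n → ℝ) : I (fun u => c * f u) = c * I f :=
  integral_const_mul _ _

lemma I_mono {f g : E n → ℝ} (hf : Continuous f) (hg : Continuous g) (hfg : ∀ u, f u ≤ g u) :
    I f ≤ I g :=
  integral_mono (intOn hf) (intOn hg) hfg

lemma I_isom (T : E n ≃ₗᵢ[ℝ] E n) (f : E n → ℝ) : I (fun u => f (T u)) = I f := by
  unfold I
  rw [← integral_indicator measurableSet_ball, ← integral_indicator measurableSet_ball]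
  have h1 := (T.measurePreserving).integral_comp T.toHomeomorph.measurableEmbedding
    (g := (ball (0 : E n) 1).indicator f)
  rw [← h1]
  congr 1
  ext x
  simp only [Set.indicator, mem_ball, dist_zero_right]
  have : ‖T x‖ = ‖x‖ := T.norm_map x
  simp [this]

lemma I_neg (f : E n → ℝ) : I (fun u => f (-u)) = I f :=
  I_isom (LinearIsometryEquiv.neg ℝ) f

lemma I_pos {f : E n → ℝ} (hf : Continuous f) (h0 : ∀ u, 0 ≤ f u)
    (hpos : ∃ u ∈ ball (0 : E n) 1, 0 < f u) : 0 < I f := by
  unfold I
  rw [setIntegral_pos_iff_support_of_nonneg_ae]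
  · have ho : IsOpen (Function.support f ∩ ball (0 : E n) 1) :=
      (hf.isOpen_support).inter isOpen_ball
    apply ho.measure_pos volume
    obtain ⟨u, hu, hfu⟩ := hpos
    exact ⟨u, ne_of_gt hfu, hu⟩
  · exact Filter.Eventually.of_forall h0
  · exact intOn hf

noncomputable def ballFnl (n : ℕ) : Fnl n where
  L := I
  add f g hf hg := I_add hf hg
  smul c f _ := I_smul c f
  mono f g hf hg := I_mono hf hg
  neg f _ := I_neg f
  pos f hf h0 hh := by
    rintro ⟨u, hu⟩
    apply I_pos hf h0
    refine ⟨(‖u‖ + 1)⁻¹ • u, ?_, ?_⟩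
    · rw [mem_ball, dist_zero_right, norm_smul, norm_inv, Real.norm_of_nonneg (by positivity)]
      rw [inv_mul_lt_iff₀ (by positivity)]; linarith
    · rw [hh _ _ (by positivity)]; positivity

lemma sphere_eq (hn : Nontrivial (E n)) : ∃ c : ℝ, 0 < c ∧ ∀ f : E n → ℝ,
    (∀ r : ℝ, 0 < r → ∀ x, f (r • x) = r * f x) →
      ∫ u : sphere (0 : E n) 1, f u ∂((volume : Measure (E n)).toSphere) = c * I f := by
  set c0 : ℝ := ∫ r : Set.Ioi (0 : ℝ), (if r.1 < 1 then r.1 else 0)
    ∂(Measure.volumeIoiPow (Module.finrank ℝ (E n) - 1)) with hc0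
  have main : ∀ f : E n → ℝ, (∀ r : ℝ, 0 < r → ∀ x, f (r • x) = r * f x) →
      I f = (∫ u : sphere (0 : E n) 1, f u ∂((volume : Measure (E n)).toSphere)) * c0 := by
    intro f hf
    have h1 := (volume : Measure (E n)).measurePreserving_homeomorphUnitSphereProd.integral_comp
      (Homeomorph.measurableEmbedding _)
      (fun p : sphere (0 : E n) 1 × Set.Ioi (0 : ℝ) => f p.1 * (if p.2.1 < 1 then p.2.1 else 0))
    rw [integral_prod_mul (fun u : sphere (0 : E n) 1 => f u)
      (fun r : Set.Ioi (0 : ℝ) => if r.1 < 1 then r.1 else 0)] at h1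
    rw [← hc0] at h1
    have h2 : ∫ x, (ball (0 : E n) 1).indicator f x =
        ∫ x : ({(0 : E n)}ᶜ : Set (E n)), (ball (0 : E n) 1).indicator f x
          ∂(Measure.comap (↑) (volume : Measure (E n))) := by
      rw [integral_subtype_comap (measurableSet_singleton _).compl
        (fun x => (ball (0 : E n) 1).indicator f x), restrict_compl_singleton]
    rw [← h1]
    unfold I
    rw [← integral_indicator measurableSet_ball, h2]
    refine integral_congr_ae (Filter.Eventually.of_forall fun x => ?_)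
    have hx0 : (x : E n) ≠ 0 := x.2
    have hxn : 0 < ‖(x : E n)‖ := norm_pos_iff.2 hx0
    simp only [homeomorphUnitSphereProd_apply_snd_coe, homeomorphUnitSphereProd_apply_fst_coe,
      Set.indicator, mem_ball, dist_zero_right]
    split_ifs with hlt
    · rw [hf _ (inv_pos.2 hxn)]
      field_simp
    · simp
  have hIn : 0 < I (fun x : E n => ‖x‖) := by
    apply I_pos continuous_norm (fun u => norm_nonneg u)
    obtain ⟨v, hv⟩ := exists_ne (0 : E n)
    refine ⟨(‖v‖ + 1)⁻¹ • v, ?_, ?_⟩
    · rw [mem_ball, dist_zero_right, norm_smul, norm_inv, Real.norm_of_nonneg (by positivity)]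
      rw [inv_mul_lt_iff₀ (by positivity)]; linarith
    · apply norm_pos_iff.2
      apply smul_ne_zero _ hv
      positivity
  have h2 := main (fun x => ‖x‖) (by
    intro r hr x
    rw [norm_smul, Real.norm_of_nonneg hr.le])
  have h3 : 0 ≤ ∫ u : sphere (0 : E n) 1, ‖(u : E n)‖ ∂((volume : Measure (E n)).toSphere) :=
    integral_nonneg fun u => norm_nonneg _
  have hc0pos : 0 < c0 := by
    rw [h2] at hIn
    by_contra hcon
    push Not at hcon
    have := mul_nonpos_of_nonneg_of_nonpos h3 hcon
    linarith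
  refine ⟨c0⁻¹, by positivity, fun f hf => ?_⟩
  rw [main f hf]
  field_simp

/-- mean width `w(K) = (2 / (n κ_n)) ∫_{S^{n-1}} h_K(u) du`, `κ_n` the volume of the unit ball and
`du` the surface measure of the unit sphere. -/
noncomputable def meanWidth (K : Set (E n)) : ℝ :=
  2 / (n * (volume : Measure (E n)).real (ball (0 : E n) 1)) *
    ∫ u : sphere (0 : E n) 1, h K u ∂((volume : Measure (E n)).toSphere)

lemma meanWidth_eq (hn : Nontrivial (E n)) (hn0 : n ≠ 0) : ∃ c : ℝ, 0 < c ∧ ∀ K : Set (E n), NC K →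
    meanWidth K = c * I (h K) := by
  obtain ⟨c, hc, hc2⟩ := sphere_eq hn
  have hv : 0 < (volume : Measure (E n)).real (ball (0 : E n) 1) := by
    rw [measureReal_def]
    apply ENNReal.toReal_pos
    · exact (measure_ball_pos _ _ one_pos).ne'
    · exact measure_ball_lt_top.ne
  have hn1 : (0 : ℝ) < n := by exact_mod_cast Nat.pos_of_ne_zero hn0
  refine ⟨2 / (n * (volume : Measure (E n)).real (ball (0 : E n) 1)) * c, by positivity, ?_⟩
  intro K hK
  unfold meanWidth
  rw [hc2 (h K) (fun r hr x => h_homog hK hr.le x)]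
  ring

end Pool.Agent.V11221.BallInt
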