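import Mathlib
import Pool.Agent.V11221.BallInt

/-!
Extension of a symmetrization of convex bodies to all compact convex sets.
-/

namespace Pool.Agent.V11221.Neg1

open Metric Pointwise MeasureTheory
open Pool.Agent.V11221.SpherCyl
open Pool.Agent.V11221.Supp
open Pool.Agent.V11221.Dia
open Pool.Agent.V11221.BallInt

variable {n : ℕ} {H : Submodule ℝ (E n)}

lemma refl_eq (p : E n) : refl H p = H.reflection p := by
  rw [Submodule.reflection_apply]
  unfold SpherCyl.refl
  rw [two_smul, two_smul]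

lemma refl_refl (p : E n) : refl H (refl H p) = p := by
  rw [refl_eq, refl_eq, Submodule.reflection_reflection]

lemma hsym_iff {K : Set (E n)} : HSym H K ↔ ∀ p ∈ K, refl H p ∈ K := by
  unfold HSym
  constructor
  · intro hK p hp
    rw [← hK]; exact ⟨p, hp, rfl⟩
  · intro hK
    ext p
    constructor
    · rintro ⟨q, hq, rfl⟩; exact hK q hq
    · intro hp; exact ⟨refl H p, hK p hp, refl_refl p⟩

/-- unbundled symmetrization, monotone, mean width preserving and fixing symmetric sets -/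
structure Good (H : Submodule ℝ (E n)) (B : Set (Set (E n))) (s : Set (E n) → Set (E n)) :
    Prop where
  mem : ∀ K ∈ B, s K ∈ B
  sym : ∀ K ∈ B, HSym H (s K)
  mono : ∀ K ∈ B, ∀ L ∈ B, K ⊆ L → s K ⊆ s L
  pres : ∀ K ∈ B, I (h (s K)) = I (h K)
  fix : ∀ K ∈ B, HSym H K → s K = K

lemma nc_of_mem {B : Set (Set (E n))} (hB : B = Kall n ∨ B = Kbody n) {K : Set (E n)}
    (hK : K ∈ B) : NC K := by
  have := nonempty_of_mem hB hK
  exact ⟨this.1, this.2.1⟩

lemma proj_inv {B : Set (Set (E n))} (hB : B = Kall n ∨ B = Kbody n)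
    {s : Set (E n) → Set (E n)} (hs : Good H B s) (K : Set (E n)) (hK : K ∈ B) :
    proj H (s K) = proj H K := by
  let S : Symm B H := fun K => ⟨s K.1, hs.mem _ K.2, hs.sym _ K.2⟩
  have hm : Monotonic S := fun K L hKL => hs.mono _ K.2 _ L.2 hKL
  have hc : InvCyl S := by
    intro K x hx r hr t ht hK
    apply hs.fix _ K.2
    rw [hK]
    exact refl_cyl hx ht
  exact main hB hm hc ⟨K, hK⟩

/-- parallel body `K + η B` -/
def par (K : Set (E n)) (η : ℝ) : Set (E n) := K + closedBall (0 : E n) η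

lemma subset_par (K : Set (E n)) {η : ℝ} (hη : 0 ≤ η) : K ⊆ par K η := by
  intro x hx
  exact ⟨x, hx, 0, mem_closedBall_self hη, by simp⟩

lemma par_mono {K L : Set (E n)} (hKL : K ⊆ L) {η ζ : ℝ} (hη : η ≤ ζ) : par K η ⊆ par L ζ :=
  Set.add_subset_add hKL (closedBall_subset_closedBall hη)

lemma par_mem {B : Set (Set (E n))} (hB : B = Kall n ∨ B = Kbody n) {K : Set (E n)}
    (hK : K ∈ Kall n) {η : ℝ} (hη : 0 < η) : par K η ∈ B := by
  obtain ⟨hne, hc, hconv⟩ := hK
  have h1 : IsCompact (par K η) := hc.add (isCompact_closedBall _ _)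
  have h2 : Convex ℝ (par K η) := hconv.add (convex_closedBall _ _)
  rcases hB with rfl | rfl
  · exact ⟨hne.mono (subset_par K hη.le), h1, h2⟩
  · refine ⟨h1, h2, ?_⟩
    have : (K + interior (closedBall (0 : E n) η)).Nonempty := by
      apply hne.add
      refine ⟨0, ball_subset_interior_closedBall (mem_ball_self hη)⟩
    exact this.mono subset_interior_add_right

lemma refl_zero : refl H (0 : E n) = 0 := by rw [refl_eq]; simp

lemma refl_add (p q : E n) : refl H (p + q) = refl H p + refl H q := by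
  rw [refl_eq, refl_eq, refl_eq, map_add]

lemma norm_refl (p : E n) : ‖refl H p‖ = ‖p‖ := by
  rw [refl_eq]; exact H.reflection.norm_map p

lemma par_sym {K : Set (E n)} (hK : HSym H K) (η : ℝ) : HSym H (par K η) := by
  rw [hsym_iff] at hK ⊢
  rintro _ ⟨x, hx, y, hy, rfl⟩
  refine ⟨refl H x, hK x hx, refl H y, ?_, ?_⟩
  · rw [mem_closedBall, dist_zero_right, norm_refl]; simpa using hy
  · simp only; rw [refl_add]

lemma h_par {K : Set (E n)} (hK : NC K) {η : ℝ} (hη : 0 ≤ η) (u : E n) :
    h (par K η) u = h K u + η * ‖u‖ := by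
  unfold par
  rw [h_add hK (NC.closedBall 0 hη)]
  have : closedBall (0 : E n) η = η • closedBall (0 : E n) 1 := by
    rw [_root_.smul_closedBall _ _ zero_le_one, smul_zero, Real.norm_of_nonneg hη, mul_one]
  rw [this, h_smul (NC.closedBall 0 zero_le_one) hη, h_ball]

lemma I_par {K : Set (E n)} (hK : NC K) {η : ℝ} (hη : 0 ≤ η) :
    I (h (par K η)) = I (h K) + η * I (fun u : E n => ‖u‖) := by
  have : h (par K η) = fun u => h K u + η * ‖u‖ := by ext u; exact h_par hK hη u
  rw [this, I_add (h_continuous hK) (by fun_prop), I_smul]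

lemma I_norm_nonneg : 0 ≤ I (fun u : E n => ‖u‖) := by
  have := I_mono (n := n) (f := fun _ => 0) (g := fun u => ‖u‖) continuous_const continuous_norm
    (fun u => norm_nonneg u)
  have h0 : I (fun _ : E n => (0 : ℝ)) = 0 := by unfold I; simp
  rwa [h0] at this

/-- `T K = ⋂ₘ s (K + B/(m+1))`. -/
def ext (s : Set (E n) → Set (E n)) (K : Set (E n)) : Set (E n) :=
  ⋂ m : ℕ, s (par K (1 / ((m : ℝ) + 1)))

lemma em_pos (m : ℕ) : (0 : ℝ) < 1 / ((m : ℝ) + 1) := by positivity

lemma em_anti {m k : ℕ} (hmk : m ≤ k) : 1 / ((k : ℝ) + 1) ≤ 1 / ((m : ℝ) + 1) := by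
  have h0 : (m : ℝ) ≤ k := by exact_mod_cast hmk
  apply one_div_le_one_div_of_le
  · positivity
  · linarith

section
variable {B : Set (Set (E n))} (hB : B = Kall n ∨ B = Kbody n)
    {s : Set (E n) → Set (E n)} (hs : Good H B s)
include hB hs

lemma anti {K : Set (E n)} (hK : K ∈ Kall n) :
    Antitone (fun m : ℕ => s (par K (1 / ((m : ℝ) + 1)))) := by
  intro m k hmk
  exact hs.mono _ (par_mem hB hK (em_pos _)) _ (par_mem hB hK (em_pos _))
    (par_mono le_rfl (em_anti hmk))

lemma ext_mem {K : Set (E n)} (hK : K ∈ Kall n) : ext s K ∈ Kall n := by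
  have hm : ∀ m : ℕ, s (par K (1 / ((m : ℝ) + 1))) ∈ B := fun m =>
    hs.mem _ (par_mem hB hK (em_pos m))
  have hcomp : ∀ m : ℕ, IsCompact (s (par K (1 / ((m : ℝ) + 1)))) := fun m =>
    (nonempty_of_mem hB (hm m)).2.1
  refine ⟨?_, ?_, ?_⟩
  · apply IsCompact.nonempty_iInter_of_sequence_nonempty_isCompact_isClosed
    · intro i
      exact anti hB hs hK (Nat.le_succ i)
    · intro i
      exact (nonempty_of_mem hB (hm i)).1
    · exact hcomp 0
    · intro i
      exact (hcomp i).isClosed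
  · apply (hcomp 0).of_isClosed_subset
    · exact isClosed_iInter fun m => (hcomp m).isClosed
    · exact Set.iInter_subset _ 0
  · exact convex_iInter fun m => (nonempty_of_mem hB (hm m)).2.2

lemma ext_sym {K : Set (E n)} (hK : K ∈ Kall n) : HSym H (ext s K) := by
  rw [hsym_iff]
  intro p hp
  unfold ext at hp ⊢
  rw [Set.mem_iInter] at hp ⊢
  intro m
  exact hsym_iff.1 (hs.sym _ (par_mem hB hK (em_pos m))) p (hp m)

lemma ext_mono {K L : Set (E n)} (hK : K ∈ Kall n) (hL : L ∈ Kall n) (hKL : K ⊆ L) :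
    ext s K ⊆ ext s L := by
  apply Set.iInter_mono
  intro m
  exact hs.mono _ (par_mem hB hK (em_pos _)) _ (par_mem hB hL (em_pos _)) (par_mono hKL le_rfl)

lemma ext_pres {K : Set (E n)} (hK : K ∈ Kall n) : I (h (ext s K)) = I (h K) := by
  have hKN : NC K := ⟨hK.1, hK.2.1⟩
  have hTN : NC (ext s K) := ⟨(ext_mem hB hs hK).1, (ext_mem hB hs hK).2.1⟩
  have hm : ∀ m : ℕ, s (par K (1 / ((m : ℝ) + 1))) ∈ B := fun m =>
    hs.mem _ (par_mem hB hK (em_pos m))
  have hw : ∀ m : ℕ, I (h (s (par K (1 / ((m : ℝ) + 1))))) =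
      I (h K) + 1 / ((m : ℝ) + 1) * I (fun u : E n => ‖u‖) := by
    intro m
    rw [hs.pres _ (par_mem hB hK (em_pos m)), I_par hKN (em_pos m).le]
  apply le_antisymm
  · have h1 : ∀ m : ℕ, I (h (ext s K)) ≤ I (h K) + 1 / ((m : ℝ) + 1) * I (fun u : E n => ‖u‖) := by
      intro m
      rw [← hw m]
      have hN := nc_of_mem hB (hm m)
      exact I_mono (h_continuous hTN) (h_continuous hN)
        (h_mono hTN hN (Set.iInter_subset _ m))
    have h2 : Filter.Tendsto (fun m : ℕ => I (h K) + 1 / ((m : ℝ) + 1) * I (fun u : E n => ‖u‖))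
        Filter.atTop (nhds (I (h K) + 0 * I (fun u : E n => ‖u‖))) :=
      (tendsto_one_div_add_atTop_nhds_zero_nat.mul_const _).const_add _
    have := ge_of_tendsto' h2 h1
    simpa using this
  · have h1 : ∀ δ : ℝ, 0 < δ → I (h K) ≤ I (h (ext s K)) + δ * I (fun u : E n => ‖u‖) := by
      intro δ hδ
      have hcomp : ∀ m : ℕ, IsCompact (s (par K (1 / ((m : ℝ) + 1)))) := fun m =>
        (nonempty_of_mem hB (hm m)).2.1
      obtain ⟨m, hmU⟩ := exists_subset_nhds_of_isCompact
        (V := fun m : ℕ => s (par K (1 / ((m : ℝ) + 1)))) (anti hB hs hK).directed_ge hcomp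
        (U := Metric.thickening δ (ext s K)) (by
          intro x hx
          exact isOpen_thickening.mem_nhds (self_subset_thickening hδ _ hx))
      have hN := nc_of_mem hB (hm m)
      have hsub : s (par K (1 / ((m : ℝ) + 1))) ⊆ par (ext s K) δ := by
        intro x hx
        obtain ⟨z, hz, hd⟩ := mem_thickening_iff.1 (hmU hx)
        refine ⟨z, hz, x - z, ?_, by simp⟩
        rw [mem_closedBall, dist_zero_right, ← dist_eq_norm]
        exact hd.le
      have hPN : NC (par (ext s K) δ) := hTN.add (NC.closedBall 0 hδ.le)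
      have h3 := I_mono (h_continuous hN) (h_continuous hPN) (h_mono hN hPN hsub)
      rw [hw m, I_par hTN hδ.le] at h3
      have h4 : 0 ≤ 1 / ((m : ℝ) + 1) * I (fun u : E n => ‖u‖) :=
        mul_nonneg (em_pos m).le I_norm_nonneg
      linarith
    have h2 : ∀ m : ℕ, I (h K) ≤ I (h (ext s K)) + 1 / ((m : ℝ) + 1) * I (fun u : E n => ‖u‖) :=
      fun m => h1 _ (em_pos m)
    have h3 : Filter.Tendsto (fun m : ℕ => I (h (ext s K)) +
        1 / ((m : ℝ) + 1) * I (fun u : E n => ‖u‖))
        Filter.atTop (nhds (I (h (ext s K)) + 0 * I (fun u : E n => ‖u‖))) :=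
      (tendsto_one_div_add_atTop_nhds_zero_nat.mul_const _).const_add _
    have := ge_of_tendsto' h3 h2
    simpa using this

lemma ext_fix {K : Set (E n)} (hK : K ∈ Kall n) (hKs : HSym H K) : ext s K = K := by
  have h1 : ∀ m : ℕ, s (par K (1 / ((m : ℝ) + 1))) = par K (1 / ((m : ℝ) + 1)) := fun m =>
    hs.fix _ (par_mem hB hK (em_pos m)) (par_sym hKs _)
  apply Set.Subset.antisymm
  · intro x hx
    rw [← hK.2.1.isClosed.closure_eq, Metric.mem_closure_iff]
    intro ε hε
    obtain ⟨m, hm⟩ := exists_nat_one_div_lt hε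
    have hx' : x ∈ s (par K (1 / ((m : ℝ) + 1))) := Set.mem_iInter.1 hx m
    rw [h1 m] at hx'
    obtain ⟨y, hy, z, hz, rfl⟩ := hx'
    refine ⟨y, hy, ?_⟩
    simp only
    rw [dist_eq_norm, add_sub_cancel_left]
    have : ‖z‖ ≤ 1 / ((m : ℝ) + 1) := by simpa using hz
    linarith
  · intro x hx
    rw [ext, Set.mem_iInter]
    intro m
    rw [h1 m]
    exact subset_par K (em_pos m).le hx

lemma ext_good : Good H (Kall n) (ext s) where
  mem _ hK := ext_mem hB hs hK
  sym _ hK := ext_sym hB hs hK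
  mono _ hK _ hL hKL := ext_mono hB hs hK hL hKL
  pres _ hK := ext_pres hB hs hK
  fix _ hK hKs := ext_fix hB hs hK hKs

lemma sub_ext {K : Set (E n)} (hK : K ∈ B) : s K ⊆ ext s K := by
  have hK' : K ∈ Kall n := nonempty_of_mem hB hK
  intro x hx
  rw [ext, Set.mem_iInter]
  intro m
  exact hs.mono _ hK _ (par_mem hB hK' (em_pos m)) (subset_par K (em_pos m).le) hx

end

/-- If `K ⊆ L` are compact convex with the same mean width, then `K = L`. -/
lemma eq_of_I {K L : Set (E n)} (hK : NC K) (hKc : Convex ℝ K) (hL : NC L) (hKL : K ⊆ L)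
    (hI : I (h K) = I (h L)) : K = L := by
  apply Set.Subset.antisymm hKL
  apply subset_of_h_le hK hKc hL
  intro u hu
  by_contra hcon
  push Not at hcon
  have h1 : 0 < I (fun v => h L v + (-1) * h K v) := by
    have hcont : Continuous (fun v => h L v + (-1) * h K v) :=
      (h_continuous hL).add ((h_continuous hK).const_mul (-1))
    apply I_pos hcont
    · intro v
      have := h_mono hK hL hKL v
      linarith
    · exact ⟨u, hu, by linarith⟩
  rw [I_add (h_continuous hL) ((h_continuous hK).const_mul (-1)), I_smul] at h1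
  linarith

end Pool.Agent.V11221.Neg1
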