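import Mathlib
import Pool.Agent.V11221.Neg1

/-!
The thin wedge estimate.
-/

namespace Pool.Agent.V11221.Neg2

open Metric Pointwise MeasureTheory
open Pool.Agent.V11221.SpherCyl

variable {n : ℕ}

/-- scaling by `a` in the direction of `z` -/
noncomputable def T (z : E n) (a : ℝ) : E n →ₗ[ℝ] E n :=
  LinearMap.id - ((1 - a) / ‖z‖ ^ 2) • ((innerSL ℝ z).toLinearMap.smulRight z)

lemma T_apply (z : E n) (a : ℝ) (u : E n) :
    T z a u = u - ((1 - a) / ‖z‖ ^ 2 * inner ℝ z u) • z := by
  simp [T, smul_smul]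

lemma inner_T {z : E n} (hz : z ≠ 0) (a : ℝ) (u : E n) : inner ℝ z (T z a u) = a * inner ℝ z u := by
  rw [T_apply, inner_sub_right, inner_smul_right, real_inner_self_eq_norm_sq]
  have : ‖z‖ ^ 2 ≠ 0 := by positivity
  field_simp
  ring

lemma inner_T' {z w : E n} (hw : inner ℝ w z = 0) (a : ℝ) (u : E n) :
    inner ℝ w (T z a u) = inner ℝ w u := by
  rw [T_apply, inner_sub_right, inner_smul_right, hw]
  ring

lemma T_comp {z : E n} (hz : z ≠ 0) (a b : ℝ) : (T z a) ∘ₗ (T z b) = T z (a * b) := by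
  ext1 u
  rw [LinearMap.comp_apply, T_apply, inner_T hz, T_apply, T_apply]
  rw [sub_sub, ← add_smul]
  congr 2
  have : ‖z‖ ^ 2 ≠ 0 := by positivity
  field_simp
  ring

lemma T_one (z : E n) : T z 1 = LinearMap.id := by
  ext1 u
  rw [T_apply]; simp

lemma det_T {z : E n} (hz : z ≠ 0) {a : ℝ} (ha : a ≠ 0) : LinearMap.det (T z a) ≠ 0 := by
  have h1 : LinearMap.det (T z a) * LinearMap.det (T z a⁻¹) = 1 := by
    rw [← LinearMap.det_comp, T_comp hz, mul_inv_cancel₀ ha, T_one, LinearMap.det_id]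
  intro h0
  rw [h0, zero_mul] at h1
  exact zero_ne_one h1

lemma integral_T {z : E n} (hz : z ≠ 0) {a : ℝ} (ha : a ≠ 0) {G : E n → ℝ}
    (hG : Measurable G) : ∃ c : ℝ, 0 < c ∧ ∫ u, G (T z a u) = c * ∫ u, G u := by
  have hd := det_T hz ha
  refine ⟨|(LinearMap.det (T z a))⁻¹|, by positivity, ?_⟩
  have hTm : Measurable (T z a) := (T z a).continuous_of_finiteDimensional.measurable
  rw [← integral_map hTm.aemeasurable hG.aestronglyMeasurable,
    Measure.map_linearMap_addHaar_eq_smul_addHaar _ hd, integral_smul_measure,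
    ENNReal.toReal_ofReal (abs_nonneg _), smul_eq_mul]

/-- the wedge `|⟨z, u⟩| < ε ⟨e, u⟩` -/
def C (e z : E n) (ε : ℝ) : Set (E n) := {u | |inner ℝ z u| < ε * inner ℝ e u}

lemma C_open (e z : E n) (ε : ℝ) : IsOpen (C e z ε) :=
  isOpen_lt (by fun_prop) (by fun_prop)

lemma exists_pos {e z k : E n} (he : ‖e‖ = 1) (hez : inner ℝ e z = 0) (hek : inner ℝ e k = 0)
    (hz : z ≠ 0) (hk : ∀ t : ℝ, k ≠ t • z) :
    ∃ ε : ℝ, 0 < ε ∧ 0 < ∫ u in ball (0 : E n) 1 ∩ C e z ε, (|inner ℝ k u| - |inner ℝ z u|) := by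
  have hzn : 0 < ‖z‖ := norm_pos_iff.2 hz
  set κ : ℝ := inner ℝ z k / ‖z‖ ^ 2 with hκ
  set k' : E n := k - κ • z with hk'
  have hzk' : inner ℝ z k' = 0 := by
    rw [hk', inner_sub_right, inner_smul_right, real_inner_self_eq_norm_sq, hκ]
    field_simp
    ring
  have hk'z : inner ℝ k' z = 0 := by rw [real_inner_comm]; exact hzk'
  have hek' : inner ℝ e k' = 0 := by
    rw [hk', inner_sub_right, inner_smul_right, hez, hek]; ring
  have hk'0 : k' ≠ 0 := by
    intro h0
    apply hk κ
    rw [hk', sub_eq_zero] at h0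
    exact h0
  have hk'n : 0 < ‖k'‖ := norm_pos_iff.2 hk'0
  have hkk : k = k' + κ • z := by rw [hk']; abel
  set A : ℝ := ∫ u in ball (0 : E n) 1 ∩ C e z 1, |inner ℝ k' u| with hA
  have hCm : ∀ ε, MeasurableSet (C e z ε) := fun ε => (C_open e z ε).measurableSet
  have hBC : ∀ ε, MeasurableSet (ball (0 : E n) 1 ∩ C e z ε) := fun ε =>
    measurableSet_ball.inter (hCm ε)
  have intB : ∀ (R : ℝ) (S : Set (E n)) (f : E n → ℝ), S ⊆ closedBall (0 : E n) R →
      Continuous f → IntegrableOn f S := by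
    intro R S f hS hf
    exact (hf.continuousOn.integrableOn_compact (isCompact_closedBall 0 R)).mono_set hS
  have hA0 : 0 < A := by
    rw [hA, setIntegral_pos_iff_support_of_nonneg_ae]
    · have ho : IsOpen (Function.support (fun u : E n => |inner ℝ k' u|) ∩
          (ball (0 : E n) 1 ∩ C e z 1)) := by
        apply IsOpen.inter
        · exact (by fun_prop : Continuous (fun u : E n => |inner ℝ k' u|)).isOpen_support
        · exact isOpen_ball.inter (C_open e z 1)
      apply ho.measure_pos volume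
      set r : ℝ := (‖e + k'‖ + 1)⁻¹ with hr
      have hr0 : 0 < r := by positivity
      refine ⟨r • (e + k'), ?_, ?_, ?_⟩
      · rw [Function.mem_support, inner_smul_right, inner_add_right, real_inner_self_eq_norm_sq,
          real_inner_comm, hek', zero_add]
        have : 0 < r * ‖k'‖ ^ 2 := by positivity
        exact (abs_pos.2 this.ne').ne'
      · rw [mem_ball, dist_zero_right, norm_smul, hr, norm_inv,
          Real.norm_of_nonneg (by positivity), inv_mul_lt_iff₀ (by positivity)]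
        linarith
      · show |inner ℝ z (r • (e + k'))| < 1 * inner ℝ e (r • (e + k'))
        rw [inner_smul_right, inner_smul_right, inner_add_right, inner_add_right, hzk', hek',
          real_inner_comm, hez, real_inner_self_eq_norm_sq, he]
        simp
        exact hr0
    · exact Filter.Eventually.of_forall fun u => abs_nonneg _
    · exact intB 1 _ _ (Set.inter_subset_left.trans ball_subset_closedBall) (by fun_prop)
  set R : ℝ := 1 + 1 / ‖z‖ with hR
  set V : ℝ := (volume : Measure (E n)).real (ball (0 : E n) R) with hV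
  have hV0 : 0 ≤ V := measureReal_nonneg
  set M : ℝ := (|κ| + 1) * (V + 1) with hM
  have hM0 : 0 < M := by positivity
  set ε : ℝ := min 1 (A / (2 * M)) with hε
  have hε0 : 0 < ε := lt_min one_pos (by positivity)
  have hε1 : ε ≤ 1 := min_le_left _ _
  have hεM : ε * M < A := by
    have : ε ≤ A / (2 * M) := min_le_right _ _
    calc ε * M ≤ A / (2 * M) * M := by gcongr
      _ = A / 2 := by field_simp
      _ < A := by linarith
  refine ⟨ε, hε0, ?_⟩
  set F : E n → ℝ := fun u => |inner ℝ k u| - |inner ℝ z u| with hF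
  have hFc : Continuous F := by rw [hF]; fun_prop
  set G : E n → ℝ := (ball (0 : E n) 1 ∩ C e z ε).indicator F with hG
  have hGm : Measurable G := hFc.measurable.indicator (hBC ε)
  obtain ⟨c, hc0, hc⟩ := integral_T hz hε0.ne' hGm
  rw [← integral_indicator (hBC ε)]
  -- preimage set
  set D : Set (E n) := (T z ε) ⁻¹' (ball (0 : E n) 1 ∩ C e z ε) with hD
  have hTc : Continuous (T z ε) := (T z ε).continuous_of_finiteDimensional
  have hDm : MeasurableSet D := hTc.measurable (hBC ε)
  have hGT : (fun u => G (T z ε u)) = D.indicator (fun u => F (T z ε u)) := by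
    ext u
    rw [hG, hD]
    by_cases hu : T z ε u ∈ ball (0 : E n) 1 ∩ C e z ε
    · rw [Set.indicator_of_mem hu, Set.indicator_of_mem (by exact hu)]
    · rw [Set.indicator_of_notMem hu, Set.indicator_of_notMem (by exact hu)]
  have hDiff : ∀ u, u ∈ D ↔ ‖T z ε u‖ < 1 ∧ |inner ℝ z u| < inner ℝ e u := by
    intro u
    rw [hD, Set.mem_preimage, Set.mem_inter_iff, mem_ball, dist_zero_right]
    apply and_congr_right
    intro _
    show |inner ℝ z (T z ε u)| < ε * inner ℝ e (T z ε u) ↔ _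
    rw [inner_T hz, inner_T' hez, abs_mul, abs_of_pos hε0]
    exact mul_lt_mul_iff_right₀ hε0
  have hzu : ∀ u ∈ D, |inner ℝ z u| < 1 := by
    intro u hu
    obtain ⟨h1, h2⟩ := (hDiff u).1 hu
    have h3 : inner ℝ e u ≤ 1 := by
      rw [← inner_T' hez ε u]
      calc inner ℝ e (T z ε u) ≤ ‖e‖ * ‖T z ε u‖ := real_inner_le_norm _ _
        _ ≤ 1 := by rw [he, one_mul]; exact h1.le
    linarith
  have hDR : D ⊆ ball (0 : E n) R := by
    intro u hu
    obtain ⟨h1, h2⟩ := (hDiff u).1 hu
    have h3 := hzu u hu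
    rw [mem_ball, dist_zero_right]
    have h4 : u = T z ε u + ((1 - ε) / ‖z‖ ^ 2 * inner ℝ z u) • z := by
      rw [T_apply]; abel
    have h5 : ‖((1 - ε) / ‖z‖ ^ 2 * inner ℝ z u) • z‖ ≤ 1 / ‖z‖ := by
      rw [norm_smul, norm_mul, norm_div, norm_pow, norm_norm, Real.norm_eq_abs, Real.norm_eq_abs]
      have h6 : |1 - ε| ≤ 1 := by rw [abs_le]; constructor <;> linarith
      have h7 : |1 - ε| * |inner ℝ z u| ≤ 1 := by
        calc |1 - ε| * |inner ℝ z u| ≤ 1 * 1 := by gcongr
          _ = 1 := one_mul 1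
      have h8 : |1 - ε| / ‖z‖ ^ 2 * |inner ℝ z u| * ‖z‖ = (|1 - ε| * |inner ℝ z u|) / ‖z‖ := by
        field_simp
      rw [h8]
      gcongr
    calc ‖u‖ = ‖T z ε u + ((1 - ε) / ‖z‖ ^ 2 * inner ℝ z u) • z‖ := by rw [← h4]
      _ ≤ ‖T z ε u‖ + ‖((1 - ε) / ‖z‖ ^ 2 * inner ℝ z u) • z‖ := norm_add_le _ _
      _ < 1 + 1 / ‖z‖ := by linarith
  have hTnorm : ∀ u, ‖T z ε u‖ ≤ ‖u‖ := by
    intro u
    have h1 : ‖T z ε u‖ ^ 2 = ‖u‖ ^ 2 - (1 - ε ^ 2) * (inner ℝ z u) ^ 2 / ‖z‖ ^ 2 := by
      rw [T_apply, norm_sub_sq_real, inner_smul_right, norm_smul, Real.norm_eq_abs, mul_pow,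
        sq_abs, real_inner_comm]
      field_simp
      ring
    have h2 : 0 ≤ (1 - ε ^ 2) * (inner ℝ z u) ^ 2 / ‖z‖ ^ 2 := by
      have : 0 ≤ 1 - ε ^ 2 := by nlinarith
      positivity
    apply le_of_sq_le_sq _ (norm_nonneg _)
    linarith
  -- pointwise bound
  have hpt : ∀ u, (ball (0 : E n) 1 ∩ C e z 1).indicator (fun u => |inner ℝ k' u|) u -
      (ball (0 : E n) R).indicator (fun _ => ε * (|κ| + 1)) u ≤ G (T z ε u) := by
    intro u
    rw [show G (T z ε u) = D.indicator (fun u => F (T z ε u)) u from congrFun hGT u]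
    by_cases hu : u ∈ D
    · rw [Set.indicator_of_mem hu, Set.indicator_of_mem (hDR hu)]
      have h1 : (ball (0 : E n) 1 ∩ C e z 1).indicator (fun u => |inner ℝ k' u|) u ≤
          |inner ℝ k' u| := by
        apply Set.indicator_le_self' (f := fun u : E n => |inner ℝ k' u|)
        intro _ _; exact abs_nonneg _
      have h2 : F (T z ε u) = |inner ℝ k' u + κ * (ε * inner ℝ z u)| - ε * |inner ℝ z u| := by
        rw [hF]
        simp only
        rw [inner_T hz, abs_mul, abs_of_pos hε0]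
        congr 2
        conv_lhs => rw [hkk]
        rw [inner_add_left, inner_smul_left, inner_T hz, inner_T' hk'z]
        simp
      rw [h2]
      have h3 := hzu u hu
      have h4 : |inner ℝ k' u| ≤ |inner ℝ k' u + κ * (ε * inner ℝ z u)| + |κ| * ε * |inner ℝ z u| := by
        have : |inner ℝ k' u| = |(inner ℝ k' u + κ * (ε * inner ℝ z u)) +
          (-(κ * (ε * inner ℝ z u)))| := by congr 1; ring
        rw [this]
        refine le_trans (abs_add_le _ _) ?_
        rw [abs_neg, abs_mul κ, abs_mul ε, abs_of_pos hε0]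
        linarith [mul_assoc |κ| ε |inner ℝ z u|]
      have h5 : 0 ≤ |inner ℝ z u| := abs_nonneg _
      have h6 : 0 ≤ |κ| := abs_nonneg _
      have h7 : |κ| * ε * |inner ℝ z u| ≤ |κ| * ε * 1 := by gcongr
      have h8 : ε * |inner ℝ z u| ≤ ε * 1 := by gcongr
      nlinarith
    · rw [Set.indicator_of_notMem hu]
      have h1 : u ∉ ball (0 : E n) 1 ∩ C e z 1 := by
        rintro ⟨h1, h2⟩
        apply hu
        rw [hDiff]
        refine ⟨lt_of_le_of_lt (hTnorm u) (by simpa using h1), ?_⟩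
        have : |inner ℝ z u| < 1 * inner ℝ e u := h2
        linarith
      rw [Set.indicator_of_notMem h1]
      have h2 : 0 ≤ (ball (0 : E n) R).indicator (fun _ => ε * (|κ| + 1)) u := by
        apply Set.indicator_nonneg
        intro _ _
        positivity
      linarith
  have hi1 : Integrable ((ball (0 : E n) 1 ∩ C e z 1).indicator (fun u => |inner ℝ k' u|)) := by
    rw [integrable_indicator_iff (hBC 1)]
    exact intB 1 _ _ (Set.inter_subset_left.trans ball_subset_closedBall) (by fun_prop)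
  have hi2 : Integrable ((ball (0 : E n) R).indicator (fun _ => ε * (|κ| + 1))) := by
    rw [integrable_indicator_iff measurableSet_ball]
    exact intB R _ _ ball_subset_closedBall continuous_const
  have hi3 : Integrable (fun u => G (T z ε u)) := by
    rw [hGT, integrable_indicator_iff hDm]
    exact intB R _ _ (hDR.trans ball_subset_closedBall) (hFc.comp hTc)
  have hj1 : ∫ u, (ball (0 : E n) 1 ∩ C e z 1).indicator (fun u => |inner ℝ k' u|) u = A :=
    integral_indicator (hBC 1)
  have hj2 : ∫ u, (ball (0 : E n) R).indicator (fun _ => ε * (|κ| + 1)) u =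
      V * (ε * (|κ| + 1)) := by
    rw [integral_indicator measurableSet_ball, setIntegral_const, smul_eq_mul]
  have hj3 := integral_sub hi1 hi2
  have hfin : A - V * (ε * (|κ| + 1)) ≤ c * ∫ u, G u := by
    rw [← hc, ← hj1, ← hj2, ← hj3]
    exact integral_mono (hi1.sub hi2) hi3 hpt
  have h9 : V * (ε * (|κ| + 1)) ≤ ε * M := by
    have h0 : 0 ≤ ε * (|κ| + 1) := mul_nonneg hε0.le (by positivity)
    have h1 : ε * M = V * (ε * (|κ| + 1)) + ε * (|κ| + 1) := by rw [hM]; ring
    rw [h1]
    exact le_add_of_nonneg_right h0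
  have h10 : 0 < c * ∫ u, G u := by linarith
  exact (mul_pos_iff_of_pos_left hc0).1 h10

end Pool.Agent.V11221.Neg2
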