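import Mathlib
import Pool.Agent.V11221.Neg2

/-!
Monotone mean width preserving symmetrizations fixing symmetric sets: fibre segments.
-/

namespace Pool.Agent.V11221.Neg3

open Metric Pointwise MeasureTheory
open Pool.Agent.V11221.SpherCyl
open Pool.Agent.V11221.Supp
open Pool.Agent.V11221.Dia
open Pool.Agent.V11221.BallInt
open Pool.Agent.V11221.Neg1
open Pool.Agent.V11221.Neg2

variable {n : ℕ} {H : Submodule ℝ (E n)}

/-- closed segment as a hull -/
def sg (a b : E n) : Set (E n) := hull ({a} ∪ {b})

lemma nc_pair (a b : E n) : NC ({a} ∪ {b} : Set (E n)) := (NC.singleton a).union (NC.singleton b)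

lemma nc_sg (a b : E n) : NC (sg a b) := (nc_pair a b).hull

lemma h_sg (a b u : E n) : h (sg a b) u = max (inner ℝ a u) (inner ℝ b u) := by
  unfold sg
  rw [h_hull (nc_pair a b), h_union (NC.singleton a) (NC.singleton b), h_singleton, h_singleton]

lemma left_sg (a b : E n) : a ∈ sg a b := subset_hull _ (Set.mem_union_left _ rfl)
lemma right_sg (a b : E n) : b ∈ sg a b := subset_hull _ (Set.mem_union_right _ rfl)

lemma all_of_hull {K : Set (E n)} (hK : NC K) : hull K ∈ Kall n :=
  ⟨hK.hull.1, hK.hull.2, convex_hull K⟩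

lemma hsym_hull {K : Set (E n)} (hK : ∀ p ∈ K, SpherCyl.refl H p ∈ K) : HSym H (hull K) := by
  rw [hsym_iff]
  have h1 : hull K ⊆ (H.reflection : E n → E n) ⁻¹' (hull K) := by
    apply hull_min
    · intro p hp
      show H.reflection p ∈ hull K
      rw [← refl_eq]
      exact subset_hull K (hK p hp)
    · exact (convex_hull K).linear_preimage (H.reflection.toLinearEquiv : E n →ₗ[ℝ] E n)
    · exact isClosed_closure.preimage H.reflection.continuous
  intro p hp
  rw [refl_eq]
  exact h1 hp

lemma refl_H {x : E n} (hx : x ∈ H) : SpherCyl.refl H x = x := by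
  rw [refl_eq]; exact Submodule.reflection_mem_subspace_eq_self hx

lemma refl_perp {y : E n} (hy : y ∈ Hᗮ) : SpherCyl.refl H y = -y := by
  rw [refl_eq]; exact Submodule.reflection_mem_subspace_orthogonalComplement_eq_neg hy

lemma inner_refl (w u : E n) :
    inner ℝ w (SpherCyl.refl H u) = inner ℝ (SpherCyl.refl H w) u := by
  have := H.reflection.inner_map_map w (SpherCyl.refl H u)
  rw [← this, ← refl_eq, ← refl_eq, refl_refl]

lemma I_refl (f : E n → ℝ) : I (fun u => f (SpherCyl.refl H u)) = I f := by
  have := I_isom H.reflection f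
  rw [← this]
  congr 1
  ext u
  rw [refl_eq]

lemma hyper_null {v : E n} (hv : v ≠ 0) : (volume : Measure (E n)) {u | inner ℝ v u = 0} = 0 := by
  have h1 : {u : E n | inner ℝ v u = 0} = (((ℝ ∙ v)ᗮ : Submodule ℝ (E n)) : Set (E n)) := by
    ext u
    simp [Submodule.mem_orthogonal_singleton_iff_inner_right]
  rw [h1]
  apply Measure.addHaar_submodule
  intro htop
  have : v ∈ (ℝ ∙ v)ᗮ := by rw [htop]; trivial
  rw [Submodule.mem_orthogonal_singleton_iff_inner_right] at this
  exact hv (inner_self_eq_zero.1 this)

/-- limit step -/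
lemma limit_step {e y z k : E n} {ε : ℝ} (hε : 0 < ε) (he : ‖e‖ = 1) (hez : inner ℝ e z = 0)
    (hle : ∀ m : ℕ,
      I (fun u => max |inner ℝ k u| ((m : ℝ) * (|inner ℝ z u| - ε * inner ℝ e u))) ≤
      I (fun u => max (inner ℝ y u + |inner ℝ z u|)
        ((m : ℝ) * (|inner ℝ z u| - ε * inner ℝ e u)))) :
    ∫ u in ball (0 : E n) 1, (C e z ε).indicator
      (fun u => |inner ℝ k u| - (inner ℝ y u + |inner ℝ z u|)) u ≤ 0 := by
  set φ : ℕ → E n → ℝ := fun m u =>
    max |inner ℝ k u| ((m : ℝ) * (|inner ℝ z u| - ε * inner ℝ e u)) -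
    max (inner ℝ y u + |inner ℝ z u|) ((m : ℝ) * (|inner ℝ z u| - ε * inner ℝ e u)) with hφ
  have hφc : ∀ m, Continuous (φ m) := by
    intro m; rw [hφ]; fun_prop
  have h1 : ∀ m, ∫ u in ball (0 : E n) 1, φ m u ≤ 0 := by
    intro m
    have := hle m
    unfold I at this
    have h2 : ∫ u in ball (0 : E n) 1, φ m u =
      (∫ u in ball (0 : E n) 1, max |inner ℝ k u| ((m : ℝ) * (|inner ℝ z u| - ε * inner ℝ e u))) -
      ∫ u in ball (0 : E n) 1, max (inner ℝ y u + |inner ℝ z u|)
        ((m : ℝ) * (|inner ℝ z u| - ε * inner ℝ e u)) := by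
      apply integral_sub
      · exact intOn (by fun_prop)
      · exact intOn (by fun_prop)
    rw [h2]
    linarith
  have hlim : Filter.Tendsto (fun m => ∫ u in ball (0 : E n) 1, φ m u) Filter.atTop
      (nhds (∫ u in ball (0 : E n) 1, (C e z ε).indicator
        (fun u => |inner ℝ k u| - (inner ℝ y u + |inner ℝ z u|)) u)) := by
    apply tendsto_integral_of_dominated_convergence
      (fun u => |(|inner ℝ k u|) - (inner ℝ y u + |inner ℝ z u|)|)
    · intro m
      exact (hφc m).aestronglyMeasurable
    · exact intOn (by fun_prop)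
    · intro m
      apply Filter.Eventually.of_forall
      intro u
      rw [Real.norm_eq_abs]
      exact abs_max_sub_max_le_abs _ _ _
    · have hnull : ∀ᵐ u ∂(volume : Measure (E n)), |inner ℝ z u| - ε * inner ℝ e u ≠ 0 := by
        have hv1 : z - ε • e ≠ 0 := by
          intro h0
          have : inner ℝ e (z - ε • e) = 0 := by rw [h0]; simp
          rw [inner_sub_right, hez, inner_smul_right, real_inner_self_eq_norm_sq, he] at this
          linarith
        have hv2 : z + ε • e ≠ 0 := by
          intro h0
          have : inner ℝ e (z + ε • e) = 0 := by rw [h0]; simp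
          rw [inner_add_right, hez, inner_smul_right, real_inner_self_eq_norm_sq, he] at this
          linarith
        rw [ae_iff]
        apply measure_mono_null _ (measure_union_null (hyper_null hv1) (hyper_null hv2))
        intro u hu
        have hu' : |inner ℝ z u| - ε * inner ℝ e u = 0 := by
          simpa using hu
        rcases abs_cases (inner ℝ z u) with ⟨h3, _⟩ | ⟨h3, _⟩
        · left
          show inner ℝ (z - ε • e) u = 0
          rw [inner_sub_left, inner_smul_left]
          simp only [conj_trivial]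
          linarith
        · right
          show inner ℝ (z + ε • e) u = 0
          rw [inner_add_left, inner_smul_left]
          simp only [conj_trivial]
          linarith
      filter_upwards [ae_restrict_of_ae hnull] with u hu
      rcases lt_or_gt_of_ne hu with h0 | h0
      · -- in C
        have hC : u ∈ C e z ε := by
          show |inner ℝ z u| < ε * inner ℝ e u
          linarith
        rw [Set.indicator_of_mem hC]
        apply tendsto_const_nhds.congr'
        -- eventually m * p0 ≤ both
        set q := -(|inner ℝ z u| - ε * inner ℝ e u) with hq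
        have hq0 : 0 < q := by rw [hq]; linarith
        obtain ⟨m0, hm0⟩ := exists_nat_gt (abs (inner ℝ y u + |inner ℝ z u|) / q)
        filter_upwards [Filter.eventually_ge_atTop m0] with m hm
        have h4 : abs (inner ℝ y u + |inner ℝ z u|) < m * q := by
          have h5 : abs (inner ℝ y u + |inner ℝ z u|) / q < m := lt_of_lt_of_le hm0 (by exact_mod_cast hm)
          rwa [div_lt_iff₀ hq0] at h5
        have h6 : (m : ℝ) * (|inner ℝ z u| - ε * inner ℝ e u) = -(m * q) := by rw [hq]; ring
        have h7 : -(m * q) ≤ inner ℝ y u + |inner ℝ z u| := by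
          have := neg_abs_le (inner ℝ y u + |inner ℝ z u|)
          linarith
        have h8 : -(m * q) ≤ |inner ℝ k u| := by
          have h9 : 0 ≤ |inner ℝ k u| := abs_nonneg _
          have h10 : 0 ≤ abs (inner ℝ y u + |inner ℝ z u|) := abs_nonneg _
          linarith
        rw [hφ]
        simp only
        rw [h6, max_eq_left h7, max_eq_left h8]
      · have hC : u ∉ C e z ε := by
          intro hC
          have : |inner ℝ z u| < ε * inner ℝ e u := hC
          linarith
        rw [Set.indicator_of_notMem hC]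
        apply tendsto_const_nhds.congr'
        set q := |inner ℝ z u| - ε * inner ℝ e u with hq
        obtain ⟨m0, hm0⟩ := exists_nat_gt ((abs (inner ℝ y u + |inner ℝ z u|) + |inner ℝ k u|) / q)
        filter_upwards [Filter.eventually_ge_atTop m0] with m hm
        have h4 : abs (inner ℝ y u + |inner ℝ z u|) + |inner ℝ k u| < m * q := by
          have h5 : (abs (inner ℝ y u + |inner ℝ z u|) + |inner ℝ k u|) / q < m :=
            lt_of_lt_of_le hm0 (by exact_mod_cast hm)
          rwa [div_lt_iff₀ h0] at h5
        have h7 : inner ℝ y u + |inner ℝ z u| ≤ m * q := by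
          have := le_abs_self (inner ℝ y u + |inner ℝ z u|)
          have h9 : 0 ≤ |inner ℝ k u| := abs_nonneg _
          linarith
        have h8 : |inner ℝ k u| ≤ m * q := by
          have h10 : 0 ≤ abs (inner ℝ y u + |inner ℝ z u|) := abs_nonneg _
          linarith
        rw [hφ]
        simp only
        rw [max_eq_right h7, max_eq_right h8, sub_self]
  exact le_of_tendsto' hlim h1

/-- The wedge inequality. -/
lemma key_le {s : Set (E n) → Set (E n)} (hs : Good H (Kall n) s) {x e y z k : E n}
    (hx : x ∈ H) (he : e ∈ H) (he1 : ‖e‖ = 1) (hy : y ∈ Hᗮ) (hz : z ∈ Hᗮ) (hk : k ∈ Hᗮ)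
    (hmem : x + k ∈ s (sg (x + y - z) (x + y + z))) {ε : ℝ} (hε : 0 < ε) :
    ∫ u in ball (0 : E n) 1 ∩ C e z ε, (|inner ℝ k u| - |inner ℝ z u|) ≤ 0 := by
  have hez : inner ℝ e z = 0 := Submodule.inner_right_of_mem_orthogonal he hz
  have hstep := limit_step (e := e) (y := y) (z := z) (k := k) hε he1 hez (by
    intro m
    set L := sg (x + y - z) (x + y + z) with hL
    set a : E n := x - ((m : ℝ) * ε) • e with ha
    set N := sg (a - (m : ℝ) • z) (a + (m : ℝ) • z) with hN
    have haH : a ∈ H := H.sub_mem hx (H.smul_mem _ he)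
    have hNs : HSym H N := by
      apply hsym_hull
      have hmz : (m : ℝ) • z ∈ Hᗮ := Submodule.smul_mem _ _ hz
      rintro p (hp | hp)
      · rw [Set.mem_singleton_iff] at hp
        right
        rw [Set.mem_singleton_iff, hp, sub_eq_add_neg, refl_add, refl_H haH,
          refl_perp (Submodule.neg_mem _ hmz), neg_neg]
      · rw [Set.mem_singleton_iff] at hp
        left
        rw [Set.mem_singleton_iff, hp, refl_add, refl_H haH, refl_perp hmz, sub_eq_add_neg]
    have hLall : L ∈ Kall n := all_of_hull (nc_pair _ _)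
    have hNall : N ∈ Kall n := all_of_hull (nc_pair _ _)
    have hLNC : NC L := nc_sg _ _
    have hNNC : NC N := nc_sg _ _
    set Q := hull (L ∪ N) with hQ
    have hQall : Q ∈ Kall n := all_of_hull (hLNC.union hNNC)
    have hQNC : NC Q := (hLNC.union hNNC).hull
    have hLQ : L ⊆ Q := Set.subset_union_left.trans (subset_hull _)
    have hNQ : N ⊆ Q := Set.subset_union_right.trans (subset_hull _)
    have hsL : s L ⊆ s Q := hs.mono _ hLall _ hQall hLQ
    have hsN : N ⊆ s Q := by
      have := hs.mono _ hNall _ hQall hNQ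
      rwa [hs.fix _ hNall hNs] at this
    have hsQall := hs.mem _ hQall
    have hsQNC : NC (s Q) := ⟨hsQall.1, hsQall.2.1⟩
    have hp1 : x + k ∈ s Q := hsL hmem
    have hp2 : x - k ∈ s Q := by
      have := hsym_iff.1 (hs.sym _ hQall) _ hp1
      rwa [refl_add, refl_H hx, refl_perp hk, ← sub_eq_add_neg] at this
    have hnorm : ∀ u : E n, max (inner ℝ (a - (m : ℝ) • z) u) (inner ℝ (a + (m : ℝ) • z) u) =
        inner ℝ x u + (m : ℝ) * (|inner ℝ z u| - ε * inner ℝ e u) := by
      intro u
      rw [ha, inner_sub_left, inner_sub_left, inner_add_left, inner_sub_left, inner_smul_left,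
        inner_smul_left]
      simp only [conj_trivial]
      have hm : (0 : ℝ) ≤ m := Nat.cast_nonneg m
      rcases abs_cases (inner ℝ z u) with ⟨h3, h4⟩ | ⟨h3, h4⟩
      · rw [h3, max_eq_right (by nlinarith)]; ring
      · rw [h3, max_eq_left (by nlinarith)]; ring
    have hLh : ∀ u : E n, h L u = inner ℝ x u + (inner ℝ y u + |inner ℝ z u|) := by
      intro u
      rw [hL, h_sg, inner_sub_left, inner_add_left, inner_add_left, inner_add_left]
      rcases abs_cases (inner ℝ z u) with ⟨h3, h4⟩ | ⟨h3, h4⟩
      · rw [h3, max_eq_right (by linarith)]; ring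
      · rw [h3, max_eq_left (by linarith)]; ring
    have hQh : h Q = fun u => inner ℝ x u + max (inner ℝ y u + |inner ℝ z u|)
        ((m : ℝ) * (|inner ℝ z u| - ε * inner ℝ e u)) := by
      ext u
      rw [hQ, h_hull (hLNC.union hNNC), h_union hLNC hNNC, hLh, hN, h_sg, hnorm, max_add_add_left]
    have hsQh : ∀ u : E n, inner ℝ x u + max |inner ℝ k u|
        ((m : ℝ) * (|inner ℝ z u| - ε * inner ℝ e u)) ≤ h (s Q) u := by
      intro u
      rw [← max_add_add_left]
      apply max_le
      · have h5 := le_h hsQNC hp1 u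
        have h6 := le_h hsQNC hp2 u
        rw [inner_add_left] at h5
        rw [inner_sub_left] at h6
        rcases abs_cases (inner ℝ k u) with ⟨h3, h4⟩ | ⟨h3, h4⟩
        · rw [h3]; exact h5
        · rw [h3]; linarith
      · rw [← hnorm]
        apply max_le
        · exact le_h hsQNC (hsN (left_sg _ _)) u
        · exact le_h hsQNC (hsN (right_sg _ _)) u
    have hI1 := I_mono (f := fun u => inner ℝ x u + max |inner ℝ k u|
        ((m : ℝ) * (|inner ℝ z u| - ε * inner ℝ e u))) (g := h (s Q)) (by fun_prop)
        (h_continuous hsQNC) hsQh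
    rw [hs.pres _ hQall, hQh, I_add (by fun_prop) (by fun_prop),
      I_add (by fun_prop) (by fun_prop)] at hI1
    linarith)
  -- remove the odd part
  have hodd : ∫ u in ball (0 : E n) 1, (C e z ε).indicator (fun u => inner ℝ y u) u = 0 := by
    have h1 := I_refl (H := H) ((C e z ε).indicator (fun u => inner ℝ y u))
    have h2 : (fun u => (C e z ε).indicator (fun u => inner ℝ y u) (SpherCyl.refl H u)) =
        fun u => (-1) * (C e z ε).indicator (fun u => inner ℝ y u) u := by
      ext u
      have hiff : SpherCyl.refl H u ∈ C e z ε ↔ u ∈ C e z ε := by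
        show |inner ℝ z (SpherCyl.refl H u)| < ε * inner ℝ e (SpherCyl.refl H u) ↔ _
        rw [inner_refl, inner_refl, refl_perp hz, refl_H he, inner_neg_left, abs_neg]
        rfl
      by_cases hu : u ∈ C e z ε
      · rw [Set.indicator_of_mem (hiff.2 hu), Set.indicator_of_mem hu, inner_refl, refl_perp hy,
          inner_neg_left]
        ring
      · rw [Set.indicator_of_notMem (fun h0 => hu (hiff.1 h0)), Set.indicator_of_notMem hu]
        ring
    rw [h2, I_smul] at h1
    unfold I at h1
    linarith
  have hCm : MeasurableSet (C e z ε) := (C_open e z ε).measurableSet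
  have hsplit : ∫ u in ball (0 : E n) 1, (C e z ε).indicator
      (fun u => |inner ℝ k u| - (inner ℝ y u + |inner ℝ z u|)) u =
      (∫ u in ball (0 : E n) 1, (C e z ε).indicator
        (fun u => |inner ℝ k u| - |inner ℝ z u|) u) -
      ∫ u in ball (0 : E n) 1, (C e z ε).indicator (fun u => inner ℝ y u) u := by
    rw [← integral_sub]
    · congr 1
      ext u
      by_cases hu : u ∈ C e z ε
      · rw [Set.indicator_of_mem hu, Set.indicator_of_mem hu, Set.indicator_of_mem hu]; ring
      · rw [Set.indicator_of_notMem hu, Set.indicator_of_notMem hu, Set.indicator_of_notMem hu]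
        ring
    · exact (intOn (by fun_prop)).indicator hCm
    · exact (intOn (by fun_prop)).indicator hCm
  rw [hsplit, hodd, sub_zero, setIntegral_indicator hCm] at hstep
  exact hstep

/-- fibre segments are symmetrized to centred segments -/
lemma seg_main {s : Set (E n) → Set (E n)} (hs : Good H (Kall n) s) (hH : H ≠ ⊥)
    {x y z : E n} (hx : x ∈ H) (hy : y ∈ Hᗮ) (hz : z ∈ Hᗮ) (hz0 : z ≠ 0) :
    x + z ∈ s (sg (x + y - z) (x + y + z)) := by
  set L := sg (x + y - z) (x + y + z) with hL
  have hLall : L ∈ Kall n := all_of_hull (nc_pair _ _)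
  have hLNC : NC L := nc_sg _ _
  have hsall := hs.mem _ hLall
  have hsNC : NC (s L) := ⟨hsall.1, hsall.2.1⟩
  have hzn : 0 < ‖z‖ := norm_pos_iff.2 hz0
  have hxz : inner ℝ x z = 0 := Submodule.inner_right_of_mem_orthogonal hx hz
  have hyx : H.starProjection y = 0 := (Submodule.starProjection_apply_eq_zero_iff H).2 hy
  have hzx : H.starProjection z = 0 := (Submodule.starProjection_apply_eq_zero_iff H).2 hz
  have hxx : H.starProjection x = x := Submodule.starProjection_eq_self_iff.2 hx
  -- projection of L
  have hprojL : ∀ p ∈ L, H.starProjection p = x := by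
    have h1 : L ⊆ {p | H.starProjection p = x} := by
      apply hull_min
      · rintro p (hp | hp)
        · rw [Set.mem_singleton_iff] at hp
          show H.starProjection p = x
          rw [hp, map_sub, map_add, hxx, hyx, hzx]; simp
        · rw [Set.mem_singleton_iff] at hp
          show H.starProjection p = x
          rw [hp, map_add, map_add, hxx, hyx, hzx]; simp
      · have : {p : E n | H.starProjection p = x} =
          (H.starProjection : E n →ₗ[ℝ] E n) ⁻¹' {x} := rfl
        rw [this]
        exact (convex_singleton x).linear_preimage _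
      · exact isClosed_eq (by fun_prop) continuous_const
    exact fun p hp => h1 hp
  have hproj : ∀ p ∈ s L, H.starProjection p = x := by
    intro p hp
    have h1 : H.starProjection p ∈ proj H (s L) := ⟨p, hp, rfl⟩
    rw [proj_inv (Or.inl rfl) hs L hLall] at h1
    obtain ⟨q, hq, hqp⟩ := h1
    rw [← hqp]; exact hprojL q hq
  -- every point is x + t z
  obtain ⟨e0, he0H, he00⟩ := Submodule.exists_mem_ne_zero_of_ne_bot hH
  set e : E n := ‖e0‖⁻¹ • e0 with he
  have heH : e ∈ H := H.smul_mem _ he0H
  have he1 : ‖e‖ = 1 := by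
    rw [he, norm_smul, norm_inv, norm_norm, inv_mul_cancel₀ (norm_ne_zero_iff.2 he00)]
  have hline : ∀ p ∈ s L, ∃ t : ℝ, p = x + t • z := by
    intro p hp
    by_contra hcon
    push Not at hcon
    set k := p - x with hk
    have hkH : k ∈ Hᗮ := by
      rw [hk, ← hproj p hp]
      exact Submodule.sub_starProjection_mem_orthogonal p
    have hpk : x + k ∈ s L := by rw [hk]; simpa using hp
    have hkt : ∀ t : ℝ, k ≠ t • z := by
      intro t ht
      apply hcon t
      rw [← ht, hk]; abel
    obtain ⟨ε, hε, hpos⟩ := exists_pos he1 (Submodule.inner_right_of_mem_orthogonal heH hz)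
      (Submodule.inner_right_of_mem_orthogonal heH hkH) hz0 hkt
    have := key_le hs hx heH he1 hy hz hkH hpk hε
    linarith
  obtain ⟨p, hp, hpmax⟩ := exists_h hsNC z
  obtain ⟨t, ht⟩ := hline p hp
  have hinner : ∀ r : ℝ, inner ℝ (x + r • z) z = r * ‖z‖ ^ 2 := by
    intro r
    rw [inner_add_left, hxz, inner_smul_left, real_inner_self_eq_norm_sq]; simp
  have hz2 : 0 < ‖z‖ ^ 2 := by positivity
  have hreflp : x - t • z ∈ s L := by
    have := hsym_iff.1 (hs.sym _ hLall) _ hp
    rwa [ht, refl_add, refl_H hx, refl_perp (Submodule.smul_mem _ _ hz), ← sub_eq_add_neg] at this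
  have hmaxle : ∀ r : ℝ, x + r • z ∈ s L → r ≤ t := by
    intro r hr
    have h1 := le_h hsNC hr z
    rw [← hpmax, ht, hinner, hinner] at h1
    exact le_of_mul_le_mul_right h1 hz2
  have ht0 : 0 ≤ t := by
    have := hmaxle (-t) (by rw [neg_smul, ← sub_eq_add_neg]; exact hreflp)
    linarith
  by_cases ht1 : 1 ≤ t
  · have hcv : Convex ℝ (s L) := hsall.2.2
    have hp' : x + t • z ∈ s L := ht ▸ hp
    have hconv := hcv hp' hreflp (a := (1 + 1 / t) / 2) (b := (1 - 1 / t) / 2)
      (by positivity) (by
        have : 1 / t ≤ 1 := by rw [div_le_one (by linarith)]; exact ht1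
        linarith) (by ring)
    have htne : t ≠ 0 := by linarith
    have heq : ((1 + 1 / t) / 2) • (x + t • z) + ((1 - 1 / t) / 2) • (x - t • z) = x + z := by
      rw [smul_add, smul_sub, smul_smul, smul_smul]
      have e1 : (1 + 1 / t) / 2 * t = (t + 1) / 2 := by field_simp
      have e2 : (1 - 1 / t) / 2 * t = (t - 1) / 2 := by field_simp
      rw [e1, e2]
      module
    rw [heq] at hconv
    exact hconv
  · exfalso
    push Not at ht1
    have hhs : ∀ u, h (s L) u ≤ inner ℝ x u + t * |inner ℝ z u| := by
      intro u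
      apply h_le hsNC
      intro q hq
      obtain ⟨r, hr⟩ := hline q hq
      have h1 : r ≤ t := hmaxle r (hr ▸ hq)
      have h2 : -r ≤ t := by
        apply hmaxle
        have := hsym_iff.1 (hs.sym _ hLall) _ hq
        rw [hr, refl_add, refl_H hx, refl_perp (Submodule.smul_mem _ _ hz)] at this
        rw [neg_smul]; exact this
      have h3 : |r| ≤ t := abs_le.2 ⟨by linarith, h1⟩
      rw [hr, inner_add_left, inner_smul_left]
      simp only [conj_trivial]
      have h4 : r * inner ℝ z u ≤ t * |inner ℝ z u| := by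
        calc r * inner ℝ z u ≤ |r * inner ℝ z u| := le_abs_self _
          _ = |r| * |inner ℝ z u| := abs_mul _ _
          _ ≤ t * |inner ℝ z u| := by gcongr
      linarith
    have hI := I_mono (f := h (s L)) (g := fun u => inner ℝ x u + t * |inner ℝ z u|)
      (h_continuous hsNC) (by fun_prop) hhs
    rw [hs.pres _ hLall, I_add (by fun_prop) (by fun_prop), I_smul] at hI
    have hLh : h L = fun u => (inner ℝ x u + inner ℝ y u) + |inner ℝ z u| := by
      ext u
      rw [hL, h_sg, inner_sub_left, inner_add_left, inner_add_left, inner_add_left]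
      rcases abs_cases (inner ℝ z u) with ⟨h3, h4⟩ | ⟨h3, h4⟩
      · rw [h3, max_eq_right (by linarith)]
      · rw [h3, max_eq_left (by linarith)]; ring
    rw [hLh, I_add (by fun_prop) (by fun_prop), I_add (by fun_prop) (by fun_prop)] at hI
    have hodd : I (fun u : E n => inner ℝ y u) = 0 := by
      have h1 := I_neg (fun u : E n => inner ℝ y u)
      have h2 : (fun u : E n => inner ℝ y (-u)) = fun u => (-1 : ℝ) * inner ℝ y u := by
        ext u; rw [inner_neg_right]; ring
      rw [h2, I_smul] at h1
      linarith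
    have hpos : 0 < I (fun u : E n => |inner ℝ z u|) := by
      apply I_pos (by fun_prop) (fun u => abs_nonneg _)
      refine ⟨(‖z‖ + 1)⁻¹ • z, ?_, ?_⟩
      · rw [mem_ball, dist_zero_right, norm_smul, norm_inv, Real.norm_of_nonneg (by positivity)]
        rw [inv_mul_lt_iff₀ (by positivity)]; linarith
      · rw [inner_smul_right, real_inner_self_eq_norm_sq]
        positivity
    nlinarith

lemma all_of_add {K : Set (E n)} (hK : K ∈ Kall n) (y : E n) : K + {y} ∈ Kall n :=
  ⟨hK.1.add (Set.singleton_nonempty y), hK.2.1.add isCompact_singleton,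
    hK.2.2.add (convex_singleton y)⟩

lemma I_translate {K : Set (E n)} (hK : NC K) (y : E n) : I (h (K + {y})) = I (h K) := by
  have h0 : h (K + {y}) = fun u => h K u + inner ℝ y u := by
    ext u; rw [h_add hK (NC.singleton y), h_singleton]
  have hodd : I (fun u : E n => inner ℝ y u) = 0 := by
    have h1 := I_neg (fun u : E n => inner ℝ y u)
    have h2 : (fun u : E n => inner ℝ y (-u)) = fun u => (-1 : ℝ) * inner ℝ y u := by
      ext u; rw [inner_neg_right]; ring
    rw [h2, I_smul] at h1
    linarith
  rw [h0, I_add (h_continuous hK) (by fun_prop), hodd, add_zero]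

/-- translation invariance on `𝒦ⁿ` -/
theorem trans_all {s : Set (E n) → Set (E n)} (hs : Good H (Kall n) s) (hH : H ≠ ⊥)
    {K : Set (E n)} (hK : K ∈ Kall n) (hKs : HSym H K) {y : E n} (hy : y ∈ Hᗮ) :
    s (K + {y}) = K := by
  have hKNC : NC K := ⟨hK.1, hK.2.1⟩
  have hKy := all_of_add hK y
  have hsall := hs.mem _ hKy
  have hsNC : NC (s (K + {y})) := ⟨hsall.1, hsall.2.1⟩
  have hsub : K ⊆ s (K + {y}) := by
    intro p hp
    set x := H.starProjection p with hx
    have hxH : x ∈ H := Submodule.starProjection_apply_mem H p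
    set z := p - x with hz
    have hzH : z ∈ Hᗮ := by rw [hz, hx]; exact Submodule.sub_starProjection_mem_orthogonal p
    have hpz : p = x + z := by rw [hz]; abel
    by_cases hz0 : z = 0
    · have hxp : x ∈ proj H (K + {y}) := by
        refine ⟨p + y, ⟨p, hp, y, rfl, rfl⟩, ?_⟩
        simp only
        rw [map_add, (Submodule.starProjection_apply_eq_zero_iff H).2 hy, add_zero]
      rw [← proj_inv (Or.inl rfl) hs _ hKy] at hxp
      obtain ⟨q, hq, hqx⟩ := hxp
      have hq' := hsym_iff.1 (hs.sym _ hKy) _ hq
      have hcv : Convex ℝ (s (K + {y})) := hsall.2.2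
      have := hcv hq hq' (a := 1 / 2) (b := 1 / 2) (by norm_num) (by norm_num) (by norm_num)
      have he : (1 / 2 : ℝ) • q + (1 / 2 : ℝ) • SpherCyl.refl H q = x := by
        unfold SpherCyl.refl
        simp only at hqx
        rw [hqx]
        module
      rw [he] at this
      rw [hpz, hz0, add_zero]
      exact this
    · have hxz : x - z ∈ K := by
        have := hsym_iff.1 hKs p hp
        rwa [hpz, refl_add, refl_H hxH, refl_perp hzH, ← sub_eq_add_neg] at this
      have hL : sg (x + y - z) (x + y + z) ⊆ K + {y} := by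
        apply hull_min _ hKy.2.2 hKy.2.1.isClosed
        rintro q (hq | hq)
        · rw [Set.mem_singleton_iff] at hq
          exact ⟨x - z, hxz, y, rfl, by rw [hq]; simp only; abel⟩
        · rw [Set.mem_singleton_iff] at hq
          exact ⟨p, hp, y, rfl, by rw [hq, hpz]; simp only; abel⟩
      have h1 := seg_main hs hH hxH hy hzH hz0
      have h2 := hs.mono _ (all_of_hull (nc_pair _ _)) _ hKy hL
      rw [hpz]
      exact h2 h1
  exact (eq_of_I hKNC hK.2.2 hsNC hsub (by rw [hs.pres _ hKy, I_translate hKNC])).symm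

/-- translation invariance on either class -/
theorem trans_B {B : Set (Set (E n))} (hB : B = Kall n ∨ B = Kbody n)
    {s : Set (E n) → Set (E n)} (hs : Good H B s) (hH : H ≠ ⊥)
    {K : Set (E n)} (hK : K ∈ B) (hKs : HSym H K) {y : E n} (hy : y ∈ Hᗮ)
    (hKy : K + {y} ∈ B) : s (K + {y}) = K := by
  have hKall : K ∈ Kall n := nonempty_of_mem hB hK
  have hKNC : NC K := ⟨hKall.1, hKall.2.1⟩
  have h1 := trans_all (ext_good hB hs) hH hKall hKs hy
  have h2 := sub_ext hB hs hKy
  rw [h1] at h2
  have hsB := hs.mem _ hKy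
  have hsNC := nc_of_mem hB hsB
  have hsc := (nonempty_of_mem hB hsB).2.2
  exact eq_of_I hsNC hsc hKNC h2 (by rw [hs.pres _ hKy, I_translate hKNC])

end Pool.Agent.V11221.Neg3
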