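import Mathlib

/-!
Combinatorial part: a monic basis of `𝕂[X]` adapted to a countable set of target polynomials.
-/

namespace Pool.Agent.V11221.CountHyp

open Polynomial Filter Topology

variable (𝕂 : Type) [RCLike 𝕂]

/-- countably many target polynomials, indexed by lists -/
noncomputable def yl (l : List (ℕ × ℕ)) : 𝕂[X] :=
  (l.map fun p => C (TopologicalSpace.denseSeq 𝕂 p.1) * X ^ p.2).sum

lemma yl_append (l l' : List (ℕ × ℕ)) : yl 𝕂 (l ++ l') = yl 𝕂 l + yl 𝕂 l' := by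
  simp [yl]

/-- enumeration of the targets -/
noncomputable def y (j : ℕ) : 𝕂[X] := yl 𝕂 (Denumerable.ofNat (List (ℕ × ℕ)) j)

lemma y_surj (l : List (ℕ × ℕ)) : ∃ j, y 𝕂 j = yl 𝕂 l :=
  ⟨Encodable.encode l, by unfold y; rw [Denumerable.ofNat_encode]⟩

/-- block starts -/
noncomputable def s : ℕ → ℕ
  | 0 => 1 + natDegree (y 𝕂 (Nat.unpair 0).1)
  | (i + 1) => s i + (i + 2 + natDegree (y 𝕂 (Nat.unpair (i + 1)).1))

lemma s_gap (i : ℕ) : s 𝕂 i + (i + 2) ≤ s 𝕂 (i + 1) := by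
  rw [s]; omega

lemma s_deg (i : ℕ) : natDegree (y 𝕂 (Nat.unpair i).1) < s 𝕂 i := by
  cases i with
  | zero => rw [s]; omega
  | succ i => rw [s]; omega

lemma s_strictMono : StrictMono (s 𝕂) :=
  strictMono_nat_of_lt_succ fun i => by have := s_gap 𝕂 i; omega

lemma le_s (i : ℕ) : i ≤ s 𝕂 i := (s_strictMono 𝕂).le_apply

lemma s_sep {i i' : ℕ} (h : i < i') : s 𝕂 i + (i + 2) ≤ s 𝕂 i' :=
  (s_gap 𝕂 i).trans ((s_strictMono 𝕂).monotone h)

/-- the block of `n` -/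
noncomputable def blk (n : ℕ) : ℕ := Nat.findGreatest (fun i => s 𝕂 i ≤ n) n

lemma blk_eq {i n : ℕ} (h1 : s 𝕂 i ≤ n) (h2 : n < s 𝕂 (i + 1)) : blk 𝕂 n = i := by
  unfold blk
  rw [Nat.findGreatest_eq_iff]
  refine ⟨(le_s 𝕂 i).trans h1, fun _ => h1, ?_⟩
  intro k hk _ hle
  have : s 𝕂 (i + 1) ≤ s 𝕂 k := (s_strictMono 𝕂).monotone hk
  omega

lemma blk_le {n : ℕ} (h : s 𝕂 0 ≤ n) : s 𝕂 (blk 𝕂 n) ≤ n := by
  unfold blk
  exact Nat.findGreatest_spec (P := fun i => s 𝕂 i ≤ n) (Nat.zero_le n) h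

/-- the adapted basis vectors -/
noncomputable def u (n : ℕ) : 𝕂[X] :=
  if s 𝕂 0 ≤ n then
    X ^ (n - s 𝕂 (blk 𝕂 n)) * (X ^ s 𝕂 (blk 𝕂 n) - y 𝕂 (Nat.unpair (blk 𝕂 n)).1)
  else X ^ n

lemma u_eq {i n : ℕ} (h1 : s 𝕂 i ≤ n) (h2 : n < s 𝕂 (i + 1)) :
    u 𝕂 n = X ^ (n - s 𝕂 i) * (X ^ s 𝕂 i - y 𝕂 (Nat.unpair i).1) := by
  have h0 : s 𝕂 0 ≤ n := ((s_strictMono 𝕂).monotone (Nat.zero_le i)).trans h1
  unfold u
  rw [if_pos h0, blk_eq 𝕂 h1 h2]

lemma u_shift {i n : ℕ} (h1 : s 𝕂 i ≤ n) (h2 : n + 1 < s 𝕂 (i + 1)) :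
    X * u 𝕂 n = u 𝕂 (n + 1) := by
  rw [u_eq 𝕂 h1 (by omega), u_eq 𝕂 (n := n + 1) (by omega) h2, ← mul_assoc, ← pow_succ']
  congr 2
  omega

lemma v_monic (i : ℕ) :
    (X ^ s 𝕂 i - y 𝕂 (Nat.unpair i).1 : 𝕂[X]).Monic ∧
    (X ^ s 𝕂 i - y 𝕂 (Nat.unpair i).1 : 𝕂[X]).natDegree = s 𝕂 i := by
  have hd : (y 𝕂 (Nat.unpair i).1).degree < ((s 𝕂 i : ℕ) : WithBot ℕ) :=
    lt_of_le_of_lt degree_le_natDegree (by exact_mod_cast s_deg 𝕂 i)
  have hm : (X ^ s 𝕂 i - y 𝕂 (Nat.unpair i).1 : 𝕂[X]).Monic := monic_X_pow_sub hd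
  refine ⟨hm, ?_⟩
  apply natDegree_eq_of_degree_eq_some
  rw [degree_sub_eq_left_of_degree_lt (by rw [degree_X_pow]; exact hd), degree_X_pow]

lemma u_monic (n : ℕ) : (u 𝕂 n).Monic ∧ (u 𝕂 n).natDegree = n := by
  unfold u
  split_ifs with h
  · obtain ⟨h1, h2⟩ := v_monic 𝕂 (blk 𝕂 n)
    refine ⟨(monic_X_pow _).mul h1, ?_⟩
    rw [(monic_X_pow _).natDegree_mul h1, h2, natDegree_X_pow]
    have := blk_le 𝕂 h
    omega
  · exact ⟨monic_X_pow n, natDegree_X_pow n⟩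

/-- the adapted sequence -/
noncomputable def seq : Polynomial.Sequence 𝕂 where
  elems' := u 𝕂
  degree_eq' n := by
    obtain ⟨h1, h2⟩ := u_monic 𝕂 n
    rw [degree_eq_natDegree h1.ne_zero, h2]

lemma seq_unit (n : ℕ) : IsUnit ((seq 𝕂) n).leadingCoeff := by
  have : ((seq 𝕂) n).leadingCoeff = 1 := (u_monic 𝕂 n).1
  rw [this]; exact isUnit_one

/-- the adapted basis of `𝕂[X]` -/
noncomputable def B : Module.Basis ℕ 𝕂 𝕂[X] := (seq 𝕂).basis (seq_unit 𝕂)

lemma B_apply (n : ℕ) : B 𝕂 n = u 𝕂 n := (seq 𝕂).basis_eq_self (seq_unit 𝕂) n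

lemma repr_u (n : ℕ) : (B 𝕂).repr (u 𝕂 n) = Finsupp.single n 1 := by
  rw [← B_apply, Module.Basis.repr_self]

/-- admissible weights: nonnegative, tending to `0` along all the index families
`m ↦ s (j, m) + k` with respect to a fixed nonprincipal ultrafilter. -/
def Adm (a : ℕ → ℝ) : Prop :=
  (∀ n, 0 ≤ a n) ∧ ∀ j k : ℕ,
    Tendsto (fun m => a (s 𝕂 (Nat.pair j m) + k)) (hyperfilter ℕ) (𝓝 0)

lemma tendsto_hyper {f : ℕ → ℝ} {c : ℝ} (h : Tendsto f atTop (𝓝 c)) :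
    Tendsto f (hyperfilter ℕ) (𝓝 c) := by
  apply h.mono_left
  rw [← Nat.cofinite_eq_atTop]
  exact hyperfilter_le_cofinite

/-- the positive admissible weight `2⁻ⁿ` -/
lemma adm_half : Adm 𝕂 (fun n => (1 / 2 : ℝ) ^ n) := by
  refine ⟨fun n => by positivity, fun j k => ?_⟩
  apply tendsto_hyper
  have h1 : Tendsto (fun n : ℕ => (1 / 2 : ℝ) ^ n) atTop (𝓝 0) :=
    tendsto_pow_atTop_nhds_zero_of_lt_one (by norm_num) (by norm_num)
  apply h1.comp
  apply tendsto_atTop_mono (f := fun m => m)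
  · intro m
    have h2 := Nat.right_le_pair j m
    have h3 := le_s 𝕂 (Nat.pair j m)
    show m ≤ s 𝕂 (Nat.pair j m) + k
    omega
  · exact tendsto_id

/-- splitting an infinite set of naturals -/
lemma exists_half {M : Set ℕ} (hM : M.Infinite) :
    ∃ M' ⊆ M, M'.Infinite ∧ M' ∉ hyperfilter ℕ := by
  classical
  have : Infinite M := hM.to_subtype
  let e := Nat.orderEmbeddingOfSet M
  have he : ∀ n, e n ∈ M := fun n => by
    have h0 : e n ∈ Set.range (Nat.orderEmbeddingOfSet M) := ⟨n, rfl⟩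
    rwa [Nat.orderEmbeddingOfSet_range] at h0
  let M1 : Set ℕ := Set.range fun n => e (2 * n)
  let M2 : Set ℕ := Set.range fun n => e (2 * n + 1)
  have h1 : M1.Infinite := Set.infinite_range_of_injective fun a b hab => by
    have := e.injective hab; omega
  have h2 : M2.Infinite := Set.infinite_range_of_injective fun a b hab => by
    have := e.injective hab; omega
  have hd : M1 ∩ M2 = ∅ := by
    ext x
    simp only [Set.mem_inter_iff, Set.mem_empty_iff_false, iff_false, not_and]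
    rintro ⟨a, ha⟩ ⟨b, hb⟩
    have : e (2 * a) = e (2 * b + 1) := ha.trans hb.symm
    have := e.injective this
    omega
  by_cases hc : M1 ∈ hyperfilter ℕ
  · refine ⟨M2, ?_, h2, ?_⟩
    · rintro _ ⟨n, rfl⟩; exact he _
    · intro hc2
      have := Filter.inter_mem hc hc2
      rw [hd] at this
      exact Filter.empty_notMem _ this
  · refine ⟨M1, ?_, h1, hc⟩
    rintro _ ⟨n, rfl⟩; exact he _

lemma fin_notMem {S : Set ℕ} (hS : S.Finite) : S ∉ hyperfilter ℕ := by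
  intro h
  have h1 : Sᶜ ∈ hyperfilter ℕ := by
    apply hyperfilter_le_cofinite
    exact hS.compl_mem_cofinite
  have := Filter.inter_mem h h1
  rw [Set.inter_compl_self] at this
  exact Filter.empty_notMem _ this

/-- almost disjointness of the index families -/
lemma almost_disjoint {j k j' k' : ℕ} (hne : ¬ (j = j' ∧ k = k')) :
    {m | ∃ m2, s 𝕂 (Nat.pair j' m) + k' = s 𝕂 (Nat.pair j m2) + k}.Finite := by
  apply (Set.finite_Iic (max k' (s 𝕂 k + k))).subset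
  rintro m ⟨m2, hm⟩
  have hmi := Nat.right_le_pair j' m
  rw [Set.mem_Iic]
  rcases lt_trichotomy (Nat.pair j' m) (Nat.pair j m2) with h | h | h
  · have := s_sep 𝕂 h
    apply le_max_of_le_left
    omega
  · exfalso
    rw [h] at hm
    have hk : k = k' := by omega
    have hj : j' = j := (Nat.pair_eq_pair.1 h).1
    exact hne ⟨hj.symm, hk⟩
  · have h1 := s_sep 𝕂 h
    have h2 : Nat.pair j m2 ≤ k := by omega
    have h3 := (s_strictMono 𝕂).monotone h2
    have h4 := le_s 𝕂 (Nat.pair j' m)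
    apply le_max_of_le_right
    omega

/-- If `x` has infinite support then some admissible weight makes it non-summable. -/
lemma exists_weight {x : ℕ → 𝕂} (hx : {n | x n ≠ 0}.Infinite) :
    ∃ a, Adm 𝕂 a ∧ ¬ Summable (fun n => a n * ‖x n‖) := by
  classical
  obtain ⟨S', hS'x, hS'i, hS'⟩ : ∃ S' : Set ℕ, (∀ n ∈ S', x n ≠ 0) ∧ S'.Infinite ∧
      ∀ j k : ℕ, {m | s 𝕂 (Nat.pair j m) + k ∈ S'} ∉ hyperfilter ℕ := by
    by_cases hc : ∃ j k : ℕ, {m | x (s 𝕂 (Nat.pair j m) + k) ≠ 0}.Infinite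
    · obtain ⟨j, k, hjk⟩ := hc
      obtain ⟨M', hM'1, hM'2, hM'3⟩ := exists_half hjk
      have hinj : Function.Injective (fun m => s 𝕂 (Nat.pair j m) + k) := by
        intro m m' h
        have h' : s 𝕂 (Nat.pair j m) = s 𝕂 (Nat.pair j m') := by
          simp only at h; omega
        have := (s_strictMono 𝕂).injective h'
        exact (Nat.pair_eq_pair.1 this).2
      refine ⟨(fun m => s 𝕂 (Nat.pair j m) + k) '' M', ?_, hM'2.image hinj.injOn, ?_⟩
      · rintro _ ⟨m, hm, rfl⟩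
        exact hM'1 hm
      · intro j' k'
        by_cases he : j = j' ∧ k = k'
        · obtain ⟨rfl, rfl⟩ := he
          have : {m | s 𝕂 (Nat.pair j m) + k ∈ (fun m => s 𝕂 (Nat.pair j m) + k) '' M'} = M' := by
            ext m
            constructor
            · rintro ⟨m', hm', h⟩
              rwa [← hinj h]
            · intro hm
              exact ⟨m, hm, rfl⟩
          rw [this]
          exact hM'3
        · apply fin_notMem
          apply (almost_disjoint 𝕂 he).subset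
          rintro m ⟨m2, -, h⟩
          exact ⟨m2, h.symm⟩
    · push Not at hc
      refine ⟨{n | x n ≠ 0}, fun n hn => hn, hx, fun j k => ?_⟩
      apply fin_notMem
      exact hc j k
  refine ⟨fun n => if n ∈ S' then ‖x n‖⁻¹ else 0, ⟨?_, ?_⟩, ?_⟩
  · intro n
    simp only
    split_ifs
    · positivity
    · exact le_rfl
  · intro j k
    have hev : ∀ᶠ m in (hyperfilter ℕ : Filter ℕ), s 𝕂 (Nat.pair j m) + k ∉ S' := by
      have := hS' j k
      exact Ultrafilter.compl_mem_iff_notMem.2 this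
    apply tendsto_const_nhds.congr'
    filter_upwards [hev] with m hm
    rw [if_neg hm]
  · intro hsum
    have h0 := hsum.tendsto_cofinite_zero
    have h1 : ∀ᶠ n in Filter.cofinite,
        (if n ∈ S' then ‖x n‖⁻¹ else 0) * ‖x n‖ < 1 := by
      have := h0.eventually (gt_mem_nhds (zero_lt_one' ℝ))
      exact this
    rw [Filter.eventually_cofinite] at h1
    apply hS'i
    apply h1.subset
    intro n hn
    have hne : ‖x n‖ ≠ 0 := norm_ne_zero_iff.2 (hS'x n hn)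
    simp only [Set.mem_ofPred_eq, if_pos hn]
    rw [inv_mul_cancel₀ hne]
    exact lt_irrefl _

end Pool.Agent.V11221.CountHyp
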