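import Mathlib
import Pool.Agent.V11221.CountHyp1

/-!
The topology on `𝕂[X]` and hypercyclicity of multiplication by `X`.
-/

namespace Pool.Agent.V11221.CountHyp

open Polynomial Filter Topology

variable (𝕂 : Type) [RCLike 𝕂]

/-- admissible weights -/
abbrev W := {a : ℕ → ℝ // Adm 𝕂 a}

abbrev L1 := lp (fun _ : ℕ => 𝕂) 1

variable {𝕂}

lemma memlp_fin (a : ℕ → ℝ) (c : ℕ →₀ 𝕂) :
    Memℓp (fun n => ((a n : ℝ) : 𝕂) * c n) 1 := by
  apply memℓp_gen
  apply summable_of_hasFiniteSupport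
  apply (c.support.finite_toSet).subset
  intro n hn
  rw [Function.mem_support] at hn
  simp only [Finset.mem_coe, Finsupp.mem_support_iff]
  intro h0
  apply hn
  rw [h0]
  simp

/-- weighted coefficient map into `ℓ¹` -/
noncomputable def io (a : ℕ → ℝ) : 𝕂[X] →ₗ[𝕂] L1 𝕂 where
  toFun f := ⟨fun n => ((a n : ℝ) : 𝕂) * (B 𝕂).repr f n, memlp_fin a _⟩
  map_add' f g := by
    ext n
    simp [mul_add]
    all_goals rfl
  map_smul' c f := by
    ext n
    simp [mul_left_comm]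

lemma io_apply (a : ℕ → ℝ) (f : 𝕂[X]) (n : ℕ) :
    (io a f : L1 𝕂) n = ((a n : ℝ) : 𝕂) * (B 𝕂).repr f n := rfl

lemma norm_l1 (z : L1 𝕂) : ‖z‖ = ∑' n, ‖z n‖ := by
  rw [lp.norm_eq_tsum_rpow (by norm_num)]
  simp

lemma summable_l1 (z : L1 𝕂) : Summable (fun n => ‖z n‖) := by
  have := lp.memℓp z
  have h1 := this.summable (by norm_num)
  simpa using h1

lemma norm_io_u {a : ℕ → ℝ} (ha : ∀ n, 0 ≤ a n) (n : ℕ) : ‖io a (u 𝕂 n)‖ = a n := by
  rw [norm_l1, tsum_eq_single n]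
  · rw [io_apply, repr_u]
    simp [abs_of_nonneg (ha n)]
  · intro m hm
    rw [io_apply, repr_u, Finsupp.single_apply, if_neg (Ne.symm hm)]
    simp

lemma norm_io {a : ℕ → ℝ} (ha : ∀ n, 0 ≤ a n) (f : 𝕂[X]) :
    ‖io a f‖ = ∑ n ∈ ((B 𝕂).repr f).support, a n * ‖(B 𝕂).repr f n‖ := by
  rw [norm_l1, tsum_eq_sum (s := ((B 𝕂).repr f).support)]
  · apply Finset.sum_congr rfl
    intro n _
    rw [io_apply, norm_mul]
    simp [abs_of_nonneg (ha n)]
  · intro n hn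
    rw [io_apply, Finsupp.notMem_support_iff.1 hn]
    simp

/-- continuity estimate for multiplication by `X` -/
lemma norm_io_X {a : ℕ → ℝ} (f : 𝕂[X]) :
    ‖io a (X * f)‖ ≤ ‖io (fun n => ‖io a (X * u 𝕂 n)‖) f‖ := by
  rw [norm_io (fun n => norm_nonneg _)]
  have h1 : f = ∑ n ∈ ((B 𝕂).repr f).support, (B 𝕂).repr f n • u 𝕂 n := by
    conv_lhs => rw [← (B 𝕂).linearCombination_repr f]
    rw [Finsupp.linearCombination_apply, Finsupp.sum]
    apply Finset.sum_congr rfl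
    intro n _
    rw [B_apply]
  have h2 : io a (X * f) = ∑ n ∈ ((B 𝕂).repr f).support, (B 𝕂).repr f n • io a (X * u 𝕂 n) := by
    conv_lhs => rw [h1]
    rw [Finset.mul_sum, map_sum]
    apply Finset.sum_congr rfl
    intro n _
    rw [mul_smul_comm, map_smul]
  rw [h2]
  refine (norm_sum_le _ _).trans (le_of_eq ?_)
  apply Finset.sum_congr rfl
  intro n _
  rw [norm_smul, mul_comm]

lemma adm_X {a : ℕ → ℝ} (ha : Adm 𝕂 a) : Adm 𝕂 (fun n => ‖io a (X * u 𝕂 n)‖) := by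
  refine ⟨fun n => norm_nonneg _, fun j k => ?_⟩
  apply (ha.2 j (k + 1)).congr'
  have hev : ∀ᶠ m in (hyperfilter ℕ : Filter ℕ), k ≤ m := by
    apply hyperfilter_le_cofinite
    rw [Nat.cofinite_eq_atTop]
    exact eventually_ge_atTop k
  filter_upwards [hev] with m hm
  have h1 := Nat.right_le_pair j m
  have h2 := s_gap 𝕂 (Nat.pair j m)
  rw [u_shift 𝕂 (i := Nat.pair j m) (by omega) (by omega), norm_io_u ha.1]
  rfl

/-- the embedding into a product of `ℓ¹` spaces -/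
noncomputable def io_all : 𝕂[X] →ₗ[𝕂] (W 𝕂 → L1 𝕂) :=
  LinearMap.pi fun a => io a.1

lemma io_all_apply (f : 𝕂[X]) (a : W 𝕂) : io_all f a = io a.1 f := rfl

lemma io_all_inj : Function.Injective (io_all : 𝕂[X] →ₗ[𝕂] (W 𝕂 → L1 𝕂)) := by
  rw [← LinearMap.ker_eq_bot, LinearMap.ker_eq_bot']
  intro f hf
  have h1 : io (fun n => (1 / 2 : ℝ) ^ n) f = 0 := congrFun hf ⟨_, adm_half 𝕂⟩
  apply (B 𝕂).repr.injective
  ext n
  have h2 := congrArg (fun z : L1 𝕂 => z n) h1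
  simp only [io_apply] at h2
  rw [map_zero]
  simpa using h2

/-- the range of the embedding is closed -/
lemma range_closed :
    IsClosed (Set.range (io_all : 𝕂[X] →ₗ[𝕂] (W 𝕂 → L1 𝕂))) := by
  have hev : ∀ n : ℕ, Continuous (fun z : L1 𝕂 => z n) := fun n =>
    (lp.evalCLM 𝕂 (fun _ : ℕ => 𝕂) 1 n).continuous
  let a0 : W 𝕂 := ⟨_, adm_half 𝕂⟩
  have hset : Set.range (io_all : 𝕂[X] →ₗ[𝕂] (W 𝕂 → L1 𝕂)) =
      ⋂ (a : W 𝕂), ⋂ (n : ℕ), {z | ((a0.1 n : ℝ) : 𝕂) * (z a) n = ((a.1 n : ℝ) : 𝕂) * (z a0) n} := by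
    ext z
    simp only [Set.mem_iInter]
    constructor
    · rintro ⟨f, rfl⟩ a n
      show ((a0.1 n : ℝ) : 𝕂) * (io a.1 f) n = ((a.1 n : ℝ) : 𝕂) * (io a0.1 f) n
      rw [io_apply, io_apply]
      ring
    · intro hz
      set x : ℕ → 𝕂 := fun n => (2 : 𝕂) ^ n * (z a0) n with hx
      have ha0 : ∀ n, ((a0.1 n : ℝ) : 𝕂) = (1 / 2 : 𝕂) ^ n := by
        intro n
        show (((1 / 2 : ℝ) ^ n : ℝ) : 𝕂) = _
        push_cast
        rfl
      have hza : ∀ a : W 𝕂, ∀ n, (z a) n = ((a.1 n : ℝ) : 𝕂) * x n := by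
        intro a n
        have h1 : ((a0.1 n : ℝ) : 𝕂) * (z a) n = ((a.1 n : ℝ) : 𝕂) * (z a0) n := hz a n
        rw [ha0] at h1
        have h2 : (2 : 𝕂) ^ n * ((1 / 2 : 𝕂) ^ n) = 1 := by
          rw [← mul_pow]; norm_num
        calc (z a) n = ((2 : 𝕂) ^ n * (1 / 2 : 𝕂) ^ n) * (z a) n := by rw [h2, one_mul]
          _ = (2 : 𝕂) ^ n * ((1 / 2 : 𝕂) ^ n * (z a) n) := by ring
          _ = (2 : 𝕂) ^ n * (((a.1 n : ℝ) : 𝕂) * (z a0) n) := by rw [h1]
          _ = ((a.1 n : ℝ) : 𝕂) * x n := by rw [hx]; ring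
      have hfin : {n | x n ≠ 0}.Finite := by
        by_contra hinf
        obtain ⟨a, ha, hns⟩ := exists_weight 𝕂 (x := x) hinf
        apply hns
        have h3 := summable_l1 (z ⟨a, ha⟩)
        apply h3.congr
        intro n
        rw [hza ⟨a, ha⟩ n, norm_mul]
        simp [abs_of_nonneg (ha.1 n)]
      let c : ℕ →₀ 𝕂 := Finsupp.ofSupportFinite x hfin
      refine ⟨(B 𝕂).repr.symm c, ?_⟩
      ext a n
      rw [io_all_apply, io_apply, LinearEquiv.apply_symm_apply, hza a n]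
      rfl
  rw [hset]
  apply isClosed_iInter
  intro a
  apply isClosed_iInter
  intro n
  apply isClosed_eq
  · exact continuous_const.mul ((hev n).comp (continuous_apply a))
  · exact continuous_const.mul ((hev n).comp (continuous_apply a0))

end Pool.Agent.V11221.CountHyp
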