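import Mathlib

/-!
# The well-ordered set `ω₁` and closing-off arguments
-/

namespace Pool.Agent.V11221.OmegaOne

open Set Filter Topology

/-- The well-ordered set `ω₁`. -/
abbrev W : Type := (Cardinal.aleph 1).ord.ToType

theorem countable_Iio (a : W) : (Set.Iio a).Countable := by
  rw [← Cardinal.le_aleph0_iff_set_countable, ← Order.lt_succ_iff, Cardinal.succ_aleph0]
  have h := Cardinal.mk_Iio_lt a (by simp)
  simpa using h

theorem not_countable : ¬ (Set.univ : Set W).Countable := by
  rw [← Cardinal.le_aleph0_iff_set_countable, Cardinal.mk_univ, Cardinal.mk_ord_toType, not_le]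
  exact Cardinal.aleph0_lt_aleph_one

theorem countable_Iic (a : W) : (Set.Iic a).Countable := by
  rw [← Set.Iio_insert]
  exact (countable_Iio a).insert a

/-- Countable sets are bounded. -/
theorem exists_bound {s : Set W} (hs : s.Countable) : ∃ b, ∀ a ∈ s, a < b := by
  by_contra hcon
  push Not at hcon
  apply not_countable
  have : (Set.univ : Set W) = ⋃ a ∈ s, Set.Iic a := by
    ext b
    simp only [Set.mem_univ, Set.mem_iUnion, Set.mem_Iic, true_iff]
    obtain ⟨a, ha, hba⟩ := hcon b
    exact ⟨a, ha, hba⟩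
  rw [this]
  exact hs.biUnion fun a _ => countable_Iic a

theorem exists_bound_fun {ι : Type*} [Countable ι] (f : ι → W) : ∃ b, ∀ i, f i < b := by
  obtain ⟨b, hb⟩ := exists_bound (Set.countable_range f)
  exact ⟨b, fun i => hb _ ⟨i, rfl⟩⟩

instance : Nonempty W := by
  obtain ⟨b, -⟩ := exists_bound Set.countable_empty
  exact ⟨b⟩

/-- `δ` is a limit of a strictly increasing `ω`-sequence. -/
def IsLadder (L : ℕ → W) (δ : W) : Prop :=
  StrictMono L ∧ (∀ n, L n < δ) ∧ ∀ a < δ, ∃ n, a < L n

theorem IsLadder.unique {L : ℕ → W} {δ δ' : W} (h : IsLadder L δ) (h' : IsLadder L δ') :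
    δ = δ' := by
  rcases lt_trichotomy δ δ' with hlt | heq | hlt
  · obtain ⟨n, hn⟩ := h'.2.2 δ hlt
    exact absurd (h.2.1 n) hn.asymm
  · exact heq
  · obtain ⟨n, hn⟩ := h.2.2 δ' hlt
    exact absurd (h'.2.1 n) hn.asymm

theorem countable_lists {s : Set W} (hs : s.Countable) : {l : List W | ∀ a ∈ l, a ∈ s}.Countable := by
  have : Countable s := hs.to_subtype
  have h : (Set.range fun l : List s => l.map Subtype.val).Countable := Set.countable_range _
  apply h.mono
  intro l hl
  refine ⟨l.attach.map fun a => ⟨a.1, hl a.1 a.2⟩, ?_⟩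
  simp only [List.map_map]
  exact List.attach_map_subtype_val l

theorem countable_finsets {s : Set W} (hs : s.Countable) :
    {l : Finset W | ∀ a ∈ l, a ∈ s}.Countable := by
  classical
  have h := (countable_lists hs).image List.toFinset
  apply h.mono
  intro l hl
  exact ⟨l.toList, fun a ha => hl a (Finset.mem_toList.1 ha), Finset.toList_toFinset l⟩

/-- Closing off. -/
theorem exists_closed (g : List W → Finset W → W) (α : W) : ∃ δ, α < δ ∧ (∃ L, IsLadder L δ) ∧
    ∀ (h : List W) (G : Finset W), (∀ a ∈ h, a < δ) → (∀ a ∈ G, a < δ) → g h G < δ := by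
  have hstep : ∀ a : W, ∃ b, a < b ∧ ∀ (h : List W) (G : Finset W), (∀ c ∈ h, c < a) →
      (∀ c ∈ G, c < a) → g h G < b := by
    intro a
    have h1 : (Set.image2 g {l : List W | ∀ c ∈ l, c ∈ Set.Iio a}
        {l : Finset W | ∀ c ∈ l, c ∈ Set.Iio a} ∪ {a}).Countable :=
      ((countable_lists (countable_Iio a)).image2 (countable_finsets (countable_Iio a)) g).union
        (Set.countable_singleton a)
    obtain ⟨b, hb⟩ := exists_bound h1
    exact ⟨b, hb a (Or.inr rfl), fun h G hh hG => hb _ (Or.inl ⟨h, hh, G, hG, rfl⟩)⟩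
  choose s hs1 hs2 using hstep
  let d : ℕ → W := fun n => s^[n] (s α)
  have hd : ∀ n, d (n + 1) = s (d n) := fun n => Function.iterate_succ_apply' s n (s α)
  have hmono : StrictMono d := strictMono_nat_of_lt_succ fun n => by
    rw [hd]
    exact hs1 _
  have hne : {b : W | ∀ n, d n < b}.Nonempty := exists_bound_fun d
  let δ := WellFounded.min (wellFounded_lt (α := W)) _ hne
  have hδ1 : ∀ n, d n < δ := WellFounded.min_mem (wellFounded_lt (α := W)) _ hne
  have hδ2 : ∀ a < δ, ∃ n, a < d n := by
    intro a ha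
    by_contra hcon
    push Not at hcon
    have : ∀ n, d n < a := fun n => (hmono (Nat.lt_succ_self n)).trans_le (hcon (n + 1))
    exact WellFounded.not_lt_min (wellFounded_lt (α := W)) {b : W | ∀ n, d n < b} this ha
  refine ⟨δ, (hs1 α).trans (hδ1 0), ⟨d, hmono, hδ1, hδ2⟩, ?_⟩
  intro h G hh hG
  classical
  have h1 : ∀ (F : Finset W), (∀ a ∈ F, a < δ) → ∃ n, ∀ a ∈ F, a < d n := by
    intro F
    induction F using Finset.induction_on with
    | empty => exact fun _ => ⟨0, fun a ha => absurd ha (Finset.notMem_empty a)⟩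
    | insert a F _ ih =>
      intro hF
      obtain ⟨n, hn⟩ := ih fun b hb => hF b (Finset.mem_insert_of_mem hb)
      obtain ⟨m, hm⟩ := hδ2 a (hF a (Finset.mem_insert_self a F))
      refine ⟨max n m, fun b hb => ?_⟩
      rcases Finset.mem_insert.1 hb with rfl | hb
      · exact hm.trans_le (hmono.monotone (le_max_right n m))
      · exact (hn b hb).trans_le (hmono.monotone (le_max_left n m))
  obtain ⟨n, hn⟩ := h1 (h.toFinset ∪ G) (by
    intro a ha
    rcases Finset.mem_union.1 ha with ha | ha
    · exact hh a (List.mem_toFinset.1 ha)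
    · exact hG a ha)
  have h2 := hs2 (d n) h G (fun c hc => hn c (Finset.mem_union_left _ (List.mem_toFinset.2 hc)))
    (fun c hc => hn c (Finset.mem_union_right _ hc))
  rw [← hd] at h2
  exact h2.trans (hδ1 (n + 1))

end Pool.Agent.V11221.OmegaOne
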