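import Mathlib

/-!
# Basics on `ω*`, and `2^𝔠` ultrafilters
-/

namespace Pool.Agent.V11221.OmegaStar

open Set Filter Topology TopologicalSpace

/-- The Čech–Stone remainder `ω* = βω ∖ ω`: the non-principal ultrafilters on `ℕ`, a subspace of
the Stone space `βω = Ultrafilter ℕ`. -/
abbrev OmegaStar : Type := {p : Ultrafilter ℕ // ∀ n : ℕ, p ≠ pure n}

/-- The trace of the basic clopen set of `A`. -/
def stars (A : Set ℕ) : Set OmegaStar := {p | A ∈ p.1}

theorem isClosed_range_pure_compl : IsClosed {p : Ultrafilter ℕ | ∀ n : ℕ, p ≠ pure n} := by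
  have : {p : Ultrafilter ℕ | ∀ n : ℕ, p ≠ pure n} = ⋂ n : ℕ, {p : Ultrafilter ℕ | {n}ᶜ ∈ p} := by
    ext p
    simp only [Set.mem_ofPred_eq, Set.mem_iInter]
    refine forall_congr' fun n => ?_
    rw [Ultrafilter.compl_mem_iff_notMem, not_iff_not]
    constructor
    · rintro rfl
      simp
    · intro h
      exact Ultrafilter.eq_of_le (by
        rw [Ultrafilter.coe_pure]
        exact (le_pure_iff.2 h))
  rw [this]
  exact isClosed_iInter fun n => ultrafilter_isClosed_basic _

instance : CompactSpace OmegaStar := isCompact_iff_compactSpace.1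
  isClosed_range_pure_compl.isCompact

theorem isOpen_star (A : Set ℕ) : IsOpen (stars A) :=
  (ultrafilter_isOpen_basic A).preimage continuous_subtype_val

theorem isClosed_star (A : Set ℕ) : IsClosed (stars A) :=
  (ultrafilter_isClosed_basic A).preimage continuous_subtype_val

theorem infinite_of_mem (p : OmegaStar) {A : Set ℕ} (hA : A ∈ p.1) : A.Infinite := by
  intro hfin
  obtain ⟨n, -, hn⟩ := Ultrafilter.eq_pure_of_finite_mem hfin hA
  exact p.2 n hn

theorem mem_of_finite_compl (p : OmegaStar) {A : Set ℕ} (hA : Aᶜ.Finite) : A ∈ p.1 := by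
  by_contra h
  exact infinite_of_mem p (Ultrafilter.compl_mem_iff_notMem.2 h) hA

theorem star_nonempty {A : Set ℕ} (hA : A.Infinite) : (stars A).Nonempty := by
  have : (cofinite ⊓ 𝓟 A).NeBot := by
    rw [Filter.inf_principal_neBot_iff]
    intro U hU
    have hU' : Uᶜ.Finite := hU
    by_contra hne
    rw [Set.not_nonempty_iff_eq_empty] at hne
    apply hA
    apply hU'.subset
    intro x hx hxU
    have : x ∈ U ∩ A := ⟨hxU, hx⟩
    rw [hne] at this
    exact this
  let u := Ultrafilter.of (cofinite ⊓ 𝓟 A)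
  have hu : (u : Filter ℕ) ≤ cofinite ⊓ 𝓟 A := Ultrafilter.of_le _
  refine ⟨⟨u, ?_⟩, ?_⟩
  · intro n hn
    have h1 : {n}ᶜ ∈ (u : Filter ℕ) := hu (Filter.mem_inf_of_left (by simp))
    rw [hn] at h1
    simp at h1
  · exact hu (Filter.mem_inf_of_right (Filter.mem_principal_self A))

/-- The basic clopen sets form a base. -/
theorem exists_star {p : OmegaStar} {V : Set OmegaStar} (hV : IsOpen V) (hp : p ∈ V) :
    ∃ A : Set ℕ, A ∈ p.1 ∧ stars A ⊆ V := by
  obtain ⟨W, hW, rfl⟩ := isOpen_induced_iff.1 hV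
  obtain ⟨_, ⟨A, rfl⟩, hpA, hAW⟩ := ultrafilterBasis_is_basis.exists_subset_of_mem_open
    (show p.1 ∈ W from hp) hW
  exact ⟨A, hpA, fun q hq => hAW hq⟩

theorem star_union (A B : Set ℕ) : stars (A ∪ B) = stars A ∪ stars B := by
  ext p
  exact Ultrafilter.union_mem_iff

theorem star_biUnion {ι : Type*} (t : Finset ι) (A : ι → Set ℕ) :
    stars (⋃ i ∈ t, A i) = ⋃ i ∈ t, stars (A i) := by
  classical
  induction t using Finset.induction_on with
  | empty =>
    ext p
    simp [stars]
  | insert i t _ ih =>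
    rw [Finset.set_biUnion_insert, Finset.set_biUnion_insert, star_union, ih]

/-- Between a compact set and an open set there is a basic clopen set. -/
theorem exists_star_between {K V : Set OmegaStar} (hK : IsCompact K) (hV : IsOpen V)
    (hKV : K ⊆ V) : ∃ A : Set ℕ, K ⊆ stars A ∧ stars A ⊆ V := by
  classical
  have h1 : ∀ p : OmegaStar, ∃ A : Set ℕ, p ∈ K → (A ∈ p.1 ∧ stars A ⊆ V) := by
    intro p
    by_cases hp : p ∈ K
    · obtain ⟨A, h1, h2⟩ := exists_star hV (hKV hp)
      exact ⟨A, fun _ => ⟨h1, h2⟩⟩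
    · exact ⟨∅, fun h => absurd h hp⟩
  choose A hA using h1
  obtain ⟨t, ht1, ht2⟩ := hK.elim_nhds_subcover (fun p => stars (A p))
    (fun p hp => (isOpen_star _).mem_nhds (hA p hp).1)
  refine ⟨⋃ p ∈ t, A p, ?_, ?_⟩
  · rw [star_biUnion]
    exact ht2
  · rw [star_biUnion]
    exact Set.iUnion₂_subset fun p hp => (hA p (ht1 p hp)).2

/-- Clopen subsets of `ω*` are basic. -/
theorem exists_star_eq {K : Set OmegaStar} (hK : IsClopen K) : ∃ A : Set ℕ, K = stars A := by
  obtain ⟨A, h1, h2⟩ := exists_star_between hK.isClosed.isCompact hK.isOpen (Set.Subset.refl K)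
  exact ⟨A, Set.Subset.antisymm h1 h2⟩

/-! ### There are `2^𝔠` ultrafilters on `ℕ` -/

/-- A map with dense range from a countable set into `2^{P(ω)}`. -/
noncomputable def hmp (q : Finset ℕ × Finset (Finset ℕ)) (X : Set ℕ) : Bool := by
  classical exact decide (q.1.filter (fun n => n ∈ X) ∈ q.2)

theorem denseRange_hmp : DenseRange hmp := by
  classical
  rw [DenseRange, dense_iff_inter_open]
  rintro U hU ⟨a, ha⟩
  obtain ⟨I, u, hu, hIU⟩ := isOpen_pi_iff.1 hU a ha
  -- separate the members of `I`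
  have h1 : ∀ X Y : Set ℕ, ∃ n, X ≠ Y → ¬ (n ∈ X ↔ n ∈ Y) := by
    intro X Y
    by_cases h : X = Y
    · exact ⟨0, fun h' => absurd h h'⟩
    · by_contra hcon
      push Not at hcon
      apply h
      ext n
      exact (hcon n).2
  choose s hs using h1
  let F : Finset ℕ := (I ×ˢ I).image fun p => s p.1 p.2
  let 𝒜 : Finset (Finset ℕ) := (I.filter fun X => a X = true).image fun X =>
    F.filter (fun n => n ∈ X)
  have hinj : ∀ X ∈ I, ∀ Y ∈ I, F.filter (fun n => n ∈ X) = F.filter (fun n => n ∈ Y) → X = Y := by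
    intro X hX Y hY h
    by_contra hne
    apply hs X Y hne
    have hF : s X Y ∈ F := Finset.mem_image.2 ⟨(X, Y), Finset.mem_product.2 ⟨hX, hY⟩, rfl⟩
    have h2 : s X Y ∈ F.filter (fun n => n ∈ X) ↔ s X Y ∈ F.filter (fun n => n ∈ Y) := by rw [h]
    simpa [hF] using h2
  refine ⟨hmp (F, 𝒜), hIU ?_, (F, 𝒜), rfl⟩
  intro X hX
  have hX' : X ∈ I := hX
  have h3 : hmp (F, 𝒜) X = a X := by
    have h4 : (F.filter (fun n => n ∈ X) ∈ 𝒜) ↔ a X = true := by
      constructor
      · intro h
        obtain ⟨Y, hY, hXY⟩ := Finset.mem_image.1 h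
        rw [Finset.mem_filter] at hY
        rw [← hinj Y hY.1 X hX' hXY]
        exact hY.2
      · intro h
        exact Finset.mem_image.2 ⟨X, Finset.mem_filter.2 ⟨hX', h⟩, rfl⟩
    by_cases h5 : a X = true
    · rw [h5]
      simp only [hmp]
      exact decide_eq_true (h4.2 h5)
    · have h6 : a X = false := by simpa using h5
      rw [h6]
      simp only [hmp]
      exact decide_eq_false (fun h => h5 (h4.1 h))
  rw [h3]
  exact (hu X hX').2

theorem card_ultrafilter : 2 ^ Cardinal.continuum ≤ Cardinal.mk (Ultrafilter ℕ) := by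
  obtain ⟨e, he⟩ := exists_surjective_nat (Finset ℕ × Finset (Finset ℕ))
  have hsurj : Function.Surjective (Ultrafilter.extend (hmp ∘ e)) := by
    have hc : Continuous (Ultrafilter.extend (hmp ∘ e)) := continuous_ultrafilter_extend _
    have h1 : IsClosed (Set.range (Ultrafilter.extend (hmp ∘ e))) :=
      (isCompact_range hc).isClosed
    have h2 : Dense (Set.range (Ultrafilter.extend (hmp ∘ e))) := by
      apply denseRange_hmp.mono
      rintro _ ⟨q, rfl⟩
      obtain ⟨n, rfl⟩ := he q
      exact ⟨pure n, by rw [ultrafilter_extend_pure]; rfl⟩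
    rw [← Set.range_eq_univ, ← h1.closure_eq, h2.closure_eq]
  have h := Cardinal.mk_le_of_surjective hsurj
  have h2 : Cardinal.mk (Set ℕ → Bool) = 2 ^ Cardinal.continuum := by
    simp
  rwa [h2] at h

end Pool.Agent.V11221.OmegaStar
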