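import Mathlib

/-!
# Countable k-networks

Hausdorff spaces with a countable k-network are stable under subspaces, countable sums,
countable products and function spaces `C_k(X, Y)` (Michael).
-/

namespace Pool.Agent.V11221.CkNet

open Set Filter Topology TopologicalSpace

/-- `𝒩` is a k-network. -/
def IsKNetwork {T : Type*} [TopologicalSpace T] (𝒩 : Set (Set T)) : Prop :=
  ∀ K U : Set T, IsCompact K → IsOpen U → K ⊆ U →
    ∃ ℱ : Set (Set T), ℱ ⊆ 𝒩 ∧ ℱ.Finite ∧ K ⊆ ⋃₀ ℱ ∧ ⋃₀ ℱ ⊆ U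

/-- The space has a countable k-network. -/
def HasCKN (T : Type*) [TopologicalSpace T] : Prop :=
  ∃ 𝒩 : Set (Set T), 𝒩.Countable ∧ IsKNetwork 𝒩

/-- finite intersections -/
def finInter {T : Type*} (PP : Set (Set T)) : Set (Set T) := (fun g => ⋂₀ g) '' {g | g.Finite ∧ g ⊆ PP}

/-- finite unions -/
def finUnion {T : Type*} (PP : Set (Set T)) : Set (Set T) := (fun g => ⋃₀ g) '' {g | g.Finite ∧ g ⊆ PP}

theorem countable_finInter {T : Type*} {PP : Set (Set T)} (h : PP.Countable) :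
    (finInter PP).Countable := (Set.countable_ofPred_finite_subset h).image _

theorem countable_finUnion {T : Type*} {PP : Set (Set T)} (h : PP.Countable) :
    (finUnion PP).Countable := (Set.countable_ofPred_finite_subset h).image _

/-- A criterion in terms of a subbase. -/
theorem isKNetwork_of_subbase {T : Type*} [t : TopologicalSpace T] [T2Space T]
    {𝒮 : Set (Set T)} (h𝒮 : t = generateFrom 𝒮) {PP : Set (Set T)}
    (h : ∀ S ∈ 𝒮, ∀ K : Set T, IsCompact K → K ⊆ S →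
      ∃ ℱ : Set (Set T), ℱ ⊆ PP ∧ ℱ.Finite ∧ K ⊆ ⋃₀ ℱ ∧ ⋃₀ ℱ ⊆ S) :
    IsKNetwork (finInter PP) := by
  have key : ∀ f : Set (Set T), f.Finite → f ⊆ 𝒮 → ∀ K : Set T, IsCompact K → K ⊆ ⋂₀ f →
      ∃ ℱ : Set (Set T), ℱ ⊆ finInter PP ∧ ℱ.Finite ∧ K ⊆ ⋃₀ ℱ ∧ ⋃₀ ℱ ⊆ ⋂₀ f := by
    intro f hf
    induction f, hf using Set.Finite.induction_on with
    | empty =>
      intro _ K _ _
      refine ⟨{Set.univ}, ?_, Set.finite_singleton _, by simp, by simp⟩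
      rintro _ rfl
      exact ⟨∅, ⟨Set.finite_empty, Set.empty_subset _⟩, by simp⟩
    | @insert S f _ _ ih =>
      intro hsub K hK hKf
      have hS : S ∈ 𝒮 := hsub (Set.mem_insert _ _)
      have hf' : f ⊆ 𝒮 := (Set.subset_insert _ _).trans hsub
      rw [Set.sInter_insert] at hKf
      obtain ⟨ℱ₁, h11, h12, h13, h14⟩ := ih hf' K hK (hKf.trans Set.inter_subset_right)
      obtain ⟨ℱ₂, h21, h22, h23, h24⟩ := h S hS K hK (hKf.trans Set.inter_subset_left)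
      refine ⟨Set.image2 (fun A B => A ∩ B) ℱ₁ ℱ₂, ?_, h12.image2 _ h22, ?_, ?_⟩
      · rintro _ ⟨A, hA, B, hB, rfl⟩
        obtain ⟨g, ⟨hg1, hg2⟩, rfl⟩ := h11 hA
        refine ⟨insert B g, ⟨hg1.insert _, Set.insert_subset (h21 hB) hg2⟩, ?_⟩
        simp only [Set.sInter_insert]
        rw [Set.inter_comm]
      · intro x hx
        obtain ⟨A, hA, hxA⟩ := h13 hx
        obtain ⟨B, hB, hxB⟩ := h23 hx
        exact ⟨A ∩ B, ⟨A, hA, B, hB, rfl⟩, hxA, hxB⟩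
      · rintro x ⟨_, ⟨A, hA, B, hB, rfl⟩, hxA, hxB⟩
        rw [Set.sInter_insert]
        exact ⟨h24 ⟨B, hB, hxB⟩, h14 ⟨A, hA, hxA⟩⟩
  have hbasis := isTopologicalBasis_of_subbasis h𝒮
  intro K U hK hU hKU
  have h1 : ∀ x : T, ∃ f : Set (Set T), x ∈ K → (f.Finite ∧ f ⊆ 𝒮 ∧ x ∈ ⋂₀ f ∧ ⋂₀ f ⊆ U) := by
    intro x
    by_cases hx : x ∈ K
    · obtain ⟨_, ⟨f, ⟨hf1, hf2⟩, rfl⟩, hxf, hfU⟩ := hbasis.exists_subset_of_mem_open (hKU hx) hU
      exact ⟨f, fun _ => ⟨hf1, hf2, hxf, hfU⟩⟩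
    · exact ⟨∅, fun h => absurd h hx⟩
  choose f hf using h1
  have hopen : ∀ x ∈ K, IsOpen (⋂₀ f x) := by
    intro x hx
    exact hbasis.isOpen ⟨f x, ⟨(hf x hx).1, (hf x hx).2.1⟩, rfl⟩
  obtain ⟨t, ht2⟩ := hK.elim_nhds_subcover' (fun x hx => ⋂₀ f x)
    (fun x hx => (hopen x hx).mem_nhds (hf x hx).2.2.1)
  obtain ⟨K', hK'1, hK'2, hK'3⟩ := hK.finite_compact_cover t (fun x : K => ⋂₀ f x)
    (fun x _ => hopen x x.2) ht2
  have h2 : ∀ x : K, ∃ ℱ : Set (Set T), ℱ ⊆ finInter PP ∧ ℱ.Finite ∧ K' x ⊆ ⋃₀ ℱ ∧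
      ⋃₀ ℱ ⊆ ⋂₀ f x := fun x =>
    key (f x) (hf x x.2).1 (hf x x.2).2.1 (K' x) (hK'1 x) (hK'2 x)
  choose G hG1 hG2 hG3 hG4 using h2
  refine ⟨⋃ x ∈ t, G x, ?_, ?_, ?_, ?_⟩
  · exact Set.iUnion₂_subset fun x _ => hG1 x
  · exact t.finite_toSet.biUnion fun x _ => hG2 x
  · intro y hy
    rw [hK'3] at hy
    simp only [Set.mem_iUnion] at hy
    obtain ⟨x, hx, hyx⟩ := hy
    obtain ⟨A, hA, hyA⟩ := hG3 x hyx
    exact ⟨A, Set.mem_biUnion hx hA, hyA⟩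
  · rintro y ⟨A, hA, hyA⟩
    simp only [Set.mem_iUnion] at hA
    obtain ⟨x, hx, hAx⟩ := hA
    exact (hf x x.2).2.2.2 (hG4 x ⟨A, hAx, hyA⟩)

theorem HasCKN.of_isEmbedding {T T' : Type*} [TopologicalSpace T] [TopologicalSpace T']
    {e : T' → T} (he : IsInducing e) (h : HasCKN T) : HasCKN T' := by
  obtain ⟨𝒩, h1, h2⟩ := h
  refine ⟨(fun N => e ⁻¹' N) '' 𝒩, h1.image _, ?_⟩
  intro K U hK hU hKU
  obtain ⟨V, hV, rfl⟩ := he.isOpen_iff.1 hU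
  obtain ⟨ℱ, hℱ1, hℱ2, hℱ3, hℱ4⟩ := h2 (e '' K) V (hK.image he.continuous) hV
    (Set.image_subset_iff.2 hKU)
  refine ⟨(fun N => e ⁻¹' N) '' ℱ, Set.image_mono hℱ1, hℱ2.image _, ?_, ?_⟩
  · intro x hx
    obtain ⟨A, hA, hxA⟩ := hℱ3 (Set.mem_image_of_mem e hx)
    exact ⟨e ⁻¹' A, ⟨A, hA, rfl⟩, hxA⟩
  · rintro x ⟨_, ⟨A, hA, rfl⟩, hxA⟩
    exact hℱ4 ⟨A, hA, hxA⟩

theorem HasCKN.sum {ι : Type*} [Countable ι] {T : ι → Type*} [∀ n, TopologicalSpace (T n)] (h : ∀ n, HasCKN (T n)) :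
    HasCKN (Σ n, T n) := by
  choose 𝒩 h1 h2 using h
  refine ⟨⋃ n, (fun N => Sigma.mk n '' N) '' (𝒩 n), Set.countable_iUnion fun n => (h1 n).image _, ?_⟩
  intro K U hK hU hKU
  obtain ⟨t, ht⟩ := hK.elim_finite_subcover (fun n => Set.range (Sigma.mk n : T n → Σ n, T n))
    (fun n => isOpen_range_sigmaMk) (by
      rintro ⟨n, x⟩ _
      exact Set.mem_iUnion.2 ⟨n, x, rfl⟩)
  have h3 : ∀ n, ∃ ℱ : Set (Set (T n)), ℱ ⊆ 𝒩 n ∧ ℱ.Finite ∧ (Sigma.mk n ⁻¹' K) ⊆ ⋃₀ ℱ ∧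
      ⋃₀ ℱ ⊆ (Sigma.mk n ⁻¹' U) := by
    intro n
    exact h2 n _ _ (IsClosedEmbedding.sigmaMk.isCompact_preimage hK) (hU.preimage continuous_sigmaMk)
      (Set.preimage_mono hKU)
  choose ℱ hℱ1 hℱ2 hℱ3 hℱ4 using h3
  refine ⟨⋃ n ∈ t, (fun N => Sigma.mk n '' N) '' (ℱ n), ?_, ?_, ?_, ?_⟩
  · refine Set.iUnion₂_subset fun n _ => ?_
    exact (Set.image_mono (hℱ1 n)).trans (Set.subset_iUnion (fun n => (fun N => Sigma.mk n '' N) '' (𝒩 n)) n)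
  · exact t.finite_toSet.biUnion fun n _ => (hℱ2 n).image _
  · rintro ⟨n, x⟩ hx
    have hn : n ∈ t := by
      have := ht hx
      simp only [Set.mem_iUnion] at this
      obtain ⟨m, hm, y, hy⟩ := this
      have : m = n := congrArg Sigma.fst hy
      exact this ▸ hm
    obtain ⟨A, hA, hxA⟩ := hℱ3 n (show x ∈ Sigma.mk n ⁻¹' K from hx)
    exact ⟨Sigma.mk n '' A, Set.mem_biUnion hn ⟨A, hA, rfl⟩, x, hxA, rfl⟩
  · rintro y ⟨B, hB, hyB⟩
    simp only [Set.mem_iUnion] at hB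
    obtain ⟨n, hn, A, hA, rfl⟩ := hB
    obtain ⟨x, hx, rfl⟩ := hyB
    exact hℱ4 n ⟨A, hA, hx⟩

theorem HasCKN.pi {ι : Type*} [Countable ι] {T : ι → Type*} [∀ n, TopologicalSpace (T n)] [∀ n, T2Space (T n)]
    (h : ∀ n, HasCKN (T n)) : HasCKN (∀ n, T n) := by
  choose 𝒩 h1 h2 using h
  let PP : Set (Set (∀ n, T n)) := ⋃ n, (fun N => (fun x : ∀ n, T n => x n) ⁻¹' N) '' (𝒩 n)
  refine ⟨finInter PP, countable_finInter (Set.countable_iUnion fun n => (h1 n).image _), ?_⟩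
  have hgen : (Pi.topologicalSpace : TopologicalSpace (∀ n, T n)) = generateFrom
      {S | ∃ n, ∃ V : Set (T n), IsOpen V ∧ S = (fun x : ∀ n, T n => x n) ⁻¹' V} := by
    apply le_antisymm
    · apply le_generateFrom
      rintro _ ⟨n, V, hV, rfl⟩
      exact hV.preimage (continuous_apply n)
    · refine le_iInf fun n => ?_
      rw [← continuous_iff_le_induced]
      refine continuous_def.2 fun V hV => ?_
      exact isOpen_generateFrom_of_mem ⟨n, V, hV, rfl⟩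
  refine isKNetwork_of_subbase hgen ?_
  rintro _ ⟨n, V, hV, rfl⟩ K hK hKV
  obtain ⟨ℱ, hℱ1, hℱ2, hℱ3, hℱ4⟩ := h2 n ((fun x : ∀ n, T n => x n) '' K) V
    (hK.image (continuous_apply n)) hV (Set.image_subset_iff.2 hKV)
  refine ⟨(fun N => (fun x : ∀ n, T n => x n) ⁻¹' N) '' ℱ, ?_, hℱ2.image _, ?_, ?_⟩
  · exact (Set.image_mono hℱ1).trans
      (Set.subset_iUnion (fun n => (fun N => (fun x : ∀ n, T n => x n) ⁻¹' N) '' (𝒩 n)) n)
  · intro x hx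
    obtain ⟨A, hA, hxA⟩ := hℱ3 (Set.mem_image_of_mem (fun x : ∀ n, T n => x n) hx)
    exact ⟨_, ⟨A, hA, rfl⟩, hxA⟩
  · rintro x ⟨_, ⟨A, hA, rfl⟩, hxA⟩
    exact hℱ4 ⟨A, hA, hxA⟩

theorem isCompact_union_range {X : Type*} [TopologicalSpace X] {K : Set X} (hK : IsCompact K)
    (x : ℕ → X) (hx : ∀ W : Set X, IsOpen W → K ⊆ W → ∀ᶠ n in atTop, x n ∈ W) :
    IsCompact (K ∪ Set.range x) := by
  classical
  apply isCompact_of_finite_subcover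
  intro ι U hU hcov
  obtain ⟨t, ht⟩ := hK.elim_finite_subcover U hU (Set.subset_union_left.trans hcov)
  have hW : IsOpen (⋃ i ∈ t, U i) := isOpen_biUnion fun i _ => hU i
  obtain ⟨N, hN⟩ := eventually_atTop.1 (hx _ hW ht)
  have h1 : ∀ n, ∃ i, x n ∈ U i := by
    intro n
    exact Set.mem_iUnion.1 (hcov (Set.mem_union_right _ (Set.mem_range_self n)))
  choose c hc using h1
  refine ⟨t ∪ (Finset.range N).image c, ?_⟩
  rintro y (hy | ⟨n, rfl⟩)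
  · have := ht hy
    simp only [Set.mem_iUnion] at this ⊢
    obtain ⟨i, hi, hyi⟩ := this
    exact ⟨i, Finset.mem_union_left _ hi, hyi⟩
  · by_cases hn : N ≤ n
    · have := hN n hn
      simp only [Set.mem_iUnion] at this ⊢
      obtain ⟨i, hi, hyi⟩ := this
      exact ⟨i, Finset.mem_union_left _ hi, hyi⟩
    · push Not at hn
      simp only [Set.mem_iUnion]
      exact ⟨c n, Finset.mem_union_right _ (Finset.mem_image_of_mem _ (Finset.mem_range.2 hn)), hc n⟩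

/-- The key lemma for function spaces. -/
theorem ck_key {X Y : Type*} [TopologicalSpace X] [TopologicalSpace Y] [T2Space X]
    {𝒬 : Set (Set X)} (h𝒬c : 𝒬.Countable) (h𝒬 : IsKNetwork 𝒬)
    {PP : Set (Set Y)} (hPPc : PP.Countable) (hPP : IsKNetwork PP)
    {K : Set X} (hK : IsCompact K) {U : Set Y} (hU : IsOpen U)
    {𝒦 : Set C(X, Y)} (h𝒦 : IsCompact 𝒦) (h𝒦' : ∀ f ∈ 𝒦, Set.MapsTo f K U) :
    ∃ B ∈ finInter (finUnion 𝒬), ∃ P ∈ finUnion (finUnion PP), K ⊆ B ∧ P ⊆ U ∧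
      ∀ f ∈ 𝒦, Set.MapsTo f B P := by
  -- enumerate the members of `finUnion 𝒬` containing `K`
  have hQc : {Q ∈ finUnion 𝒬 | K ⊆ Q}.Countable :=
    (countable_finUnion h𝒬c).mono (fun Q hQ => hQ.1)
  have hQne : {Q ∈ finUnion 𝒬 | K ⊆ Q}.Nonempty := by
    obtain ⟨ℱ, h1, h2, h3, -⟩ := h𝒬 K Set.univ hK isOpen_univ (Set.subset_univ _)
    exact ⟨⋃₀ ℱ, ⟨ℱ, ⟨h2, h1⟩, rfl⟩, h3⟩
  obtain ⟨q, hq⟩ := hQc.exists_eq_range hQne
  have hPc : {P ∈ finUnion PP | P ⊆ U}.Countable :=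
    (countable_finUnion hPPc).mono (fun P hP => hP.1)
  have hPne : {P ∈ finUnion PP | P ⊆ U}.Nonempty :=
    ⟨⋃₀ ∅, ⟨∅, ⟨Set.finite_empty, Set.empty_subset _⟩, rfl⟩, by simp⟩
  obtain ⟨p, hp⟩ := hPc.exists_eq_range hPne
  have hq' : ∀ n, q n ∈ finUnion 𝒬 ∧ K ⊆ q n := fun n => by
    have : q n ∈ {Q ∈ finUnion 𝒬 | K ⊆ Q} := hq ▸ Set.mem_range_self n
    exact this
  have hp' : ∀ n, p n ∈ finUnion PP ∧ p n ⊆ U := fun n => by
    have : p n ∈ {P ∈ finUnion PP | P ⊆ U} := hp ▸ Set.mem_range_self n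
    exact this
  let B : ℕ → Set X := fun n => ⋂₀ (q '' Set.Iic n)
  let P : ℕ → Set Y := fun n => ⋃₀ (p '' Set.Iic n)
  have hB : ∀ n, B n ∈ finInter (finUnion 𝒬) := fun n =>
    ⟨q '' Set.Iic n, ⟨(Set.finite_Iic n).image _, by
      rintro _ ⟨m, _, rfl⟩
      exact (hq' m).1⟩, rfl⟩
  have hP : ∀ n, P n ∈ finUnion (finUnion PP) := fun n =>
    ⟨p '' Set.Iic n, ⟨(Set.finite_Iic n).image _, by
      rintro _ ⟨m, _, rfl⟩
      exact (hp' m).1⟩, rfl⟩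
  have hKB : ∀ n, K ⊆ B n := by
    rintro n x hx _ ⟨m, _, rfl⟩
    exact (hq' m).2 hx
  have hPU : ∀ n, P n ⊆ U := by
    rintro n y ⟨_, ⟨m, _, rfl⟩, hy⟩
    exact (hp' m).2 hy
  by_contra hcon
  have hno : ∀ n, ∃ f ∈ 𝒦, ∃ x ∈ B n, f x ∉ P n := by
    intro n
    by_contra h'
    push Not at h'
    exact hcon ⟨B n, hB n, P n, hP n, hKB n, hPU n, fun f hf x hx => h' f hf x hx⟩
  choose f hf x hx hfx using hno
  -- Fact 1
  have fact1 : ∀ W : Set X, IsOpen W → K ⊆ W → ∀ᶠ n in atTop, x n ∈ W := by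
    intro W hW hKW
    obtain ⟨ℱ, h1, h2, h3, h4⟩ := h𝒬 K W hK hW hKW
    have : ⋃₀ ℱ ∈ {Q ∈ finUnion 𝒬 | K ⊆ Q} := ⟨⟨ℱ, ⟨h2, h1⟩, rfl⟩, h3⟩
    rw [hq] at this
    obtain ⟨m, hm⟩ := this
    filter_upwards [eventually_ge_atTop m] with n hn
    apply h4
    rw [← hm]
    exact hx n (q m) ⟨m, hn, rfl⟩
  -- Fact 2
  have fact2 : ∀ C : Set Y, IsCompact C → C ⊆ U → ∀ᶠ n in atTop, C ⊆ P n := by
    intro C hC hCU
    obtain ⟨ℱ, h1, h2, h3, h4⟩ := hPP C U hC hU hCU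
    have : ⋃₀ ℱ ∈ {P ∈ finUnion PP | P ⊆ U} := ⟨⟨ℱ, ⟨h2, h1⟩, rfl⟩, h4⟩
    rw [hp] at this
    obtain ⟨m, hm⟩ := this
    filter_upwards [eventually_ge_atTop m] with n hn y hy
    refine ⟨p m, ⟨m, hn, rfl⟩, ?_⟩
    rw [hm]
    exact h3 hy
  have hL : IsCompact (K ∪ Set.range x) := isCompact_union_range hK x fact1
  let L : Set X := K ∪ Set.range x
  have : CompactSpace L := isCompact_iff_compactSpace.1 hL
  let r : C(X, Y) → C(L, Y) := fun g => g.restrict L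
  have hr : Continuous r := ContinuousMap.continuous_restrict L
  have hr𝒦 : IsCompact (r '' 𝒦) := h𝒦.image hr
  let ev : C(L, Y) × L → Y := fun z => z.1 z.2
  have hev : Continuous ev := by
    exact continuous_eval
  have hKL : IsCompact (Subtype.val ⁻¹' K : Set L) :=
    IsClosedEmbedding.isCompact_preimage
      (hL.isClosed.isClosedEmbedding_subtypeVal) hK
  obtain ⟨u, v, hu, hv, hu', hv', huv⟩ := generalized_tube_lemma hr𝒦 hKL (hU.preimage hev) (by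
    rintro ⟨g, y⟩ ⟨⟨f, hf, rfl⟩, hy⟩
    exact h𝒦' f hf hy)
  obtain ⟨V, hV, rfl⟩ := isOpen_induced_iff.1 hv
  have hKV : K ⊆ V := by
    intro y hy
    exact hv' (show (⟨y, Or.inl hy⟩ : L) ∈ Subtype.val ⁻¹' K from hy)
  obtain ⟨N, hN⟩ := eventually_atTop.1 (fact1 V hV hKV)
  -- the compact set of values
  let LN : Set X := K ∪ Set.range (fun n => x (n + N))
  have hLN : IsCompact LN := by
    apply isCompact_union_range hK
    intro W hW hKW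
    obtain ⟨M, hM⟩ := eventually_atTop.1 (fact1 W hW hKW)
    filter_upwards [eventually_ge_atTop M] with n hn
    exact hM _ (by omega)
  have hLNL : LN ⊆ L := by
    rintro y (hy | ⟨n, rfl⟩)
    · exact Or.inl hy
    · exact Or.inr ⟨_, rfl⟩
  have hLN' : IsCompact (Subtype.val ⁻¹' LN : Set L) :=
    IsClosedEmbedding.isCompact_preimage
      (hL.isClosed.isClosedEmbedding_subtypeVal) hLN
  let C : Set Y := ev '' ((r '' 𝒦) ×ˢ (Subtype.val ⁻¹' LN : Set L))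
  have hC : IsCompact C := (hr𝒦.prod hLN').image hev
  have hCU : C ⊆ U := by
    rintro _ ⟨⟨g, y⟩, ⟨⟨f, hf, rfl⟩, hy⟩, rfl⟩
    have hy' : (y : X) ∈ V := by
      rcases hy with hy | ⟨n, hn⟩
      · exact hKV hy
      · have := hN (n + N) (by omega)
        have h' : x (n + N) = (y : X) := hn
        rw [h'] at this
        exact this
    have : (r f, y) ∈ ev ⁻¹' U := huv ⟨hu' ⟨f, hf, rfl⟩, hy'⟩
    exact this
  obtain ⟨M, hM⟩ := eventually_atTop.1 (fact2 C hC hCU)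
  have h1 := hM (M + N) (by omega)
  apply hfx (M + N)
  apply h1
  refine ⟨(r (f (M + N)), ⟨x (M + N), Or.inr ⟨_, rfl⟩⟩), ⟨⟨f (M + N), hf _, rfl⟩, ?_⟩, rfl⟩
  exact Or.inr ⟨M, rfl⟩

theorem HasCKN.ck {X Y : Type*} [TopologicalSpace X] [TopologicalSpace Y] [T2Space X] [T2Space Y]
    (hX : HasCKN X) (hY : HasCKN Y) : HasCKN C(X, Y) := by
  obtain ⟨𝒬, h𝒬c, h𝒬⟩ := hX
  obtain ⟨PP, hPPc, hPP⟩ := hY
  let 𝒩 : Set (Set C(X, Y)) := Set.image2 (fun B P => {f : C(X, Y) | Set.MapsTo f B P})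
    (finInter (finUnion 𝒬)) (finUnion (finUnion PP))
  refine ⟨finInter 𝒩, countable_finInter ?_, ?_⟩
  · exact (countable_finInter (countable_finUnion h𝒬c)).image2
      (countable_finUnion (countable_finUnion hPPc)) _
  refine isKNetwork_of_subbase ContinuousMap.compactOpen_eq ?_
  rintro _ ⟨K, hK, U, hU, rfl⟩ 𝒦 h𝒦 h𝒦'
  obtain ⟨B, hB, P, hP, hKB, hPU, h⟩ := ck_key h𝒬c h𝒬 hPPc hPP hK hU h𝒦 h𝒦'
  refine ⟨{{f : C(X, Y) | Set.MapsTo f B P}}, ?_, Set.finite_singleton _, ?_, ?_⟩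
  · rintro _ rfl
    exact ⟨B, hB, P, hP, rfl⟩
  · intro f hf
    exact ⟨_, rfl, h f hf⟩
  · rintro f ⟨_, rfl, hf⟩
    intro x hx
    exact hPU (hf (hKB hx))

theorem HasCKN.of_secondCountable {T : Type*} [TopologicalSpace T] [SecondCountableTopology T] :
    HasCKN T := by
  refine ⟨countableBasis T, countable_countableBasis T, ?_⟩
  intro K U hK hU hKU
  have hb := isBasis_countableBasis T
  have h1 : ∀ x : T, ∃ B : Set T, x ∈ K → (B ∈ countableBasis T ∧ x ∈ B ∧ B ⊆ U) := by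
    intro x
    by_cases hx : x ∈ K
    · obtain ⟨B, hB, hxB, hBU⟩ := hb.exists_subset_of_mem_open (hKU hx) hU
      exact ⟨B, fun _ => ⟨hB, hxB, hBU⟩⟩
    · exact ⟨∅, fun h => absurd h hx⟩
  choose B hB using h1
  obtain ⟨t, ht1, ht2⟩ := hK.elim_nhds_subcover B
    (fun x hx => (hb.isOpen (hB x hx).1).mem_nhds (hB x hx).2.1)
  refine ⟨B '' t, ?_, t.finite_toSet.image _, ?_, ?_⟩
  · rintro _ ⟨x, hx, rfl⟩
    exact (hB x (ht1 x hx)).1
  · intro y hy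
    have := ht2 hy
    simp only [Set.mem_iUnion] at this
    obtain ⟨x, hx, hyx⟩ := this
    exact ⟨B x, ⟨x, hx, rfl⟩, hyx⟩
  · rintro y ⟨_, ⟨x, hx, rfl⟩, hy⟩
    exact (hB x (ht1 x hx)).2.2 hy

theorem HasCKN.card_le {T : Type} [TopologicalSpace T] [T1Space T] (h : HasCKN T) :
    Cardinal.mk T ≤ Cardinal.continuum := by
  obtain ⟨𝒩, h1, h2⟩ := h
  let F : T → Set 𝒩 := fun x => {N | x ∈ (N : Set T)}
  have hF : Function.Injective F := by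
    intro x y hxy
    by_contra hne
    obtain ⟨ℱ, h3, -, h4, h5⟩ := h2 {x} {y}ᶜ isCompact_singleton isClosed_singleton.isOpen_compl
      (by simpa using fun h : y = x => hne h.symm)
    obtain ⟨A, hA, hxA⟩ := h4 (Set.mem_singleton x)
    have hyA : y ∉ A := fun hy => h5 ⟨A, hA, hy⟩ rfl
    have h6 : (⟨A, h3 hA⟩ : 𝒩) ∈ F x := hxA
    rw [hxy] at h6
    exact hyA h6
  calc Cardinal.mk T ≤ Cardinal.mk (Set 𝒩) := Cardinal.mk_le_of_injective hF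
    _ = 2 ^ Cardinal.mk 𝒩 := Cardinal.mk_set
    _ ≤ 2 ^ Cardinal.aleph0 := Cardinal.power_le_power_left two_ne_zero
        (Cardinal.le_aleph0_iff_set_countable.2 h1)
    _ = Cardinal.continuum := Cardinal.two_power_aleph0

end Pool.Agent.V11221.CkNet
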