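import Mathlib
import Pool.Agent.V11221.CovDim

/-!
# Intersections of finitely many zero-dimensional topologies are finite-dimensional
-/

namespace Pool.Agent.V11221.SnLower

open Set Filter Topology
open Pool.Agent.V11221.CovDim

universe u

/-- Every `c` pairs of disjoint closed sets have partitions whose intersection misses `M`. -/
def Part (X : Type u) [TopologicalSpace X] (M : Set X) (c : ℕ) : Prop :=
  ∀ A B : Fin c → Set X, (∀ j, IsClosed (A j)) → (∀ j, IsClosed (B j)) →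
    (∀ j, Disjoint (A j) (B j)) → ∃ V W : Fin c → Set X, (∀ j, IsOpen (V j) ∧ IsOpen (W j) ∧
      A j ⊆ V j ∧ B j ⊆ W j ∧ Disjoint (V j) (W j)) ∧ M ⊆ ⋃ j, V j ∪ W j

/-! ### From partitions to covering dimension -/

/-- One step of the shrinking. -/
theorem shrink_one {X : Type u} [TopologicalSpace X] [NormalSpace X] {n : ℕ}
    (hX : Part X Set.univ (n + 1)) {ι : Type*} [Finite ι] (U : ι → Set X) (hU : ∀ i, IsOpen (U i))
    (hcov : (⋃ i, U i) = Set.univ) (S : Finset ι) (hS : S.card = n + 2) :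
    ∃ V : ι → Set X, (∀ i, IsOpen (V i)) ∧ (∀ i, V i ⊆ U i) ∧ (⋃ i, V i) = Set.univ ∧
      (⋂ i ∈ S, V i) = ∅ := by
  classical
  obtain ⟨i₀, hi₀⟩ : S.Nonempty := Finset.card_pos.1 (by omega)
  let S' := S.erase i₀
  have hS' : S'.card = n + 1 := by
    rw [Finset.card_erase_of_mem hi₀, hS]
    rfl
  obtain ⟨B, hB1, hB2, hB3⟩ := exists_iUnion_eq_closed_subset hU
    (fun x => Set.toFinite _) hcov
  let e : Fin (n + 1) ≃ S' := (Fin.castOrderIso hS'.symm).toEquiv.trans S'.equivFin.symm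
  obtain ⟨V, W, hVW, hVWc⟩ := hX (fun j => (U (e j))ᶜ) (fun j => B (e j))
    (fun j => (hU _).isClosed_compl) (fun j => hB2 _)
    (fun j => Set.disjoint_compl_left_iff_subset.2 (hB3 _))
  let W' : ι → Set X := fun i => if h : i ∈ S' then W (e.symm ⟨i, h⟩) else ∅
  have hW' : ∀ j, W' (e j) = W j := by
    intro j
    have h : (e j : ι) ∈ S' := (e j).2
    simp only [W']
    rw [dif_pos h]
    congr 1
    exact e.symm_apply_apply j
  let N : ι → Set X := fun i => if i ∈ S' then W' i else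
    if i = i₀ then U i ∩ ⋃ j, V j else U i
  have hN1 : ∀ j, N (e j) = W j := by
    intro j
    simp only [N]
    rw [if_pos (e j).2, hW']
  have hN2 : N i₀ = U i₀ ∩ ⋃ j, V j := by
    simp [N, S']
  have hN3 : ∀ i, i ∉ S → N i = U i := by
    intro i hi
    simp only [N]
    rw [if_neg (fun h => hi (Finset.mem_of_mem_erase h)), if_neg (fun h => hi (by rw [h]; exact hi₀))]
  have hcases : ∀ i, (∃ j, i = ((e j : S') : ι)) ∨ i = i₀ ∨ i ∉ S := by
    intro i
    by_cases h1 : i ∈ S'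
    · exact Or.inl ⟨e.symm ⟨i, h1⟩, by simp⟩
    · by_cases h2 : i = i₀
      · exact Or.inr (Or.inl h2)
      · refine Or.inr (Or.inr fun h3 => h1 (Finset.mem_erase.2 ⟨h2, h3⟩))
  have hWU : ∀ j, W j ⊆ U (e j) := by
    intro j x hx
    by_contra hxU
    exact Set.disjoint_left.1 (hVW j).2.2.2.2 ((hVW j).2.2.1 hxU) hx
  refine ⟨N, ?_, ?_, ?_, ?_⟩
  · intro i
    rcases hcases i with ⟨j, rfl⟩ | rfl | hi
    · rw [hN1]
      exact (hVW j).2.1
    · rw [hN2]
      exact (hU _).inter (isOpen_iUnion fun j => (hVW j).1)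
    · rw [hN3 i hi]
      exact hU i
  · intro i
    rcases hcases i with ⟨j, rfl⟩ | rfl | hi
    · rw [hN1]
      exact hWU j
    · rw [hN2]
      exact Set.inter_subset_left
    · rw [hN3 i hi]
  · apply Set.eq_univ_of_forall
    intro x
    by_cases hx : ∃ j, x ∈ W j
    · obtain ⟨j, hj⟩ := hx
      exact Set.mem_iUnion.2 ⟨e j, by rwa [hN1]⟩
    · push Not at hx
      have h1 : x ∈ ⋃ i, B i := hB1 ▸ Set.mem_univ x
      obtain ⟨i, hi⟩ := Set.mem_iUnion.1 h1
      rcases hcases i with ⟨j, rfl⟩ | rfl | hiS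
      · exact absurd ((hVW j).2.2.2.1 hi) (hx j)
      · refine Set.mem_iUnion.2 ⟨i, ?_⟩
        rw [hN2]
        refine ⟨hB3 _ hi, ?_⟩
        obtain ⟨j, hj⟩ := Set.mem_iUnion.1 (hVWc (Set.mem_univ x))
        rcases hj with hj | hj
        · exact Set.mem_iUnion.2 ⟨j, hj⟩
        · exact absurd hj (hx j)
      · refine Set.mem_iUnion.2 ⟨i, ?_⟩
        rw [hN3 i hiS]
        exact hB3 _ hi
  · rw [Set.eq_empty_iff_forall_notMem]
    intro x hx
    rw [Set.mem_iInter₂] at hx
    have h1 := hx i₀ hi₀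
    rw [hN2] at h1
    obtain ⟨j, hj⟩ := Set.mem_iUnion.1 h1.2
    have h2 := hx (e j) (Finset.mem_of_mem_erase (e j).2)
    rw [hN1] at h2
    exact Set.disjoint_left.1 (hVW j).2.2.2.2 hj h2

theorem shrink_many {X : Type u} [TopologicalSpace X] [NormalSpace X] {n : ℕ}
    (hX : Part X Set.univ (n + 1)) {ι : Type*} [Finite ι] (U : ι → Set X) (hU : ∀ i, IsOpen (U i))
    (hcov : (⋃ i, U i) = Set.univ) (𝒮 : Finset (Finset ι)) (h𝒮 : ∀ S ∈ 𝒮, S.card = n + 2) :
    ∃ V : ι → Set X, (∀ i, IsOpen (V i)) ∧ (∀ i, V i ⊆ U i) ∧ (⋃ i, V i) = Set.univ ∧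
      ∀ S ∈ 𝒮, (⋂ i ∈ S, V i) = ∅ := by
  classical
  induction 𝒮 using Finset.induction_on with
  | empty => exact ⟨U, hU, fun _ => Set.Subset.refl _, hcov, fun S hS =>
      absurd hS (Finset.notMem_empty S)⟩
  | insert S 𝒮 _ ih =>
    obtain ⟨V, h1, h2, h3, h4⟩ := ih fun S' hS' => h𝒮 S' (Finset.mem_insert_of_mem hS')
    obtain ⟨V', h1', h2', h3', h4'⟩ := shrink_one hX V h1 h3 S (h𝒮 S (Finset.mem_insert_self S 𝒮))
    refine ⟨V', h1', fun i => (h2' i).trans (h2 i), h3', ?_⟩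
    intro S' hS'
    rcases Finset.mem_insert.1 hS' with rfl | hS'
    · exact h4'
    · apply Set.eq_empty_of_subset_empty
      rw [← h4 S' hS']
      exact Set.iInter₂_mono fun i _ => h2' i

theorem covDimLE_of_part {X : Type u} [TopologicalSpace X] [NormalSpace X] {n : ℕ}
    (hX : Part X Set.univ (n + 1)) : CovDimLE X n := by
  classical
  intro 𝒰 hfin ho hc
  have : Finite 𝒰 := hfin
  have : Fintype 𝒰 := hfin.fintype
  obtain ⟨V, h1, h2, h3, h4⟩ := shrink_many hX (fun U : 𝒰 => U.1) (fun U => ho U.1 U.2)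
    (by rw [← Set.sUnion_eq_iUnion, hc]) (Finset.powersetCard (n + 2) Finset.univ)
    (fun S hS => (Finset.mem_powersetCard.1 hS).2)
  refine ⟨Set.range V, Set.finite_range V, ?_, ?_, ?_, ?_⟩
  · rintro _ ⟨i, rfl⟩
    exact h1 i
  · rw [Set.sUnion_range, h3]
  · rintro _ ⟨i, rfl⟩
    exact ⟨i.1, i.2, h2 i⟩
  · intro x
    let T : Finset 𝒰 := Finset.univ.filter fun i => x ∈ V i
    have hT : T.card ≤ n + 1 := by
      by_contra hcon
      push Not at hcon
      obtain ⟨S, hS1, hS2⟩ := Finset.exists_subset_card_eq (show n + 2 ≤ T.card by omega)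
      have h5 := h4 S (Finset.mem_powersetCard.2 ⟨Finset.subset_univ S, hS2⟩)
      have h6 : x ∈ ⋂ i ∈ S, V i := Set.mem_iInter₂.2 fun i hi => by
        have := hS1 hi
        exact (Finset.mem_filter.1 this).2
      rw [h5] at h6
      exact h6
    have h5 : {W | W ∈ Set.range V ∧ x ∈ W} ⊆ V '' (T : Set 𝒰) := by
      rintro _ ⟨⟨i, rfl⟩, hi⟩
      exact ⟨i, by simpa [T] using hi, rfl⟩
    calc {W | W ∈ Set.range V ∧ x ∈ W}.encard ≤ (V '' (T : Set 𝒰)).encard := Set.encard_mono h5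
      _ ≤ (T : Set 𝒰).encard := Set.encard_image_le _ _
      _ = T.card := Set.encard_coe_eq_coe_finsetCard T
      _ ≤ n + 1 := by exact_mod_cast hT

/-! ### Separation in zero-dimensional spaces -/

theorem exists_clopen_of_covDimLE_zero {X : Type u} [TopologicalSpace X] (hX : CovDimLE X 0)
    {A B : Set X} (hA : IsClosed A) (hB : IsClosed B) (hAB : Disjoint A B) :
    ∃ C : Set X, IsClopen C ∧ A ⊆ C ∧ Disjoint C B := by
  obtain ⟨𝒱, h1, h2, h3, h4, h5⟩ := hX {Aᶜ, Bᶜ} (Set.toFinite _) (by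
    rintro U (rfl | rfl)
    · exact hA.isOpen_compl
    · exact hB.isOpen_compl) (by
    rw [Set.sUnion_pair, ← Set.compl_inter, hAB.inter_eq, Set.compl_empty])
  have hone : ∀ x, ∀ V ∈ 𝒱, ∀ V' ∈ 𝒱, x ∈ V → x ∈ V' → V = V' := by
    intro x V hV V' hV' hx hx'
    have h6 := h5 x
    simp only [Nat.cast_zero, zero_add] at h6
    rw [Set.encard_le_one_iff] at h6
    exact h6 V V' ⟨hV, hx⟩ ⟨hV', hx'⟩
  refine ⟨⋃₀ {V ∈ 𝒱 | (V ∩ A).Nonempty}, ⟨?_, ?_⟩, ?_, ?_⟩
  · have h6 : (⋃₀ {V ∈ 𝒱 | (V ∩ A).Nonempty})ᶜ = ⋃₀ {V ∈ 𝒱 | ¬ (V ∩ A).Nonempty} := by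
      ext x
      constructor
      · intro hx
        have h7 : x ∈ ⋃₀ 𝒱 := h3 ▸ Set.mem_univ x
        obtain ⟨V, hV, hxV⟩ := h7
        exact ⟨V, ⟨hV, fun hne => hx ⟨V, ⟨hV, hne⟩, hxV⟩⟩, hxV⟩
      · rintro ⟨V, ⟨hV, hne⟩, hxV⟩ ⟨V', ⟨hV', hne'⟩, hxV'⟩
        exact hne (hone x V hV V' hV' hxV hxV' ▸ hne')
    rw [← isOpen_compl_iff, h6]
    exact isOpen_sUnion fun V hV => h2 V hV.1
  · exact isOpen_sUnion fun V hV => h2 V hV.1
  · intro x hx
    have h7 : x ∈ ⋃₀ 𝒱 := h3 ▸ Set.mem_univ x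
    obtain ⟨V, hV, hxV⟩ := h7
    exact ⟨V, ⟨hV, x, hxV, hx⟩, hxV⟩
  · rw [Set.disjoint_left]
    rintro x ⟨V, ⟨hV, y, hyV, hyA⟩, hxV⟩ hxB
    obtain ⟨U, hU, hVU⟩ := h4 V hV
    rcases hU with rfl | hU
    · exact hVU hyV hyA
    · rw [Set.mem_singleton_iff] at hU
      subst hU
      exact hVU hxV hxB

/-! ### The main induction -/

variable {X : Type u} [τ : TopologicalSpace X]

/-- `G` is attached to `T` via the topologies `μ i`, `i ∈ I`. -/
def Via {ι : Type} (μ : ι → TopologicalSpace X) (G T : Set X) (I : Finset ι) : Prop :=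
  ∀ x ∈ T, x ∈ closure G ∧ ∀ U : ι → Set X, (∀ i ∈ I, U i ∈ @nhds X (μ i) x) →
    (⋃ i ∈ I, U i) ∪ Gᶜ ∈ 𝓝 x

/-- Disjoint open sets around separated sets. -/
theorem exists_separation [CompletelyNormalSpace X] {P Q : Set X} (h1 : Disjoint (closure P) Q)
    (h2 : Disjoint P (closure Q)) : ∃ V W : Set X, IsOpen V ∧ IsOpen W ∧ P ⊆ V ∧ Q ⊆ W ∧
      Disjoint V W := by
  have h := CompletelyNormalSpace.completely_normal h1 h2
  exact separatedNhds_iff_disjoint.2 h

theorem part_of_via [CompletelyNormalSpace X] [NormalSpace X] {ι : Type} [DecidableEq ι]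
    (μ : ι → TopologicalSpace X) (hext : ∀ i, ∀ U : Set X, IsOpen[τ] U → IsOpen[μ i] U)
    (hμ : ∀ i, @CovDimLE X (μ i) 0) (m : ℕ) :
    ∀ (I : Finset ι), I.card = m → ∀ G T : Set X, Via μ G T I → Part X T (2 ^ m - 1) := by
  induction m with
  | zero =>
    intro I hI G T h A B _ _ _
    rw [Finset.card_eq_zero] at hI
    subst hI
    refine ⟨fun _ => ∅, fun _ => ∅, fun j => absurd j.2 (by simp), ?_⟩
    intro x hx
    exfalso
    obtain ⟨h1, h2⟩ := h x hx
    have h3 := h2 (fun _ => Set.univ) (fun i hi => absurd hi (Finset.notMem_empty i))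
    have h4 : Gᶜ ∈ 𝓝 x := by simpa using h3
    obtain ⟨y, hy1, hy2⟩ := mem_closure_iff_nhds.1 h1 _ h4
    exact hy1 hy2
  | succ m ih =>
    intro I hI G T hvia A B hA hB hAB
    obtain ⟨i, hi⟩ : I.Nonempty := Finset.card_pos.1 (by omega)
    set c := 2 ^ m - 1 with hc
    have hpow : 2 ^ (m + 1) - 1 = 1 + (c + c) := by
      have := Nat.one_le_two_pow (n := m)
      rw [pow_succ]
      omega
    -- reindexing
    suffices h : ∀ A B : Fin (1 + (c + c)) → Set X, (∀ j, IsClosed (A j)) →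
        (∀ j, IsClosed (B j)) → (∀ j, Disjoint (A j) (B j)) →
        ∃ V W : Fin (1 + (c + c)) → Set X, (∀ j, IsOpen (V j) ∧ IsOpen (W j) ∧
        A j ⊆ V j ∧ B j ⊆ W j ∧ Disjoint (V j) (W j)) ∧ T ⊆ ⋃ j, V j ∪ W j by
      have h' : Part X T (1 + (c + c)) := h
      rw [← hpow] at h'
      exact h' A B hA hB hAB
    clear hA hB hAB A B
    intro A B hA hB hAB
    let j₀ : Fin (1 + (c + c)) := Fin.castAdd (c + c) 0
    let j₁ : Fin c → Fin (1 + (c + c)) := fun j => Fin.natAdd 1 (Fin.castAdd c j)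
    let j₂ : Fin c → Fin (1 + (c + c)) := fun j => Fin.natAdd 1 (Fin.natAdd c j)
    -- the clopen set
    obtain ⟨O₁, O₂, hO₁, hO₂, hAO, hBO, hOO⟩ := normal_separation (hA j₀) (hB j₀) (hAB j₀)
    obtain ⟨O₁', hO₁', hAO', hcl₁⟩ := normal_exists_closure_subset (hA j₀) hO₁ hAO
    obtain ⟨O₂', hO₂', hBO', hcl₂⟩ := normal_exists_closure_subset (hB j₀) hO₂ hBO
    have hcldisj : Disjoint (closure O₁') (closure O₂') := hOO.mono hcl₁ hcl₂
    obtain ⟨C, hC, hC1, hC2⟩ := @exists_clopen_of_covDimLE_zero X (μ i) (hμ i) (closure O₁')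
      (closure O₂') (@IsClosed.mk X (μ i) _ (hext i _ isClosed_closure.isOpen_compl))
      (@IsClosed.mk X (μ i) _ (hext i _ isClosed_closure.isOpen_compl)) hcldisj
    have hCo : IsOpen[μ i] C := hC.2
    have hCo' : IsOpen[μ i] Cᶜ := (@isOpen_compl_iff X C (μ i)).2 hC.1
    let L : Set X := T ∩ closure (G ∩ C) ∩ closure (G \ C)
    -- the two parts of `L`
    have hI' : (I.erase i).card = m := by
      rw [Finset.card_erase_of_mem hi, hI]
      rfl
    have hvia1 : Via μ (G \ C) (L ∩ C) (I.erase i) := by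
      rintro x ⟨⟨⟨hxT, -⟩, hx2⟩, hxC⟩
      refine ⟨hx2, fun U hU => ?_⟩
      have h1 := (hvia x hxT).2 (fun j => if j = i then C else U j) (by
        intro j hj
        by_cases hji : j = i
        · subst hji
          simp only [if_true]
          exact @IsOpen.mem_nhds X (μ j) x C hCo hxC
        · simp only [if_neg hji]
          exact hU j (Finset.mem_erase.2 ⟨hji, hj⟩))
      refine mem_of_superset h1 ?_
      rintro y (hy | hy)
      · simp only [Set.mem_iUnion] at hy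
        obtain ⟨j, hj, hy⟩ := hy
        by_cases hji : j = i
        · rw [if_pos hji] at hy
          exact Or.inr fun h => h.2 hy
        · rw [if_neg hji] at hy
          exact Or.inl (Set.mem_biUnion (Finset.mem_coe.2 (Finset.mem_erase.2 ⟨hji, hj⟩)) hy)
      · exact Or.inr fun h => hy h.1
    have hvia2 : Via μ (G ∩ C) (L \ C) (I.erase i) := by
      rintro x ⟨⟨⟨hxT, hx1⟩, -⟩, hxC⟩
      refine ⟨hx1, fun U hU => ?_⟩
      have h1 := (hvia x hxT).2 (fun j => if j = i then Cᶜ else U j) (by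
        intro j hj
        by_cases hji : j = i
        · subst hji
          simp only [if_true]
          exact @IsOpen.mem_nhds X (μ j) x Cᶜ hCo' hxC
        · simp only [if_neg hji]
          exact hU j (Finset.mem_erase.2 ⟨hji, hj⟩))
      refine mem_of_superset h1 ?_
      rintro y (hy | hy)
      · simp only [Set.mem_iUnion] at hy
        obtain ⟨j, hj, hy⟩ := hy
        by_cases hji : j = i
        · rw [if_pos hji] at hy
          exact Or.inr fun h => hy h.2
        · rw [if_neg hji] at hy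
          exact Or.inl (Set.mem_biUnion (Finset.mem_coe.2 (Finset.mem_erase.2 ⟨hji, hj⟩)) hy)
      · exact Or.inr fun h => hy h.1
    obtain ⟨V₁, W₁, h11, h12⟩ := ih (I.erase i) hI' _ _ hvia1 (fun j => A (j₁ j))
      (fun j => B (j₁ j)) (fun j => hA _) (fun j => hB _) (fun j => hAB _)
    obtain ⟨V₂, W₂, h21, h22⟩ := ih (I.erase i) hI' _ _ hvia2 (fun j => A (j₂ j))
      (fun j => B (j₂ j)) (fun j => hA _) (fun j => hB _) (fun j => hAB _)
    -- the first partition
    let P : Set X := A j₀ ∪ ((closure (G \ C))ᶜ ∩ T)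
    let Q : Set X := B j₀ ∪ ((closure (G ∩ C))ᶜ ∩ T)
    have hTG : T ⊆ closure (G ∩ C) ∪ closure (G \ C) := by
      intro x hx
      have h1 := (hvia x hx).1
      have h2 : G = (G ∩ C) ∪ (G \ C) := (Set.inter_union_sdiff G C).symm
      rw [h2, closure_union] at h1
      exact h1
    -- neighbourhoods of `A` and `B`
    have hnA : Disjoint O₁' ((closure (G ∩ C))ᶜ ∩ T) := by
      rw [Set.disjoint_left]
      rintro x hx ⟨hx1, hxT⟩
      apply hx1
      rw [mem_closure_iff]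
      intro N hN hxN
      obtain ⟨y, hy1, hy2⟩ := mem_closure_iff.1 (hvia x hxT).1 (N ∩ O₁') (hN.inter hO₁') ⟨hxN, hx⟩
      exact ⟨y, hy1.1, hy2, hC1 (subset_closure hy1.2)⟩
    have hnB : Disjoint O₂' ((closure (G \ C))ᶜ ∩ T) := by
      rw [Set.disjoint_left]
      rintro x hx ⟨hx1, hxT⟩
      apply hx1
      rw [mem_closure_iff]
      intro N hN hxN
      obtain ⟨y, hy1, hy2⟩ := mem_closure_iff.1 (hvia x hxT).1 (N ∩ O₂') (hN.inter hO₂') ⟨hxN, hx⟩
      exact ⟨y, hy1.1, hy2, fun hyC => Set.disjoint_left.1 hC2 hyC (subset_closure hy1.2)⟩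
    have hPQ1 : Disjoint (closure P) Q := by
      rw [closure_union, (hA j₀).closure_eq]
      rw [Set.disjoint_union_left, Set.disjoint_union_right, Set.disjoint_union_right]
      refine ⟨⟨hAB j₀, (hnA.mono_left hAO')⟩, ?_, ?_⟩
      · rw [Set.disjoint_left]
        intro x hx hxB
        obtain ⟨y, hy1, hy2⟩ := mem_closure_iff.1 hx O₂' hO₂' (hBO' hxB)
        exact Set.disjoint_left.1 hnB hy1 hy2
      · rw [Set.disjoint_left]
        rintro x hx ⟨hx1, hxT⟩
        obtain ⟨y, hy1, hy2, hy3⟩ := mem_closure_iff.1 hx _ isClosed_closure.isOpen_compl hx1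
        rcases hTG hy3 with h | h
        · exact hy1 h
        · exact hy2 h
    have hPQ2 : Disjoint P (closure Q) := by
      rw [closure_union, (hB j₀).closure_eq]
      rw [Set.disjoint_union_left, Set.disjoint_union_right, Set.disjoint_union_right]
      refine ⟨⟨hAB j₀, ?_⟩, (hnB.mono_left hBO').symm, ?_⟩
      · rw [Set.disjoint_right]
        intro x hx hxA
        obtain ⟨y, hy1, hy2⟩ := mem_closure_iff.1 hx O₁' hO₁' (hAO' hxA)
        exact Set.disjoint_left.1 hnA hy1 hy2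
      · rw [Set.disjoint_right]
        rintro x hx ⟨hx1, hxT⟩
        obtain ⟨y, hy1, hy2, hy3⟩ := mem_closure_iff.1 hx _ isClosed_closure.isOpen_compl hx1
        rcases hTG hy3 with h | h
        · exact hy2 h
        · exact hy1 h
    obtain ⟨V₀, W₀, hV₀, hW₀, hPV, hQW, hVW₀⟩ := exists_separation hPQ1 hPQ2
    refine ⟨Fin.addCases (fun _ => V₀) (Fin.addCases V₁ V₂),
      Fin.addCases (fun _ => W₀) (Fin.addCases W₁ W₂), ?_, ?_⟩
    · intro j
      induction j using Fin.addCases with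
      | left j =>
        have hj : j = 0 := Subsingleton.elim _ _
        subst hj
        simp only [Fin.addCases_left]
        exact ⟨hV₀, hW₀, Set.subset_union_left.trans hPV, Set.subset_union_left.trans hQW, hVW₀⟩
      | right j =>
        simp only [Fin.addCases_right]
        induction j using Fin.addCases with
        | left j =>
          simp only [Fin.addCases_left]
          exact h11 j
        | right j =>
          simp only [Fin.addCases_right]
          exact h21 j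
    · intro x hx
      by_cases hx0 : x ∈ V₀ ∪ W₀
      · refine Set.mem_iUnion.2 ⟨Fin.castAdd (c + c) 0, ?_⟩
        simp only [Fin.addCases_left]
        exact hx0
      · have hxL : x ∈ L := by
          refine ⟨⟨hx, ?_⟩, ?_⟩
          · by_contra h
            exact hx0 (Or.inr (hQW (Or.inr ⟨h, hx⟩)))
          · by_contra h
            exact hx0 (Or.inl (hPV (Or.inr ⟨h, hx⟩)))
        by_cases hxC : x ∈ C
        · obtain ⟨j, hj⟩ := Set.mem_iUnion.1 (h12 ⟨hxL, hxC⟩)
          refine Set.mem_iUnion.2 ⟨Fin.natAdd 1 (Fin.castAdd c j), ?_⟩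
          simp only [Fin.addCases_left, Fin.addCases_right]
          exact hj
        · obtain ⟨j, hj⟩ := Set.mem_iUnion.1 (h22 ⟨hxL, hxC⟩)
          refine Set.mem_iUnion.2 ⟨Fin.natAdd 1 (Fin.natAdd c j), ?_⟩
          simp only [Fin.addCases_right]
          exact hj

/-- The neighbourhood filters of the intersection of topologies. -/
theorem nhds_of_inter [T1Space X] [FrechetUrysohnSpace X] [T2Space X] {ι : Type*} [Nonempty ι]
    (μ : ι → TopologicalSpace X)
    (hμ : ∀ U : Set X, IsOpen[τ] U ↔ ∀ i, IsOpen[μ i] U) (x : X) (S : Set X)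
    (hS : ∀ i, S ∈ @nhds X (μ i) x) : S ∈ 𝓝 x := by
  by_contra hcon
  have h1 : x ∈ closure Sᶜ := by
    rw [closure_compl]
    intro h
    exact hcon (mem_interior_iff_mem_nhds.1 h)
  obtain ⟨u, hu1, hu2⟩ := mem_closure_iff_seq_limit.1 h1
  have hcl : IsClosed (insert x (Set.range u)) := hu2.isCompact_insert_range.isClosed
  have hopen : IsOpen (Set.range u)ᶜ := by
    rw [hμ]
    intro i
    rw [@isOpen_iff_mem_nhds X (μ i)]
    intro y hy
    by_cases hyx : y = x
    · subst hyx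
      refine mem_of_superset (hS i) ?_
      rintro z hz ⟨n, rfl⟩
      exact hu1 n hz
    · have h2 : IsOpen[μ i] (insert x (Set.range u))ᶜ := (hμ _).1 hcl.isOpen_compl i
      have h3 : y ∈ (insert x (Set.range u))ᶜ := by
        rintro (h | h)
        · exact hyx h
        · exact hy h
      exact mem_of_superset (@IsOpen.mem_nhds X (μ i) y _ h2 h3)
        (Set.compl_subset_compl.2 (Set.subset_insert _ _))
  by_cases hxr : x ∈ Set.range u
  · obtain ⟨n, hn⟩ := hxr
    obtain ⟨i⟩ := (inferInstance : Nonempty ι)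
    exact hu1 n (hn ▸ @mem_of_mem_nhds X (μ i) x S (hS i))
  · obtain ⟨n, hn⟩ := (hu2.eventually (hopen.mem_nhds hxr)).exists
    exact hn ⟨n, rfl⟩

end Pool.Agent.V11221.SnLower
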