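import Mathlib

namespace Pool.Agent.V11221.Bil

open MeasureTheory Set Filter Topology
open scoped ENNReal NNReal ContDiff

/-- signed area of the parallelogram spanned by two plane vectors (the plane is `ℂ`) -/
def cross (v w : ℂ) : ℝ := v.re * w.im - v.im * w.re

/-- A bounded-derivative primitive is Lipschitz. -/
lemma lip_primitive {v : ℝ → ℂ} {B : ℝ} (hB : 0 ≤ B) (hv : ∀ t, ‖v t‖ ≤ B) (hm : Measurable v) :
    LipschitzWith (Real.toNNReal B) (fun x => ∫ t in (0:ℝ)..x, v t) := by
  have hint : ∀ a b : ℝ, IntervalIntegrable v volume a b := by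
    intro a b
    refine (intervalIntegrable_const (c := B)).mono_fun hm.aestronglyMeasurable ?_
    refine Eventually.of_forall (fun t => ?_)
    simp only [Real.norm_eq_abs, abs_of_nonneg hB]
    exact hv t
  refine LipschitzWith.of_dist_le_mul (fun x y => ?_)
  rw [dist_eq_norm, Real.coe_toNNReal _ hB, Real.dist_eq]
  rw [intervalIntegral.integral_interval_sub_left (hint 0 x) (hint 0 y)]
  calc ‖∫ t in y..x, v t‖ ≤ B * |x - y| :=
        intervalIntegral.norm_integral_le_of_norm_le_const (fun t _ => hv t)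
    _ = B * |x - y| := rfl

lemma locInt_of_bdd {v : ℝ → ℂ} {B : ℝ} (hB : 0 ≤ B) (hv : ∀ t, ‖v t‖ ≤ B) (hm : Measurable v) :
    LocallyIntegrable v volume := by
  have h1 : LocallyIntegrable (fun _ : ℝ => B) volume := locallyIntegrable_const B
  refine h1.mono hm.aestronglyMeasurable ?_
  refine Eventually.of_forall (fun t => ?_)
  simp only [Real.norm_eq_abs, abs_of_nonneg hB]
  exact hv t

lemma norm_deriv_le_one {C : ℝ → ℂ} (hC : LipschitzWith 1 C) (t : ℝ) : ‖deriv C t‖ ≤ 1 := by
  have := norm_deriv_le_of_lipschitz hC (x₀ := t)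
  simpa using this

lemma ftc_lip {C : ℝ → ℂ} (hC : LipschitzWith 1 C) (a b : ℝ) :
    ∫ t in a..b, deriv C t = C b - C a := by
  have hT : ∀ t, ‖deriv C t‖ ≤ 1 := norm_deriv_le_one hC
  have hm : Measurable (deriv C) := measurable_deriv C
  have hLI : LocallyIntegrable (deriv C) volume := locInt_of_bdd zero_le_one hT hm
  have hint : ∀ a b : ℝ, IntervalIntegrable (deriv C) volume a b := fun a b =>
    intervalIntegrable_iff.mpr <|
      (hLI.integrableOn_isCompact isCompact_uIcc).mono_set uIoc_subset_uIcc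
  have hL := lip_primitive zero_le_one hT hm
  have hg : LipschitzWith (1 + Real.toNNReal 1) (fun x => C x - ∫ t in (0:ℝ)..x, deriv C t) :=
    hC.sub hL
  have hac := (hg.lipschitzOnWith (s := uIcc a b)).absolutelyContinuousOnInterval
  have h0 : ∀ᵐ x, x ∈ uIcc a b → HasDerivAt (fun x => C x - ∫ t in (0:ℝ)..x, deriv C t) 0 x := by
    filter_upwards [hC.ae_differentiableAt,
      LocallyIntegrable.ae_hasDerivAt_integral hLI] with x h1 h2 _
    have := h1.hasDerivAt.sub (h2 0)
    convert! this using 1
    simp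
  obtain ⟨c, hc⟩ := hac.const_of_ae_hasDerivAt_zero h0
  have e1 := hc a (by simp)
  have e2 := hc b (by simp)
  have e3 : ∫ t in a..b, deriv C t = (∫ t in (0:ℝ)..b, deriv C t) - ∫ t in (0:ℝ)..a, deriv C t :=
    (intervalIntegral.integral_interval_sub_left (hint 0 b) (hint 0 a)).symm
  rw [e3]
  linear_combination e1 - e2

/-- exponential lift -/
lemma exp_lift {w v : ℝ → ℂ} {K : ℝ≥0} (hw : LipschitzWith K w) {B : ℝ} (hB : 0 ≤ B)
    (hv : ∀ t, ‖v t‖ ≤ B) (hm : Measurable v)
    (hder : ∀ᵐ t, HasDerivAt w (v t * w t) t) (t : ℝ) :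
    w t = w 0 * Complex.exp (∫ u in (0:ℝ)..t, v u) := by
  set L : ℝ → ℂ := fun x => ∫ u in (0:ℝ)..x, v u with hLdef
  have hL := lip_primitive hB hv hm
  have hLc : Continuous L := hL.continuous
  have hexp : AbsolutelyContinuousOnInterval (fun x => Complex.exp (-L x)) 0 t := by
    -- locally Lipschitz
    obtain ⟨R, hR⟩ := (isCompact_uIcc (a := (0:ℝ)) (b := t)).exists_bound_of_continuousOn
      hLc.continuousOn
    have hlip : LipschitzOnWith (Real.toNNReal (Real.exp R) * Real.toNNReal B)
        (fun x => Complex.exp (-L x)) (uIcc 0 t) := by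
      refine LipschitzOnWith.of_dist_le_mul (fun x hx y hy => ?_)
      rw [dist_eq_norm]
      have h1 : ‖Complex.exp (-L x) - Complex.exp (-L y)‖ ≤ Real.exp R * ‖(-L x) - (-L y)‖ := by
        have hconv : Convex ℝ (Metric.closedBall (0:ℂ) R) := convex_closedBall 0 R
        refine hconv.norm_image_sub_le_of_norm_hasDerivWithin_le (𝕜 := ℂ)
          (f := Complex.exp) (f' := Complex.exp) ?_ ?_ ?_ ?_
        · intro z _
          exact (Complex.hasDerivAt_exp z).hasDerivWithinAt
        · intro z hz
          rw [Complex.norm_exp]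
          apply Real.exp_le_exp.mpr
          have : z.re ≤ ‖z‖ := Complex.re_le_norm z
          have hz' : ‖z‖ ≤ R := by simpa using hz
          linarith
        · simpa using hR y hy
        · simpa using hR x hx
      have h2 : ‖(-L x) - (-L y)‖ ≤ B * dist x y := by
        have := hL.dist_le_mul x y
        rw [dist_eq_norm, Real.coe_toNNReal _ hB] at this
        calc ‖(-L x) - (-L y)‖ = ‖L x - L y‖ := by
              rw [← norm_neg]; congr 1; ring
          _ ≤ _ := this
      calc _ ≤ Real.exp R * ‖(-L x) - (-L y)‖ := h1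
        _ ≤ Real.exp R * (B * dist x y) := by
            apply mul_le_mul_of_nonneg_left h2 (Real.exp_pos R).le
        _ = _ := by
            rw [NNReal.coe_mul, Real.coe_toNNReal _ hB, Real.coe_toNNReal _ (Real.exp_pos R).le]
            ring
    exact hlip.absolutelyContinuousOnInterval
  have hwac : AbsolutelyContinuousOnInterval w 0 t :=
    (hw.lipschitzOnWith (s := uIcc 0 t)).absolutelyContinuousOnInterval
  have hg : AbsolutelyContinuousOnInterval (fun x => Complex.exp (-L x) • w x) 0 t :=
    hexp.smul hwac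
  have h0 : ∀ᵐ x, x ∈ uIcc 0 t → HasDerivAt (fun x => Complex.exp (-L x) • w x) 0 x := by
    filter_upwards [hder, LocallyIntegrable.ae_hasDerivAt_integral
      (locInt_of_bdd hB hv hm)] with x h1 h2 _
    have hLd : HasDerivAt L (v x) x := h2 0
    have h3 : HasDerivAt (fun x => Complex.exp (-L x)) (Complex.exp (-L x) * (-v x)) x :=
      hLd.neg.cexp
    have h4 := h3.mul h1
    convert! h4 using 1
    ring
  obtain ⟨c, hc⟩ := hg.const_of_ae_hasDerivAt_zero h0
  have e1 := hc 0 (by simp)
  have e2 := hc t (by simp)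
  have hL0 : L 0 = 0 := by simp [hLdef]
  simp only [smul_eq_mul] at e1 e2
  rw [hL0] at e1
  simp only [neg_zero, Complex.exp_zero, one_mul] at e1
  rw [← e1] at e2
  rw [← e2]
  have : Complex.exp (-L t) * Complex.exp (L t) = 1 := by
    rw [← Complex.exp_add]; simp
  calc w t = w t * (Complex.exp (-L t) * Complex.exp (L t)) := by rw [this, mul_one]
    _ = Complex.exp (-L t) * w t * Complex.exp (L t) := by ring

end Pool.Agent.V11221.Bil
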