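import Pool.Agent.V11221.BilA

namespace Pool.Agent.V11221.Bil

open MeasureTheory Set Filter Topology
open scoped ENNReal NNReal ContDiff

/-- the data of a unit speed convex closed curve bounding `K` -/
structure Core (C : ℝ → ℂ) (K : Set ℂ) : Prop where
  periodic : ∀ t, C (t + 1) = C t
  injective : ∀ s ∈ Ico (0:ℝ) 1, ∀ t ∈ Ico (0:ℝ) 1, C s = C t → s = t
  lip : LipschitzWith 1 C
  unit : ∀ᵐ t, ‖deriv C t‖ = 1
  conv : Convex ℝ K
  comp : IsCompact K
  front : frontier K = range C
  left : ∀ t, DifferentiableAt ℝ C t → ∀ z ∈ K, 0 ≤ cross (deriv C t) (z - C t)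

lemma im_div (T w : ℂ) : (T / w).im = cross w T / Complex.normSq w := by
  rw [Complex.div_im]
  simp only [cross]
  ring

variable {C : ℝ → ℂ} {K : Set ℂ}

lemma Core.mem (h : Core C K) (t : ℝ) : C t ∈ frontier K := by
  rw [h.front]; exact mem_range_self t

lemma Core.memK (h : Core C K) (t : ℝ) : C t ∈ K :=
  h.comp.isClosed.frontier_subset (h.mem t)

lemma Core.norm_ge (h : Core C K) {z0 : ℂ} {ρ : ℝ} (hb : Metric.ball z0 ρ ⊆ K) (t : ℝ) :
    ρ ≤ ‖C t - z0‖ := by
  by_contra hlt
  push Not at hlt
  have h1 : C t ∈ interior K := by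
    apply interior_maximal hb Metric.isOpen_ball
    simpa [dist_eq_norm] using hlt
  have h2 := h.mem t
  rw [frontier, Set.mem_sdiff] at h2
  exact h2.2 h1

lemma Core.cross_ge (h : Core C K) {z0 : ℂ} {ρ : ℝ} (hρ : 0 < ρ)
    (hb : Metric.closedBall z0 ρ ⊆ K) {t : ℝ} (ht : DifferentiableAt ℝ C t)
    (hu : ‖deriv C t‖ = 1) : ρ ≤ cross (C t - z0) (deriv C t) := by
  set T := deriv C t with hT
  have hz : z0 - (ρ : ℂ) * (Complex.I * T) ∈ K := by
    apply hb
    rw [Metric.mem_closedBall, dist_eq_norm]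
    have : z0 - (ρ : ℂ) * (Complex.I * T) - z0 = -((ρ : ℂ) * (Complex.I * T)) := by ring
    rw [this, norm_neg, norm_mul, norm_mul, Complex.norm_I, hu, Complex.norm_real,
      Real.norm_of_nonneg hρ.le]
    simp
  have h1 := h.left t ht _ hz
  have h2 : T.re ^ 2 + T.im ^ 2 = 1 := by
    have := Complex.sq_norm T
    rw [hu, Complex.normSq_apply] at this
    nlinarith
  rw [← hT] at h1
  simp only [cross, Complex.sub_re, Complex.sub_im, Complex.mul_re, Complex.mul_im,
    Complex.ofReal_re, Complex.ofReal_im, Complex.I_re, Complex.I_im] at h1 ⊢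
  nlinarith

lemma Core.polar (h : Core C K) {z0 : ℂ} {ρ : ℝ} (hρ : 0 < ρ)
    (hb : Metric.closedBall z0 ρ ⊆ K) :
    ∃ φ : ℝ → ℝ, StrictMono φ ∧ (∀ t, φ (t + 1) = φ t + 2 * Real.pi) ∧
      ∀ t, C t - z0 = (‖C t - z0‖ : ℂ) * Complex.exp ((φ t : ℂ) * Complex.I) := by
  have hball : Metric.ball z0 ρ ⊆ K := Metric.ball_subset_closedBall.trans hb
  set w : ℝ → ℂ := fun t => C t - z0 with hw
  have hwρ : ∀ t, ρ ≤ ‖w t‖ := fun t => h.norm_ge hball t
  have hw0 : ∀ t, w t ≠ 0 := fun t h0 => by
    have := hwρ t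
    rw [h0, norm_zero] at this
    linarith
  have hwl : LipschitzWith 1 w := by
    have := h.lip.sub (LipschitzWith.const (α := ℝ) z0)
    simpa using this
  obtain ⟨R, hR⟩ := h.comp.isBounded.exists_norm_le
  have hwR : ∀ t, ‖w t‖ ≤ R + ‖z0‖ := fun t => by
    calc ‖w t‖ ≤ ‖C t‖ + ‖z0‖ := norm_sub_le _ _
      _ ≤ _ := by linarith [hR _ (h.memK t)]
  set R' := R + ‖z0‖ with hR'
  have hR'pos : 0 < R' := lt_of_lt_of_le hρ ((hwρ 0).trans (hwR 0))
  set v : ℝ → ℂ := fun t => deriv C t / w t with hv
  have hvB : ∀ t, ‖v t‖ ≤ 1 / ρ := by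
    intro t
    rw [hv]
    simp only [norm_div]
    exact div_le_div₀ zero_le_one (norm_deriv_le_one h.lip t) hρ (hwρ t)
  have hvm : Measurable v := by
    apply (measurable_deriv C).div
    exact hwl.continuous.measurable
  have hB : (0:ℝ) ≤ 1 / ρ := by positivity
  have hder : ∀ᵐ t, HasDerivAt w (v t * w t) t := by
    filter_upwards [h.lip.ae_differentiableAt] with t ht
    have : v t * w t = deriv C t := by
      rw [hv]; exact div_mul_cancel₀ _ (hw0 t)
    rw [this]
    exact ht.hasDerivAt.sub_const z0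
  have hexp := exp_lift hwl hB hvB hvm hder
  have hLI : LocallyIntegrable v volume := locInt_of_bdd hB hvB hvm
  have hint : ∀ a b : ℝ, IntervalIntegrable v volume a b := fun a b =>
    intervalIntegrable_iff.mpr <|
      (hLI.integrableOn_isCompact isCompact_uIcc).mono_set uIoc_subset_uIcc
  set L : ℝ → ℂ := fun t => ∫ u in (0:ℝ)..t, v u with hL
  have hLc : Continuous L := (lip_primitive hB hvB hvm).continuous
  set φ : ℝ → ℝ := fun t => (w 0).arg + (L t).im with hφ
  have hφc : Continuous φ := by
    rw [hφ]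
    exact continuous_const.add (Complex.continuous_im.comp hLc)
  have hpol : ∀ t, w t = (‖w t‖ : ℂ) * Complex.exp ((φ t : ℂ) * Complex.I) := by
    intro t
    have e1 : w t = w 0 * Complex.exp (L t) := hexp t
    have e2 : ‖w t‖ = ‖w 0‖ * Real.exp (L t).re := by
      rw [e1, norm_mul, Complex.norm_exp]
    have e3 : w 0 = (‖w 0‖ : ℂ) * Complex.exp (((w 0).arg : ℂ) * Complex.I) :=
      (Complex.norm_mul_exp_arg_mul_I (w 0)).symm
    have e4 : Complex.exp (L t) = (Real.exp (L t).re : ℂ) * Complex.exp (((L t).im : ℂ) * Complex.I) := by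
      rw [Complex.ofReal_exp, ← Complex.exp_add, Complex.re_add_im]
    rw [e2]
    conv_lhs => rw [e1, e3, e4]
    simp only [hφ]
    push_cast
    rw [add_mul, Complex.exp_add]
    ring
  -- the angular speed is bounded below
  have himv : ∀ᵐ t, ρ / R' ^ 2 ≤ (v t).im := by
    filter_upwards [h.lip.ae_differentiableAt, h.unit] with t ht hu
    have h1 : (v t).im = cross (w t) (deriv C t) / Complex.normSq (w t) := im_div _ _
    rw [h1]
    have h2 : ρ ≤ cross (w t) (deriv C t) := h.cross_ge hρ hb ht hu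
    have h3 : Complex.normSq (w t) ≤ R' ^ 2 := by
      rw [Complex.normSq_eq_norm_sq]
      exact pow_le_pow_left₀ (norm_nonneg _) (hwR t) 2
    have h4 : 0 < Complex.normSq (w t) := Complex.normSq_pos.mpr (hw0 t)
    exact div_le_div₀ (hρ.le.trans h2) h2 h4 h3
  have hincr : ∀ s t, s ≤ t → ρ / R' ^ 2 * (t - s) ≤ φ t - φ s := by
    intro s t hst
    have h1 : φ t - φ s = (∫ u in s..t, v u).im := by
      have : ∫ u in s..t, v u = L t - L s :=
        (intervalIntegral.integral_interval_sub_left (hint 0 t) (hint 0 s)).symm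
      rw [this, Complex.sub_im]
      simp only [hφ]; ring
    have h2 : (∫ u in s..t, v u).im = ∫ u in s..t, (v u).im := by
      have := (Complex.imCLM).intervalIntegral_comp_comm (hint s t)
      simpa using this.symm
    rw [h1, h2]
    have h3 : ∫ u in s..t, ρ / R' ^ 2 = ρ / R' ^ 2 * (t - s) := by
      rw [intervalIntegral.integral_const, smul_eq_mul, mul_comm]
    rw [← h3]
    apply intervalIntegral.integral_mono_ae hst intervalIntegrable_const
    · have hi := hint s t
      rw [intervalIntegrable_iff] at hi ⊢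
      exact hi.im
    · exact himv
  have hmono : StrictMono φ := by
    intro s t hst
    have := hincr s t hst.le
    have h2 : 0 < ρ / R' ^ 2 * (t - s) := by
      apply mul_pos (by positivity) (by linarith)
    linarith
  -- periodicity
  have hvper : Function.Periodic v 1 := by
    intro t
    have h1 : deriv C (t + 1) = deriv C t := by
      have h2 : (fun x => C (x + 1)) = C := funext h.periodic
      have h3 : deriv (fun x => C (x + 1)) t = deriv C (t + 1) := deriv_comp_add_const C 1 t
      rw [← h3, h2]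
    simp only [hv, hw]
    rw [h1, h.periodic]
  have hstep : ∀ t, φ (t + 1) = φ t + (L 1).im := by
    intro t
    have e1 : ∫ u in t..(t+1), v u = ∫ u in (0:ℝ)..(0+1), v u :=
      hvper.intervalIntegral_add_eq t 0
    have e2 : ∫ u in t..(t+1), v u = L (t+1) - L t :=
      (intervalIntegral.integral_interval_sub_left (hint 0 (t+1)) (hint 0 t)).symm
    rw [e2, zero_add] at e1
    have e3 : L (t+1) = L t + L 1 := by
      have : L (t+1) - L t = L 1 := e1
      linear_combination this
    simp only [hφ]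
    rw [e3, Complex.add_im]
    ring
  have hexp1 : Complex.exp (L 1) = 1 := by
    have e1 : w 1 = w 0 * Complex.exp (L 1) := hexp 1
    have e2 : w 1 = w 0 := by
      simp only [hw]
      have := h.periodic 0
      rw [zero_add] at this
      rw [this]
    rw [e2] at e1
    have := mul_left_cancel₀ (hw0 0) (a := w 0) (b := Complex.exp (L 1)) (c := 1)
      (by rw [mul_one]; exact e1.symm)
    exact this
  obtain ⟨n, hn⟩ := Complex.exp_eq_one_iff.mp hexp1
  have hL1 : (L 1).im = n * (2 * Real.pi) := by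
    rw [hn]
    simp
  have hpos : 0 < (L 1).im := by
    have h1 := hstep 0
    have h2 := hmono (show (0:ℝ) < 0 + 1 by norm_num)
    linarith
  have hpi := Real.pi_pos
  have hn1 : 1 ≤ n := by
    by_contra hlt
    push Not at hlt
    have : (n : ℝ) ≤ 0 := by exact_mod_cast (by omega : n ≤ 0)
    rw [hL1] at hpos
    nlinarith
  have hn2 : n ≤ 1 := by
    by_contra hlt
    push Not at hlt
    have hn2' : (2:ℝ) ≤ n := by exact_mod_cast (by omega : (2:ℤ) ≤ n)
    -- intermediate value
    have h0 : φ (0+1) = φ 0 + n * (2 * Real.pi) := by rw [hstep, hL1]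
    rw [zero_add] at h0
    have hmem : φ 0 + 2 * Real.pi ∈ Ioo (φ 0) (φ 1) := by
      constructor
      · linarith
      · rw [h0]; nlinarith
    obtain ⟨t, ht, hte⟩ := intermediate_value_Ioo (zero_le_one) hφc.continuousOn hmem
    have hdir : Complex.exp ((φ t : ℂ) * Complex.I) = Complex.exp ((φ 0 : ℂ) * Complex.I) := by
      rw [hte]
      push_cast
      rw [add_mul, Complex.exp_add]
      have : Complex.exp (2 * (Real.pi : ℂ) * Complex.I) = 1 := Complex.exp_two_pi_mul_I
      rw [this, mul_one]
    have p1 := hpol t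
    have p2 := hpol 0
    rw [hdir] at p1
    set e := Complex.exp ((φ 0 : ℂ) * Complex.I) with he
    -- if the norms differ one of the two points is interior
    have key : ∀ a b : ℝ, 0 < a → a < b → (z0 + (b:ℂ) * e ∈ K) → z0 + (a:ℂ) * e ∈ interior K := by
      intro a b ha hab hbK
      have hz0 : z0 ∈ interior K := by
        apply interior_maximal hball Metric.isOpen_ball
        exact Metric.mem_ball_self hρ
      have hbpos : 0 < b := ha.trans hab
      have := h.conv.combo_interior_self_mem_interior hz0 hbK (a := 1 - a / b) (b := a / b)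
        (by rw [sub_pos, div_lt_one hbpos]; exact hab) (by positivity) (by ring)
      convert this using 1
      have hbne : (b:ℂ) ≠ 0 := by exact_mod_cast hbpos.ne'
      simp only [Complex.real_smul]
      push_cast
      field_simp
      ring
    have hCt : C t = z0 + (‖w t‖ : ℂ) * e := by
      rw [← p1]; simp [hw]
    have hC0 : C 0 = z0 + (‖w 0‖ : ℂ) * e := by
      rw [← p2]; simp [hw]
    have hnt : 0 < ‖w t‖ := hρ.trans_le (hwρ t)
    have hn0 : 0 < ‖w 0‖ := hρ.trans_le (hwρ 0)
    rcases lt_trichotomy ‖w t‖ ‖w 0‖ with hlt' | heq | hgt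
    · have := key _ _ hnt hlt' (by rw [← hC0]; exact h.memK 0)
      rw [← hCt] at this
      have h2 := h.mem t
      rw [frontier, Set.mem_sdiff] at h2
      exact h2.2 this
    · have : C t = C 0 := by rw [hCt, hC0, heq]
      have := h.injective t ⟨ht.1.le, ht.2⟩ 0 ⟨le_refl _, one_pos⟩ this
      exact absurd this ht.1.ne'
    · have := key _ _ hn0 hgt (by rw [← hCt]; exact h.memK t)
      rw [← hC0] at this
      have h2 := h.mem 0
      rw [frontier, Set.mem_sdiff] at h2
      exact h2.2 this
  have hn' : n = 1 := le_antisymm hn2 hn1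
  refine ⟨φ, hmono, fun t => ?_, hpol⟩
  rw [hstep, hL1, hn']
  simp

end Pool.Agent.V11221.Bil
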