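import Pool.Agent.V11221.BilB

namespace Pool.Agent.V11221.Bil

open MeasureTheory Set Filter Topology
open scoped ENNReal NNReal ContDiff

variable {C : ℝ → ℂ} {K : Set ℂ}

lemma cross_exp (α b x : ℝ) : cross (Complex.exp ((α:ℂ) * Complex.I))
    ((x:ℂ) * Complex.exp ((b:ℂ) * Complex.I)) = x * Real.sin (b - α) := by
  simp only [cross, Complex.mul_re, Complex.mul_im, Complex.ofReal_re, Complex.ofReal_im,
    Complex.exp_ofReal_mul_I_re, Complex.exp_ofReal_mul_I_im, Real.sin_sub]
  ring

lemma cross_sub_right (v a b : ℂ) : cross v (a - b) = cross v a - cross v b := by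
  simp only [cross, Complex.sub_re, Complex.sub_im]; ring

lemma arg_mem {z : ℂ} (hz : 0 < z.im) : 0 < z.arg ∧ z.arg < Real.pi := by
  have h0 : z ≠ 0 := by rintro rfl; simp at hz
  have h1 : 0 ≤ z.arg := Complex.arg_nonneg_iff.mpr hz.le
  have h2 : z.arg ≤ Real.pi := Complex.arg_le_pi z
  have h3 : 0 < Real.sin z.arg := by
    rw [Complex.sin_arg]
    exact div_pos hz (norm_pos_iff.mpr h0)
  constructor
  · rcases h1.eq_or_lt with h | h
    · rw [← h, Real.sin_zero] at h3; exact absurd h3 (lt_irrefl _)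
    · exact h
  · rcases h2.eq_or_lt with h | h
    · rw [h, Real.sin_pi] at h3; exact absurd h3 (lt_irrefl _)
    · exact h

/-- the trigonometric heart of monotonicity of the tangent angle -/
lemma trig_mono {a b α β r R : ℝ} (hr : 0 < r) (hR : 0 < R) (hab : a < b)
    (hα : a < α ∧ α < a + Real.pi) (hβ : b < β ∧ β < b + Real.pi)
    (h1 : 0 ≤ R * Real.sin (b - α) - r * Real.sin (a - α))
    (h2 : 0 ≤ r * Real.sin (a - β) - R * Real.sin (b - β)) : α ≤ β := by
  by_contra hlt
  push Not at hlt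
  have e1 : Real.sin (b - α) = - Real.sin (α - b) := by rw [← Real.sin_neg]; ring_nf
  have e2 : Real.sin (a - α) = - Real.sin (α - a) := by rw [← Real.sin_neg]; ring_nf
  have e3 : Real.sin (a - β) = - Real.sin (β - a) := by rw [← Real.sin_neg]; ring_nf
  have e4 : Real.sin (b - β) = - Real.sin (β - b) := by rw [← Real.sin_neg]; ring_nf
  rw [e1, e2] at h1
  rw [e3, e4] at h2
  have p1 : 0 < Real.sin (α - b) := Real.sin_pos_of_pos_of_lt_pi (by linarith [hβ.1]) (by linarith [hα.2])
  have p2 : 0 < Real.sin (α - a) := Real.sin_pos_of_pos_of_lt_pi (by linarith [hα.1]) (by linarith [hα.2])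
  have p3 : 0 < Real.sin (β - a) := Real.sin_pos_of_pos_of_lt_pi (by linarith [hβ.1]) (by linarith [hα.2])
  have p4 : 0 < Real.sin (β - b) := Real.sin_pos_of_pos_of_lt_pi (by linarith [hβ.1]) (by linarith [hβ.2])
  have p5 : 0 < Real.sin (α - β) := Real.sin_pos_of_pos_of_lt_pi (by linarith) (by linarith [hα.2, hβ.1])
  have p6 : 0 < Real.sin (b - a) := Real.sin_pos_of_pos_of_lt_pi (by linarith) (by linarith [hα.2, hβ.1])
  have key : Real.sin (α - b) * Real.sin (β - a) - Real.sin (β - b) * Real.sin (α - a)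
      = Real.sin (α - β) * Real.sin (b - a) := by
    have s1 := Real.sin_sq_add_cos_sq α
    have s2 := Real.sin_sq_add_cos_sq β
    simp only [Real.sin_sub]
    ring
  have q1 : R * Real.sin (α - b) ≤ r * Real.sin (α - a) := by linarith
  have q2 : r * Real.sin (β - a) ≤ R * Real.sin (β - b) := by linarith
  have q3 : (R * Real.sin (α - b)) * (r * Real.sin (β - a)) ≤
      (r * Real.sin (α - a)) * (R * Real.sin (β - b)) :=
    mul_le_mul q1 q2 (by positivity) (by positivity)
  have q4 : 0 < Real.sin (α - β) * Real.sin (b - a) := mul_pos p5 p6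
  have q5 : 0 < r * R := mul_pos hr hR
  nlinarith [mul_pos q5 q4]

lemma Core.mono_angle (h : Core C K) (hne : (interior K).Nonempty) :
    ∃ Θ : ℝ → ℝ, Monotone Θ ∧ (∀ t, Θ (t + 1) = Θ t + 2 * Real.pi) ∧
      ∀ᵐ t, deriv C t = Complex.exp ((Θ t : ℂ) * Complex.I) := by
  obtain ⟨z0, hz0⟩ := hne
  obtain ⟨ε, hε, hεb⟩ := Metric.isOpen_iff.mp isOpen_interior z0 hz0
  have hρ : 0 < ε / 2 := by positivity
  have hb : Metric.closedBall z0 (ε / 2) ⊆ K :=
    (Metric.closedBall_subset_ball (by linarith)).trans (hεb.trans interior_subset)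
  set ρ := ε / 2 with hρdef
  have hball : Metric.ball z0 ρ ⊆ K := Metric.ball_subset_closedBall.trans hb
  obtain ⟨φ, hφm, hφp, hpol⟩ := h.polar hρ hb
  have hnorm : ∀ t, 0 < ‖C t - z0‖ := fun t => hρ.trans_le (h.norm_ge hball t)
  set D : Set ℝ := {t | DifferentiableAt ℝ C t ∧ ‖deriv C t‖ = 1} with hD
  have hDae : ∀ᵐ t, t ∈ D := by
    filter_upwards [h.lip.ae_differentiableAt, h.unit] with t h1 h2
    exact ⟨h1, h2⟩
  set θ : ℝ → ℝ := fun t => φ t + (deriv C t / (C t - z0)).arg with hθ
  have harg : ∀ t ∈ D, 0 < (deriv C t / (C t - z0)).arg ∧ (deriv C t / (C t - z0)).arg < Real.pi := by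
    intro t ht
    apply arg_mem
    rw [im_div]
    apply div_pos (hρ.trans_le (h.cross_ge hρ hb ht.1 ht.2))
    exact Complex.normSq_pos.mpr (norm_pos_iff.mp (hnorm t))
  have hexpθ : ∀ t ∈ D, deriv C t = Complex.exp ((θ t : ℂ) * Complex.I) := by
    intro t ht
    have hw : C t - z0 ≠ 0 := norm_pos_iff.mp (hnorm t)
    have e1 : deriv C t = (deriv C t / (C t - z0)) * (C t - z0) := (div_mul_cancel₀ _ hw).symm
    have e2 : deriv C t / (C t - z0) = (‖deriv C t / (C t - z0)‖ : ℂ) *
        Complex.exp (((deriv C t / (C t - z0)).arg : ℂ) * Complex.I) :=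
      (Complex.norm_mul_exp_arg_mul_I _).symm
    have e3 : (‖deriv C t / (C t - z0)‖ : ℂ) * (‖C t - z0‖ : ℂ) = 1 := by
      rw [← Complex.ofReal_mul, ← norm_mul, div_mul_cancel₀ _ hw, ht.2]
      simp
    calc deriv C t = (deriv C t / (C t - z0)) * (C t - z0) := e1
      _ = ((‖deriv C t / (C t - z0)‖ : ℂ) *
          Complex.exp (((deriv C t / (C t - z0)).arg : ℂ) * Complex.I)) *
          ((‖C t - z0‖ : ℂ) * Complex.exp ((φ t : ℂ) * Complex.I)) := by
            rw [← e2, ← hpol t]
      _ = ((‖deriv C t / (C t - z0)‖ : ℂ) * (‖C t - z0‖ : ℂ)) *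
          (Complex.exp (((deriv C t / (C t - z0)).arg : ℂ) * Complex.I) *
            Complex.exp ((φ t : ℂ) * Complex.I)) := by ring
      _ = Complex.exp ((θ t : ℂ) * Complex.I) := by
            rw [e3, one_mul, ← Complex.exp_add]
            congr 1
            simp only [hθ]
            push_cast
            ring
  have hCs : ∀ t, C t = z0 + (‖C t - z0‖ : ℂ) * Complex.exp ((φ t : ℂ) * Complex.I) := by
    intro t
    rw [← hpol t]; ring
  have hmonoD : ∀ s ∈ D, ∀ t ∈ D, s ≤ t → θ s ≤ θ t := by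
    intro s hs t ht hst
    rcases hst.eq_or_lt with rfl | hst
    · exact le_refl _
    have ha := harg s hs
    have hb' := harg t ht
    have hab : φ s < φ t := hφm hst
    have hα : φ s < θ s ∧ θ s < φ s + Real.pi := by
      simp only [hθ]; constructor <;> linarith [ha.1, ha.2]
    have hβ : φ t < θ t ∧ θ t < φ t + Real.pi := by
      simp only [hθ]; constructor <;> linarith [hb'.1, hb'.2]
    have h1 := h.left s hs.1 _ (h.memK t)
    have h2 := h.left t ht.1 _ (h.memK s)
    have d1 : C t - C s = (‖C t - z0‖ : ℂ) * Complex.exp ((φ t : ℂ) * Complex.I)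
        - (‖C s - z0‖ : ℂ) * Complex.exp ((φ s : ℂ) * Complex.I) := by
      rw [← hpol t, ← hpol s]; ring
    have d2 : C s - C t = (‖C s - z0‖ : ℂ) * Complex.exp ((φ s : ℂ) * Complex.I)
        - (‖C t - z0‖ : ℂ) * Complex.exp ((φ t : ℂ) * Complex.I) := by
      rw [← hpol t, ← hpol s]; ring
    rw [d1, hexpθ s hs, cross_sub_right, cross_exp, cross_exp] at h1
    rw [d2, hexpθ t ht, cross_sub_right, cross_exp, cross_exp] at h2
    exact trig_mono (hnorm s) (hnorm t) hab hα hβ h1 h2
  have hDper : ∀ t, t ∈ D → t + 1 ∈ D := by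
    intro t ht
    have h2 : (fun x => C (x + 1)) = C := funext h.periodic
    have h3 : deriv (fun x => C (x + 1)) t = deriv C (t + 1) := deriv_comp_add_const C 1 t
    refine ⟨?_, ?_⟩
    · have h4 : DifferentiableAt ℝ (fun x => C (x + 1)) t := by rw [h2]; exact ht.1
      exact differentiableAt_comp_add_const.mp h4
    · rw [← h3, h2]; exact ht.2
  have hDper' : ∀ t, t + 1 ∈ D → t ∈ D := by
    intro t ht
    have h2 : (fun x => C (x + 1)) = C := funext h.periodic
    have h3 : deriv (fun x => C (x + 1)) t = deriv C (t + 1) := deriv_comp_add_const C 1 t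
    refine ⟨?_, ?_⟩
    · have h4 : DifferentiableAt ℝ (fun x => C (x + 1)) t :=
        differentiableAt_comp_add_const.mpr ht.1
      rw [h2] at h4; exact h4
    · rw [h2] at h3
      rw [h3]; exact ht.2
  have hθper : ∀ t, θ (t + 1) = θ t + 2 * Real.pi := by
    intro t
    have h2 : (fun x => C (x + 1)) = C := funext h.periodic
    have h3 : deriv (fun x => C (x + 1)) t = deriv C (t + 1) := deriv_comp_add_const C 1 t
    rw [h2] at h3
    simp only [hθ]
    rw [hφp, h.periodic, ← h3]
    ring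
  have hθub : ∀ t ∈ D, θ t ≤ φ t + Real.pi := fun t ht => by
    have := harg t ht
    simp only [hθ]; linarith [this.2]
  have hbdd : ∀ t, BddAbove (θ '' (D ∩ Iic t)) := by
    intro t
    refine ⟨φ t + Real.pi, ?_⟩
    rintro _ ⟨x, ⟨hx, hxt⟩, rfl⟩
    exact (hθub x hx).trans (by linarith [hφm.monotone (show x ≤ t from hxt)])
  have hnon : ∀ t, (θ '' (D ∩ Iic t)).Nonempty := by
    intro t
    rw [image_nonempty]
    by_contra hemp
    rw [not_nonempty_iff_eq_empty] at hemp
    have h1 : Ioo (t - 1) t ⊆ Dᶜ := by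
      intro x hx hxD
      have : x ∈ D ∩ Iic t := ⟨hxD, hx.2.le⟩
      rw [hemp] at this
      exact this
    have h2 : volume (Ioo (t - 1) t) = 0 := measure_mono_null h1 (by
      have := hDae
      rw [ae_iff] at this
      exact this)
    rw [Real.volume_Ioo] at h2
    norm_num at h2
  set Θ : ℝ → ℝ := fun t => sSup (θ '' (D ∩ Iic t)) with hΘ
  refine ⟨Θ, ?_, ?_, ?_⟩
  · intro s t hst
    apply csSup_le_csSup (hbdd t) (hnon s)
    apply image_mono
    exact inter_subset_inter_right _ (Iic_subset_Iic.mpr hst)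
  · intro t
    apply le_antisymm
    · apply csSup_le (hnon (t+1))
      rintro _ ⟨x, ⟨hx, hxt⟩, rfl⟩
      have hx1 : x - 1 ∈ D := hDper' (x - 1) (by simpa using hx)
      have e1 : θ x = θ (x - 1) + 2 * Real.pi := by
        have := hθper (x - 1)
        rwa [sub_add_cancel] at this
      rw [e1]
      have : θ (x - 1) ≤ Θ t := by
        apply le_csSup (hbdd t)
        refine ⟨x - 1, ⟨hx1, ?_⟩, rfl⟩
        simp only [mem_Iic] at hxt ⊢
        linarith
      linarith
    · have h1 : Θ t ≤ Θ (t + 1) - 2 * Real.pi := by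
        apply csSup_le (hnon t)
        rintro _ ⟨x, ⟨hx, hxt⟩, rfl⟩
        have e1 := hθper x
        have : θ (x + 1) ≤ Θ (t + 1) := by
          apply le_csSup (hbdd (t + 1))
          refine ⟨x + 1, ⟨hDper x hx, ?_⟩, rfl⟩
          simp only [mem_Iic] at hxt ⊢
          linarith
        linarith
      linarith
  · filter_upwards [hDae] with t ht
    rw [hexpθ t ht]
    have : Θ t = θ t := by
      apply IsGreatest.csSup_eq
      refine ⟨⟨t, ⟨ht, self_mem_Iic⟩, rfl⟩, ?_⟩
      rintro _ ⟨x, ⟨hx, hxt⟩, rfl⟩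
      exact hmonoD x hx t ht hxt
    rw [this]

end Pool.Agent.V11221.Bil
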