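import Mathlib

namespace Pool.Agent.V11221.Bil

open MeasureTheory Set Filter Topology
open scoped ENNReal NNReal ContDiff

/-- A monotone tangent angle function together with a generalized inverse. -/
structure Pair (Θ Q : ℝ → ℝ) : Prop where
  monoΘ : Monotone Θ
  monoQ : Monotone Q
  perΘ : ∀ t, Θ (t + 1) = Θ t + 2 * Real.pi
  perQ : ∀ x, Q (x + 2 * Real.pi) = Q x + 1
  le : ∀ t x, x < Θ t → Q x ≤ t
  ge : ∀ t x, Θ t < x → t ≤ Q x

lemma per_nat {Θ : ℝ → ℝ} (hp : ∀ t, Θ (t + 1) = Θ t + 2 * Real.pi) (n : ℕ) (t : ℝ) :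
    Θ (t + n) = Θ t + n * (2 * Real.pi) := by
  induction n with
  | zero => simp
  | succ k ih =>
    push_cast
    rw [← add_assoc, hp, ih]
    ring

lemma exists_Q {Θ : ℝ → ℝ} (hm : Monotone Θ) (hp : ∀ t, Θ (t + 1) = Θ t + 2 * Real.pi) :
    ∃ Q, Pair Θ Q := by
  have hpi := Real.pi_pos
  have hup : ∀ x : ℝ, ∃ n : ℕ, x < Θ n := by
    intro x
    obtain ⟨n, hn⟩ := exists_nat_gt ((x - Θ 0) / (2 * Real.pi))
    refine ⟨n, ?_⟩
    have := per_nat hp n 0
    rw [zero_add] at this
    rw [this]
    rw [div_lt_iff₀ (by positivity)] at hn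
    linarith
  have hdn : ∀ x : ℝ, ∃ n : ℕ, Θ (-n) ≤ x := by
    intro x
    obtain ⟨n, hn⟩ := exists_nat_gt ((Θ 0 - x) / (2 * Real.pi))
    refine ⟨n, ?_⟩
    have := per_nat hp n (-n)
    rw [neg_add_cancel] at this
    rw [div_lt_iff₀ (by positivity)] at hn
    linarith
  have hne : ∀ x, {t | Θ t ≤ x}.Nonempty := fun x => by
    obtain ⟨n, hn⟩ := hdn x
    exact ⟨-n, hn⟩
  have hbd : ∀ x, BddAbove {t | Θ t ≤ x} := fun x => by
    obtain ⟨n, hn⟩ := hup x
    refine ⟨n, fun t ht => ?_⟩
    by_contra hlt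
    push Not at hlt
    have h1 : Θ t ≤ x := ht
    linarith [hm hlt.le]
  refine ⟨fun x => sSup {t | Θ t ≤ x}, hm, ?_, hp, ?_, ?_, ?_⟩
  · intro x y hxy
    apply csSup_le_csSup (hbd y) (hne x)
    intro t ht
    exact le_trans (show Θ t ≤ x from ht) hxy
  · intro x
    apply le_antisymm
    · apply csSup_le (hne _)
      intro t ht
      have h1 : Θ t ≤ x + 2 * Real.pi := ht
      have h2 : Θ (t - 1) ≤ x := by
        have := hp (t - 1)
        rw [sub_add_cancel] at this
        linarith
      have : t - 1 ≤ sSup {t | Θ t ≤ x} := le_csSup (hbd x) h2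
      linarith
    · have : sSup {t | Θ t ≤ x} ≤ sSup {t | Θ t ≤ x + 2 * Real.pi} - 1 := by
        apply csSup_le (hne _)
        intro t ht
        have h1 : Θ t ≤ x := ht
        have h2 : t + 1 ≤ sSup {t | Θ t ≤ x + 2 * Real.pi} := by
          apply le_csSup (hbd _)
          show Θ (t + 1) ≤ x + 2 * Real.pi
          rw [hp]; linarith
        linarith
      linarith
  · intro t x hx
    apply csSup_le (hne x)
    intro s hs
    by_contra hlt
    push Not at hlt
    have h1 : Θ s ≤ x := hs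
    linarith [hm hlt.le]
  · intro t x hx
    exact le_csSup (hbd x) (show Θ t ≤ x from hx.le)

noncomputable def ex (x : ℝ) : ℂ := Complex.exp ((x:ℂ) * Complex.I)

lemma norm_ex (x : ℝ) : ‖ex x‖ = 1 := Complex.norm_exp_ofReal_mul_I x

lemma continuous_ex : Continuous ex := by
  unfold ex; fun_prop

lemma hasDerivAt_ex (x : ℝ) : HasDerivAt ex (Complex.I * ex x) x := by
  have h1 : HasDerivAt (fun y : ℝ => (y:ℂ) * Complex.I) (1 * Complex.I) x :=
    (Complex.ofRealCLM.hasDerivAt (x := x)).mul_const Complex.I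
  have h2 := h1.cexp
  unfold ex
  convert h2 using 1
  ring

lemma contDiff_ex : ContDiff ℝ ∞ ex := by
  unfold ex
  exact (Complex.ofRealCLM.contDiff.mul contDiff_const).cexp

lemma ex_add_two_pi (x : ℝ) : ex (x + 2 * Real.pi) = ex x := by
  unfold ex
  push_cast
  rw [add_mul, Complex.exp_add]
  have : Complex.exp (2 * (Real.pi : ℂ) * Complex.I) = 1 := Complex.exp_two_pi_mul_I
  rw [this, mul_one]

lemma ex_sub_le (x y : ℝ) : ‖ex x - ex y‖ ≤ |x - y| := by
  have h := Convex.norm_image_sub_le_of_norm_hasDerivWithin_le (f := ex)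
    (f' := fun x => Complex.I * ex x) (C := 1) (s := univ) (x := y) (y := x)
    (fun z _ => (hasDerivAt_ex z).hasDerivWithinAt)
    (fun z _ => by rw [norm_mul, Complex.norm_I, norm_ex, mul_one]) convex_univ (mem_univ _) (mem_univ _)
  rw [one_mul, Real.norm_eq_abs] at h
  exact h

lemma intEx (a b : ℝ) : ∫ x in a..b, Complex.I * ex x = ex b - ex a :=
  intervalIntegral.integral_eq_sub_of_hasDerivAt (fun x _ => hasDerivAt_ex x)
    ((continuous_const.mul continuous_ex).intervalIntegrable _ _)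

lemma intervalIntegrable_mono_mul {Q : ℝ → ℝ} (hQ : Monotone Q) (a b : ℝ) :
    IntervalIntegrable (fun x => ex x * (Q x : ℂ)) volume a b := by
  have h1 : IntervalIntegrable (fun x => (Q x : ℂ)) volume a b := by
    have := (hQ.monotoneOn (uIcc a b)).intervalIntegrable (μ := volume)
    rw [intervalIntegrable_iff] at this ⊢
    exact this.ofReal
  exact h1.continuousOn_mul continuous_ex.continuousOn

/-- a function with increments controlled by `(t - s) (Θ t - Θ s)` is constant -/
lemma const_of_mono_bound {D : ℝ → ℂ} {Θ : ℝ → ℝ} {c : ℝ}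
    (h : ∀ s t, s ≤ t → ‖D t - D s‖ ≤ c * (t - s) * (Θ t - Θ s)) {t : ℝ} (ht : 0 ≤ t) :
    D t = D 0 := by
  have key : ∀ n : ℕ, ‖D t - D 0‖ ≤ (c * t * (Θ t - Θ 0)) / (n + 1 : ℕ) := by
    intro n
    set N : ℕ := n + 1 with hN
    have hNpos : (0:ℝ) < N := by positivity
    set p : ℕ → ℝ := fun k => k * (t / N) with hp
    have hsum : D t - D 0 = ∑ k ∈ Finset.range N, (D (p (k+1)) - D (p k)) := by
      rw [Finset.sum_range_sub (fun k => D (p k))]
      simp only [hp]
      congr 2
      · field_simp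
      · simp
    rw [hsum]
    calc ‖∑ k ∈ Finset.range N, (D (p (k+1)) - D (p k))‖
        ≤ ∑ k ∈ Finset.range N, ‖D (p (k+1)) - D (p k)‖ := norm_sum_le _ _
      _ ≤ ∑ k ∈ Finset.range N, c * (t / N) * (Θ (p (k+1)) - Θ (p k)) := by
          apply Finset.sum_le_sum
          intro k _
          have h1 := h (p k) (p (k+1)) (by
            simp only [hp]; push_cast
            have : 0 ≤ t / N := by positivity
            nlinarith)
          have h2 : p (k+1) - p k = t / N := by
            simp only [hp]; push_cast; ring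
          rw [h2] at h1
          exact h1
      _ = c * (t / N) * (Θ t - Θ 0) := by
          rw [← Finset.mul_sum, Finset.sum_range_sub (fun k => Θ (p k))]
          congr 2
          · simp only [hp]
            congr 1
            field_simp
          · simp [hp]
      _ = _ := by field_simp
  have hlim : Tendsto (fun n : ℕ => (c * t * (Θ t - Θ 0)) / ((n + 1 : ℕ) : ℝ)) atTop (𝓝 0) :=
    (tendsto_const_div_atTop_nhds_zero_nat (c * t * (Θ t - Θ 0))).comp (tendsto_add_atTop_nat 1)
  have h0 : ‖D t - D 0‖ ≤ 0 := ge_of_tendsto' hlim key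
  have := norm_le_zero_iff.mp h0
  exact sub_eq_zero.mp this

lemma Pair.integral {Θ Q : ℝ → ℝ} (hp : Pair Θ Q) {t : ℝ} (ht : 0 ≤ t) :
    ∫ u in (0:ℝ)..t, ex (Θ u) = t * ex (Θ t) - Complex.I * ∫ x in (Θ 0)..(Θ t), ex x * (Q x : ℂ) := by
  have hint : ∀ a b : ℝ, IntervalIntegrable (fun u => ex (Θ u)) volume a b := by
    intro a b
    have hm : Measurable (fun u => ex (Θ u)) := continuous_ex.measurable.comp hp.monoΘ.measurable
    refine (intervalIntegrable_const (c := (1:ℝ))).mono_fun hm.aestronglyMeasurable ?_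
    refine Eventually.of_forall (fun t => ?_)
    simp [norm_ex]
  have hQint := fun a b => intervalIntegrable_mono_mul hp.monoQ a b
  set D : ℝ → ℂ := fun t => (∫ u in (0:ℝ)..t, ex (Θ u)) -
    (t * ex (Θ t) - Complex.I * ∫ x in (Θ 0)..(Θ t), ex x * (Q x : ℂ)) with hD
  have hb : ∀ s t, s ≤ t → ‖D t - D s‖ ≤ 2 * (t - s) * (Θ t - Θ s) := by
    intro s t hst
    have hΘ : Θ s ≤ Θ t := hp.monoΘ hst
    have e1 : (∫ u in (0:ℝ)..t, ex (Θ u)) - (∫ u in (0:ℝ)..s, ex (Θ u)) = ∫ u in s..t, ex (Θ u) :=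
      intervalIntegral.integral_interval_sub_left (hint 0 t) (hint 0 s)
    have e2 : (∫ x in (Θ 0)..(Θ t), ex x * (Q x : ℂ)) - (∫ x in (Θ 0)..(Θ s), ex x * (Q x : ℂ))
        = ∫ x in (Θ s)..(Θ t), ex x * (Q x : ℂ) :=
      intervalIntegral.integral_interval_sub_left (hQint _ _) (hQint _ _)
    have e3 : ∫ u in s..t, ex (Θ u) = (t - s) * ex (Θ t) + ∫ u in s..t, (ex (Θ u) - ex (Θ t)) := by
      rw [intervalIntegral.integral_sub (hint s t) intervalIntegrable_const,
        intervalIntegral.integral_const]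
      simp only [Complex.real_smul]
      push_cast
      ring
    have e4 : Complex.I * ∫ x in (Θ s)..(Θ t), ex x * (Q x : ℂ) =
        s * (ex (Θ t) - ex (Θ s)) + ∫ x in (Θ s)..(Θ t), Complex.I * (ex x * ((Q x : ℂ) - s)) := by
      rw [← intEx, ← intervalIntegral.integral_const_mul, ← intervalIntegral.integral_const_mul,
        ← intervalIntegral.integral_add]
      · apply intervalIntegral.integral_congr
        intro x _
        simp only
        ring
      · exact ((continuous_const.mul (continuous_const.mul continuous_ex))).intervalIntegrable _ _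
      · have h1 : IntervalIntegrable (fun x => ex x * (Q x : ℂ) - ex x * (s:ℂ)) volume (Θ s) (Θ t) :=
          (hQint _ _).sub ((continuous_ex.mul continuous_const).intervalIntegrable _ _)
        have h2 := h1.const_mul Complex.I
        refine h2.congr (fun x _ => ?_)
        ring
    have e5 : D t - D s = (∫ u in s..t, (ex (Θ u) - ex (Θ t))) +
        ∫ x in (Θ s)..(Θ t), Complex.I * (ex x * ((Q x : ℂ) - s)) := by
      simp only [hD]
      linear_combination e1 + e3 + Complex.I * e2 + e4
    rw [e5]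
    have b1 : ‖∫ u in s..t, (ex (Θ u) - ex (Θ t))‖ ≤ (Θ t - Θ s) * |t - s| := by
      apply intervalIntegral.norm_integral_le_of_norm_le_const
      intro u hu
      rw [uIoc_of_le hst] at hu
      refine (ex_sub_le _ _).trans ?_
      rw [abs_le]
      have h1 := hp.monoΘ hu.1.le
      have h2 := hp.monoΘ hu.2
      constructor <;> linarith
    have b2 : ‖∫ x in (Θ s)..(Θ t), Complex.I * (ex x * ((Q x : ℂ) - s))‖ ≤ (t - s) * |Θ t - Θ s| := by
      have hae : ∀ᵐ x, x ≠ Θ t := by simp [ae_iff, measure_singleton]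
      apply intervalIntegral.norm_integral_le_of_norm_le_const_ae
      filter_upwards [hae] with x hx hx2
      rw [uIoc_of_le hΘ] at hx2
      rw [norm_mul, norm_mul, Complex.norm_I, norm_ex, one_mul, one_mul]
      have h3 : ((Q x : ℂ) - s) = ((Q x - s : ℝ) : ℂ) := by push_cast; ring
      rw [h3, Complex.norm_real, Real.norm_eq_abs, abs_le]
      have h1 := hp.ge s x hx2.1
      have h2 := hp.le t x (lt_of_le_of_ne hx2.2 hx)
      constructor <;> linarith
    rw [abs_of_nonneg (by linarith)] at b1 b2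
    calc _ ≤ _ := norm_add_le _ _
      _ ≤ (Θ t - Θ s) * (t - s) + (t - s) * (Θ t - Θ s) := add_le_add b1 b2
      _ = _ := by ring
  have := const_of_mono_bound hb ht
  have h0 : D 0 = 0 := by simp [hD]
  rw [h0] at this
  exact sub_eq_zero.mp this

end Pool.Agent.V11221.Bil
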