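import Pool.Agent.V11221.BilD

namespace Pool.Agent.V11221.Bil

open MeasureTheory Set Filter Topology
open scoped ENNReal NNReal ContDiff Convolution

/-- arclength as a smooth function of the tangent angle, for a closed curve of length one -/
structure Table (q : ℝ → ℝ) : Prop where
  smooth : ContDiff ℝ ∞ q
  pos : ∀ x, 0 < deriv q x
  per : ∀ x, q (x + 2 * Real.pi) = q x + 1
  closed : ∀ x, ∫ y in x..(x + 2 * Real.pi), ex y * (q y : ℂ) = - Complex.I * ex x

/-- mollification with an explicit kernel -/
noncomputable def moll (η Q : ℝ → ℝ) (x : ℝ) : ℝ := ∫ u, η u * Q (x - u)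

structure Kernel (η : ℝ → ℝ) (δ : ℝ) : Prop where
  smooth : ContDiff ℝ ∞ η
  comp : HasCompactSupport η
  nonneg : ∀ u, 0 ≤ η u
  supp : ∀ u, δ < |u| → η u = 0
  int : ∫ u, η u = 1
  integrable : Integrable η

lemma exists_kernel {δ : ℝ} (hδ : 0 < δ) : ∃ η, Kernel η δ := by
  let f : ContDiffBump (0:ℝ) := ⟨δ/2, δ, by positivity, by linarith⟩
  refine ⟨f.normed volume, f.contDiff_normed, f.hasCompactSupport_normed,
    f.nonneg_normed, ?_, f.integral_normed, f.integrable_normed⟩
  intro u hu
  have h1 : u ∉ Function.support (f.normed volume) := by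
    rw [f.support_normed_eq]
    intro h
    rw [Metric.mem_ball, dist_zero_right, Real.norm_eq_abs] at h
    have : f.rOut = δ := rfl
    rw [this] at h
    linarith
  simpa using h1

variable {η Q : ℝ → ℝ} {δ : ℝ}

lemma moll_eq_conv (η Q : ℝ → ℝ) :
    moll η Q = (η ⋆[ContinuousLinearMap.mul ℝ ℝ, volume] Q) := by
  funext x
  rfl

lemma abs_le_of_mono (hQ : Monotone Q) {a b y : ℝ} (h1 : a ≤ y) (h2 : y ≤ b) :
    |Q y| ≤ |Q a| + |Q b| := by
  rw [abs_le]
  constructor
  · have := hQ h1
    have := neg_abs_le (Q a)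
    have := abs_nonneg (Q b)
    linarith
  · have := hQ h2
    have := le_abs_self (Q b)
    have := abs_nonneg (Q a)
    linarith

lemma moll_bound (hη : Kernel η δ) (hQ : Monotone Q) {a b x : ℝ} (h1 : a ≤ x - δ) (h2 : x + δ ≤ b)
    (u : ℝ) : |η u * Q (x - u)| ≤ η u * (|Q a| + |Q b|) := by
  rcases le_or_gt |u| δ with hu | hu
  · rw [abs_mul, abs_of_nonneg (hη.nonneg u)]
    apply mul_le_mul_of_nonneg_left _ (hη.nonneg u)
    have := abs_le.mp hu
    exact abs_le_of_mono hQ (by linarith [this.2]) (by linarith [this.1])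
  · rw [hη.supp u hu]; simp

lemma moll_integrable (hη : Kernel η δ) (hQ : Monotone Q) (x : ℝ) :
    Integrable (fun u => η u * Q (x - u)) := by
  refine Integrable.mono' (hη.integrable.mul_const (|Q (x - δ)| + |Q (x + δ)|)) ?_ ?_
  · apply Measurable.aestronglyMeasurable
    exact hη.smooth.continuous.measurable.mul (hQ.measurable.comp (measurable_const.sub measurable_id))
  · refine Eventually.of_forall (fun u => ?_)
    rw [Real.norm_eq_abs]
    exact moll_bound hη hQ (le_refl _) (le_refl _) u

lemma moll_mono (hη : Kernel η δ) (hQ : Monotone Q) : Monotone (moll η Q) := by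
  intro x y hxy
  unfold moll
  apply integral_mono (moll_integrable hη hQ x) (moll_integrable hη hQ y)
  intro u
  exact mul_le_mul_of_nonneg_left (hQ (by linarith)) (hη.nonneg u)

lemma moll_smooth (hη : Kernel η δ) (hQ : Monotone Q) : ContDiff ℝ ∞ (moll η Q) := by
  rw [moll_eq_conv]
  exact hη.comp.contDiff_convolution_left _ hη.smooth hQ.locallyIntegrable

lemma moll_le (hη : Kernel η δ) (hQ : Monotone Q) (x : ℝ) : moll η Q x ≤ Q (x + δ) := by
  have h1 : ∫ u, η u * Q (x + δ) = Q (x + δ) := by
    rw [integral_mul_const, hη.int, one_mul]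
  rw [← h1]
  unfold moll
  apply integral_mono (moll_integrable hη hQ x) (hη.integrable.mul_const _)
  intro u
  rcases le_or_gt |u| δ with hu | hu
  · apply mul_le_mul_of_nonneg_left (hQ _) (hη.nonneg u)
    linarith [(abs_le.mp hu).1]
  · simp only [hη.supp u hu]; simp

lemma le_moll (hη : Kernel η δ) (hQ : Monotone Q) (x : ℝ) : Q (x - δ) ≤ moll η Q x := by
  have h1 : ∫ u, η u * Q (x - δ) = Q (x - δ) := by
    rw [integral_mul_const, hη.int, one_mul]
  rw [← h1]
  unfold moll
  apply integral_mono (hη.integrable.mul_const _) (moll_integrable hη hQ x)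
  intro u
  rcases le_or_gt |u| δ with hu | hu
  · apply mul_le_mul_of_nonneg_left (hQ _) (hη.nonneg u)
    linarith [(abs_le.mp hu).2]
  · simp only [hη.supp u hu]; simp

lemma moll_per (hη : Kernel η δ) (hQ : Monotone Q) (hper : ∀ x, Q (x + 2 * Real.pi) = Q x + 1) (x : ℝ) :
    moll η Q (x + 2 * Real.pi) = moll η Q x + 1 := by
  unfold moll
  have h1 : ∀ u, η u * Q (x + 2 * Real.pi - u) = η u * Q (x - u) + η u := by
    intro u
    have : x + 2 * Real.pi - u = (x - u) + 2 * Real.pi := by ring
    rw [this, hper]; ring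
  simp_rw [h1]
  rw [integral_add (moll_integrable hη hQ x) hη.integrable, hη.int]

lemma moll_closed (hη : Kernel η δ) (hQ : Monotone Q)
    (hcl : ∀ x, ∫ y in x..(x + 2 * Real.pi), ex y * (Q y : ℂ) = - Complex.I * ex x) (x : ℝ) :
    ∫ y in x..(x + 2 * Real.pi), ex y * (moll η Q y : ℂ) = - Complex.I * ex x := by
  have hpi := Real.pi_pos
  have h1 : ∀ y, ex y * (moll η Q y : ℂ) = ∫ u, ex y * ((η u * Q (y - u) : ℝ) : ℂ) := by
    intro y
    unfold moll
    rw [integral_const_mul, integral_complex_ofReal]
  simp_rw [h1]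
  have hint : Integrable (Function.uncurry (fun (y u : ℝ) => ex y * ((η u * Q (y - u) : ℝ) : ℂ)))
      ((volume.restrict (uIoc x (x + 2 * Real.pi))).prod volume) := by
    have hdom : Integrable (fun z : ℝ × ℝ => (1:ℝ) * (η z.2 * (|Q (x - δ)| + |Q (x + 2 * Real.pi + δ)|)))
        ((volume.restrict (uIoc x (x + 2 * Real.pi))).prod volume) := by
      have hfin : IsFiniteMeasure (volume.restrict (uIoc x (x + 2 * Real.pi))) := by
        constructor
        rw [Measure.restrict_apply_univ, uIoc_of_le (by linarith), Real.volume_Ioc]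
        exact ENNReal.ofReal_lt_top
      exact Integrable.mul_prod (integrable_const (1:ℝ)) (hη.integrable.mul_const _)
    refine Integrable.mono' hdom ?_ ?_
    · apply Measurable.aestronglyMeasurable
      simp only [Function.uncurry_def]
      apply Measurable.mul
      · exact continuous_ex.measurable.comp measurable_fst
      · apply Complex.measurable_ofReal.comp
        exact (hη.smooth.continuous.measurable.comp measurable_snd).mul
          (hQ.measurable.comp (measurable_fst.sub measurable_snd))
    · have hae : ∀ᵐ z : ℝ × ℝ ∂((volume.restrict (uIoc x (x + 2 * Real.pi))).prod volume),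
          z.1 ∈ uIoc x (x + 2 * Real.pi) := by
        have h2 : ∀ᵐ y ∂(volume.restrict (uIoc x (x + 2 * Real.pi))), y ∈ uIoc x (x + 2 * Real.pi) :=
          ae_restrict_mem measurableSet_uIoc
        exact (Measure.quasiMeasurePreserving_fst.ae h2)
      filter_upwards [hae] with z hz
      rw [uIoc_of_le (by linarith)] at hz
      simp only [Function.uncurry_def]
      rw [norm_mul, norm_ex, Complex.norm_real, Real.norm_eq_abs]
      apply mul_le_mul_of_nonneg_left _ zero_le_one
      exact moll_bound hη hQ (by linarith [hz.1]) (by linarith [hz.2]) z.2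
  rw [intervalIntegral_integral_swap hint]
  have h2 : ∀ u, ∫ y in x..(x + 2 * Real.pi), ex y * ((η u * Q (y - u) : ℝ) : ℂ) =
      (η u : ℂ) * (- Complex.I * ex x) := by
    intro u
    have h3 : ∀ y, ex y * ((η u * Q (y - u) : ℝ) : ℂ) = (η u : ℂ) * (ex u * (ex (y - u) * (Q (y - u) : ℂ))) := by
      intro y
      have : ex y = ex u * ex (y - u) := by
        unfold ex
        rw [← Complex.exp_add]; congr 1; push_cast; ring
      rw [this]; push_cast; ring
    simp_rw [h3]
    rw [intervalIntegral.integral_const_mul, intervalIntegral.integral_const_mul,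
      intervalIntegral.integral_comp_sub_right (fun z => ex z * (Q z : ℂ)) u]
    have h4 : x + 2 * Real.pi - u = (x - u) + 2 * Real.pi := by ring
    rw [h4, hcl]
    have : ex x = ex u * ex (x - u) := by
      unfold ex
      rw [← Complex.exp_add]; congr 1; push_cast; ring
    rw [this]; ring
  simp_rw [h2]
  rw [integral_mul_const, integral_complex_ofReal, hη.int]
  simp

lemma intExLin (x : ℝ) : ∫ y in x..(x + 2 * Real.pi), ex y * (((y / (2 * Real.pi) : ℝ)) : ℂ)
    = - Complex.I * ex x := by
  have hpi := Real.pi_pos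
  have hder : ∀ y ∈ uIcc x (x + 2 * Real.pi),
      HasDerivAt (fun y : ℝ => ex y * (1 - Complex.I * (y:ℂ)) / (2 * Real.pi))
        (ex y * (((y / (2 * Real.pi) : ℝ)) : ℂ)) y := by
    intro y _
    have h1 : HasDerivAt (fun y : ℝ => (y:ℂ)) 1 y := Complex.ofRealCLM.hasDerivAt (x := y)
    have h2 : HasDerivAt (fun y : ℝ => 1 - Complex.I * (y:ℂ)) (-(Complex.I * 1)) y :=
      (h1.const_mul Complex.I).const_sub 1
    have h3 := ((hasDerivAt_ex y).mul h2).div_const (2 * Real.pi : ℂ)
    convert! h3 using 1
    push_cast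
    have hI : Complex.I * Complex.I = -1 := Complex.I_mul_I
    field_simp
    linear_combination ((y:ℂ) * ex y) * hI
  rw [intervalIntegral.integral_eq_sub_of_hasDerivAt hder]
  · rw [ex_add_two_pi]
    push_cast
    have : (Real.pi : ℂ) ≠ 0 := by exact_mod_cast hpi.ne'
    field_simp
    ring
  · apply Continuous.intervalIntegrable
    apply continuous_ex.mul
    exact Complex.continuous_ofReal.comp (by fun_prop)

/-- smooth approximation of arclength-angle functions -/
lemma approx {Q : ℝ → ℝ} (hQ : Monotone Q) (hper : ∀ x, Q (x + 2 * Real.pi) = Q x + 1)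
    (hcl : ∀ x, ∫ y in x..(x + 2 * Real.pi), ex y * (Q y : ℂ) = - Complex.I * ex x)
    {ε : ℝ} (hε : 0 < ε) :
    ∃ q, Table q ∧ (∀ x, |q x - Q x| < 2) ∧ ∫ x in (0:ℝ)..(2 * Real.pi), |q x - Q x| ≤ ε := by
  have hpi := Real.pi_pos
  have hpi3 : 3 < Real.pi := Real.pi_gt_three
  set δ : ℝ := min 1 (ε / 4) with hδdef
  have hδ : 0 < δ := by positivity
  have hδ1 : δ ≤ 1 := min_le_left _ _
  have hδε : δ ≤ ε / 4 := min_le_right _ _
  obtain ⟨η, hη⟩ := exists_kernel hδ
  set M := moll η Q with hM
  have hMmono : Monotone M := moll_mono hη hQ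
  have hMper : ∀ x, M (x + 2 * Real.pi) = M x + 1 := moll_per hη hQ hper
  -- bound for M x - x / 2π
  set B : ℝ := |Q (-1)| + |Q (2 * Real.pi + 1)| + 1 with hB
  have hBpos : 0 < B := by positivity
  have hMB0 : ∀ x ∈ Icc (0:ℝ) (2 * Real.pi), |M x - x / (2 * Real.pi)| ≤ B := by
    intro x hx
    have h1 : M x ≤ Q (2 * Real.pi + 1) := (moll_le hη hQ x).trans (hQ (by linarith [hx.2]))
    have h2 : Q (-1) ≤ M x := (hQ (by linarith [hx.1])).trans (le_moll hη hQ x)
    have h3 : 0 ≤ x / (2 * Real.pi) := div_nonneg hx.1 (by positivity)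
    have h4 : x / (2 * Real.pi) ≤ 1 := by rw [div_le_one (by positivity)]; exact hx.2
    rw [abs_le]
    have a1 := neg_abs_le (Q (-1))
    have a2 := le_abs_self (Q (2 * Real.pi + 1))
    have a3 := abs_nonneg (Q (-1))
    have a4 := abs_nonneg (Q (2 * Real.pi + 1))
    constructor <;> linarith
  have hMB : ∀ x, |M x - x / (2 * Real.pi)| ≤ B := by
    intro x
    have hp : Function.Periodic (fun x => M x - x / (2 * Real.pi)) (2 * Real.pi) := by
      intro y
      simp only
      rw [hMper]
      field_simp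
      ring
    obtain ⟨y, hy, hxy⟩ := hp.exists_mem_Ico₀ (by positivity : (0:ℝ) < 2 * Real.pi) x
    rw [hxy]
    exact hMB0 y ⟨hy.1, hy.2.le⟩
  set κ : ℝ := min (1/2) (min (1 / (2 * B)) (ε / (4 * Real.pi * B))) with hκ
  have hκpos : 0 < κ := by positivity
  have hκ1 : κ ≤ 1/2 := min_le_left _ _
  have hκ2 : κ * B ≤ 1/2 := by
    have : κ ≤ 1 / (2 * B) := (min_le_right _ _).trans (min_le_left _ _)
    calc κ * B ≤ 1 / (2 * B) * B := by gcongr
      _ = 1/2 := by field_simp
  have hκ3 : κ * B * (2 * Real.pi) ≤ ε / 2 := by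
    have : κ ≤ ε / (4 * Real.pi * B) := (min_le_right _ _).trans (min_le_right _ _)
    calc κ * B * (2 * Real.pi) ≤ ε / (4 * Real.pi * B) * B * (2 * Real.pi) := by gcongr
      _ = ε / 2 := by field_simp; ring
  have hMdiff : ContDiff ℝ ∞ M := moll_smooth hη hQ
  set q : ℝ → ℝ := fun x => (1 - κ) * M x + κ * (x / (2 * Real.pi)) with hq
  have hMQ : ∀ x, |M x - Q x| ≤ Q (x + δ) - Q (x - δ) := by
    intro x
    have h1 := moll_le hη hQ x
    have h2 := le_moll hη hQ x
    have h3 : Q (x - δ) ≤ Q x := hQ (by linarith)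
    have h4 : Q x ≤ Q (x + δ) := hQ (by linarith)
    rw [abs_le]; constructor <;> linarith
  have hqQ : ∀ x, |q x - Q x| ≤ (Q (x + δ) - Q (x - δ)) + κ * B := by
    intro x
    have h1 : q x - Q x = (M x - Q x) - κ * (M x - x / (2 * Real.pi)) := by
      simp only [hq]; ring
    rw [h1]
    calc _ ≤ |M x - Q x| + |κ * (M x - x / (2 * Real.pi))| := abs_sub _ _
      _ ≤ _ := by
        apply add_le_add (hMQ x)
        rw [abs_mul, abs_of_pos hκpos]
        exact mul_le_mul_of_nonneg_left (hMB x) hκpos.le
  refine ⟨q, ⟨?_, ?_, ?_, ?_⟩, ?_, ?_⟩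
  · exact (contDiff_const.mul hMdiff).add (contDiff_const.mul (contDiff_id.div_const _))
  · intro x
    have h1 : DifferentiableAt ℝ M x := (hMdiff.differentiable (by simp)) x
    have h2 : HasDerivAt q ((1 - κ) * deriv M x + κ * (1 / (2 * Real.pi))) x := by
      exact (h1.hasDerivAt.const_mul (1 - κ)).add (((hasDerivAt_id x).div_const (2 * Real.pi)).const_mul κ)
    rw [h2.deriv]
    have h3 : 0 ≤ deriv M x := hMmono.deriv_nonneg
    have h4 : 0 ≤ (1 - κ) * deriv M x := mul_nonneg (by linarith) h3
    have h5 : 0 < κ * (1 / (2 * Real.pi)) := by positivity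
    linarith
  · intro x
    simp only [hq]
    rw [hMper]
    field_simp
    ring
  · intro x
    have h1 : ∀ y, ex y * (q y : ℂ) = (1 - κ : ℝ) * (ex y * (M y : ℂ)) +
        (κ : ℂ) * (ex y * (((y / (2 * Real.pi) : ℝ)) : ℂ)) := by
      intro y
      simp only [hq]; push_cast; ring
    simp_rw [h1]
    rw [intervalIntegral.integral_add, intervalIntegral.integral_const_mul,
      intervalIntegral.integral_const_mul, moll_closed hη hQ hcl, intExLin]
    · push_cast; ring
    · apply Continuous.intervalIntegrable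
      exact continuous_const.mul (continuous_ex.mul (Complex.continuous_ofReal.comp hMdiff.continuous))
    · apply Continuous.intervalIntegrable
      exact continuous_const.mul (continuous_ex.mul (Complex.continuous_ofReal.comp (by fun_prop)))
  · intro x
    have h1 := hqQ x
    have h2 : Q (x + δ) ≤ Q (x - δ) + 1 := by
      rw [← hper]
      exact hQ (by linarith)
    linarith
  · have hQi : ∀ a b : ℝ, IntervalIntegrable Q volume a b := fun a b =>
      (hQ.monotoneOn (uIcc a b)).intervalIntegrable
    have hQ1 : IntervalIntegrable (fun x => Q (x + δ)) volume 0 (2 * Real.pi) :=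
      ((hQ.comp (fun a b h => by simpa using h : Monotone (fun x => x + δ))).monotoneOn
        (uIcc 0 (2 * Real.pi))).intervalIntegrable
    have hQ2 : IntervalIntegrable (fun x => Q (x - δ)) volume 0 (2 * Real.pi) :=
      ((hQ.comp (fun a b h => by simpa using h : Monotone (fun x => x - δ))).monotoneOn
        (uIcc 0 (2 * Real.pi))).intervalIntegrable
    have hmain : ∫ x in (0:ℝ)..(2 * Real.pi), (Q (x + δ) - Q (x - δ)) = 2 * δ := by
      rw [intervalIntegral.integral_sub hQ1 hQ2,
        intervalIntegral.integral_comp_add_right (fun x => Q x) δ,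
        intervalIntegral.integral_comp_sub_right (fun x => Q x) δ]
      have e1 := intervalIntegral.integral_add_adjacent_intervals (hQi (0 - δ) (0 + δ))
        (hQi (0 + δ) (2 * Real.pi + δ))
      have e2 := intervalIntegral.integral_add_adjacent_intervals (hQi (0 - δ) (2 * Real.pi - δ))
        (hQi (2 * Real.pi - δ) (2 * Real.pi + δ))
      have e3 : ∫ x in (2 * Real.pi - δ)..(2 * Real.pi + δ), Q x =
          (∫ x in (0 - δ)..(0 + δ), Q x) + 2 * δ := by
        have e4 : ∫ x in (0 - δ)..(0 + δ), Q (x + 2 * Real.pi) =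
            ∫ x in (0 - δ + 2 * Real.pi)..(0 + δ + 2 * Real.pi), Q x :=
          intervalIntegral.integral_comp_add_right (fun x => Q x) (2 * Real.pi)
        have e5 : (0 - δ + 2 * Real.pi) = 2 * Real.pi - δ := by ring
        have e6 : (0 + δ + 2 * Real.pi) = 2 * Real.pi + δ := by ring
        rw [e5, e6] at e4
        rw [← e4]
        simp_rw [hper]
        rw [intervalIntegral.integral_add (hQi _ _) intervalIntegrable_const,
          intervalIntegral.integral_const]
        simp only [smul_eq_mul]
        ring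
      linarith
    have hqi : IntervalIntegrable (fun x => |q x - Q x|) volume 0 (2 * Real.pi) := by
      have h1 : IntervalIntegrable q volume 0 (2 * Real.pi) := by
        apply Continuous.intervalIntegrable
        exact (continuous_const.mul hMdiff.continuous).add (by fun_prop)
      exact (h1.sub (hQi _ _)).abs
    calc ∫ x in (0:ℝ)..(2 * Real.pi), |q x - Q x|
        ≤ ∫ x in (0:ℝ)..(2 * Real.pi), ((Q (x + δ) - Q (x - δ)) + κ * B) := by
          apply intervalIntegral.integral_mono_on (by positivity) hqi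
            ((hQ1.sub hQ2).add intervalIntegrable_const)
          intro x _
          exact hqQ x
      _ = 2 * δ + κ * B * (2 * Real.pi) := by
          rw [intervalIntegral.integral_add (hQ1.sub hQ2) intervalIntegrable_const, hmain,
            intervalIntegral.integral_const]
          simp only [smul_eq_mul]
          ring
      _ ≤ ε := by linarith

end Pool.Agent.V11221.Bil
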