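import Pool.Agent.V11221.BilE

namespace Pool.Agent.V11221.Bil

open MeasureTheory Set Filter Topology
open scoped ENNReal NNReal ContDiff

/-- smooth dependence of the inverse function on parameters -/
lemma joint_inverse {F : ℝ × ℝ → ℝ} (hF : ContDiff ℝ ∞ F)
    (hpos : ∀ s x, 0 < deriv (fun y => F (s, y)) x) (hsurj : ∀ s t, ∃ x, F (s, x) = t) :
    ∃ ϑ : ℝ × ℝ → ℝ, ContDiff ℝ ∞ ϑ ∧ (∀ s t, F (s, ϑ (s, t)) = t) ∧ ∀ s x, ϑ (s, F (s, x)) = x := by
  have hmono : ∀ s, StrictMono (fun y => F (s, y)) := fun s => strictMono_of_deriv_pos (hpos s)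
  set Ψ : ℝ × ℝ → ℝ × ℝ := fun p => (p.1, F p) with hΨ
  have hΨs : ContDiff ℝ ∞ Ψ := contDiff_fst.prodMk hF
  have hbij : Function.Bijective Ψ := by
    constructor
    · rintro ⟨s, x⟩ ⟨s', x'⟩ h
      simp only [hΨ, Prod.mk.injEq] at h
      obtain ⟨rfl, h2⟩ := h
      rw [(hmono s).injective h2]
    · rintro ⟨s, t⟩
      obtain ⟨x, hx⟩ := hsurj s t
      exact ⟨(s, x), by simp [hΨ, hx]⟩
  have hFd : Differentiable ℝ F := hF.differentiable (by simp)
  have hb : ∀ p : ℝ × ℝ, (fderiv ℝ F p) (0, 1) ≠ 0 := by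
    rintro ⟨s, x⟩
    have h1 : HasDerivAt (fun y : ℝ => ((s, y) : ℝ × ℝ)) (0, 1) x :=
      (hasDerivAt_const x s).prodMk (hasDerivAt_id x)
    have h2 : HasDerivAt (fun y => F (s, y)) ((fderiv ℝ F (s, x)) (0, 1)) x :=
      (hFd (s, x)).hasFDerivAt.comp_hasDerivAt x h1
    have := hpos s x
    rw [h2.deriv] at this
    exact this.ne'
  let E : ℝ × ℝ → (ℝ × ℝ) ≃L[ℝ] (ℝ × ℝ) := fun p =>
    (ContinuousLinearEquiv.refl ℝ ℝ).skewProd
      (ContinuousLinearEquiv.unitsEquivAut ℝ (Units.mk0 ((fderiv ℝ F p) (0, 1)) (hb p)))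
      ((ContinuousLinearMap.toSpanSingleton ℝ ((fderiv ℝ F p) (1, 0))))
  have hE : ∀ p, fderiv ℝ Ψ p = (E p : (ℝ × ℝ) →L[ℝ] (ℝ × ℝ)) := by
    intro p
    have h1 : HasFDerivAt Ψ ((ContinuousLinearMap.fst ℝ ℝ ℝ).prod (fderiv ℝ F p)) p :=
      hasFDerivAt_fst.prodMk (hFd p).hasFDerivAt
    rw [h1.fderiv]
    ext1
    · ext <;> simp [E]
    · ext <;> simp [E]
  have hstrict : ∀ p, HasStrictFDerivAt Ψ (E p : (ℝ × ℝ) →L[ℝ] (ℝ × ℝ)) p := by
    intro p
    rw [← hE p]
    exact (hΨs.contDiffAt).hasStrictFDerivAt (by simp)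
  have hopen : IsOpenMap Ψ := isOpenMap_of_hasStrictFDerivAt_equiv hstrict
  let Φ : (ℝ × ℝ) ≃ₜ (ℝ × ℝ) :=
    (Equiv.ofBijective Ψ hbij).toHomeomorphOfContinuousOpen hΨs.continuous hopen
  have hΦ : ∀ p, Φ p = Ψ p := fun p => rfl
  have hsym : ContDiff ℝ ∞ (Φ.symm : ℝ × ℝ → ℝ × ℝ) :=
    Homeomorph.contDiff_symm Φ (f₀' := E) (fun p => (hstrict p).hasFDerivAt) hΨs
  refine ⟨fun p => (Φ.symm p).2, contDiff_snd.comp hsym, ?_, ?_⟩
  · intro s t
    have h1 : Φ (Φ.symm (s, t)) = (s, t) := Φ.apply_symm_apply (s, t)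
    rw [hΦ] at h1
    simp only [hΨ, Prod.mk.injEq] at h1
    have h2 : ((s, (Φ.symm (s, t)).2) : ℝ × ℝ) = Φ.symm (s, t) := Prod.ext h1.1.symm rfl
    show F (s, (Φ.symm (s, t)).2) = t
    rw [h2]
    exact h1.2
  · intro s x
    have h1 : Φ.symm (Φ (s, x)) = (s, x) := Φ.symm_apply_apply (s, x)
    rw [hΦ] at h1
    simp only [hΨ] at h1
    show (Φ.symm (s, F (s, x))).2 = x
    rw [h1]

variable {q : ℝ → ℝ}

namespace Table

lemma diff (h : Table q) : Differentiable ℝ q := h.smooth.differentiable (by simp)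

lemma cont (h : Table q) : Continuous q := h.smooth.continuous

lemma strictMono (h : Table q) : StrictMono q := strictMono_of_deriv_pos h.pos

lemma per_nat (h : Table q) (n : ℕ) (x : ℝ) : q (x + n * (2 * Real.pi)) = q x + n := by
  induction n with
  | zero => simp
  | succ k ih =>
    have : x + ((k+1 : ℕ) : ℝ) * (2 * Real.pi) = (x + k * (2 * Real.pi)) + 2 * Real.pi := by
      push_cast; ring
    rw [this, h.per, ih]
    push_cast; ring

lemma surj (h : Table q) : Function.Surjective q := by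
  intro t
  obtain ⟨n, hn⟩ := exists_nat_gt (|t| + |q 0|)
  have h1 := h.per_nat n 0
  have h2 := h.per_nat n (0 - n * (2 * Real.pi))
  rw [sub_add_cancel] at h2
  have a1 := abs_le.mp (le_refl |t|)
  have a2 := abs_le.mp (le_refl |q 0|)
  have h3 : t ∈ Icc (q (0 - n * (2 * Real.pi))) (q (0 + n * (2 * Real.pi))) := by
    constructor
    · linarith
    · linarith
  have hle : (0 - n * (2 * Real.pi)) ≤ (0 + n * (2 * Real.pi)) := by
    have : 0 ≤ (n:ℝ) * (2 * Real.pi) := by positivity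
    linarith
  obtain ⟨x, _, hx⟩ := intermediate_value_Icc hle h.cont.continuousOn h3
  exact ⟨x, hx⟩

end Table

/-- the tangent angle as a function of arclength -/
noncomputable def ang (q : ℝ → ℝ) (t : ℝ) : ℝ := Function.invFun q t

lemma Table.q_ang (h : Table q) (t : ℝ) : q (ang q t) = t := Function.invFun_eq (h.surj t)

lemma Table.ang_q (h : Table q) (x : ℝ) : ang q (q x) = x :=
  Function.leftInverse_invFun h.strictMono.injective x

lemma Table.ang_strictMono (h : Table q) : StrictMono (ang q) := by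
  intro s t hst
  by_contra hlt
  push Not at hlt
  have := h.strictMono.monotone hlt
  rw [h.q_ang, h.q_ang] at this
  linarith

lemma Table.ang_per (h : Table q) (t : ℝ) : ang q (t + 1) = ang q t + 2 * Real.pi := by
  have h1 : q (ang q t + 2 * Real.pi) = t + 1 := by rw [h.per, h.q_ang]
  rw [← h1, h.ang_q]

lemma Table.pair (h : Table q) : Pair (ang q) q where
  monoΘ := h.ang_strictMono.monotone
  monoQ := h.strictMono.monotone
  perΘ := h.ang_per
  perQ := h.per
  le := by
    intro t x hx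
    have := h.strictMono hx
    rw [h.q_ang] at this
    exact this.le
  ge := by
    intro t x hx
    have := h.strictMono hx
    rw [h.q_ang] at this
    exact this.le

/-- primitive of `e^{ix} q'(x)` -/
noncomputable def W (q : ℝ → ℝ) (x : ℝ) : ℂ := ex x * (q x : ℂ) - Complex.I * ∫ y in (0:ℝ)..x, ex y * (q y : ℂ)

lemma Table.contEx (h : Table q) : Continuous (fun y => ex y * (q y : ℂ)) :=
  continuous_ex.mul (Complex.continuous_ofReal.comp h.cont)

lemma Table.hasDerivAt_W (h : Table q) (x : ℝ) : HasDerivAt (W q) (ex x * ((deriv q x : ℝ) : ℂ)) x := by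
  have h1 : HasDerivAt (fun y => (q y : ℂ)) ((deriv q x : ℝ) : ℂ) x :=
    ((h.diff x).hasDerivAt).ofReal_comp
  have h2 := (hasDerivAt_ex x).mul h1
  have h3 : HasDerivAt (fun x => ∫ y in (0:ℝ)..x, ex y * (q y : ℂ)) (ex x * (q x : ℂ)) x :=
    intervalIntegral.integral_hasDerivAt_right (h.contEx.intervalIntegrable _ _)
      (h.contEx.stronglyMeasurableAtFilter _ _) h.contEx.continuousAt
  have h4 := h2.sub (h3.const_mul Complex.I)
  convert! h4 using 1
  ring

lemma Table.contDiff_W (h : Table q) : ContDiff ℝ ∞ (W q) := by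
  rw [contDiff_infty_iff_deriv]
  refine ⟨fun x => (h.hasDerivAt_W x).differentiableAt, ?_⟩
  have h1 : deriv (W q) = fun x => ex x * ((deriv q x : ℝ) : ℂ) := funext fun x => (h.hasDerivAt_W x).deriv
  rw [h1]
  have h2 : ContDiff ℝ ∞ (deriv q) := (contDiff_infty_iff_deriv.mp h.smooth).2
  exact contDiff_ex.mul (Complex.ofRealCLM.contDiff.comp h2)

lemma Table.W_per (h : Table q) (x : ℝ) : W q (x + 2 * Real.pi) = W q x := by
  unfold W
  have e1 : (∫ y in (0:ℝ)..(x + 2 * Real.pi), ex y * (q y : ℂ)) - (∫ y in (0:ℝ)..x, ex y * (q y : ℂ))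
      = ∫ y in x..(x + 2 * Real.pi), ex y * (q y : ℂ) :=
    intervalIntegral.integral_interval_sub_left (h.contEx.intervalIntegrable _ _)
      (h.contEx.intervalIntegrable _ _)
  rw [h.closed] at e1
  rw [ex_add_two_pi, h.per]
  push_cast
  have hI : Complex.I * Complex.I = -1 := Complex.I_mul_I
  linear_combination (-Complex.I) * e1 + ex x * hI

/-- the curve with base point `z` and arclength-angle function `q` -/
noncomputable def curve (z : ℂ) (q : ℝ → ℝ) (t : ℝ) : ℂ := z + W q (ang q t) - W q (ang q 0)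

lemma Table.curve_zero (z : ℂ) : curve z q 0 = z := by
  unfold curve; ring

lemma Table.curve_integral (h : Table q) (z : ℂ) {t : ℝ} :
    curve z q t = z + ((t * ex (ang q t)) - Complex.I * ∫ x in (ang q 0)..(ang q t), ex x * (q x : ℂ)) := by
  unfold curve W
  rw [h.q_ang, h.q_ang]
  have e1 : (∫ y in (0:ℝ)..(ang q t), ex y * (q y : ℂ)) - (∫ y in (0:ℝ)..(ang q 0), ex y * (q y : ℂ))
      = ∫ y in (ang q 0)..(ang q t), ex y * (q y : ℂ) :=
    intervalIntegral.integral_interval_sub_left (h.contEx.intervalIntegrable _ _)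
      (h.contEx.intervalIntegrable _ _)
  rw [← e1]
  push_cast
  ring

/-- the family of interpolated tables -/
lemma Table.convex {q0 q1 : ℝ → ℝ} (h0 : Table q0) (h1 : Table q1) {a b : ℝ} (ha : 0 ≤ a) (hb : 0 ≤ b)
    (hab : a + b = 1) : Table (fun x => a * q0 x + b * q1 x) where
  smooth := (contDiff_const.mul h0.smooth).add (contDiff_const.mul h1.smooth)
  pos := by
    intro x
    have h2 : HasDerivAt (fun x => a * q0 x + b * q1 x) (a * deriv q0 x + b * deriv q1 x) x :=
      ((h0.diff x).hasDerivAt.const_mul a).add ((h1.diff x).hasDerivAt.const_mul b)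
    rw [h2.deriv]
    have p0 := h0.pos x
    have p1 := h1.pos x
    rcases ha.eq_or_lt with h | h
    · rw [← h] at hab ⊢
      have : b = 1 := by linarith
      rw [this]; simpa using p1
    · have : 0 < a * deriv q0 x := mul_pos h p0
      have : 0 ≤ b * deriv q1 x := mul_nonneg hb p1.le
      linarith
  per := by
    intro x
    rw [h0.per, h1.per]
    linear_combination hab
  closed := by
    intro x
    have e1 : ∀ y, ex y * ((a * q0 y + b * q1 y : ℝ) : ℂ) =
        (a:ℂ) * (ex y * (q0 y : ℂ)) + (b:ℂ) * (ex y * (q1 y : ℂ)) := by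
      intro y; push_cast; ring
    simp_rw [e1]
    rw [intervalIntegral.integral_add, intervalIntegral.integral_const_mul,
      intervalIntegral.integral_const_mul, h0.closed, h1.closed]
    · have : (a:ℂ) + (b:ℂ) = 1 := by exact_mod_cast hab
      linear_combination (-Complex.I * ex x) * this
    · exact (continuous_const.mul h0.contEx).intervalIntegrable _ _
    · exact (continuous_const.mul h1.contEx).intervalIntegrable _ _

end Pool.Agent.V11221.Bil
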