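import Pool.Agent.V11221.BilF
import Pool.Agent.V11221.BilA

namespace Pool.Agent.V11221.Bil

open MeasureTheory Set Filter Topology
open scoped ENNReal NNReal ContDiff

variable {q : ℝ → ℝ}

/-- `cross v` as a continuous linear map -/
noncomputable def crossL (v : ℂ) : ℂ →L[ℝ] ℝ := v.re • Complex.imCLM - v.im • Complex.reCLM

lemma crossL_apply (v w : ℂ) : crossL v w = cross v w := by
  simp [crossL, cross]

lemma cross_ex (a b : ℝ) : cross (ex a) (ex b) = Real.sin (b - a) := by
  simp only [cross, ex, Complex.exp_ofReal_mul_I_re, Complex.exp_ofReal_mul_I_im, Real.sin_sub]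
  ring

lemma ang_contDiff (h : Table q) : ContDiff ℝ ∞ (ang q) := by
  obtain ⟨ϑ, h1, h2, h3⟩ := joint_inverse (F := fun p : ℝ × ℝ => q p.2)
    (h.smooth.comp contDiff_snd) (fun s x => h.pos x) (fun s t => h.surj t)
  have e : ang q = fun t => ϑ (0, t) := by
    funext t
    apply h.strictMono.injective
    rw [h.q_ang]
    exact (h2 0 t).symm
  rw [e]
  exact h1.comp (contDiff_const.prodMk contDiff_id)

lemma ang_deriv_mul (h : Table q) (t : ℝ) : deriv q (ang q t) * deriv (ang q) t = 1 := by
  have h1 : DifferentiableAt ℝ (ang q) t := (ang_contDiff h).differentiable (by simp) t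
  have h2 := (h.diff (ang q t)).hasDerivAt.comp t h1.hasDerivAt
  have h3 : (q ∘ ang q) = id := funext h.q_ang
  rw [h3] at h2
  exact h2.unique (hasDerivAt_id t)

lemma ang_deriv_pos (h : Table q) (t : ℝ) : 0 < deriv (ang q) t := by
  have h1 := ang_deriv_mul h t
  have h2 := h.pos (ang q t)
  by_contra hlt
  push Not at hlt
  nlinarith

lemma hasDerivAt_curve (h : Table q) (z : ℂ) (t : ℝ) : HasDerivAt (curve z q) (ex (ang q t)) t := by
  have h1 : DifferentiableAt ℝ (ang q) t := (ang_contDiff h).differentiable (by simp) t
  have h2 := (h.hasDerivAt_W (ang q t)).scomp t h1.hasDerivAt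
  have h3 : HasDerivAt (fun t => z + (W q ∘ ang q) t - W q (ang q 0)) _ t :=
    (h2.const_add z).sub_const _
  have h4 := ang_deriv_mul h t
  convert! h3 using 1
  rw [Complex.real_smul]
  have h5 : ((deriv q (ang q t) : ℝ) : ℂ) * ((deriv (ang q) t : ℝ) : ℂ) = 1 := by
    rw [← Complex.ofReal_mul, h4, Complex.ofReal_one]
  linear_combination (-ex (ang q t)) * h5

lemma deriv_curve (h : Table q) (z : ℂ) : deriv (curve z q) = fun t => ex (ang q t) :=
  funext fun t => (hasDerivAt_curve h z t).deriv

lemma curve_contDiff (h : Table q) (z : ℂ) : ContDiff ℝ ∞ (curve z q) := by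
  have : curve z q = fun t => z + (W q ∘ ang q) t - W q (ang q 0) := rfl
  rw [this]
  exact (contDiff_const.add (h.contDiff_W.comp (ang_contDiff h))).sub contDiff_const

lemma hasDerivAt_exang (h : Table q) (t : ℝ) :
    HasDerivAt (fun t => ex (ang q t)) (((deriv (ang q) t : ℝ) : ℂ) * (Complex.I * ex (ang q t))) t := by
  have h1 : DifferentiableAt ℝ (ang q) t := (ang_contDiff h).differentiable (by simp) t
  have h2 := (hasDerivAt_ex (ang q t)).scomp t h1.hasDerivAt
  convert! h2 using 1

lemma curve_curv (h : Table q) (z : ℂ) (t : ℝ) :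
    0 < cross (deriv (curve z q) t) (deriv (deriv (curve z q)) t) := by
  rw [deriv_curve h z]
  rw [(hasDerivAt_exang h t).deriv]
  have h1 := ang_deriv_pos h t
  have h2 : cross (ex (ang q t)) (((deriv (ang q) t : ℝ) : ℂ) * (Complex.I * ex (ang q t))) =
      deriv (ang q) t := by
    simp only [cross, ex, Complex.mul_re, Complex.mul_im, Complex.ofReal_re, Complex.ofReal_im,
      Complex.I_re, Complex.I_im, Complex.exp_ofReal_mul_I_re, Complex.exp_ofReal_mul_I_im]
    have := Real.sin_sq_add_cos_sq (ang q t)
    linear_combination (deriv (ang q) t) * this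
  rw [h2]; exact h1

lemma curve_per (h : Table q) (z : ℂ) (t : ℝ) : curve z q (t + 1) = curve z q t := by
  unfold curve
  rw [h.ang_per, h.W_per]

/-- strict left-of-tangent property on one period -/
lemma curve_strict (h : Table q) (z : ℂ) {t u : ℝ} (h1 : t < u) (h2 : u < t + 1) :
    0 < cross (ex (ang q t)) (curve z q u - curve z q t) := by
  set g : ℝ → ℝ := fun u => crossL (ex (ang q t)) (curve z q u - curve z q t) with hg
  have hpi := Real.pi_pos
  have hd : ∀ u, HasDerivAt g (Real.sin (ang q u - ang q t)) u := by
    intro u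
    have h3 := (crossL (ex (ang q t))).hasFDerivAt.comp_hasDerivAt u
      ((hasDerivAt_curve h z u).sub_const (curve z q t))
    rw [crossL_apply, cross_ex] at h3
    exact h3
  have hgc : Continuous g := continuous_iff_continuousAt.mpr fun u => (hd u).continuousAt
  have hgt : g t = 0 := by simp [hg]
  have hgt1 : g (t + 1) = 0 := by simp [hg, curve_per h]
  obtain ⟨m, hm⟩ : ∃ m, ang q m = ang q t + Real.pi := ⟨q (ang q t + Real.pi), h.ang_q _⟩
  have hmono := h.ang_strictMono
  have hinc : StrictMonoOn g (Icc t m) := by
    apply strictMonoOn_of_deriv_pos (convex_Icc _ _) hgc.continuousOn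
    intro v hv
    rw [interior_Icc] at hv
    rw [(hd v).deriv]
    apply Real.sin_pos_of_pos_of_lt_pi
    · linarith [hmono hv.1]
    · linarith [hmono hv.2]
  have hdec : StrictAntiOn g (Icc m (t + 1)) := by
    apply strictAntiOn_of_deriv_neg (convex_Icc _ _) hgc.continuousOn
    intro v hv
    rw [interior_Icc] at hv
    rw [(hd v).deriv]
    have a1 : Real.pi < ang q v - ang q t := by linarith [hmono hv.1]
    have a2 : ang q v - ang q t < 2 * Real.pi := by
      have := hmono hv.2
      rw [h.ang_per] at this
      linarith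
    have a3 : Real.sin (ang q v - ang q t) = - Real.sin (ang q v - ang q t - Real.pi) := by
      rw [Real.sin_sub_pi]; ring
    rw [a3, neg_lt_zero]
    exact Real.sin_pos_of_pos_of_lt_pi (by linarith) (by linarith)
  have hfin : 0 < g u := by
    rcases le_total u m with hum | hum
    · have := hinc ⟨le_refl t, h1.le.trans hum⟩ ⟨h1.le, hum⟩ h1
      rwa [hgt] at this
    · have := hdec ⟨hum, h2.le⟩ ⟨hum.trans h2.le, le_refl _⟩ h2
      rwa [hgt1] at this
  rw [hg] at hfin
  simp only [crossL_apply] at hfin
  exact hfin

lemma curve_left (h : Table q) (z : ℂ) (t u : ℝ) :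
    0 ≤ cross (ex (ang q t)) (curve z q u - curve z q t) := by
  have hp : Function.Periodic (curve z q) 1 := curve_per h z
  obtain ⟨y, hy, hxy⟩ := hp.exists_mem_Ico one_pos u t
  rw [hxy]
  rcases hy.1.eq_or_lt with h1 | h1
  · rw [← h1]; simp [cross]
  · exact (curve_strict h z h1 hy.2).le

lemma curve_inj (h : Table q) (z : ℂ) : ∀ s ∈ Ico (0:ℝ) 1, ∀ t ∈ Ico (0:ℝ) 1,
    curve z q s = curve z q t → s = t := by
  intro s hs t ht hst
  by_contra hne
  rcases lt_or_gt_of_ne hne with hlt | hlt
  · have := curve_strict h z hlt (by linarith [hs.1, ht.2])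
    rw [hst] at this
    simp [cross] at this
  · have := curve_strict h z hlt (by linarith [ht.1, hs.2])
    rw [hst] at this
    simp [cross] at this

lemma continuous_ang (h : Table q) : Continuous (ang q) := (ang_contDiff h).continuous

/-- the convex body bounded by the curve -/
def bodyOf (z : ℂ) (q : ℝ → ℝ) : Set ℂ := {w | ∀ t, 0 ≤ cross (ex (ang q t)) (w - curve z q t)}

lemma continuous_G (h : Table q) (z w : ℂ) :
    Continuous (fun t => cross (ex (ang q t)) (w - curve z q t)) := by
  have h1 := (continuous_ex.comp (continuous_ang h))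
  have h2 := (curve_contDiff h z).continuous
  unfold cross
  have a1 := Complex.continuous_re.comp h1
  have a2 := Complex.continuous_im.comp h1
  have a3 := Complex.continuous_re.comp (continuous_const (y := w) |>.sub h2)
  have a4 := Complex.continuous_im.comp (continuous_const (y := w) |>.sub h2)
  exact (a1.mul a4).sub (a2.mul a3)

lemma periodic_G (h : Table q) (z w : ℂ) :
    Function.Periodic (fun t => cross (ex (ang q t)) (w - curve z q t)) 1 := by
  intro t
  simp only
  rw [h.ang_per, ex_add_two_pi, curve_per h]

lemma abs_cross_le (v w : ℂ) (hv : ‖v‖ = 1) : |cross v w| ≤ 2 * ‖w‖ := by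
  have h1 := Complex.abs_re_le_norm v
  have h2 := Complex.abs_im_le_norm v
  have h3 := Complex.abs_re_le_norm w
  have h4 := Complex.abs_im_le_norm w
  rw [hv] at h1 h2
  unfold cross
  calc |v.re * w.im - v.im * w.re| ≤ |v.re * w.im| + |v.im * w.re| := abs_sub _ _
    _ = |v.re| * |w.im| + |v.im| * |w.re| := by rw [abs_mul, abs_mul]
    _ ≤ 1 * ‖w‖ + 1 * ‖w‖ := by gcongr
    _ = _ := by ring

lemma mem_interior_body (h : Table q) (z w : ℂ)
    (hw : ∀ t, 0 < cross (ex (ang q t)) (w - curve z q t)) : w ∈ interior (bodyOf z q) := by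
  obtain ⟨t0, _, ht0⟩ := (isCompact_Icc (a := (0:ℝ)) (b := 1)).exists_isMinOn
    ⟨0, by simp⟩ (continuous_G h z w).continuousOn
  set m := cross (ex (ang q t0)) (w - curve z q t0) with hm
  have hmpos : 0 < m := hw t0
  have hmin : ∀ t, m ≤ cross (ex (ang q t)) (w - curve z q t) := by
    intro t
    obtain ⟨y, hy, hxy⟩ := (periodic_G h z w).exists_mem_Ico₀ one_pos t
    rw [hxy]
    exact ht0 ⟨hy.1, hy.2.le⟩
  rw [mem_interior]
  refine ⟨Metric.ball w (m / 2), ?_, Metric.isOpen_ball, Metric.mem_ball_self (by positivity)⟩
  intro w' hw' t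
  have h1 : cross (ex (ang q t)) (w' - curve z q t) =
      cross (ex (ang q t)) (w - curve z q t) + cross (ex (ang q t)) (w' - w) := by
    simp only [cross, Complex.sub_re, Complex.sub_im]; ring
  have h2 := abs_cross_le (ex (ang q t)) (w' - w) (norm_ex _)
  rw [Metric.mem_ball, dist_eq_norm] at hw'
  have h3 := (abs_le.mp h2).1
  rw [h1]
  linarith [hmin t]

lemma body_facts (h : Table q) (z : ℂ) : Convex ℝ (bodyOf z q) ∧ IsCompact (bodyOf z q) ∧
    (interior (bodyOf z q)).Nonempty ∧ frontier (bodyOf z q) = range (curve z q) := by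
  have hpi := Real.pi_pos
  have hconv : Convex ℝ (bodyOf z q) := by
    intro w1 h1 w2 h2 a b ha hb hab t
    have e : cross (ex (ang q t)) (a • w1 + b • w2 - curve z q t) =
        a * cross (ex (ang q t)) (w1 - curve z q t) + b * cross (ex (ang q t)) (w2 - curve z q t) := by
      simp only [cross, Complex.sub_re, Complex.sub_im, Complex.add_re, Complex.add_im,
        Complex.real_smul, Complex.mul_re, Complex.mul_im, Complex.ofReal_re, Complex.ofReal_im]
      linear_combination ((ex (ang q t)).re * (curve z q t).im - (ex (ang q t)).im * (curve z q t).re) * hab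
    rw [e]
    exact add_nonneg (mul_nonneg ha (h1 t)) (mul_nonneg hb (h2 t))
  have hclosed : IsClosed (bodyOf z q) := by
    have : bodyOf z q = ⋂ t, {w | 0 ≤ cross (ex (ang q t)) (w - curve z q t)} := by
      ext w; simp [bodyOf]
    rw [this]
    apply isClosed_iInter
    intro t
    apply isClosed_le continuous_const
    unfold cross
    fun_prop
  have hmem : ∀ t, curve z q t ∈ bodyOf z q := fun u t => curve_left h z t u
  have hbdd : Bornology.IsBounded (bodyOf z q) := by
    set t1 := q 0
    set t2 := q (Real.pi / 2)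
    set t3 := q Real.pi
    set t4 := q (-(Real.pi / 2))
    have a1 : ang q t1 = 0 := h.ang_q _
    have a2 : ang q t2 = Real.pi / 2 := h.ang_q _
    have a3 : ang q t3 = Real.pi := h.ang_q _
    have a4 : ang q t4 = -(Real.pi / 2) := h.ang_q _
    have e1 : ex 0 = 1 := by simp [ex]
    have e2 : ex (Real.pi / 2) = Complex.I := by
      unfold ex; push_cast; exact Complex.exp_pi_div_two_mul_I
    have e3 : ex Real.pi = -1 := by unfold ex; exact Complex.exp_pi_mul_I
    have e4 : ex (-(Real.pi / 2)) = -Complex.I := by
      unfold ex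
      apply Complex.ext
      · rw [Complex.exp_ofReal_mul_I_re, Real.cos_neg, Real.cos_pi_div_two]; simp
      · rw [Complex.exp_ofReal_mul_I_im, Real.sin_neg, Real.sin_pi_div_two]; simp
    rw [isBounded_iff_forall_norm_le]
    refine ⟨(|(curve z q t2).re| + |(curve z q t4).re|) + (|(curve z q t1).im| + |(curve z q t3).im|), ?_⟩
    intro w hw
    have b1 := hw t1
    have b2 := hw t2
    have b3 := hw t3
    have b4 := hw t4
    rw [a1, e1] at b1
    rw [a2, e2] at b2
    rw [a3, e3] at b3
    rw [a4, e4] at b4
    simp only [cross, Complex.one_re, Complex.one_im, Complex.I_re, Complex.I_im, Complex.neg_re,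
      Complex.neg_im, Complex.sub_re, Complex.sub_im] at b1 b2 b3 b4
    refine (Complex.norm_le_abs_re_add_abs_im w).trans ?_
    have c1 := abs_le.mp (le_refl |(curve z q t1).im|)
    have c2 := abs_le.mp (le_refl |(curve z q t2).re|)
    have c3 := abs_le.mp (le_refl |(curve z q t3).im|)
    have c4 := abs_le.mp (le_refl |(curve z q t4).re|)
    have n1 := abs_nonneg (curve z q t1).im
    have n2 := abs_nonneg (curve z q t2).re
    have n3 := abs_nonneg (curve z q t3).im
    have n4 := abs_nonneg (curve z q t4).re
    apply add_le_add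
    · rw [abs_le]; constructor <;> linarith
    · rw [abs_le]; constructor <;> linarith
  have hcomp : IsCompact (bodyOf z q) := Metric.isCompact_of_isClosed_isBounded hclosed hbdd
  have hint : (interior (bodyOf z q)).Nonempty := by
    refine ⟨(1/2 : ℝ) • curve z q 0 + (1/2 : ℝ) • curve z q (1/2), ?_⟩
    apply mem_interior_body h
    intro t
    have e : cross (ex (ang q t)) ((1/2 : ℝ) • curve z q 0 + (1/2 : ℝ) • curve z q (1/2) - curve z q t) =
        (1/2) * cross (ex (ang q t)) (curve z q 0 - curve z q t) +
        (1/2) * cross (ex (ang q t)) (curve z q (1/2) - curve z q t) := by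
      simp only [cross, Complex.sub_re, Complex.sub_im, Complex.add_re, Complex.add_im,
        Complex.real_smul, Complex.mul_re, Complex.mul_im, Complex.ofReal_re, Complex.ofReal_im]
      ring
    rw [e]
    have hp : Function.Periodic (curve z q) 1 := curve_per h z
    -- reduce t to [0,1)
    have hG0 := curve_left h z t 0
    have hG1 := curve_left h z t (1/2)
    -- one of the two is strict
    have hstrict : 0 < cross (ex (ang q t)) (curve z q 0 - curve z q t) ∨
        0 < cross (ex (ang q t)) (curve z q (1/2) - curve z q t) := by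
      by_contra hcon
      push Not at hcon
      have key : ∀ u, cross (ex (ang q t)) (curve z q u - curve z q t) ≤ 0 →
          curve z q u = curve z q t := by
        intro u hu
        obtain ⟨y, hy, hxy⟩ := hp.exists_mem_Ico one_pos u t
        rcases hy.1.eq_or_lt with h1 | h1
        · rw [hxy, ← h1]
        · have := curve_strict h z h1 hy.2
          rw [← hxy] at this
          linarith
      have k0 := key 0 hcon.1
      have k1 := key (1/2) hcon.2
      have := curve_inj h z 0 ⟨le_refl _, one_pos⟩ (1/2) ⟨by norm_num, by norm_num⟩ (k0.trans k1.symm)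
      norm_num at this
    rcases hstrict with h1 | h1
    · linarith
    · linarith
  refine ⟨hconv, hcomp, hint, ?_⟩
  apply Subset.antisymm
  · intro w hw
    rw [hclosed.frontier_eq, Set.mem_sdiff] at hw
    obtain ⟨hwK, hwI⟩ := hw
    have hex : ∃ t, cross (ex (ang q t)) (w - curve z q t) = 0 := by
      by_contra hcon
      push Not at hcon
      apply hwI
      apply mem_interior_body h
      intro t
      exact lt_of_le_of_ne (hwK t) (Ne.symm (hcon t))
    obtain ⟨t, ht⟩ := hex
    -- t is a minimum
    have hmin : IsLocalMin (fun t => cross (ex (ang q t)) (w - curve z q t)) t := by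
      apply Eventually.of_forall
      intro u
      simp only
      rw [ht]
      exact hwK u
    have hd : HasDerivAt (fun t => cross (ex (ang q t)) (w - curve z q t))
        (deriv (ang q) t * cross (Complex.I * ex (ang q t)) (w - curve z q t)) t := by
      have d1 := hasDerivAt_exang h t
      have d2 : HasDerivAt (fun t => w - curve z q t) (-(ex (ang q t))) t :=
        (hasDerivAt_curve h z t).const_sub w
      have r1 := Complex.reCLM.hasFDerivAt.comp_hasDerivAt t d1
      have i1 := Complex.imCLM.hasFDerivAt.comp_hasDerivAt t d1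
      have r2 := Complex.reCLM.hasFDerivAt.comp_hasDerivAt t d2
      have i2 := Complex.imCLM.hasFDerivAt.comp_hasDerivAt t d2
      have := (r1.mul i2).sub (i1.mul r2)
      convert! this using 1
      simp only [cross, Complex.reCLM_apply, Complex.imCLM_apply, Function.comp, Complex.mul_re,
        Complex.mul_im, Complex.I_re, Complex.I_im, Complex.ofReal_re, Complex.ofReal_im,
        Complex.neg_re, Complex.neg_im, Complex.sub_re, Complex.sub_im]
      ring
    have hz := hmin.hasDerivAt_eq_zero hd
    have hz2 : cross (Complex.I * ex (ang q t)) (w - curve z q t) = 0 := by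
      rcases mul_eq_zero.mp hz with h1 | h1
      · exact absurd h1 (ang_deriv_pos h t).ne'
      · exact h1
    refine ⟨t, ?_⟩
    simp only [cross, ex, Complex.mul_re, Complex.mul_im, Complex.I_re, Complex.I_im,
      Complex.exp_ofReal_mul_I_re, Complex.exp_ofReal_mul_I_im, Complex.sub_re, Complex.sub_im] at ht hz2
    have hs := Real.sin_sq_add_cos_sq (ang q t)
    set c := Real.cos (ang q t)
    set s := Real.sin (ang q t)
    set X := w.re - (curve z q t).re with hX
    set Y := w.im - (curve z q t).im with hY
    have f1 : c * Y - s * X = 0 := by linarith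
    have f2 : -s * Y - c * X = 0 := by linarith
    have hX0 : X = 0 := by linear_combination (-s) * f1 - c * f2 - X * hs
    have hY0 : Y = 0 := by linear_combination c * f1 - s * f2 - Y * hs
    apply Complex.ext
    · linarith
    · linarith
  · rintro _ ⟨t, rfl⟩
    rw [hclosed.frontier_eq, Set.mem_sdiff]
    refine ⟨hmem t, ?_⟩
    intro hI
    rw [mem_interior_iff_mem_nhds, Metric.mem_nhds_iff] at hI
    obtain ⟨ε, hε, hb⟩ := hI
    have hz : curve z q t - ((ε / 2 : ℝ) : ℂ) * (Complex.I * ex (ang q t)) ∈ bodyOf z q := by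
      apply hb
      rw [Metric.mem_ball, dist_eq_norm]
      have : curve z q t - ((ε / 2 : ℝ) : ℂ) * (Complex.I * ex (ang q t)) - curve z q t =
          -(((ε / 2 : ℝ) : ℂ) * (Complex.I * ex (ang q t))) := by ring
      rw [this, norm_neg, norm_mul, norm_mul, Complex.norm_I, norm_ex, Complex.norm_real,
        Real.norm_of_nonneg (by positivity)]
      linarith
    have h1 := hz t
    have h2 : cross (ex (ang q t))
        (curve z q t - ((ε / 2 : ℝ) : ℂ) * (Complex.I * ex (ang q t)) - curve z q t) = -(ε / 2) := by
      simp only [cross, ex, Complex.mul_re, Complex.mul_im, Complex.I_re, Complex.I_im,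
        Complex.exp_ofReal_mul_I_re, Complex.exp_ofReal_mul_I_im, Complex.sub_re, Complex.sub_im,
        Complex.ofReal_re, Complex.ofReal_im]
      have hs := Real.sin_sq_add_cos_sq (ang q t)
      linear_combination (-(ε / 2)) * hs
    rw [h2] at h1
    linarith

end Pool.Agent.V11221.Bil
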