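import Pool.Agent.V11221.BilG

namespace Pool.Agent.V11221.Bil

open MeasureTheory Set Filter Topology
open scoped ENNReal NNReal ContDiff

variable {q0 q1 : ℝ → ℝ}

/-- the smooth step function -/
noncomputable abbrev σ (s : ℝ) : ℝ := Real.smoothTransition s

lemma σ_contDiff : ContDiff ℝ ∞ σ := Real.smoothTransition.contDiff

/-- interpolation of arclength-angle functions -/
noncomputable def qs (q0 q1 : ℝ → ℝ) (s : ℝ) (x : ℝ) : ℝ := (1 - σ s) * q0 x + σ s * q1 x

lemma table_qs (h0 : Table q0) (h1 : Table q1) (s : ℝ) : Table (qs q0 q1 s) :=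
  h0.convex h1 (by linarith [Real.smoothTransition.le_one s]) (Real.smoothTransition.nonneg s) (by ring)

lemma W_qs (h0 : Table q0) (h1 : Table q1) (s x : ℝ) :
    W (qs q0 q1 s) x = (1 - σ s : ℝ) * W q0 x + (σ s : ℂ) * W q1 x := by
  unfold W qs
  have e1 : ∀ y, ex y * (((1 - σ s) * q0 y + σ s * q1 y : ℝ) : ℂ) =
      ((1 - σ s : ℝ):ℂ) * (ex y * (q0 y : ℂ)) + (σ s:ℂ) * (ex y * (q1 y : ℂ)) := by
    intro y; push_cast; ring
  simp_rw [e1]
  rw [intervalIntegral.integral_add, intervalIntegral.integral_const_mul,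
      intervalIntegral.integral_const_mul]
  · ring
  · exact (continuous_const.mul h0.contEx).intervalIntegrable _ _
  · exact (continuous_const.mul h1.contEx).intervalIntegrable _ _

/-- the homotopy -/
noncomputable def Hom (z : ℂ) (q0 q1 : ℝ → ℝ) (s t : ℝ) : ℂ := curve z (qs q0 q1 s) t

lemma Hom_zero (z : ℂ) : Hom z q0 q1 0 = curve z q0 := by
  have : qs q0 q1 0 = q0 := by
    funext x; simp [qs, Real.smoothTransition.zero]
  funext t
  unfold Hom; rw [this]

lemma Hom_one (z : ℂ) : Hom z q0 q1 1 = curve z q1 := by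
  have : qs q0 q1 1 = q1 := by
    funext x; simp [qs, Real.smoothTransition.one]
  funext t
  unfold Hom; rw [this]

/-- existence of a jointly smooth tangent angle -/
lemma exists_theta (h0 : Table q0) (h1 : Table q1) :
    ∃ ϑ : ℝ × ℝ → ℝ, ContDiff ℝ ∞ ϑ ∧ ∀ s t, ang (qs q0 q1 s) t = ϑ (s, t) := by
  have hF : ContDiff ℝ ∞ (fun p : ℝ × ℝ => qs q0 q1 p.1 p.2) := by
    unfold qs
    have a1 : ContDiff ℝ ∞ (fun p : ℝ × ℝ => σ p.1) := σ_contDiff.comp contDiff_fst
    have a2 : ContDiff ℝ ∞ (fun p : ℝ × ℝ => q0 p.2) := h0.smooth.comp contDiff_snd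
    have a3 : ContDiff ℝ ∞ (fun p : ℝ × ℝ => q1 p.2) := h1.smooth.comp contDiff_snd
    exact ((contDiff_const.sub a1).mul a2).add (a1.mul a3)
  obtain ⟨ϑ, k1, k2, k3⟩ := joint_inverse hF (fun s x => (table_qs h0 h1 s).pos x)
    (fun s t => (table_qs h0 h1 s).surj t)
  refine ⟨ϑ, k1, fun s t => ?_⟩
  apply (table_qs h0 h1 s).strictMono.injective
  rw [(table_qs h0 h1 s).q_ang]
  exact (k2 s t).symm

lemma Hom_contDiff (z : ℂ) (h0 : Table q0) (h1 : Table q1) :
    ContDiff ℝ ∞ (fun p : ℝ × ℝ => Hom z q0 q1 p.1 p.2) := by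
  obtain ⟨ϑ, k1, k2⟩ := exists_theta h0 h1
  have e : (fun p : ℝ × ℝ => Hom z q0 q1 p.1 p.2) = fun p : ℝ × ℝ =>
      z + (((1 - σ p.1 : ℝ) : ℂ) * W q0 (ϑ p) + (σ p.1 : ℂ) * W q1 (ϑ p)) -
        (((1 - σ p.1 : ℝ) : ℂ) * W q0 (ϑ (p.1, 0)) + (σ p.1 : ℂ) * W q1 (ϑ (p.1, 0))) := by
    funext p
    unfold Hom curve
    rw [W_qs h0 h1, W_qs h0 h1, k2, k2]
  rw [e]
  have a1 : ContDiff ℝ ∞ (fun p : ℝ × ℝ => (σ p.1 : ℂ)) :=
    Complex.ofRealCLM.contDiff.comp (σ_contDiff.comp contDiff_fst)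
  have a2 : ContDiff ℝ ∞ (fun p : ℝ × ℝ => ((1 - σ p.1 : ℝ) : ℂ)) :=
    Complex.ofRealCLM.contDiff.comp (contDiff_const.sub (σ_contDiff.comp contDiff_fst))
  have b1 : ContDiff ℝ ∞ (fun p : ℝ × ℝ => ϑ (p.1, 0)) := k1.comp (contDiff_fst.prodMk contDiff_const)
  exact (contDiff_const.add ((a2.mul (h0.contDiff_W.comp k1)).add (a1.mul (h1.contDiff_W.comp k1)))).sub
    ((a2.mul (h0.contDiff_W.comp b1)).add (a1.mul (h1.contDiff_W.comp b1)))

lemma deriv_core (h0 : Table q0) (h1 : Table q1) {x : ℝ → ℝ} {x' s t : ℝ}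
    (hx : HasDerivAt x x' s) (hc : ∀ s, qs q0 q1 s (x s) = t) :
    HasDerivAt (fun s => ((1 - σ s : ℝ) : ℂ) * W q0 (x s) + (σ s : ℂ) * W q1 (x s))
      (-Complex.I * (deriv σ s : ℝ) * ∫ y in (0:ℝ)..(x s), ex y * ((q1 y - q0 y : ℝ) : ℂ)) s := by
  have hσ : HasDerivAt σ (deriv σ s) s := (σ_contDiff.differentiable (by simp) s).hasDerivAt
  have hσ' : HasDerivAt (fun s => 1 - σ s) (-(deriv σ s)) s := hσ.const_sub 1
  have c0 : HasDerivAt (fun s => q0 (x s)) (deriv q0 (x s) * x') s :=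
    (h0.diff (x s)).hasDerivAt.comp s hx
  have c1 : HasDerivAt (fun s => q1 (x s)) (deriv q1 (x s) * x') s :=
    (h1.diff (x s)).hasDerivAt.comp s hx
  have hcon : -(deriv σ s) * q0 (x s) + (1 - σ s) * (deriv q0 (x s) * x') +
      (deriv σ s * q1 (x s) + σ s * (deriv q1 (x s) * x')) = 0 := by
    have d1 := (hσ'.mul c0).add (hσ.mul c1)
    have d2 : HasDerivAt (fun _ : ℝ => t) 0 s := hasDerivAt_const s t
    have d3 : (fun s => (1 - σ s) * q0 (x s) + σ s * q1 (x s)) = fun _ => t := funext hc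
    have d1' : HasDerivAt (fun s => (1 - σ s) * q0 (x s) + σ s * q1 (x s)) _ s := d1
    rw [d3] at d1'
    exact d1'.unique d2
  have w0 : HasDerivAt (fun s => W q0 (x s)) ((x' : ℝ) • (ex (x s) * ((deriv q0 (x s) : ℝ) : ℂ))) s :=
    (h0.hasDerivAt_W (x s)).scomp s hx
  have w1 : HasDerivAt (fun s => W q1 (x s)) ((x' : ℝ) • (ex (x s) * ((deriv q1 (x s) : ℝ) : ℂ))) s :=
    (h1.hasDerivAt_W (x s)).scomp s hx
  have m := ((hσ'.ofReal_comp).mul w0).add ((hσ.ofReal_comp).mul w1)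
  convert! m using 1
  have hcon' : -((deriv σ s : ℝ) : ℂ) * (q0 (x s) : ℂ) + (1 - (σ s : ℂ)) * (((deriv q0 (x s) : ℝ) : ℂ) * (x' : ℂ)) +
      (((deriv σ s : ℝ) : ℂ) * (q1 (x s) : ℂ) + (σ s : ℂ) * (((deriv q1 (x s) : ℝ) : ℂ) * (x' : ℂ))) = 0 := by
    exact_mod_cast hcon
  have e1 : ∫ y in (0:ℝ)..(x s), ex y * ((q1 y - q0 y : ℝ) : ℂ) =
      (∫ y in (0:ℝ)..(x s), ex y * (q1 y : ℂ)) - ∫ y in (0:ℝ)..(x s), ex y * (q0 y : ℂ) := by
    rw [← intervalIntegral.integral_sub (h1.contEx.intervalIntegrable _ _)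
      (h0.contEx.intervalIntegrable _ _)]
    apply intervalIntegral.integral_congr
    intro y _
    simp only
    push_cast; ring
  rw [e1]
  unfold W
  simp only [Complex.real_smul]
  push_cast
  linear_combination (-ex (x s)) * hcon'

lemma hasDerivAt_Hom (z : ℂ) (h0 : Table q0) (h1 : Table q1) (s t : ℝ) :
    HasDerivAt (fun s => Hom z q0 q1 s t)
      (-Complex.I * (deriv σ s : ℝ) * ∫ y in (ang (qs q0 q1 s) 0)..(ang (qs q0 q1 s) t),
        ex y * ((q1 y - q0 y : ℝ) : ℂ)) s := by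
  obtain ⟨ϑ, k1, k2⟩ := exists_theta h0 h1
  have hd : ∀ t, DifferentiableAt ℝ (fun s => ang (qs q0 q1 s) t) s := by
    intro t
    have e : (fun s => ang (qs q0 q1 s) t) = fun s => ϑ (s, t) := funext fun s => k2 s t
    rw [e]
    have : ContDiff ℝ ∞ (fun s => ϑ (s, t)) := k1.comp (contDiff_id.prodMk contDiff_const)
    exact this.differentiable (by simp) s
  have A1 := deriv_core h0 h1 (hd t).hasDerivAt (fun s => (table_qs h0 h1 s).q_ang t)
  have A2 := deriv_core h0 h1 (hd 0).hasDerivAt (fun s => (table_qs h0 h1 s).q_ang 0)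
  have e : (fun s => Hom z q0 q1 s t) = fun s =>
      z + (((1 - σ s : ℝ) : ℂ) * W q0 (ang (qs q0 q1 s) t) + (σ s : ℂ) * W q1 (ang (qs q0 q1 s) t)) -
        (((1 - σ s : ℝ) : ℂ) * W q0 (ang (qs q0 q1 s) 0) + (σ s : ℂ) * W q1 (ang (qs q0 q1 s) 0)) := by
    funext s
    unfold Hom curve
    rw [W_qs h0 h1, W_qs h0 h1]
  rw [e]
  convert! (A1.const_add z).sub A2 using 1
  have hc : Continuous (fun y => ex y * ((q1 y - q0 y : ℝ) : ℂ)) :=
    continuous_ex.mul (Complex.continuous_ofReal.comp (h1.cont.sub h0.cont))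
  have e1 := intervalIntegral.integral_interval_sub_left (hc.intervalIntegrable (μ := volume) 0 (ang (qs q0 q1 s) t))
    (hc.intervalIntegrable 0 (ang (qs q0 q1 s) 0))
  rw [← e1]
  ring

lemma int_le_period {f : ℝ → ℝ} (hf : Continuous f) (hnn : ∀ x, 0 ≤ f x)
    (hper : Function.Periodic f (2 * Real.pi)) {a b : ℝ} (hab : a ≤ b) (hb : b ≤ a + 2 * Real.pi) :
    ∫ x in a..b, f x ≤ ∫ x in (0:ℝ)..(2 * Real.pi), f x := by
  have h1 : ∫ x in a..b, f x ≤ ∫ x in a..(a + 2 * Real.pi), f x :=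
    intervalIntegral.integral_mono_interval (le_refl _) hab hb
      (Eventually.of_forall hnn) (hf.intervalIntegrable _ _)
  have h2 := hper.intervalIntegral_add_eq a 0
  rw [zero_add] at h2
  rw [← h2]; exact h1

lemma deriv_Hom_bound (z : ℂ) (h0 : Table q0) (h1 : Table q1) (s t : ℝ) :
    ‖deriv (fun s => Hom z q0 q1 s t) s‖ ≤ |deriv σ s| * ∫ x in (0:ℝ)..(2 * Real.pi), |q1 x - q0 x| := by
  have hpi := Real.pi_pos
  have hper : Function.Periodic (fun t : ℝ => fun s : ℝ => Hom z q0 q1 s t) 1 := by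
    intro t
    funext s
    exact curve_per (table_qs h0 h1 s) z t
  obtain ⟨y, hy, hty⟩ := hper.exists_mem_Ico₀ one_pos t
  have hty' : (fun s => Hom z q0 q1 s t) = (fun s => Hom z q0 q1 s y) := hty
  rw [hty', (hasDerivAt_Hom z h0 h1 s y).deriv]
  rw [norm_mul, norm_mul, norm_neg, Complex.norm_I, one_mul, Complex.norm_real, Real.norm_eq_abs]
  apply mul_le_mul_of_nonneg_left _ (abs_nonneg _)
  have hT := table_qs h0 h1 s
  have hle : ang (qs q0 q1 s) 0 ≤ ang (qs q0 q1 s) y := hT.ang_strictMono.monotone hy.1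
  have hle2 : ang (qs q0 q1 s) y ≤ ang (qs q0 q1 s) 0 + 2 * Real.pi := by
    rw [← hT.ang_per]
    apply hT.ang_strictMono.monotone
    linarith [hy.2]
  calc ‖∫ y in (ang (qs q0 q1 s) 0)..(ang (qs q0 q1 s) y), ex y * ((q1 y - q0 y : ℝ) : ℂ)‖
      ≤ ∫ y in (ang (qs q0 q1 s) 0)..(ang (qs q0 q1 s) y), ‖ex y * ((q1 y - q0 y : ℝ) : ℂ)‖ :=
        intervalIntegral.norm_integral_le_integral_norm hle
    _ = ∫ y in (ang (qs q0 q1 s) 0)..(ang (qs q0 q1 s) y), |q1 y - q0 y| := by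
        apply intervalIntegral.integral_congr
        intro x _
        simp only
        rw [norm_mul, norm_ex, one_mul, Complex.norm_real, Real.norm_eq_abs]
    _ ≤ _ := by
        apply int_le_period _ (fun x => abs_nonneg _) _ hle hle2
        · exact (h1.cont.sub h0.cont).abs
        · intro x
          simp only
          rw [h0.per, h1.per]
          congr 1
          ring

lemma exists_σ_bound : ∃ c : ℝ, 0 < c ∧ ∀ s ∈ Icc (0:ℝ) 1, |deriv σ s| ≤ c := by
  have hc : Continuous (deriv σ) := σ_contDiff.continuous_deriv (by simp)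
  obtain ⟨c, hc⟩ := (isCompact_Icc (a := (0:ℝ)) (b := 1)).exists_bound_of_continuousOn hc.continuousOn
  refine ⟨max c 1, by positivity, fun s hs => ?_⟩
  exact (hc s hs).trans (le_max_left _ _)

/-! ### comparison with the limit curve -/

lemma ang_close {Θ Q q : ℝ → ℝ} (hp : Pair Θ Q) (hq : Table q) (hlt : ∀ x, |q x - Q x| < 2) (t : ℝ) :
    ang q t ≤ Θ t + 4 * Real.pi ∧ Θ t ≤ ang q t + 4 * Real.pi := by
  have hpi := Real.pi_pos
  constructor
  · by_contra hcon
    push Not at hcon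
    obtain ⟨x, hx1, hx2⟩ := exists_between (show Θ t < ang q t - 4 * Real.pi by linarith)
    have h1 := hp.ge t x hx1
    have h2 : q (x + 2 * Real.pi + 2 * Real.pi) < q (ang q t) := hq.strictMono (by linarith)
    rw [hq.per, hq.per, hq.q_ang] at h2
    have h3 := (abs_lt.mp (hlt x)).1
    linarith
  · by_contra hcon
    push Not at hcon
    obtain ⟨x, hx1, hx2⟩ := exists_between (show ang q t < Θ t - 4 * Real.pi by linarith)
    have h1 : q (ang q t) < q x := hq.strictMono hx1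
    rw [hq.q_ang] at h1
    have h2 := hp.le t (x + 2 * Real.pi + 2 * Real.pi) (by linarith)
    rw [hp.perQ, hp.perQ] at h2
    have h3 := (abs_lt.mp (hlt x)).2
    linarith

lemma diff_integrable {Q q : ℝ → ℝ} (hQ : Monotone Q) (hq : Table q) (a b : ℝ) :
    IntervalIntegrable (fun x => |q x - Q x|) volume a b := by
  have h1 : IntervalIntegrable q volume a b := hq.cont.intervalIntegrable _ _
  have h2 : IntervalIntegrable Q volume a b := (hQ.monotoneOn (uIcc a b)).intervalIntegrable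
  exact (h1.sub h2).abs

lemma int_two_periods {Θ Q q : ℝ → ℝ} (hp : Pair Θ Q) (hq : Table q) {a b : ℝ} (hab : a ≤ b)
    (hb : b ≤ a + 4 * Real.pi) :
    ∫ x in a..b, |q x - Q x| ≤ 2 * ∫ x in (0:ℝ)..(2 * Real.pi), |q x - Q x| := by
  have hi := fun a b => diff_integrable hp.monoQ hq a b
  have hper : Function.Periodic (fun x => |q x - Q x|) (2 * Real.pi) := by
    intro x
    simp only
    rw [hq.per, hp.perQ]; congr 1; ring
  have h1 : ∫ x in a..b, |q x - Q x| ≤ ∫ x in a..(a + 4 * Real.pi), |q x - Q x| :=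
    intervalIntegral.integral_mono_interval (le_refl _) hab hb
      (Eventually.of_forall fun x => abs_nonneg _) (hi _ _)
  have h2 := hper.intervalIntegral_add_eq a 0
  have h3 := hper.intervalIntegral_add_eq (a + 2 * Real.pi) 0
  rw [zero_add] at h2 h3
  have h4 := intervalIntegral.integral_add_adjacent_intervals (hi a (a + 2 * Real.pi))
    (hi (a + 2 * Real.pi) (a + 2 * Real.pi + 2 * Real.pi))
  have h5 : a + 2 * Real.pi + 2 * Real.pi = a + 4 * Real.pi := by ring
  rw [h5] at h4 h3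
  linarith

lemma corner_bound {Θ Q q : ℝ → ℝ} (hp : Pair Θ Q) (hq : Table q) (hlt : ∀ x, |q x - Q x| < 2) (t : ℝ) :
    ‖∫ x in (Θ t)..(ang q t), Complex.I * ex x * ((t - q x : ℝ) : ℂ)‖ ≤
      2 * ∫ x in (0:ℝ)..(2 * Real.pi), |q x - Q x| := by
  have hcl := ang_close hp hq hlt t
  have hae : ∀ᵐ x, x ≠ Θ t := by simp [ae_iff, measure_singleton]
  have hae2 : ∀ᵐ x, x ≠ ang q t := by simp [ae_iff, measure_singleton]
  have hb : ∀ᵐ x ∂(volume.restrict (uIoc (Θ t) (ang q t))),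
      ‖Complex.I * ex x * ((t - q x : ℝ) : ℂ)‖ ≤ |q x - Q x| := by
    rw [ae_restrict_iff' measurableSet_uIoc]
    filter_upwards [hae, hae2] with x hx hx2 hmem
    rw [norm_mul, norm_mul, Complex.norm_I, norm_ex, one_mul, one_mul, Complex.norm_real,
      Real.norm_eq_abs]
    rcases le_total (Θ t) (ang q t) with hle | hle
    · rw [uIoc_of_le hle] at hmem
      have h1 := hp.ge t x hmem.1
      have h2 : q x ≤ t := by
        have := hq.strictMono.monotone hmem.2
        rwa [hq.q_ang] at this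
      rw [abs_of_nonneg (by linarith : 0 ≤ t - q x)]
      have := neg_abs_le (q x - Q x)
      linarith
    · rw [uIoc_of_ge hle] at hmem
      have h1 := hp.le t x (lt_of_le_of_ne hmem.2 hx)
      have h2 : t ≤ q x := by
        have := hq.strictMono.monotone hmem.1.le
        rwa [hq.q_ang] at this
      rw [abs_of_nonpos (by linarith : t - q x ≤ 0)]
      have := le_abs_self (q x - Q x)
      linarith
  have h1 := intervalIntegral.norm_integral_le_abs_of_norm_le hb (diff_integrable hp.monoQ hq _ _)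
  refine h1.trans ?_
  rcases le_total (Θ t) (ang q t) with hle | hle
  · rw [abs_of_nonneg (intervalIntegral.integral_nonneg hle (fun x _ => abs_nonneg _))]
    exact int_two_periods hp hq hle hcl.1
  · rw [intervalIntegral.integral_symm, abs_neg,
      abs_of_nonneg (intervalIntegral.integral_nonneg hle (fun x _ => abs_nonneg _))]
    exact int_two_periods hp hq hle hcl.2

lemma compare {Θ Q q : ℝ → ℝ} (hp : Pair Θ Q) (hq : Table q) (hlt : ∀ x, |q x - Q x| < 2)
    (z : ℂ) {t : ℝ} (ht0 : 0 ≤ t) (ht1 : t ≤ 1) :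
    ‖curve z q t - (z + ∫ u in (0:ℝ)..t, ex (Θ u))‖ ≤ 6 * ∫ x in (0:ℝ)..(2 * Real.pi), |q x - Q x| := by
  have hpi := Real.pi_pos
  rw [hp.integral ht0, hq.curve_integral z]
  have hQi := fun a b => intervalIntegrable_mono_mul hp.monoQ a b
  have hqi : ∀ a b : ℝ, IntervalIntegrable (fun x => ex x * (q x : ℂ)) volume a b :=
    fun a b => hq.contEx.intervalIntegrable _ _
  have corner : ∀ t : ℝ, ∫ x in (Θ t)..(ang q t), Complex.I * ex x * ((t - q x : ℝ) : ℂ) =
      t * (ex (ang q t) - ex (Θ t)) - Complex.I * ∫ x in (Θ t)..(ang q t), ex x * (q x : ℂ) := by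
    intro t
    rw [← intEx, ← intervalIntegral.integral_const_mul, ← intervalIntegral.integral_const_mul,
      ← intervalIntegral.integral_sub]
    · apply intervalIntegral.integral_congr
      intro x _
      simp only
      push_cast; ring
    · exact (continuous_const.mul (continuous_const.mul continuous_ex)).intervalIntegrable _ _
    · exact (hqi _ _).const_mul _
  have c1 := corner_bound hp hq hlt t
  have c0 := corner_bound hp hq hlt 0
  rw [corner t] at c1
  rw [corner 0] at c0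
  have hΘle : Θ 0 ≤ Θ t := hp.monoΘ ht0
  have hΘle2 : Θ t ≤ Θ 0 + 2 * Real.pi := by
    rw [← hp.perΘ]
    apply hp.monoΘ
    linarith
  have mid : ‖∫ x in (Θ 0)..(Θ t), ex x * ((q x - Q x : ℝ) : ℂ)‖ ≤
      2 * ∫ x in (0:ℝ)..(2 * Real.pi), |q x - Q x| := by
    calc ‖∫ x in (Θ 0)..(Θ t), ex x * ((q x - Q x : ℝ) : ℂ)‖
        ≤ ∫ x in (Θ 0)..(Θ t), ‖ex x * ((q x - Q x : ℝ) : ℂ)‖ :=
          intervalIntegral.norm_integral_le_integral_norm hΘle
      _ = ∫ x in (Θ 0)..(Θ t), |q x - Q x| := by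
          apply intervalIntegral.integral_congr
          intro x _
          simp only
          rw [norm_mul, norm_ex, one_mul, Complex.norm_real, Real.norm_eq_abs]
      _ ≤ _ := int_two_periods hp hq hΘle (by linarith)
  have e1 : ∫ x in (Θ 0)..(Θ t), ex x * ((q x - Q x : ℝ) : ℂ) =
      (∫ x in (Θ 0)..(Θ t), ex x * (q x : ℂ)) - ∫ x in (Θ 0)..(Θ t), ex x * (Q x : ℂ) := by
    rw [← intervalIntegral.integral_sub (hqi _ _) (hQi _ _)]
    apply intervalIntegral.integral_congr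
    intro x _
    simp only
    push_cast; ring
  have e2 : ∫ x in (ang q 0)..(ang q t), ex x * (q x : ℂ) =
      (∫ x in (Θ 0)..(Θ t), ex x * (q x : ℂ)) + (∫ x in (Θ t)..(ang q t), ex x * (q x : ℂ))
      - ∫ x in (Θ 0)..(ang q 0), ex x * (q x : ℂ) := by
    have f1 := intervalIntegral.integral_add_adjacent_intervals (hqi (Θ 0) (Θ t)) (hqi (Θ t) (ang q t))
    have f2 := intervalIntegral.integral_add_adjacent_intervals (hqi (Θ 0) (ang q 0)) (hqi (ang q 0) (ang q t))
    linear_combination f2 - f1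
  set A := (t : ℂ) * (ex (ang q t) - ex (Θ t)) - Complex.I * ∫ x in (Θ t)..(ang q t), ex x * (q x : ℂ) with hA
  set B := ((0:ℝ) : ℂ) * (ex (ang q 0) - ex (Θ 0)) - Complex.I * ∫ x in (Θ 0)..(ang q 0), ex x * (q x : ℂ) with hB
  set M := ∫ x in (Θ 0)..(Θ t), ex x * ((q x - Q x : ℝ) : ℂ) with hM
  have hfin : z + (t * ex (ang q t) - Complex.I * ∫ x in (ang q 0)..(ang q t), ex x * (q x : ℂ)) -
      (z + (t * ex (Θ t) - Complex.I * ∫ x in (Θ 0)..(Θ t), ex x * (Q x : ℂ))) = A - B - Complex.I * M := by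
    rw [hA, hB, e2, e1]
    push_cast
    ring
  rw [hfin]
  calc ‖A - B - Complex.I * M‖ ≤ ‖A - B‖ + ‖Complex.I * M‖ := norm_sub_le _ _
    _ ≤ (‖A‖ + ‖B‖) + ‖M‖ := by
        apply add_le_add (norm_sub_le _ _)
        rw [norm_mul, Complex.norm_I, one_mul]
    _ ≤ _ := by linarith

end Pool.Agent.V11221.Bil
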