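import Pool.Agent.V11221.BilC
import Pool.Agent.V11221.BilH

namespace Pool.Agent.V11221.Bil

open MeasureTheory Set Filter Topology
open scoped ENNReal NNReal ContDiff

variable {C : ℝ → ℂ}

lemma lip_of_var (hv : ∀ a b, a ≤ b → eVariationOn C (Icc a b) = ENNReal.ofReal (b - a)) :
    LipschitzWith 1 C := by
  have key : ∀ a b, a ≤ b → edist (C a) (C b) ≤ edist a b := by
    intro a b hab
    have h1 := eVariationOn.edist_le C (s := Icc a b) (left_mem_Icc.mpr hab) (right_mem_Icc.mpr hab)
    rw [hv a b hab] at h1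
    refine h1.trans ?_
    rw [edist_comm, edist_dist, Real.dist_eq]
    exact ENNReal.ofReal_le_ofReal (le_abs_self _)
  intro a b
  rw [ENNReal.coe_one, one_mul]
  rcases le_total a b with h | h
  · exact key a b h
  · rw [edist_comm (C a), edist_comm a]
    exact key b a h

lemma unit_of_var (hv : ∀ a b, a ≤ b → eVariationOn C (Icc a b) = ENNReal.ofReal (b - a)) :
    ∀ᵐ t, ‖deriv C t‖ = 1 := by
  have hlip := lip_of_var hv
  have hT : ∀ t, ‖deriv C t‖ ≤ 1 := norm_deriv_le_one hlip
  have hm : Measurable (deriv C) := measurable_deriv C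
  have hLI : LocallyIntegrable (deriv C) volume := locInt_of_bdd zero_le_one hT hm
  have hint : ∀ a b : ℝ, IntervalIntegrable (deriv C) volume a b := fun a b =>
    intervalIntegrable_iff.mpr <|
      (hLI.integrableOn_isCompact isCompact_uIcc).mono_set uIoc_subset_uIcc
  have hintn : ∀ a b : ℝ, IntervalIntegrable (fun t => ‖deriv C t‖) volume a b := fun a b => (hint a b).norm
  have hle : ∀ a b, a ≤ b → b - a ≤ ∫ t in a..b, ‖deriv C t‖ := by
    intro a b hab
    have h1 : eVariationOn C (Icc a b) ≤ ENNReal.ofReal (∫ t in a..b, ‖deriv C t‖) := by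
      unfold eVariationOn
      apply iSup_le
      rintro ⟨n, u, hu, hus⟩
      simp only
      have hstep : ∀ i, edist (C (u (i+1))) (C (u i)) ≤ ENNReal.ofReal (∫ t in (u i)..(u (i+1)), ‖deriv C t‖) := by
        intro i
        rw [edist_dist, dist_eq_norm]
        apply ENNReal.ofReal_le_ofReal
        rw [← ftc_lip hlip]
        exact intervalIntegral.norm_integral_le_integral_norm (hu (Nat.le_succ i))
      calc ∑ i ∈ Finset.range n, edist (C (u (i+1))) (C (u i))
          ≤ ∑ i ∈ Finset.range n, ENNReal.ofReal (∫ t in (u i)..(u (i+1)), ‖deriv C t‖) :=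
            Finset.sum_le_sum (fun i _ => hstep i)
        _ = ENNReal.ofReal (∑ i ∈ Finset.range n, ∫ t in (u i)..(u (i+1)), ‖deriv C t‖) := by
            rw [ENNReal.ofReal_sum_of_nonneg]
            intro i _
            exact intervalIntegral.integral_nonneg (hu (Nat.le_succ i)) (fun t _ => norm_nonneg _)
        _ = ENNReal.ofReal (∫ t in (u 0)..(u n), ‖deriv C t‖) := by
            rw [intervalIntegral.sum_integral_adjacent_intervals (fun i _ => hintn _ _)]
        _ ≤ _ := by
            apply ENNReal.ofReal_le_ofReal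
            exact intervalIntegral.integral_mono_interval (hus 0).1 (hu (Nat.zero_le n)) (hus n).2
              (Eventually.of_forall fun t => norm_nonneg _) (hintn _ _)
    rw [hv a b hab] at h1
    have h2 : 0 ≤ ∫ t in a..b, ‖deriv C t‖ :=
      intervalIntegral.integral_nonneg hab (fun t _ => norm_nonneg _)
    exact (ENNReal.ofReal_le_ofReal_iff h2).mp h1
  have hn : ∀ n : ℕ, ∀ᵐ t, t ∈ Ioc (-(n:ℝ)) n → ‖deriv C t‖ = 1 := by
    intro n
    have hab : -(n:ℝ) ≤ n := by
      have : (0:ℝ) ≤ n := Nat.cast_nonneg n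
      linarith
    have h1 : ∫ t in (-(n:ℝ))..n, (1 - ‖deriv C t‖) = 0 := by
      apply le_antisymm
      · rw [intervalIntegral.integral_sub intervalIntegrable_const (hintn _ _),
          intervalIntegral.integral_const]
        have := hle _ _ hab
        simp only [smul_eq_mul, mul_one]
        linarith
      · exact intervalIntegral.integral_nonneg hab (fun t _ => by linarith [hT t])
    rw [intervalIntegral.integral_of_le hab] at h1
    have h2 : IntegrableOn (fun t => 1 - ‖deriv C t‖) (Ioc (-(n:ℝ)) n) := by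
      have := (intervalIntegrable_const (c := (1:ℝ)) (μ := volume)).sub (hintn (-(n:ℝ)) n)
      rw [intervalIntegrable_iff_integrableOn_Ioc_of_le hab] at this
      exact this
    have h3 := (integral_eq_zero_iff_of_nonneg_ae
      (Eventually.of_forall (fun t => by show (0:ℝ) ≤ 1 - ‖deriv C t‖; linarith [hT t])) h2).mp h1
    have h4 : ∀ᵐ t ∂(volume.restrict (Ioc (-(n:ℝ)) n)), 1 - ‖deriv C t‖ = 0 := h3
    rw [ae_restrict_iff' measurableSet_Ioc] at h4
    filter_upwards [h4] with t ht hmem
    linarith [ht hmem]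
  rw [← ae_all_iff] at hn
  filter_upwards [hn] with t ht
  obtain ⟨n, hnt⟩ := exists_nat_gt |t|
  have := abs_lt.mp hnt
  exact ht n ⟨this.1, this.2.le⟩

lemma closed_of_closed {Θ Q : ℝ → ℝ} (hp : Pair Θ Q) (h0 : ∫ u in (0:ℝ)..1, ex (Θ u) = 0) :
    ∀ x, ∫ y in x..(x + 2 * Real.pi), ex y * (Q y : ℂ) = - Complex.I * ex x := by
  have h1 := hp.integral (zero_le_one)
  rw [h0] at h1
  have h2 : Θ 1 = Θ 0 + 2 * Real.pi := by
    have := hp.perΘ 0
    rwa [zero_add] at this
  rw [h2, ex_add_two_pi] at h1
  have hI : Complex.I * Complex.I = -1 := Complex.I_mul_I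
  have h3 : ∫ y in (Θ 0)..(Θ 0 + 2 * Real.pi), ex y * (Q y : ℂ) = - Complex.I * ex (Θ 0) := by
    set J := ∫ y in (Θ 0)..(Θ 0 + 2 * Real.pi), ex y * (Q y : ℂ) with hJ
    push_cast at h1
    linear_combination (-Complex.I) * h1 + J * hI
  intro x
  have hper : Function.Periodic (fun y => ex y * (Q y : ℂ) - ex y * (((y / (2 * Real.pi) : ℝ)) : ℂ))
      (2 * Real.pi) := by
    intro y
    have hpi := Real.pi_pos
    simp only
    rw [ex_add_two_pi, hp.perQ]
    have : ((y + 2 * Real.pi) / (2 * Real.pi) : ℝ) = y / (2 * Real.pi) + 1 := by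
      field_simp
    rw [this]
    push_cast
    ring
  have hQi := fun a b => intervalIntegrable_mono_mul hp.monoQ a b
  have hLi : ∀ a b : ℝ, IntervalIntegrable (fun y => ex y * (((y / (2 * Real.pi) : ℝ)) : ℂ)) volume a b := by
    intro a b
    apply Continuous.intervalIntegrable
    exact continuous_ex.mul (Complex.continuous_ofReal.comp (by fun_prop))
  have e := hper.intervalIntegral_add_eq x (Θ 0)
  rw [intervalIntegral.integral_sub (hQi _ _) (hLi _ _),
    intervalIntegral.integral_sub (hQi _ _) (hLi _ _), intExLin, intExLin, h3] at e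
  linear_combination e

end Pool.Agent.V11221.Bil
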