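import Pool.Agent.V11221.PyrA

/-!
Metric measure spaces (not necessarily of full support), mm-isomorphism, the observable distance
and the concentration topology.
-/

open MeasureTheory Set Filter Topology ProbabilityTheory

namespace Pool.Agent.V11221.Con

open Pool.Agent.V11221.Pyr (I01 leb exists_param)

/-- An mm-space: a complete separable metric space with a Borel probability measure. -/
structure MM : Type 1 where
  carrier : Type
  [met : MetricSpace carrier]
  [compl : CompleteSpace carrier]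
  [sep : TopologicalSpace.SeparableSpace carrier]
  [meas : MeasurableSpace carrier]
  [borel : BorelSpace carrier]
  μ : Measure carrier
  [prob : IsProbabilityMeasure μ]

attribute [instance] MM.met MM.compl MM.sep MM.meas MM.borel MM.prob

instance : CoeSort MM Type := ⟨MM.carrier⟩

/-- The support of the measure of an mm-space. -/
def MM.supp (X : MM) : Set X := X.μ.support

/-- mm-isomorphism: an isometry between the supports which pushes one measure to the other. -/
def Iso (X Y : MM) : Prop :=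
  ∃ e : X.supp ≃ᵢ Y.supp,
    Measure.map (fun x => ((e x : Y.supp) : Y)) (Measure.comap Subtype.val X.μ) = Y.μ

/-- A parameter of `X`. -/
def IsParam (X : MM) (φ : I01 → X) : Prop := Measurable φ ∧ Measure.map φ leb = X.μ

/-- The Ky Fan metric on functions on `I = [0,1)`. -/
noncomputable def dKF (f g : I01 → ℝ) : ℝ :=
  sInf {ε : ℝ | 0 ≤ ε ∧ leb {s | ε < |f s - g s|} ≤ ENNReal.ofReal ε}

/-- `{f ∘ φ : f 1-Lipschitz}`. -/
def lipSet {X : MM} (φ : I01 → X) : Set (I01 → ℝ) :=
  {u | ∃ f : X → ℝ, LipschitzWith 1 f ∧ u = f ∘ φ}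

/-- The Hausdorff distance for the Ky Fan metric of two sets of functions. -/
noncomputable def hausKF (A B : Set (I01 → ℝ)) : ℝ :=
  sInf {ε : ℝ | 0 ≤ ε ∧ (∀ u ∈ A, ∃ v ∈ B, dKF u v ≤ ε) ∧ (∀ v ∈ B, ∃ u ∈ A, dKF u v ≤ ε)}

/-- The observable distance of two mm-spaces. -/
noncomputable def preConc (X Y : MM) : ℝ :=
  sInf {r : ℝ | ∃ (φ : I01 → X) (ψ : I01 → Y), IsParam X φ ∧ IsParam Y ψ ∧
    r = hausKF (lipSet φ) (lipSet ψ)}

instance (X : MM) : SecondCountableTopology X :=
  UniformSpace.secondCountable_of_separable X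

instance (X : MM) : PolishSpace X := inferInstance

instance (X : MM) : StandardBorelSpace X := inferInstance

instance (X : MM) : Nonempty X := by
  by_contra h
  rw [not_nonempty_iff] at h
  have h1 : X.μ Set.univ = 1 := measure_univ
  rw [Set.univ_eq_empty_iff.2 h, measure_empty] at h1
  exact zero_ne_one h1

lemma measurableSet_supp (X : MM) : MeasurableSet X.supp :=
  Measure.isClosed_support.measurableSet

lemma ae_supp (X : MM) : X.μ X.suppᶜ = 0 := Measure.measure_compl_support

lemma map_val (X : MM) : Measure.map (Subtype.val : X.supp → X) (Measure.comap Subtype.val X.μ) = X.μ := by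
  rw [map_comap_subtype_coe (measurableSet_supp X), Measure.restrict_eq_self_of_ae_mem]
  rw [ae_iff]
  exact ae_supp X

lemma comap_map_val (X : MM) (ν : Measure X.supp) :
    Measure.comap (Subtype.val : X.supp → X) (Measure.map Subtype.val ν) = ν :=
  (MeasurableEmbedding.subtype_coe (measurableSet_supp X)).comap_map ν

lemma iso_comap {X Y : MM} {e : X.supp ≃ᵢ Y.supp}
    (h : Measure.map (fun x => ((e x : Y.supp) : Y)) (Measure.comap Subtype.val X.μ) = Y.μ) :
    Measure.comap (Subtype.val : Y.supp → Y) Y.μ =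
      Measure.map e (Measure.comap (Subtype.val : X.supp → X) X.μ) := by
  have h1 : Measure.map (fun x => ((e x : Y.supp) : Y)) (Measure.comap Subtype.val X.μ) =
      Measure.map (Subtype.val : Y.supp → Y) (Measure.map e (Measure.comap Subtype.val X.μ)) := by
    rw [Measure.map_map measurable_subtype_coe e.continuous.measurable]
    rfl
  rw [← comap_map_val Y (Measure.map e (Measure.comap Subtype.val X.μ)), ← h1, h]

lemma iso_equiv : Equivalence Iso := by
  constructor
  · intro X
    exact ⟨IsometryEquiv.refl _, map_val X⟩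
  · rintro X Y ⟨e, he⟩
    refine ⟨e.symm, ?_⟩
    have h1 : (fun x => ((e.symm x : X.supp) : X)) = Subtype.val ∘ e.symm := rfl
    rw [iso_comap he, h1, ← Measure.map_map measurable_subtype_coe e.symm.continuous.measurable,
      Measure.map_map e.symm.continuous.measurable e.continuous.measurable]
    have h2 : (e.symm ∘ e : X.supp → X.supp) = id := by ext x; simp
    rw [h2, Measure.map_id]
    exact map_val X
  · rintro X Y Z ⟨e, he⟩ ⟨f, hf⟩
    refine ⟨e.trans f, ?_⟩
    have hm : Measurable (fun x => ((f x : Z.supp) : Z)) :=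
      measurable_subtype_coe.comp f.continuous.measurable
    rw [← hf, iso_comap he, Measure.map_map hm e.continuous.measurable]
    rfl

/-- The isomorphism setoid. -/
instance isoSetoid : Setoid MM := ⟨Iso, iso_equiv⟩

/-- The set `𝒳` of mm-isomorphism classes. -/
def MMClass : Type 1 := Quotient isoSetoid

/-- Coupling form of the relation `d_conc(X,Y) ≤ a`. -/
def CLE (X Y : MM) (a : ℝ) : Prop :=
  ∃ π : Measure (X × Y), IsProbabilityMeasure π ∧ Measure.map Prod.fst π = X.μ ∧
    Measure.map Prod.snd π = Y.μ ∧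
    (∀ f : X → ℝ, LipschitzWith 1 f → ∃ g : Y → ℝ, LipschitzWith 1 g ∧
      π {p | a < |f p.1 - g p.2|} ≤ ENNReal.ofReal a) ∧
    (∀ g : Y → ℝ, LipschitzWith 1 g → ∃ f : X → ℝ, LipschitzWith 1 f ∧
      π {p | a < |f p.1 - g p.2|} ≤ ENNReal.ofReal a)

lemma dKF_nonneg (f g : I01 → ℝ) : 0 ≤ dKF f g := Real.sInf_nonneg fun _ h => h.1

lemma kf_mono {f g : I01 → ℝ} {a b : ℝ} (hab : a ≤ b)
    (h : leb {s | a < |f s - g s|} ≤ ENNReal.ofReal a) :
    leb {s | b < |f s - g s|} ≤ ENNReal.ofReal b :=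
  (measure_mono fun _ hs => lt_of_le_of_lt hab hs).trans (h.trans (ENNReal.ofReal_le_ofReal hab))

lemma kf_of_lt {f g : I01 → ℝ} {a : ℝ} (h : dKF f g < a) :
    leb {s | a < |f s - g s|} ≤ ENNReal.ofReal a := by
  have hne : {ε : ℝ | 0 ≤ ε ∧ leb {s | ε < |f s - g s|} ≤ ENNReal.ofReal ε}.Nonempty := by
    refine ⟨1, zero_le_one, ?_⟩
    rw [ENNReal.ofReal_one]
    exact prob_le_one
  obtain ⟨ε, hε, hlt⟩ := (csInf_lt_iff ⟨0, fun _ h => h.1⟩ hne).1 h
  exact kf_mono hlt.le hε.2

lemma dKF_le {f g : I01 → ℝ} {a : ℝ} (ha : 0 ≤ a)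
    (h : leb {s | a < |f s - g s|} ≤ ENNReal.ofReal a) : dKF f g ≤ a :=
  csInf_le ⟨0, fun _ h => h.1⟩ ⟨ha, h⟩

lemma dKF_le_one (f g : I01 → ℝ) : dKF f g ≤ 1 := by
  apply dKF_le zero_le_one
  rw [ENNReal.ofReal_one]
  exact prob_le_one

lemma lipSet_nonempty {X : MM} (φ : I01 → X) : (lipSet φ).Nonempty :=
  ⟨_, fun _ => 0, LipschitzWith.const' 0, rfl⟩

lemma haus_set_one {X Y : MM} (φ : I01 → X) (ψ : I01 → Y) :
    (1:ℝ) ∈ {ε : ℝ | 0 ≤ ε ∧ (∀ u ∈ lipSet φ, ∃ v ∈ lipSet ψ, dKF u v ≤ ε) ∧
      (∀ v ∈ lipSet ψ, ∃ u ∈ lipSet φ, dKF u v ≤ ε)} := by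
  refine ⟨zero_le_one, ?_, ?_⟩
  · intro u _
    obtain ⟨v, hv⟩ := lipSet_nonempty ψ
    exact ⟨v, hv, dKF_le_one u v⟩
  · intro v _
    obtain ⟨u, hu⟩ := lipSet_nonempty φ
    exact ⟨u, hu, dKF_le_one u v⟩

lemma haus_nonneg (A B : Set (I01 → ℝ)) : 0 ≤ hausKF A B := Real.sInf_nonneg fun _ h => h.1

lemma exists_param' (X : MM) : ∃ φ : I01 → X, IsParam X φ := exists_param X.μ

lemma conc_ne (X Y : MM) : {r : ℝ | ∃ (φ : I01 → X) (ψ : I01 → Y), IsParam X φ ∧ IsParam Y ψ ∧
    r = hausKF (lipSet φ) (lipSet ψ)}.Nonempty := by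
  obtain ⟨φ, hφ⟩ := exists_param' X
  obtain ⟨ψ, hψ⟩ := exists_param' Y
  exact ⟨_, φ, ψ, hφ, hψ, rfl⟩

lemma conc_bdd (X Y : MM) : BddBelow {r : ℝ | ∃ (φ : I01 → X) (ψ : I01 → Y), IsParam X φ ∧
    IsParam Y ψ ∧ r = hausKF (lipSet φ) (lipSet ψ)} := by
  refine ⟨0, ?_⟩
  rintro r ⟨φ, ψ, _, _, rfl⟩
  exact haus_nonneg _ _

lemma preConc_nonneg (X Y : MM) : 0 ≤ preConc X Y := by
  apply le_csInf (conc_ne X Y)
  rintro r ⟨φ, ψ, _, _, rfl⟩
  exact haus_nonneg _ _

lemma cle_of_lt {X Y : MM} {a : ℝ} (h : preConc X Y < a) : CLE X Y a := by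
  obtain ⟨r, ⟨φ, ψ, hφ, hψ, rfl⟩, hlt⟩ := (csInf_lt_iff (conc_bdd X Y) (conc_ne X Y)).1 h
  obtain ⟨ε, ⟨hε0, h1, h2⟩, hεa⟩ := (csInf_lt_iff ⟨0, fun _ h => h.1⟩ ⟨1, haus_set_one φ ψ⟩).1 hlt
  have hm : Measurable (fun s => (φ s, ψ s)) := hφ.1.prodMk hψ.1
  refine ⟨Measure.map (fun s => (φ s, ψ s)) leb, Measure.isProbabilityMeasure_map hm.aemeasurable,
    ?_, ?_, ?_, ?_⟩
  · rw [Measure.map_map measurable_fst hm]; exact hφ.2
  · rw [Measure.map_map measurable_snd hm]; exact hψ.2
  · intro f hf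
    obtain ⟨v, ⟨g, hg, rfl⟩, hd⟩ := h1 (f ∘ φ) ⟨f, hf, rfl⟩
    refine ⟨g, hg, ?_⟩
    rw [Measure.map_apply hm]
    · exact kf_of_lt (lt_of_le_of_lt hd hεa)
    · apply measurableSet_lt measurable_const
      have h3 := hf.continuous.measurable
      have h4 := hg.continuous.measurable
      exact ((h3.comp measurable_fst).sub (h4.comp measurable_snd)).abs
  · intro g hg
    obtain ⟨v, ⟨f, hf, rfl⟩, hd⟩ := h2 (g ∘ ψ) ⟨g, hg, rfl⟩
    refine ⟨f, hf, ?_⟩
    rw [Measure.map_apply hm]
    · exact kf_of_lt (lt_of_le_of_lt hd hεa)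
    · apply measurableSet_lt measurable_const
      have h3 := hf.continuous.measurable
      have h4 := hg.continuous.measurable
      exact ((h3.comp measurable_fst).sub (h4.comp measurable_snd)).abs

lemma le_of_cle {X Y : MM} {a : ℝ} (ha : 0 ≤ a) (h : CLE X Y a) : preConc X Y ≤ a := by
  obtain ⟨π, hπ, hX, hY, h1, h2⟩ := h
  obtain ⟨θ, hθ, hθm⟩ := exists_param π
  have hφ : IsParam X (fun s => (θ s).1) := by
    refine ⟨measurable_fst.comp hθ, ?_⟩
    rw [← hX, ← hθm, Measure.map_map measurable_fst hθ]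
    rfl
  have hψ : IsParam Y (fun s => (θ s).2) := by
    refine ⟨measurable_snd.comp hθ, ?_⟩
    rw [← hY, ← hθm, Measure.map_map measurable_snd hθ]
    rfl
  have hmeas : ∀ (f : X → ℝ) (g : Y → ℝ), LipschitzWith 1 f → LipschitzWith 1 g →
      MeasurableSet {p : X × Y | a < |f p.1 - g p.2|} := by
    intro f g hf hg
    apply measurableSet_lt measurable_const
    have h3 := hf.continuous.measurable
    have h4 := hg.continuous.measurable
    exact ((h3.comp measurable_fst).sub (h4.comp measurable_snd)).abs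
  have hh : hausKF (lipSet (fun s => (θ s).1 : I01 → X)) (lipSet (fun s => (θ s).2 : I01 → Y)) ≤ a := by
    apply csInf_le ⟨0, fun _ h => h.1⟩
    refine ⟨ha, ?_, ?_⟩
    · rintro u ⟨f, hf, rfl⟩
      obtain ⟨g, hg, hd⟩ := h1 f hf
      refine ⟨g ∘ (fun s => (θ s).2), ⟨g, hg, rfl⟩, dKF_le ha ?_⟩
      rw [← hθm, Measure.map_apply hθ (hmeas f g hf hg)] at hd
      exact hd
    · rintro v ⟨g, hg, rfl⟩
      obtain ⟨f, hf, hd⟩ := h2 g hg
      refine ⟨f ∘ (fun s => (θ s).1), ⟨f, hf, rfl⟩, dKF_le ha ?_⟩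
      rw [← hθm, Measure.map_apply hθ (hmeas f g hf hg)] at hd
      exact hd
  exact (csInf_le (conc_bdd X Y) ⟨_, _, hφ, hψ, rfl⟩).trans hh

lemma cle_symm {X Y : MM} {a : ℝ} (h : CLE X Y a) : CLE Y X a := by
  obtain ⟨π, hπ, hX, hY, h1, h2⟩ := h
  have hsw : Measurable (Prod.swap : X × Y → Y × X) := measurable_swap
  have hmeas : ∀ (g : Y → ℝ) (f : X → ℝ), LipschitzWith 1 g → LipschitzWith 1 f →
      MeasurableSet {p : Y × X | a < |g p.1 - f p.2|} := by
    intro f g hf hg
    apply measurableSet_lt measurable_const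
    have h3 := hf.continuous.measurable
    have h4 := hg.continuous.measurable
    exact ((h3.comp measurable_fst).sub (h4.comp measurable_snd)).abs
  refine ⟨Measure.map Prod.swap π, Measure.isProbabilityMeasure_map hsw.aemeasurable, ?_, ?_, ?_, ?_⟩
  · rw [Measure.map_map measurable_fst hsw]; exact hY
  · rw [Measure.map_map measurable_snd hsw]; exact hX
  · intro g hg
    obtain ⟨f, hf, hd⟩ := h2 g hg
    refine ⟨f, hf, ?_⟩
    rw [Measure.map_apply hsw (hmeas g f hg hf)]
    refine le_trans (measure_mono ?_) hd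
    intro p hp
    have hp' : a < |g p.2 - f p.1| := hp
    show a < |f p.1 - g p.2|
    rwa [abs_sub_comm]
  · intro f hf
    obtain ⟨g, hg, hd⟩ := h1 f hf
    refine ⟨g, hg, ?_⟩
    rw [Measure.map_apply hsw (hmeas g f hg hf)]
    refine le_trans (measure_mono ?_) hd
    intro p hp
    have hp' : a < |g p.2 - f p.1| := hp
    show a < |f p.1 - g p.2|
    rwa [abs_sub_comm]

lemma cle_trans {X Y Z : MM} {a b : ℝ} (ha : 0 ≤ a) (hb : 0 ≤ b) (h₁ : CLE X Y a)
    (h₂ : CLE Y Z b) : CLE X Z (a + b) := by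
  obtain ⟨π₁, hp₁, hX, hY, hf₁, hg₁⟩ := h₁
  obtain ⟨π₂, hp₂, hY', hZ, hf₂, hg₂⟩ := h₂
  set κ : Kernel Y Z := π₂.condKernel with hκ
  set κ' : Kernel (X × Y) Z := κ.comap Prod.snd measurable_snd with hκ'
  set ω : Measure ((X × Y) × Z) := π₁ ⊗ₘ κ' with hω
  have hpω : IsProbabilityMeasure ω := by rw [hω]; infer_instance
  have hfst : Measure.map Prod.fst ω = π₁ := by
    have := Measure.fst_compProd π₁ κ'
    rw [Measure.fst] at this
    exact this
  have hmg : Measurable (fun p : (X × Y) × Z => (p.1.2, p.2)) := by fun_prop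
  have hyz : Measure.map (fun p : (X × Y) × Z => (p.1.2, p.2)) ω = π₂ := by
    ext s hs
    rw [Measure.map_apply hmg hs, hω, Measure.compProd_apply (hmg hs)]
    have e1 : ∀ a : X × Y, κ' a (Prod.mk a ⁻¹' ((fun p : (X × Y) × Z => (p.1.2, p.2)) ⁻¹' s)) =
        (fun y => κ y (Prod.mk y ⁻¹' s)) a.2 := by
      intro a
      rw [hκ', Kernel.comap_apply]
      rfl
    simp_rw [e1]
    have hmeas : Measurable (fun y => κ y (Prod.mk y ⁻¹' s)) :=
      Kernel.measurable_kernel_prodMk_left hs
    rw [← lintegral_map hmeas measurable_snd, hY, ← hY']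
    have := Measure.compProd_apply (μ := π₂.fst) (κ := κ) hs
    rw [← Measure.fst, ← this, hκ, Measure.disintegrate]
  have hmxz : Measurable (fun p : (X × Y) × Z => (p.1.1, p.2)) := by fun_prop
  have hms : ∀ (A B : MM) (f : A → ℝ) (g : B → ℝ) (c : ℝ), LipschitzWith 1 f → LipschitzWith 1 g →
      MeasurableSet {p : A × B | c < |f p.1 - g p.2|} := by
    intro A B f g c hf hg
    apply measurableSet_lt measurable_const
    have h3 := hf.continuous.measurable
    have h4 := hg.continuous.measurable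
    exact ((h3.comp measurable_fst).sub (h4.comp measurable_snd)).abs
  have key : ∀ (f : X → ℝ) (g : Y → ℝ) (h : Z → ℝ), LipschitzWith 1 f → LipschitzWith 1 g →
      LipschitzWith 1 h → π₁ {p | a < |f p.1 - g p.2|} ≤ ENNReal.ofReal a →
      π₂ {p | b < |g p.1 - h p.2|} ≤ ENNReal.ofReal b →
      (Measure.map (fun p : (X × Y) × Z => (p.1.1, p.2)) ω) {p | a + b < |f p.1 - h p.2|} ≤
        ENNReal.ofReal (a + b) := by
    intro f g h hf hg hh h1 h2
    rw [Measure.map_apply hmxz (hms X Z f h _ hf hh)]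
    rw [← hfst, Measure.map_apply measurable_fst (hms X Y f g _ hf hg)] at h1
    rw [← hyz, Measure.map_apply hmg (hms Y Z g h _ hg hh)] at h2
    rw [ENNReal.ofReal_add ha hb]
    refine le_trans (measure_mono ?_) ((measure_union_le _ _).trans (add_le_add h1 h2))
    intro p hp
    have hp' : a + b < |f p.1.1 - h p.2| := hp
    by_cases hc : a < |f p.1.1 - g p.1.2|
    · left; exact hc
    · right
      show b < |g p.1.2 - h p.2|
      have h3 : |f p.1.1 - h p.2| ≤ |f p.1.1 - g p.1.2| + |g p.1.2 - h p.2| := by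
        have : f p.1.1 - h p.2 = (f p.1.1 - g p.1.2) + (g p.1.2 - h p.2) := by ring
        rw [this]; exact abs_add_le _ _
      push Not at hc
      linarith
  refine ⟨Measure.map (fun p : (X × Y) × Z => (p.1.1, p.2)) ω,
    Measure.isProbabilityMeasure_map hmxz.aemeasurable, ?_, ?_, ?_, ?_⟩
  · rw [Measure.map_map measurable_fst hmxz, ← hX, ← hfst, Measure.map_map measurable_fst measurable_fst]
    rfl
  · rw [Measure.map_map measurable_snd hmxz, ← hZ, ← hyz, Measure.map_map measurable_snd hmg]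
    rfl
  · intro f hf
    obtain ⟨g, hg, h1⟩ := hf₁ f hf
    obtain ⟨h, hh, h2⟩ := hf₂ g hg
    exact ⟨h, hh, key f g h hf hg hh h1 h2⟩
  · intro h hh
    obtain ⟨g, hg, h2⟩ := hg₂ h hh
    obtain ⟨f, hf, h1⟩ := hg₁ g hg
    exact ⟨f, hf, key f g h hf hg hh h1 h2⟩

lemma cle_of_iso {X Y : MM} (h : Iso X Y) : CLE X Y 0 := by
  obtain ⟨e, he⟩ := h
  have hm : Measurable (fun x : X.supp => ((x : X), ((e x : Y.supp) : Y))) :=
    measurable_subtype_coe.prodMk (measurable_subtype_coe.comp e.continuous.measurable)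
  have hprob : IsProbabilityMeasure (Measure.comap (Subtype.val : X.supp → X) X.μ) := by
    constructor
    rw [comap_subtype_coe_apply (measurableSet_supp X), image_univ, Subtype.range_coe]
    rw [← compl_compl X.supp, prob_compl_eq_one_iff (measurableSet_supp X).compl]
    exact ae_supp X
  have hms : ∀ (f : X → ℝ) (g : Y → ℝ), LipschitzWith 1 f → LipschitzWith 1 g →
      MeasurableSet {p : X × Y | (0:ℝ) < |f p.1 - g p.2|} := by
    intro f g hf hg
    apply measurableSet_lt measurable_const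
    have h3 := hf.continuous.measurable
    have h4 := hg.continuous.measurable
    exact ((h3.comp measurable_fst).sub (h4.comp measurable_snd)).abs
  refine ⟨Measure.map (fun x : X.supp => ((x : X), ((e x : Y.supp) : Y)))
    (Measure.comap Subtype.val X.μ), Measure.isProbabilityMeasure_map hm.aemeasurable, ?_, ?_, ?_, ?_⟩
  · rw [Measure.map_map measurable_fst hm]
    exact map_val X
  · rw [Measure.map_map measurable_snd hm]
    exact he
  · intro f hf
    set g₀ : Y → ℝ := fun y => by
      classical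
      exact if h : y ∈ Y.supp then f (e.symm ⟨y, h⟩ : X.supp) else 0 with hg₀
    have hlip : LipschitzOnWith 1 g₀ Y.supp := by
      intro x hx y hy
      simp only [hg₀, dif_pos hx, dif_pos hy]
      refine (hf _ _).trans ?_
      have := (e.symm.isometry).edist_eq ⟨x, hx⟩ ⟨y, hy⟩
      have h2 : edist ((e.symm ⟨x, hx⟩ : X.supp) : X) (e.symm ⟨y, hy⟩ : X.supp) =
        edist (e.symm ⟨x, hx⟩) (e.symm ⟨y, hy⟩) := rfl
      rw [h2, this]
      exact le_rfl
    obtain ⟨g, hg, hgeq⟩ := hlip.extend_real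
    refine ⟨g, hg, ?_⟩
    rw [Measure.map_apply hm (hms f g hf hg)]
    have : (fun x : X.supp => ((x : X), ((e x : Y.supp) : Y))) ⁻¹' {p : X × Y | (0:ℝ) < |f p.1 - g p.2|} = ∅ := by
      rw [eq_empty_iff_forall_notMem]
      intro x hx
      have hx' : (0:ℝ) < |f (x : X) - g ((e x : Y.supp) : Y)| := hx
      have h3 := hgeq (e x).2
      simp only [hg₀, dif_pos (e x).2] at h3
      rw [← h3] at hx'
      simp at hx'
    rw [this, measure_empty]
    exact bot_le
  · intro g hg
    set f₀ : X → ℝ := fun y => by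
      classical
      exact if h : y ∈ X.supp then g (e ⟨y, h⟩ : Y.supp) else 0 with hf₀
    have hlip : LipschitzOnWith 1 f₀ X.supp := by
      intro x hx y hy
      simp only [hf₀, dif_pos hx, dif_pos hy]
      refine (hg _ _).trans ?_
      have := (e.isometry).edist_eq ⟨x, hx⟩ ⟨y, hy⟩
      have h2 : edist ((e ⟨x, hx⟩ : Y.supp) : Y) (e ⟨y, hy⟩ : Y.supp) =
        edist (e ⟨x, hx⟩) (e ⟨y, hy⟩) := rfl
      rw [h2, this]
      exact le_rfl
    obtain ⟨f, hf, hfeq⟩ := hlip.extend_real
    refine ⟨f, hf, ?_⟩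
    rw [Measure.map_apply hm (hms f g hf hg)]
    have : (fun x : X.supp => ((x : X), ((e x : Y.supp) : Y))) ⁻¹' {p : X × Y | (0:ℝ) < |f p.1 - g p.2|} = ∅ := by
      rw [eq_empty_iff_forall_notMem]
      intro x hx
      have hx' : (0:ℝ) < |f (x : X) - g ((e x : Y.supp) : Y)| := hx
      have h3 := hfeq x.2
      simp only [hf₀, dif_pos x.2] at h3
      rw [← h3] at hx'
      simp at hx'
    rw [this, measure_empty]
    exact bot_le

lemma preConc_iso {X Y : MM} (h : Iso X Y) : preConc X Y = 0 :=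
  le_antisymm (le_of_cle le_rfl (cle_of_iso h)) (preConc_nonneg _ _)

lemma preConc_le_swap (X Y : MM) : preConc X Y ≤ preConc Y X := by
  apply le_of_forall_pos_le_add
  intro δ hδ
  have h1 : CLE Y X (preConc Y X + δ) := cle_of_lt (by linarith)
  exact le_of_cle (by linarith [preConc_nonneg Y X]) (cle_symm h1)

lemma preConc_comm (X Y : MM) : preConc X Y = preConc Y X :=
  le_antisymm (preConc_le_swap X Y) (preConc_le_swap Y X)

lemma preConc_triangle (X Y Z : MM) : preConc X Z ≤ preConc X Y + preConc Y Z := by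
  apply le_of_forall_pos_le_add
  intro δ hδ
  have p1 := preConc_nonneg X Y
  have p2 := preConc_nonneg Y Z
  have h1 : CLE X Y (preConc X Y + δ / 2) := cle_of_lt (by linarith)
  have h2 : CLE Y Z (preConc Y Z + δ / 2) := cle_of_lt (by linarith)
  have h3 := le_of_cle (by linarith) (cle_trans (by linarith) (by linarith) h1 h2)
  linarith

lemma preConc_congr (X Y X' Y' : MM) (h : Iso X X') (h' : Iso Y Y') :
    preConc X Y = preConc X' Y' := by
  apply le_antisymm
  · have := preConc_triangle X X' Y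
    have h2 := preConc_triangle X' Y' Y
    rw [preConc_iso h] at this
    rw [preConc_comm Y' Y, preConc_iso h'] at h2
    linarith
  · have := preConc_triangle X' X Y'
    have h2 := preConc_triangle X Y Y'
    rw [preConc_comm X' X, preConc_iso h] at this
    rw [preConc_iso h'] at h2
    linarith

/-- The observable distance on classes. -/
noncomputable def dconc : MMClass → MMClass → ℝ :=
  Quotient.lift₂ preConc preConc_congr

/-- The observable distance gives the concentration topology on the set of classes. -/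
noncomputable instance : PseudoMetricSpace MMClass where
  dist := dconc
  dist_self := by
    intro x
    induction x using Quotient.inductionOn
    exact preConc_iso (iso_equiv.refl _)
  dist_comm := by
    intro x y
    induction x using Quotient.inductionOn
    induction y using Quotient.inductionOn
    exact preConc_comm _ _
  dist_triangle := by
    intro x y z
    induction x using Quotient.inductionOn
    induction y using Quotient.inductionOn
    induction z using Quotient.inductionOn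
    exact preConc_triangle _ _ _

/-- The class of an mm-space. -/
def MM.cls (X : MM) : MMClass := Quotient.mk isoSetoid X

lemma dist_cls (X Y : MM) : dist X.cls Y.cls = preConc X Y := rfl

lemma exists_rep (x : MMClass) : ∃ X : MM, X.cls = x := Quotient.exists_rep x

end Pool.Agent.V11221.Con
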