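import Pool.Agent.V11221.ConA

/-!
The spaces `X_a`, and total boundedness of 1-Lipschitz functions in measure.
-/

open MeasureTheory Set Filter Topology ProbabilityTheory

namespace Pool.Agent.V11221.Con

/-- A type with the metric in which different points have distance `1`. -/
structure Disc (α : Type) where
  val : α

namespace Disc

variable {α : Type}

open Classical in
noncomputable instance : MetricSpace (Disc α) where
  dist x y := if x = y then 0 else 1
  dist_self x := by simp
  dist_comm x y := by simp [eq_comm]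
  dist_triangle x y z := by
    by_cases h1 : x = y
    · subst h1; simp
    · by_cases h2 : y = z
      · subst h2; simp
      · rw [if_neg h1, if_neg h2]
        split_ifs <;> norm_num
  eq_of_dist_eq_zero := by
    intro x y h
    by_contra hne
    rw [if_neg hne] at h
    exact one_ne_zero h

open Classical in
lemma dist_ne {x y : Disc α} (h : x ≠ y) : dist x y = 1 := by
  show (if x = y then (0:ℝ) else 1) = 1
  rw [if_neg h]

instance : DiscreteTopology (Disc α) := by
  rw [discreteTopology_iff_isOpen_singleton]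
  intro x
  rw [Metric.isOpen_iff]
  intro y hy
  refine ⟨1, one_pos, ?_⟩
  intro z hz
  rw [mem_singleton_iff] at hy ⊢
  subst hy
  by_contra hne
  rw [Metric.mem_ball, dist_ne hne] at hz
  exact lt_irrefl _ hz

instance : CompleteSpace (Disc α) := by
  apply Metric.complete_of_cauchySeq_tendsto
  intro u hu
  obtain ⟨N, hN⟩ := Metric.cauchySeq_iff'.1 hu 1 one_pos
  refine ⟨u N, ?_⟩
  apply tendsto_const_nhds.congr'
  filter_upwards [eventually_ge_atTop N] with n hn
  by_contra hne
  have := hN n hn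
  rw [dist_ne (Ne.symm hne)] at this
  exact lt_irrefl _ this

instance [Countable α] : Countable (Disc α) := by
  apply Function.Injective.countable (f := Disc.val)
  intro x y h
  cases x; cases y
  simp_all

instance : MeasurableSpace (Disc α) := ⊤

instance : BorelSpace (Disc α) := ⟨by
  symm
  exact borel_eq_top_of_discrete⟩

lemma ms (s : Set (Disc α)) : MeasurableSet s := trivial

instance : MeasurableSingletonClass (Disc α) := ⟨fun _ => ms _⟩

instance [Countable α] : TopologicalSpace.SeparableSpace (Disc α) := inferInstance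

end Disc

/-- The index type of the blocks. -/
abbrev Blk (a : ℕ → ℕ) : Type := Σ k : ℕ, (Fin (a k) → Bool)

/-- The uniform measure on bit strings of length `n`. -/
noncomputable def unif (n : ℕ) : Measure (Fin n → Bool) := ((2:ENNReal) ^ n)⁻¹ • Measure.count

lemma unif_univ (n : ℕ) : unif n univ = 1 := by
  rw [unif, Measure.smul_apply, Measure.count_univ]
  simp only [smul_eq_mul]
  have : ENat.toENNReal (ENat.card (Fin n → Bool)) = (2:ENNReal) ^ n := by
    rw [ENat.card_eq_coe_fintype_card]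
    simp
  rw [this]
  exact ENNReal.inv_mul_cancel (by positivity) (by finiteness)

instance (n : ℕ) : IsProbabilityMeasure (unif n) := ⟨unif_univ n⟩

/-- The measure of `X_a`. -/
noncomputable def muA (a : ℕ → ℕ) : Measure (Disc (Blk a)) :=
  Measure.sum (fun k : ℕ => ((2:ENNReal)⁻¹ ^ (k + 1)) •
    Measure.map (fun v : Fin (a k) → Bool => (⟨⟨k, v⟩⟩ : Disc (Blk a))) (unif (a k)))

lemma emb_meas (a : ℕ → ℕ) (k : ℕ) :
    Measurable (fun v : Fin (a k) → Bool => (⟨⟨k, v⟩⟩ : Disc (Blk a))) := measurable_of_finite _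

lemma muA_univ (a : ℕ → ℕ) : muA a univ = 1 := by
  rw [muA, Measure.sum_apply _ MeasurableSet.univ]
  have : ∀ k : ℕ, (((2:ENNReal)⁻¹ ^ (k + 1)) •
    Measure.map (fun v : Fin (a k) → Bool => (⟨⟨k, v⟩⟩ : Disc (Blk a))) (unif (a k))) univ =
      (2:ENNReal)⁻¹ ^ (k + 1) := by
    intro k
    rw [Measure.smul_apply, Measure.map_apply (emb_meas a k) MeasurableSet.univ, preimage_univ,
      unif_univ, smul_eq_mul, mul_one]
  simp_rw [this]
  rw [ENNReal.tsum_geometric_add_one, ENNReal.one_sub_inv_two, inv_inv]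
  exact ENNReal.inv_mul_cancel (by simp) (by simp)

instance (a : ℕ → ℕ) : IsProbabilityMeasure (muA a) := ⟨muA_univ a⟩

/-- The mm-space `X_a`. -/
noncomputable def XA (a : ℕ → ℕ) : MM where
  carrier := Disc (Blk a)
  μ := muA a

/-- The `i`-th bit function of block `k`. -/
noncomputable def bitFun (a : ℕ → ℕ) (k : ℕ) (i : Fin (a k)) (x : Disc (Blk a)) : ℝ := by
  classical
  exact if (∃ v : Fin (a k) → Bool, x.val = ⟨k, v⟩ ∧ v i = true) then 1 else 0

lemma bitFun_mem (a : ℕ → ℕ) (k : ℕ) (i : Fin (a k)) (x : Disc (Blk a)) :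
    0 ≤ bitFun a k i x ∧ bitFun a k i x ≤ 1 := by
  unfold bitFun
  split_ifs <;> simp

lemma bitFun_lip (a : ℕ → ℕ) (k : ℕ) (i : Fin (a k)) : LipschitzWith 1 (bitFun a k i) := by
  apply LipschitzWith.of_dist_le_mul
  intro x y
  by_cases h : x = y
  · subst h; simp
  · rw [Disc.dist_ne h, Real.dist_eq]
    have h1 := bitFun_mem a k i x
    have h2 := bitFun_mem a k i y
    simp only [NNReal.coe_one, mul_one]
    rw [abs_le]
    constructor <;> linarith [h1.1, h1.2, h2.1, h2.2]

lemma bitFun_val (a : ℕ → ℕ) (k : ℕ) (i : Fin (a k)) (v : Fin (a k) → Bool) :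
    bitFun a k i ⟨⟨k, v⟩⟩ = if v i = true then 1 else 0 := by
  unfold bitFun
  have : (∃ v' : Fin (a k) → Bool, (⟨⟨k, v⟩⟩ : Disc (Blk a)).val = ⟨k, v'⟩ ∧ v' i = true) ↔
      v i = true := by
    constructor
    · rintro ⟨v', h, h'⟩
      have : v = v' := by
        have h2 : (⟨k, v⟩ : Blk a) = ⟨k, v'⟩ := h
        simpa using h2
      rw [this]; exact h'
    · intro h
      exact ⟨v, rfl, h⟩
  by_cases h : v i = true
  · rw [if_pos (this.2 h), if_pos h]
  · rw [if_neg (fun h' => h (this.1 h')), if_neg h]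

lemma unif_half (n : ℕ) (i j : Fin n) (hij : i ≠ j) :
    unif n {v : Fin n → Bool | v i ≠ v j} = 2⁻¹ := by
  classical
  set S : Set (Fin n → Bool) := {v | v i ≠ v j} with hS
  -- flipping coordinate i maps S to its complement
  set F : (Fin n → Bool) ≃ (Fin n → Bool) :=
    { toFun := fun v => Function.update v i (!(v i))
      invFun := fun v => Function.update v i (!(v i))
      left_inv := by intro v; simp
      right_inv := by intro v; simp } with hF
  have himg : F '' S = Sᶜ := by
    ext v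
    constructor
    · rintro ⟨w, hw, rfl⟩
      have hw' : w i ≠ w j := hw
      show ¬ ((Function.update w i (!(w i))) i ≠ (Function.update w i (!(w i))) j)
      rw [Function.update_self, Function.update_of_ne (Ne.symm hij)]
      simp only [ne_eq, not_not]
      cases h1 : w i <;> cases h2 : w j <;> simp_all
    · intro hv
      have hv' : ¬ (v i ≠ v j) := hv
      refine ⟨F v, ?_, F.left_inv v⟩
      show (Function.update v i (!(v i))) i ≠ (Function.update v i (!(v i))) j
      rw [Function.update_self, Function.update_of_ne (Ne.symm hij)]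
      simp only [ne_eq, not_not] at hv'
      rw [hv']
      cases v j <;> simp
  have hcount : Measure.count (F '' S) = Measure.count S :=
    Measure.count_injective_image F.injective S
  have h1 : unif n S = unif n Sᶜ := by
    rw [← himg, unif, Measure.smul_apply, Measure.smul_apply, hcount]
  have h2 : unif n S + unif n Sᶜ = 1 := by
    rw [measure_add_measure_compl (Set.toFinite S).measurableSet, unif_univ]
  rw [← h1, ← two_mul] at h2
  exact ENNReal.eq_inv_of_mul_eq_one_left (by rw [mul_comm]; exact h2)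

lemma bit_sep (a : ℕ → ℕ) (k : ℕ) (i j : Fin (a k)) (hij : i ≠ j) {ε : ℝ} (hε : ε < 1) :
    (2:ENNReal)⁻¹ ^ (k + 2) ≤ muA a {x | ε < |bitFun a k i x - bitFun a k j x|} := by
  rw [muA, Measure.sum_apply _ (Disc.ms _)]
  refine le_trans ?_ (ENNReal.le_tsum k)
  rw [Measure.smul_apply, Measure.map_apply (emb_meas a k) (Disc.ms _), smul_eq_mul]
  have hsub : {v : Fin (a k) → Bool | v i ≠ v j} ⊆
      (fun v : Fin (a k) → Bool => (⟨⟨k, v⟩⟩ : Disc (Blk a))) ⁻¹'
        {x | ε < |bitFun a k i x - bitFun a k j x|} := by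
    intro v hv
    have hv' : v i ≠ v j := hv
    show ε < |bitFun a k i ⟨⟨k, v⟩⟩ - bitFun a k j ⟨⟨k, v⟩⟩|
    rw [bitFun_val, bitFun_val]
    cases h1 : v i <;> cases h2 : v j <;> simp_all
  calc (2:ENNReal)⁻¹ ^ (k + 2) = (2:ENNReal)⁻¹ ^ (k + 1) * 2⁻¹ := by rw [pow_succ]
    _ = (2:ENNReal)⁻¹ ^ (k + 1) * unif (a k) {v : Fin (a k) → Bool | v i ≠ v j} := by
        rw [unif_half _ _ _ hij]
    _ ≤ _ := by gcongr

/-- Total boundedness in measure of the 1-Lipschitz functions with values in `[0,1]`. -/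
lemma totally (Y : MM) {η : ℝ} (hη : 0 < η) :
    ∃ N : ℕ, ∀ (m : ℕ) (g : Fin m → Y → ℝ), N < m → (∀ i, LipschitzWith 1 (g i)) →
      (∀ i y, 0 ≤ g i y ∧ g i y ≤ 1) →
      ∃ i j, i ≠ j ∧ Y.μ {y | η < |g i y - g j y|} ≤ ENNReal.ofReal η := by
  classical
  set u := TopologicalSpace.denseSeq Y with hu
  set r := η / 4 with hr
  have hrpos : 0 < r := by positivity
  set B : ℕ → Set Y := fun n => ⋃ i ∈ Finset.range n, Metric.ball (u i) r with hB
  have hmono : Monotone B := by
    intro m n hmn x hx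
    simp only [hB, mem_iUnion, Finset.mem_range] at hx ⊢
    obtain ⟨i, hi, hx⟩ := hx
    exact ⟨i, hi.trans_le hmn, hx⟩
  have hun : ⋃ n, B n = univ := by
    rw [eq_univ_iff_forall]
    intro x
    obtain ⟨i, hi⟩ := (TopologicalSpace.denseRange_denseSeq Y).exists_dist_lt x hrpos
    rw [mem_iUnion]
    refine ⟨i + 1, ?_⟩
    simp only [hB, mem_iUnion, Finset.mem_range]
    exact ⟨i, Nat.lt_succ_self i, hi⟩
  have ht := tendsto_measure_iUnion_atTop (μ := Y.μ) hmono
  rw [hun, measure_univ] at ht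
  have hBm : ∀ n, MeasurableSet (B n) := fun n =>
    MeasurableSet.biUnion (Finset.countable_toSet _) fun i _ => measurableSet_ball
  have ht2 : Tendsto (fun n => Y.μ (B n)ᶜ) atTop (𝓝 0) := by
    have h1 : ∀ n, Y.μ (B n)ᶜ = 1 - Y.μ (B n) := fun n => prob_compl_eq_one_sub (hBm n)
    simp_rw [h1]
    have := ENNReal.Tendsto.sub (tendsto_const_nhds (x := (1:ENNReal)) (f := atTop (α := ℕ))) ht
      (Or.inl ENNReal.one_ne_top)
    simpa using this
  obtain ⟨n, hn⟩ := ((tendsto_order.1 ht2).2 (ENNReal.ofReal η) (ENNReal.ofReal_pos.2 hη)).exists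
  -- the discretisation
  set M : ℕ := ⌈1 / r⌉₊ + 1 with hM
  refine ⟨Fintype.card (Fin n → Fin (M + 1)), ?_⟩
  intro m g hm hg hg01
  have hfl : ∀ (i : Fin m) (l : Fin n), ⌊g i (u l) / r⌋₊ < M + 1 := by
    intro i l
    have h1 : g i (u l) / r ≤ 1 / r := by
      gcongr
      exact (hg01 i _).2
    have h2 : ⌊g i (u l) / r⌋₊ ≤ ⌈1 / r⌉₊ :=
      (Nat.floor_le_ceil _).trans (Nat.ceil_le_ceil h1)
    omega
  set c : Fin m → (Fin n → Fin (M + 1)) := fun i l => ⟨⌊g i (u l) / r⌋₊, hfl i l⟩ with hc
  have hcard : Fintype.card (Fin n → Fin (M + 1)) < Fintype.card (Fin m) := by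
    rw [Fintype.card_fin]; exact hm
  obtain ⟨i, j, hij, hcij⟩ := Fintype.exists_ne_map_eq_of_card_lt c hcard
  refine ⟨i, j, hij, ?_⟩
  refine le_trans (measure_mono ?_) hn.le
  intro y hy hyB
  have hy' : η < |g i y - g j y| := hy
  simp only [hB, mem_iUnion, Finset.mem_range] at hyB
  obtain ⟨l, hl, hyl⟩ := hyB
  rw [Metric.mem_ball] at hyl
  have h1 : ⌊g i (u l) / r⌋₊ = ⌊g j (u l) / r⌋₊ := by
    have := congrFun hcij ⟨l, hl⟩
    simpa [hc] using this
  have h2 : |g i (u l) - g j (u l)| ≤ r := by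
    have p1 := Nat.floor_le (div_nonneg (hg01 i (u l)).1 hrpos.le)
    have p2 := Nat.lt_floor_add_one (g i (u l) / r)
    have p3 := Nat.floor_le (div_nonneg (hg01 j (u l)).1 hrpos.le)
    have p4 := Nat.lt_floor_add_one (g j (u l) / r)
    rw [h1] at p1 p2
    rw [le_div_iff₀ hrpos] at p1 p3
    rw [div_lt_iff₀ hrpos] at p2 p4
    rw [abs_le]
    constructor <;> nlinarith
  have h3 : |g i y - g i (u l)| ≤ dist y (u l) := by
    have := (hg i).dist_le_mul y (u l)
    simpa [Real.dist_eq] using this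
  have h4 : |g j y - g j (u l)| ≤ dist y (u l) := by
    have := (hg j).dist_le_mul y (u l)
    simpa [Real.dist_eq] using this
  have h5 := abs_le.1 h2
  have h6 := abs_le.1 h3
  have h7 := abs_le.1 h4
  have h8 : |g i y - g j y| ≤ η := by
    rw [abs_le]
    constructor <;> linarith [h5.1, h5.2, h6.1, h6.2, h7.1, h7.2]
  linarith

end Pool.Agent.V11221.Con
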