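import Mathlib

/-!
Metric measure spaces, parameters, the box distance, and the class `MMClass`.
-/

open MeasureTheory Set Filter Topology ProbabilityTheory

namespace Pool.Agent.V11221.Pyr

/-- The interval `I = [0,1)`. -/
abbrev I01 : Type := Set.Ico (0:ℝ) 1

/-- Lebesgue measure on `I = [0,1)`. -/
noncomputable def leb : Measure I01 := Measure.comap Subtype.val (volume : Measure ℝ)

/-- An mm-space: a complete separable metric space with a Borel probability measure of full
support. -/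
structure MMSpace : Type 1 where
  carrier : Type
  [met : MetricSpace carrier]
  [compl : CompleteSpace carrier]
  [sep : TopologicalSpace.SeparableSpace carrier]
  [meas : MeasurableSpace carrier]
  [borel : BorelSpace carrier]
  μ : Measure carrier
  [prob : IsProbabilityMeasure μ]
  supp : μ.support = Set.univ

attribute [instance] MMSpace.met MMSpace.compl MMSpace.sep MMSpace.meas MMSpace.borel MMSpace.prob

instance : CoeSort MMSpace Type := ⟨MMSpace.carrier⟩

/-- A parameter of `X`. -/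
def IsParam (X : MMSpace) (φ : I01 → X) : Prop :=
  Measurable φ ∧ Measure.map φ leb = X.μ

/-- `ε` is admissible in the definition of the box distance of `X` and `Y`. -/
def BoxLE (X Y : MMSpace) (ε : ℝ) : Prop :=
  ∃ (φ : I01 → X) (ψ : I01 → Y), IsParam X φ ∧ IsParam Y ψ ∧
    ∃ I₀ : Set I01, MeasurableSet I₀ ∧ 1 - ε ≤ (leb I₀).toReal ∧
      ∀ s ∈ I₀, ∀ t ∈ I₀, |dist (φ s) (φ t) - dist (ψ s) (ψ t)| ≤ ε

/-- The box distance of two mm-spaces. -/
noncomputable def preBox (X Y : MMSpace) : ℝ := sInf {ε : ℝ | 0 ≤ ε ∧ BoxLE X Y ε}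

/-- Isomorphism of mm-spaces: a surjective isometry pushing one measure to the other. -/
def Iso (X Y : MMSpace) : Prop := ∃ e : X ≃ᵢ Y, Measure.map e X.μ = Y.μ

lemma iso_equiv : Equivalence Iso := by
  constructor
  · intro X
    exact ⟨IsometryEquiv.refl _, Measure.map_id⟩
  · rintro X Y ⟨e, he⟩
    refine ⟨e.symm, ?_⟩
    rw [← he, Measure.map_map e.symm.continuous.measurable e.continuous.measurable]
    have : (e.symm ∘ e : X → X) = id := by ext x; simp
    rw [this, Measure.map_id]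
  · rintro X Y Z ⟨e, he⟩ ⟨f, hf⟩
    refine ⟨e.trans f, ?_⟩
    rw [← hf, ← he, Measure.map_map f.continuous.measurable e.continuous.measurable]
    rfl

/-- The isomorphism setoid. -/
instance isoSetoid : Setoid MMSpace := ⟨Iso, iso_equiv⟩

/-- The set `𝒳` of classes of mm-spaces. -/
def MMClass : Type 1 := Quotient isoSetoid

/-- The measure on `[0,1)` is a probability measure. -/
instance : IsProbabilityMeasure leb := by
  constructor
  rw [leb, comap_subtype_coe_apply measurableSet_Ico, image_univ, Subtype.range_coe]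
  simp

/-- The inclusion `[0,1) → [0,1]`. -/
def jI (x : I01) : unitInterval := ⟨x.1, x.2.1, x.2.2.le⟩

lemma jI_meas : Measurable jI := by
  unfold jI
  exact measurable_subtype_coe.subtype_mk

lemma map_jI : Measure.map jI leb = (volume : Measure unitInterval) := by
  ext s hs
  rw [Measure.map_apply jI_meas hs]
  have h1 : leb (jI ⁻¹' s) = volume ((Subtype.val '' s : Set ℝ) ∩ Ico (0:ℝ) 1) := by
    rw [leb, comap_subtype_coe_apply measurableSet_Ico]
    congr 1
    ext x
    constructor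
    · rintro ⟨y, hy, rfl⟩
      exact ⟨⟨jI y, hy, rfl⟩, y.2⟩
    · rintro ⟨⟨y, hy, rfl⟩, hx⟩
      exact ⟨⟨y.1, hx⟩, hy, rfl⟩
  have h2 : (volume : Measure unitInterval) s = volume ((Subtype.val '' s : Set ℝ)) := by
    rw [Measure.Subtype.volume_def, comap_subtype_coe_apply measurableSet_Icc]
  rw [h1, h2]
  apply le_antisymm (measure_mono inter_subset_left)
  have hsub : (Subtype.val '' s : Set ℝ) ⊆ ((Subtype.val '' s : Set ℝ) ∩ Ico (0:ℝ) 1) ∪ {1} := by
    rintro x ⟨y, hy, rfl⟩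
    by_cases h : y.1 < 1
    · left; exact ⟨⟨y, hy, rfl⟩, y.2.1, h⟩
    · right
      have := y.2.2
      simp only [mem_singleton_iff]
      linarith
  calc volume ((Subtype.val '' s : Set ℝ)) ≤ volume (((Subtype.val '' s : Set ℝ) ∩ Ico (0:ℝ) 1) ∪ {1}) :=
        measure_mono hsub
    _ ≤ volume ((Subtype.val '' s : Set ℝ) ∩ Ico (0:ℝ) 1) + volume ({1} : Set ℝ) := measure_union_le _ _
    _ = _ := by simp

lemma exists_param {W : Type*} [MeasurableSpace W] [StandardBorelSpace W] [Nonempty W]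
    (ω : Measure W) [IsProbabilityMeasure ω] :
    ∃ θ : I01 → W, Measurable θ ∧ Measure.map θ leb = ω := by
  obtain ⟨f, hf, hfm⟩ := MeasureTheory.Measure.exists_measurable_map_eq ω
  refine ⟨f ∘ jI, hf.comp jI_meas, ?_⟩
  rw [← Measure.map_map hf jI_meas, map_jI, hfm]

instance (X : MMSpace) : SecondCountableTopology X :=
  UniformSpace.secondCountable_of_separable X

instance (X : MMSpace) : PolishSpace X := inferInstance

instance (X : MMSpace) : StandardBorelSpace X := inferInstance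

instance (X : MMSpace) : Nonempty X := by
  by_contra h
  rw [not_nonempty_iff] at h
  have h1 : X.μ Set.univ = 1 := measure_univ
  rw [Set.univ_eq_empty_iff.2 h, measure_empty] at h1
  exact zero_ne_one h1

lemma boxLE_of_coupling {X Y : MMSpace} {W : Type*} [MeasurableSpace W] [StandardBorelSpace W]
    [Nonempty W] (ω : Measure W) [IsProbabilityMeasure ω] {f : W → X} {g : W → Y}
    (hf : Measurable f) (hg : Measurable g) (hfm : Measure.map f ω = X.μ)
    (hgm : Measure.map g ω = Y.μ) {S : Set W} (hS : MeasurableSet S) {ε : ℝ}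
    (hSε : 1 - ε ≤ (ω S).toReal)
    (hd : ∀ p ∈ S, ∀ q ∈ S, |dist (f p) (f q) - dist (g p) (g q)| ≤ ε) : BoxLE X Y ε := by
  obtain ⟨θ, hθ, hθm⟩ := exists_param ω
  refine ⟨f ∘ θ, g ∘ θ, ⟨hf.comp hθ, ?_⟩, ⟨hg.comp hθ, ?_⟩, θ ⁻¹' S, hθ hS, ?_, ?_⟩
  · rw [← Measure.map_map hf hθ, hθm, hfm]
  · rw [← Measure.map_map hg hθ, hθm, hgm]
  · rw [← Measure.map_apply hθ hS, hθm]; exact hSε
  · intro s hs t ht
    exact hd _ hs _ ht

lemma coupling_of_boxLE {X Y : MMSpace} {ε : ℝ} (h : BoxLE X Y ε) :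
    ∃ π : Measure (X × Y), IsProbabilityMeasure π ∧ Measure.map Prod.fst π = X.μ ∧
      Measure.map Prod.snd π = Y.μ ∧ ∃ S : Set (X × Y), IsClosed S ∧ 1 - ε ≤ (π S).toReal ∧
        ∀ p ∈ S, ∀ q ∈ S, |dist p.1 q.1 - dist p.2 q.2| ≤ ε := by
  obtain ⟨φ, ψ, ⟨hφ, hφm⟩, ⟨hψ, hψm⟩, I₀, hI, hIm, hd⟩ := h
  have hm : Measurable (fun s => (φ s, ψ s)) := hφ.prodMk hψ
  refine ⟨Measure.map (fun s => (φ s, ψ s)) leb, Measure.isProbabilityMeasure_map hm.aemeasurable,
    ?_, ?_, closure ((fun s => (φ s, ψ s)) '' I₀), isClosed_closure, ?_, ?_⟩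
  · rw [Measure.map_map measurable_fst hm]; exact hφm
  · rw [Measure.map_map measurable_snd hm]; exact hψm
  · rw [Measure.map_apply hm isClosed_closure.measurableSet]
    refine hIm.trans ?_
    apply ENNReal.toReal_mono (measure_ne_top _ _)
    apply measure_mono
    intro s hs
    exact subset_closure ⟨s, hs, rfl⟩
  · have hcl : IsClosed {z : (X × Y) × (X × Y) | |dist z.1.1 z.2.1 - dist z.1.2 z.2.2| ≤ ε} := by
      apply isClosed_le
      · fun_prop
      · fun_prop
    have hsub : closure (((fun s => (φ s, ψ s)) '' I₀) ×ˢ ((fun s => (φ s, ψ s)) '' I₀)) ⊆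
        {z : (X × Y) × (X × Y) | |dist z.1.1 z.2.1 - dist z.1.2 z.2.2| ≤ ε} := by
      apply closure_minimal _ hcl
      rintro ⟨p, q⟩ ⟨⟨s, hs, hsp⟩, ⟨t, ht, htq⟩⟩
      simp only at hsp htq
      rw [← hsp, ← htq]
      exact hd s hs t ht
    intro p hp q hq
    rw [closure_prod_eq] at hsub
    exact hsub (show (p, q) ∈ _ from ⟨hp, hq⟩)

lemma BoxLE.mono {X Y : MMSpace} {ε ε' : ℝ} (h : BoxLE X Y ε) (hε : ε ≤ ε') : BoxLE X Y ε' := by
  obtain ⟨φ, ψ, h1, h2, I₀, hI, hIm, hd⟩ := h
  exact ⟨φ, ψ, h1, h2, I₀, hI, by linarith, fun s hs t ht => (hd s hs t ht).trans hε⟩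

lemma BoxLE.symm {X Y : MMSpace} {ε : ℝ} (h : BoxLE X Y ε) : BoxLE Y X ε := by
  obtain ⟨φ, ψ, h1, h2, I₀, hI, hIm, hd⟩ := h
  refine ⟨ψ, φ, h2, h1, I₀, hI, hIm, fun s hs t ht => ?_⟩
  rw [abs_sub_comm]
  exact hd s hs t ht

lemma boxLE_of_iso {X Y : MMSpace} (h : Iso X Y) : BoxLE X Y 0 := by
  obtain ⟨e, he⟩ := h
  apply boxLE_of_coupling (W := X) X.μ (f := id) (g := e) measurable_id e.continuous.measurable
    (Measure.map_id) he MeasurableSet.univ
  · simp
  · intro p _ q _
    simp [e.dist_eq]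

lemma boxLE_refl (X : MMSpace) : BoxLE X X 0 := boxLE_of_iso (iso_equiv.refl X)

lemma boxLE_one (X Y : MMSpace) : BoxLE X Y 1 := by
  obtain ⟨φ, h1, h1'⟩ := exists_param X.μ
  obtain ⟨ψ, h2, h2'⟩ := exists_param Y.μ
  exact ⟨φ, ψ, ⟨h1, h1'⟩, ⟨h2, h2'⟩, ∅, MeasurableSet.empty, by simp, by simp⟩

lemma BoxLE.trans {X Y Z : MMSpace} {a b : ℝ} (h₁ : BoxLE X Y a) (h₂ : BoxLE Y Z b) :
    BoxLE X Z (a + b) := by
  obtain ⟨π₁, hp₁, hX, hY, S₁, hS₁, hm₁, hd₁⟩ := coupling_of_boxLE h₁
  obtain ⟨π₂, hp₂, hY', hZ, S₂, hS₂, hm₂, hd₂⟩ := coupling_of_boxLE h₂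
  set κ : Kernel Y Z := π₂.condKernel with hκ
  set κ' : Kernel (X × Y) Z := κ.comap Prod.snd measurable_snd with hκ'
  set ω : Measure ((X × Y) × Z) := π₁ ⊗ₘ κ' with hω
  have hpω : IsProbabilityMeasure ω := by rw [hω]; infer_instance
  have hfst : Measure.map Prod.fst ω = π₁ := by
    have := Measure.fst_compProd π₁ κ'
    rw [Measure.fst] at this
    exact this
  have hmg : Measurable (fun p : (X × Y) × Z => (p.1.2, p.2)) := by fun_prop
  have hyz : Measure.map (fun p : (X × Y) × Z => (p.1.2, p.2)) ω = π₂ := by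
    ext s hs
    rw [Measure.map_apply hmg hs, hω, Measure.compProd_apply (hmg hs)]
    have e1 : ∀ a : X × Y, κ' a (Prod.mk a ⁻¹' ((fun p : (X × Y) × Z => (p.1.2, p.2)) ⁻¹' s)) =
        (fun y => κ y (Prod.mk y ⁻¹' s)) a.2 := by
      intro a
      rw [hκ', Kernel.comap_apply]
      rfl
    simp_rw [e1]
    have hmeas : Measurable (fun y => κ y (Prod.mk y ⁻¹' s)) :=
      Kernel.measurable_kernel_prodMk_left hs
    rw [← lintegral_map hmeas measurable_snd, hY, ← hY']
    have := Measure.compProd_apply (μ := π₂.fst) (κ := κ) hs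
    rw [← Measure.fst, ← this, hκ, Measure.disintegrate]
  apply boxLE_of_coupling (W := (X × Y) × Z) ω (f := fun p => p.1.1) (g := fun p => p.2)
    (by fun_prop) (by fun_prop)
    (S := (Prod.fst ⁻¹' S₁) ∩ ((fun p : (X × Y) × Z => (p.1.2, p.2)) ⁻¹' S₂))
  · rw [← hX, ← hfst, Measure.map_map measurable_fst measurable_fst]; rfl
  · rw [← hZ, ← hyz, Measure.map_map measurable_snd hmg]; rfl
  · exact (measurable_fst hS₁.measurableSet).inter (hmg hS₂.measurableSet)
  · have e1 : (ω (Prod.fst ⁻¹' S₁)).toReal = (π₁ S₁).toReal := by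
      rw [← Measure.map_apply measurable_fst hS₁.measurableSet, hfst]
    have e2 : (ω ((fun p : (X × Y) × Z => (p.1.2, p.2)) ⁻¹' S₂)).toReal = (π₂ S₂).toReal := by
      rw [← Measure.map_apply hmg hS₂.measurableSet, hyz]
    have h3 := measureReal_union_add_inter (μ := ω) (s := Prod.fst ⁻¹' S₁)
      (t := (fun p : (X × Y) × Z => (p.1.2, p.2)) ⁻¹' S₂) (hmg hS₂.measurableSet)
    have h4 : ω.real (Prod.fst ⁻¹' S₁ ∪ (fun p : (X × Y) × Z => (p.1.2, p.2)) ⁻¹' S₂) ≤ 1 :=
      measureReal_le_one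
    simp only [Measure.real] at h3 h4
    rw [e1, e2] at h3
    linarith
  · rintro p ⟨hp1, hp2⟩ q ⟨hq1, hq2⟩
    have := hd₁ _ hp1 _ hq1
    have h2 := hd₂ _ hp2 _ hq2
    simp only at this h2
    have e : dist p.1.1 q.1.1 - dist p.2 q.2 =
      (dist p.1.1 q.1.1 - dist p.1.2 q.1.2) + (dist p.1.2 q.1.2 - dist p.2 q.2) := by ring
    rw [e]
    exact (abs_add_le _ _).trans (add_le_add this h2)

lemma bdd_box (X Y : MMSpace) : BddBelow {ε : ℝ | 0 ≤ ε ∧ BoxLE X Y ε} := ⟨0, fun _ h => h.1⟩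

lemma ne_box (X Y : MMSpace) : {ε : ℝ | 0 ≤ ε ∧ BoxLE X Y ε}.Nonempty :=
  ⟨1, zero_le_one, boxLE_one X Y⟩

lemma preBox_nonneg (X Y : MMSpace) : 0 ≤ preBox X Y :=
  le_csInf (ne_box X Y) fun _ h => h.1

lemma preBox_le {X Y : MMSpace} {ε : ℝ} (h0 : 0 ≤ ε) (h : BoxLE X Y ε) : preBox X Y ≤ ε :=
  csInf_le (bdd_box X Y) ⟨h0, h⟩

lemma boxLE_of_lt {X Y : MMSpace} {ε : ℝ} (h : preBox X Y < ε) : BoxLE X Y ε := by
  obtain ⟨δ, hδ, hlt⟩ := (csInf_lt_iff (bdd_box X Y) (ne_box X Y)).1 h
  exact hδ.2.mono hlt.le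

lemma preBox_self_iso {X Y : MMSpace} (h : Iso X Y) : preBox X Y = 0 :=
  le_antisymm (preBox_le le_rfl (boxLE_of_iso h)) (preBox_nonneg _ _)

lemma preBox_comm (X Y : MMSpace) : preBox X Y = preBox Y X := by
  unfold preBox
  congr 1
  ext ε
  exact and_congr_right fun _ => ⟨BoxLE.symm, BoxLE.symm⟩

lemma preBox_triangle (X Y Z : MMSpace) : preBox X Z ≤ preBox X Y + preBox Y Z := by
  apply le_of_forall_pos_le_add
  intro δ hδ
  have h1 : BoxLE X Y (preBox X Y + δ / 2) := boxLE_of_lt (by linarith)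
  have h2 : BoxLE Y Z (preBox Y Z + δ / 2) := boxLE_of_lt (by linarith)
  have h3 := preBox_le (by linarith [preBox_nonneg X Y, preBox_nonneg Y Z]) (h1.trans h2)
  linarith

lemma preBox_congr (X Y X' Y' : MMSpace) (h : Iso X X') (h' : Iso Y Y') :
    preBox X Y = preBox X' Y' := by
  apply le_antisymm
  · have := preBox_triangle X X' Y
    have h2 := preBox_triangle X' Y' Y
    rw [preBox_self_iso h] at this
    rw [preBox_comm Y' Y, preBox_self_iso h'] at h2
    linarith
  · have := preBox_triangle X' X Y'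
    have h2 := preBox_triangle X Y Y'
    rw [preBox_comm X' X, preBox_self_iso h] at this
    rw [preBox_self_iso h'] at h2
    linarith

/-- The box distance on classes. -/
noncomputable def box : MMClass → MMClass → ℝ :=
  Quotient.lift₂ preBox preBox_congr

/-- The box distance makes the set of classes a (pseudo)metric space. -/
noncomputable instance : PseudoMetricSpace MMClass where
  dist := box
  dist_self := by
    intro x
    induction x using Quotient.inductionOn
    exact preBox_self_iso (iso_equiv.refl _)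
  dist_comm := by
    intro x y
    induction x using Quotient.inductionOn
    induction y using Quotient.inductionOn
    exact preBox_comm _ _
  dist_triangle := by
    intro x y z
    induction x using Quotient.inductionOn
    induction y using Quotient.inductionOn
    induction z using Quotient.inductionOn
    exact preBox_triangle _ _ _

/-- The class of an mm-space. -/
def MMSpace.cls (X : MMSpace) : MMClass := Quotient.mk isoSetoid X

lemma dist_cls (X Y : MMSpace) : dist X.cls Y.cls = preBox X Y := rfl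

lemma exists_rep (x : MMClass) : ∃ X : MMSpace, X.cls = x := Quotient.exists_rep x

end Pool.Agent.V11221.Pyr
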