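import Pool.Agent.V11221.PyrA

/-!
The mm-space of a Borel probability measure on a Polish metric space, domination, and the
approximation lemma.
-/

open MeasureTheory Set Filter Topology ProbabilityTheory

namespace Pool.Agent.V11221.Pyr

/-- `Y` is dominated by `X`, for mm-spaces. -/
def PreDom (Y X : MMSpace) : Prop :=
  ∃ f : X → Y, LipschitzWith 1 f ∧ Measure.map f X.μ = Y.μ

/-- `y ≺ x` for classes. -/
def Dom (y x : MMClass) : Prop :=
  ∃ Y X : MMSpace, Y.cls = y ∧ X.cls = x ∧ PreDom Y X

section ofM

variable {W : Type} [MetricSpace W] [CompleteSpace W] [TopologicalSpace.SeparableSpace W]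
  [MeasurableSpace W] [BorelSpace W]

lemma ae_supp (ω : Measure W) : ω ω.supportᶜ = 0 := by
  haveI : SecondCountableTopology W := UniformSpace.secondCountable_of_separable W
  exact Measure.measure_compl_support

lemma measurableSet_supp (ω : Measure W) : MeasurableSet ω.support :=
  Measure.isClosed_support.measurableSet

/-- The mm-space given by the support of `ω`. -/
noncomputable def ofM (ω : Measure W) [IsProbabilityMeasure ω] : MMSpace :=
  haveI : SecondCountableTopology W := UniformSpace.secondCountable_of_separable W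
  { carrier := ω.support
    compl := Measure.isClosed_support.completeSpace_coe
    μ := ω.comap Subtype.val
    prob := by
      constructor
      rw [comap_subtype_coe_apply (measurableSet_supp ω), image_univ, Subtype.range_coe]
      rw [← compl_compl ω.support, prob_compl_eq_one_iff (measurableSet_supp ω).compl]
      exact ae_supp ω
    supp := by
      rw [eq_univ_iff_forall]
      intro x
      rw [Measure.mem_support_iff_forall]
      intro U hU
      rw [mem_nhds_subtype] at hU
      obtain ⟨V, hV, hVU⟩ := hU
      rw [comap_subtype_coe_apply (measurableSet_supp ω)]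
      have h1 : V ∩ ω.support ⊆ Subtype.val '' U := by
        rintro y ⟨hy, hys⟩
        exact ⟨⟨y, hys⟩, hVU hy, rfl⟩
      have h2 : 0 < ω V := (Measure.mem_support_iff_forall _).1 x.2 V hV
      have h3 : ω (V ∩ ω.support) = ω V := by
        apply le_antisymm (measure_mono inter_subset_left)
        calc ω V ≤ ω ((V ∩ ω.support) ∪ ω.supportᶜ) := by
              apply measure_mono
              intro y hy
              by_cases h : y ∈ ω.support
              · exact Or.inl ⟨hy, h⟩
              · exact Or.inr h
          _ ≤ ω (V ∩ ω.support) + ω ω.supportᶜ := measure_union_le _ _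
          _ = _ := by rw [ae_supp, add_zero]
      calc 0 < ω V := h2
        _ = ω (V ∩ ω.support) := h3.symm
        _ ≤ _ := measure_mono h1 }

lemma ofM_μ (ω : Measure W) [IsProbabilityMeasure ω] :
    (ofM ω).μ = ω.comap (Subtype.val : ω.support → W) := rfl

lemma nonempty_supp (ω : Measure W) [IsProbabilityMeasure ω] : Nonempty ω.support := by
  by_contra h
  rw [not_nonempty_iff] at h
  have h1 : ω.support = ∅ := Set.isEmpty_coe_sort.1 h
  have h2 := ae_supp ω
  rw [h1, compl_empty, measure_univ] at h2
  exact one_ne_zero h2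

open Classical in
/-- A measurable retraction on the support. -/
noncomputable def retr (ω : Measure W) [IsProbabilityMeasure ω] (w : W) : ω.support :=
  if h : w ∈ ω.support then ⟨w, h⟩ else (nonempty_supp ω).some

lemma retr_val (ω : Measure W) [IsProbabilityMeasure ω] {w : W} (h : w ∈ ω.support) :
    retr ω w = ⟨w, h⟩ := by
  unfold retr
  rw [dif_pos h]

lemma retr_meas (ω : Measure W) [IsProbabilityMeasure ω] : Measurable (retr ω) := by
  classical
  have := Measurable.dite (s := ω.support) (f := fun x : ω.support => x) measurable_id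
    (g := fun _ => (nonempty_supp ω).some) measurable_const (measurableSet_supp ω)
  exact this

lemma map_retr (ω : Measure W) [IsProbabilityMeasure ω] :
    Measure.map (retr ω) ω = ω.comap (Subtype.val : ω.support → W) := by
  have h1 : Measure.map (Subtype.val : ω.support → W) (ω.comap (Subtype.val : ω.support → W)) = ω := by
    rw [map_comap_subtype_coe (measurableSet_supp ω), Measure.restrict_eq_self_of_ae_mem]
    rw [ae_iff]
    exact ae_supp ω
  have h2 : (retr ω) ∘ (Subtype.val : ω.support → W) = (id : ω.support → ω.support) := by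
    funext x
    exact retr_val ω x.2
  calc Measure.map (retr ω) ω
      = Measure.map (retr ω) (Measure.map (Subtype.val : ω.support → W)
        (ω.comap (Subtype.val : ω.support → W))) := by rw [h1]
    _ = Measure.map ((retr ω) ∘ (Subtype.val : ω.support → W))
        (ω.comap (Subtype.val : ω.support → W)) :=
        Measure.map_map (retr_meas ω) measurable_subtype_coe
    _ = Measure.map (id : ω.support → ω.support) (ω.comap (Subtype.val : ω.support → W)) := by
        rw [h2]
    _ = _ := Measure.map_id

/-- The retraction as a map into the mm-space. -/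
noncomputable def retrM (ω : Measure W) [IsProbabilityMeasure ω] (w : W) : (ofM ω : MMSpace) :=
  retr ω w

lemma retrM_meas (ω : Measure W) [IsProbabilityMeasure ω] : Measurable (retrM ω) :=
  retr_meas ω

lemma map_retrM (ω : Measure W) [IsProbabilityMeasure ω] :
    Measure.map (retrM ω) ω = (ofM ω).μ := map_retr ω

lemma retrM_dist (ω : Measure W) [IsProbabilityMeasure ω] {v w : W} (h : v ∈ ω.support)
    (h' : w ∈ ω.support) : dist (retrM ω v) (retrM ω w) = dist v w := by
  have h1 : dist (retr ω v) (retr ω w) = dist v w := by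
    rw [retr_val ω h, retr_val ω h']
    rfl
  exact h1

lemma boxLE_ofM {X : MMSpace} (ω : Measure W) [IsProbabilityMeasure ω]
    {Ω : Type*} [MeasurableSpace Ω] [StandardBorelSpace Ω] [Nonempty Ω]
    (P : Measure Ω) [IsProbabilityMeasure P] {f : Ω → X} {g : Ω → W}
    (hf : Measurable f) (hg : Measurable g) (hfm : Measure.map f P = X.μ)
    (hgm : Measure.map g P = ω) {S : Set Ω} (hS : MeasurableSet S) {ε : ℝ}
    (hSε : 1 - ε ≤ (P S).toReal)
    (hd : ∀ p ∈ S, ∀ q ∈ S, |dist (f p) (f q) - dist (g p) (g q)| ≤ ε) :
    BoxLE X (ofM ω) ε := by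
  have h0 : P (g ⁻¹' ω.support)ᶜ = 0 := by
    rw [← preimage_compl, ← Measure.map_apply hg (measurableSet_supp ω).compl, hgm]
    exact ae_supp ω
  apply boxLE_of_coupling (X := X) (Y := ofM ω) P (f := f) (g := retrM ω ∘ g) hf
    ((retrM_meas ω).comp hg) hfm (S := S ∩ g ⁻¹' ω.support)
  · rw [← Measure.map_map (retrM_meas ω) hg, hgm, map_retrM]
  · exact hS.inter (hg (measurableSet_supp ω))
  · have : P (S ∩ g ⁻¹' ω.support) = P S := by
      apply le_antisymm (measure_mono inter_subset_left)
      calc P S ≤ P ((S ∩ g ⁻¹' ω.support) ∪ (g ⁻¹' ω.support)ᶜ) := by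
            apply measure_mono
            intro y hy
            by_cases h : y ∈ g ⁻¹' ω.support
            · exact Or.inl ⟨hy, h⟩
            · exact Or.inr h
        _ ≤ P (S ∩ g ⁻¹' ω.support) + P (g ⁻¹' ω.support)ᶜ := measure_union_le _ _
        _ = _ := by rw [h0, add_zero]
    rw [this]
    exact hSε
  · rintro p ⟨hp, hp'⟩ q ⟨hq, hq'⟩
    have := hd p hp q hq
    simp only [Function.comp]
    rw [retrM_dist ω hp' hq']
    exact this

lemma boxLE_ofM_ofM {W' : Type} [MetricSpace W'] [CompleteSpace W']
    [TopologicalSpace.SeparableSpace W'] [MeasurableSpace W'] [BorelSpace W']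
    (ω' : Measure W') [IsProbabilityMeasure ω'] (ω : Measure W) [IsProbabilityMeasure ω]
    {Ω : Type*} [MeasurableSpace Ω] [StandardBorelSpace Ω] [Nonempty Ω]
    (P : Measure Ω) [IsProbabilityMeasure P] {f : Ω → W'} {g : Ω → W}
    (hf : Measurable f) (hg : Measurable g) (hfm : Measure.map f P = ω')
    (hgm : Measure.map g P = ω) {S : Set Ω} (hS : MeasurableSet S) {ε : ℝ}
    (hSε : 1 - ε ≤ (P S).toReal)
    (hd : ∀ p ∈ S, ∀ q ∈ S, |dist (f p) (f q) - dist (g p) (g q)| ≤ ε) :
    BoxLE (ofM ω') (ofM ω) ε := by
  have h0 : P (f ⁻¹' ω'.support)ᶜ = 0 := by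
    rw [← preimage_compl, ← Measure.map_apply hf (measurableSet_supp ω').compl, hfm]
    exact ae_supp ω'
  apply boxLE_ofM (X := ofM ω') ω P (f := retrM ω' ∘ f) (g := g) ((retrM_meas ω').comp hf) hg
    _ hgm (S := S ∩ f ⁻¹' ω'.support)
  · exact hS.inter (hf (measurableSet_supp ω'))
  · have : P (S ∩ f ⁻¹' ω'.support) = P S := by
      apply le_antisymm (measure_mono inter_subset_left)
      calc P S ≤ P ((S ∩ f ⁻¹' ω'.support) ∪ (f ⁻¹' ω'.support)ᶜ) := by
            apply measure_mono
            intro y hy
            by_cases h : y ∈ f ⁻¹' ω'.support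
            · exact Or.inl ⟨hy, h⟩
            · exact Or.inr h
        _ ≤ P (S ∩ f ⁻¹' ω'.support) + P (f ⁻¹' ω'.support)ᶜ := measure_union_le _ _
        _ = _ := by rw [h0, add_zero]
    rw [this]
    exact hSε
  · rintro p ⟨hp, hp'⟩ q ⟨hq, hq'⟩
    have := hd p hp q hq
    simp only [Function.comp]
    rw [retrM_dist ω' hp' hq']
    exact this
  · rw [← Measure.map_map (retrM_meas ω') hf, hfm, map_retrM]

lemma preDom_ofM {Y : MMSpace} {F : Y → W} (hF : LipschitzWith 1 F) (ω : Measure W)
    [IsProbabilityMeasure ω] (hω : Measure.map F Y.μ = ω) : PreDom (ofM ω) Y := by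
  have hFm : Measurable F := hF.continuous.measurable
  have hmem : ∀ y, F y ∈ ω.support := by
    intro y
    rw [Measure.mem_support_iff_forall]
    intro U hU
    have h1 : F ⁻¹' (interior U) ∈ 𝓝 y :=
      hF.continuous.continuousAt.preimage_mem_nhds (interior_mem_nhds.2 hU)
    have h2 : y ∈ Y.μ.support := by rw [Y.supp]; trivial
    have h3 := (Measure.mem_support_iff_forall _).1 h2 _ h1
    rw [← Measure.map_apply hFm isOpen_interior.measurableSet, hω] at h3
    exact h3.trans_le (measure_mono interior_subset)
  refine ⟨fun y => (⟨F y, hmem y⟩ : ω.support), ?_, ?_⟩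
  · intro x y
    exact hF x y
  · have hm : Measurable (fun y => (⟨F y, hmem y⟩ : ω.support)) := hFm.subtype_mk
    have key : Measure.map (fun y => (⟨F y, hmem y⟩ : ω.support)) Y.μ =
        ω.comap (Subtype.val : ω.support → W) := ?_
    · exact key
    ext A hA
    rw [comap_subtype_coe_apply (measurableSet_supp ω), Measure.map_apply hm hA]
    have e : ω (Subtype.val '' A) = Y.μ (F ⁻¹' (Subtype.val '' A)) := by
      rw [← Measure.map_apply hFm ((measurableSet_supp ω).subtype_image hA), hω]
    rw [e]
    congr 1
    ext y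
    constructor
    · intro hy
      exact ⟨⟨F y, hmem y⟩, hy, rfl⟩
    · rintro ⟨z, hz, hzy⟩
      have : z = ⟨F y, hmem y⟩ := Subtype.ext hzy
      rw [this] at hz
      exact hz

end ofM

end Pool.Agent.V11221.Pyr
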