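import Pool.Agent.V11221.PyrB

/-!
The approximation lemma: near `X`, every space dominates a space supported in a fixed cube.
-/

open MeasureTheory Set Filter Topology ProbabilityTheory

namespace Pool.Agent.V11221.Pyr

instance : StandardBorelSpace I01 := measurableSet_Ico.standardBorel

instance : Nonempty I01 := ⟨⟨0, by simp⟩⟩

/-- The cube `[0,R]^N` with the sup metric. -/
abbrev Cube (N : ℕ) (R : ℝ) : Type := Fin N → Set.Icc (0:ℝ) R

/-- The classes of mm-spaces supported in the cube. -/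
def cubeSet (N : ℕ) (R : ℝ) : Set MMClass :=
  Set.range (fun ω : ProbabilityMeasure (Cube N R) => (ofM (ω : Measure (Cube N R))).cls)

lemma exists_cover (X : MMSpace) {ε : ℝ} (hε : 0 < ε) :
    ∃ (N : ℕ) (u : Fin N → X), 1 - ε ≤ (X.μ (⋃ i, Metric.ball (u i) (ε / 2))).toReal := by
  set u := TopologicalSpace.denseSeq X with hu
  set B : ℕ → Set X := fun n => ⋃ i ∈ Finset.range n, Metric.ball (u i) (ε / 2) with hB
  have hmono : Monotone B := by
    intro m n hmn x hx
    simp only [hB, mem_iUnion, Finset.mem_range] at hx ⊢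
    obtain ⟨i, hi, hx⟩ := hx
    exact ⟨i, hi.trans_le hmn, hx⟩
  have hun : ⋃ n, B n = univ := by
    rw [eq_univ_iff_forall]
    intro x
    obtain ⟨i, hi⟩ := (TopologicalSpace.denseRange_denseSeq X).exists_dist_lt x (half_pos hε)
    rw [mem_iUnion]
    refine ⟨i + 1, ?_⟩
    simp only [hB, mem_iUnion, Finset.mem_range]
    exact ⟨i, Nat.lt_succ_self i, hi⟩
  have ht := tendsto_measure_iUnion_atTop (μ := X.μ) hmono
  rw [hun, measure_univ] at ht
  have ht2 : Tendsto (fun n => (X.μ (B n)).toReal) atTop (𝓝 1) := by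
    have := (ENNReal.tendsto_toReal ENNReal.one_ne_top).comp ht
    rw [ENNReal.toReal_one] at this
    exact this
  have h3 : ∀ᶠ n in atTop, 1 - ε < (X.μ (B n)).toReal :=
    (tendsto_order.1 ht2).1 _ (by linarith)
  obtain ⟨n, hn⟩ := h3.exists
  refine ⟨n, fun i => u i, ?_⟩
  have hBn : B n = ⋃ i : Fin n, Metric.ball (u i) (ε / 2) := by
    ext x
    simp only [hB, mem_iUnion, Finset.mem_range]
    constructor
    · rintro ⟨i, hi, hx⟩
      exact ⟨⟨i, hi⟩, hx⟩
    · rintro ⟨i, hx⟩
      exact ⟨i, i.2, hx⟩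
  rw [hBn] at hn
  exact hn.le

/-- Truncated distance to a set, with values in `[0,R]`. -/
noncomputable def tdist {Y : Type*} [MetricSpace Y] {R : ℝ} (hR : 0 ≤ R) (S : Set Y) (y : Y) :
    Set.Icc (0:ℝ) R :=
  ⟨min R (Metric.infDist y S), le_min hR Metric.infDist_nonneg, min_le_left _ _⟩

lemma lip_cube {Y : Type*} [MetricSpace Y] {R : ℝ} (hR : 0 ≤ R) {N : ℕ} (S : Fin N → Set Y) :
    LipschitzWith 1 (fun y => (fun i => tdist hR (S i) y : Cube N R)) := by
  apply LipschitzWith.of_dist_le_mul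
  intro x y
  rw [dist_pi_le_iff (by positivity)]
  intro i
  have h1 : dist (tdist hR (S i) x) (tdist hR (S i) y) =
    |min R (Metric.infDist x (S i)) - min R (Metric.infDist y (S i))| := rfl
  rw [h1]
  have h2 : |Metric.infDist x (S i) - Metric.infDist y (S i)| ≤ dist x y := by
    have := (Metric.lipschitz_infDist_pt (S i)).dist_le_mul x y
    simpa [Real.dist_eq] using this
  have h3 : |min R (Metric.infDist x (S i)) - min R (Metric.infDist y (S i))| ≤
      |Metric.infDist x (S i) - Metric.infDist y (S i)| := by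
    have := abs_min_sub_min_le_max R (Metric.infDist x (S i)) R (Metric.infDist y (S i))
    rw [sub_self, abs_zero, max_eq_right (abs_nonneg _)] at this
    exact this
  simpa using h3.trans h2

/-- Near `X` (within `c`), every space dominates a space in the cube within `c + ε`. -/
lemma approx (X : MMSpace) {ε : ℝ} (hε : 0 < ε) :
    ∃ (N : ℕ) (R : ℝ), ∀ (c : ℝ) (Y : MMSpace), 0 ≤ c → BoxLE X Y c →
      ∃ ω : ProbabilityMeasure (Cube N R), PreDom (ofM (ω : Measure (Cube N R))) Y ∧
        BoxLE X (ofM (ω : Measure (Cube N R))) (c + ε) := by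
  obtain ⟨N, u, hN⟩ := exists_cover X hε
  set U : Set X := ⋃ i, Metric.ball (u i) (ε / 2) with hU
  have hUb : Bornology.IsBounded U := by
    rw [hU]
    exact (Bornology.isBounded_iUnion).2 fun i => Metric.isBounded_ball
  have hUm : MeasurableSet U := MeasurableSet.iUnion fun i => measurableSet_ball
  refine ⟨N, Metric.diam U, ?_⟩
  intro c Y hc hXY
  obtain ⟨φ, ψ, ⟨hφ, hφm⟩, ⟨hψ, hψm⟩, I₀, hI, hIm, hd⟩ := hXY
  have hR : 0 ≤ Metric.diam U := Metric.diam_nonneg
  set J : Fin N → Set Y := fun i => ψ '' (I₀ ∩ φ ⁻¹' (Metric.ball (u i) (ε / 2))) with hJ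
  set F : Y → Cube N (Metric.diam U) := fun y i => tdist hR (J i) y with hF
  have hFl : LipschitzWith 1 F := lip_cube hR J
  have hFm : Measurable F := hFl.continuous.measurable
  have hpr : IsProbabilityMeasure (Measure.map F Y.μ) :=
    Measure.isProbabilityMeasure_map hFm.aemeasurable
  refine ⟨(⟨Measure.map F Y.μ, hpr⟩ : ProbabilityMeasure _), ?_, ?_⟩
  · show PreDom (ofM (Measure.map F Y.μ)) Y
    exact preDom_ofM hFl _ rfl
  show BoxLE X (ofM (Measure.map F Y.μ)) (c + ε)
  apply boxLE_ofM (X := X) (Measure.map F Y.μ) leb (f := φ) (g := F ∘ ψ) hφ (hFm.comp hψ) hφm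
    _ (S := I₀ ∩ φ ⁻¹' U)
  · exact hI.inter (hφ hUm)
  · have h3 := measureReal_union_add_inter (μ := leb) (s := I₀) (t := φ ⁻¹' U) (hφ hUm)
    have h4 : leb.real (I₀ ∪ φ ⁻¹' U) ≤ 1 := measureReal_le_one
    have e1 : (leb (φ ⁻¹' U)).toReal = (X.μ U).toReal := by
      rw [← Measure.map_apply hφ hUm, hφm]
    simp only [Measure.real] at h3 h4
    rw [e1] at h3
    linarith
  · rintro s ⟨hs, hsU⟩ t ⟨ht, htU⟩
    have hup : dist (F (ψ s)) (F (ψ t)) ≤ dist (ψ s) (ψ t) := by
      have := hFl.dist_le_mul (ψ s) (ψ t)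
      simpa using this
    have h1 := abs_le.1 (hd s hs t ht)
    -- lower bound
    have htU' : φ t ∈ U := htU
    rw [hU, mem_iUnion] at htU'
    obtain ⟨i, hi⟩ := htU'
    have hne : (J i).Nonempty := ⟨ψ t, t, ⟨ht, hi⟩, rfl⟩
    have hzero : (tdist hR (J i) (ψ t) : ℝ) = 0 := by
      have : Metric.infDist (ψ t) (J i) = 0 := Metric.infDist_zero_of_mem ⟨t, ⟨ht, hi⟩, rfl⟩
      show min _ (Metric.infDist (ψ t) (J i)) = 0
      rw [this, min_eq_right hR]
    have hlow : dist (φ s) (φ t) - c - ε ≤ (tdist hR (J i) (ψ s) : ℝ) := by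
      show _ ≤ min _ (Metric.infDist (ψ s) (J i))
      apply le_min
      · have := Metric.dist_le_diam_of_mem hUb hsU htU
        linarith
      · rw [Metric.le_infDist hne]
        rintro y ⟨t', ⟨ht', ht'i⟩, rfl⟩
        have h2 := abs_le.1 (hd s hs t' ht')
        have h3 : dist (φ s) (φ t) ≤ dist (φ s) (φ t') + dist (φ t') (φ t) := dist_triangle _ _ _
        have h4 : dist (φ t') (φ t) ≤ ε := by
          have h5 := dist_triangle_right (φ t') (φ t) (u i)
          have h6 : dist (φ t') (u i) < ε / 2 := ht'i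
          have h7 : dist (φ t) (u i) < ε / 2 := hi
          linarith
        linarith [h2.1, h2.2]
    have hcomp : dist (tdist hR (J i) (ψ s)) (tdist hR (J i) (ψ t)) ≤ dist (F (ψ s)) (F (ψ t)) :=
      dist_le_pi_dist (F (ψ s)) (F (ψ t)) i
    have hval : dist (tdist hR (J i) (ψ s)) (tdist hR (J i) (ψ t)) =
      |(tdist hR (J i) (ψ s) : ℝ) - (tdist hR (J i) (ψ t) : ℝ)| := rfl
    rw [hval, hzero, sub_zero] at hcomp
    have h8 := (le_abs_self _).trans hcomp
    simp only [Function.comp]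
    rw [abs_le]
    constructor
    · linarith [h1.1, h1.2]
    · linarith [h1.1, h1.2]
  · rw [← Measure.map_map hFm hψ, hψm]

end Pool.Agent.V11221.Pyr
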