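import Pool.Agent.V11221.PyrC

/-!
Continuity of the class of an mm-space in the measure (weak topology), compactness of the set of
classes supported in a cube.
-/

open MeasureTheory Set Filter Topology ProbabilityTheory

namespace Pool.Agent.V11221.Pyr

lemma coupling_tv {Ω : Type*} [MeasurableSpace Ω] (hdiag : MeasurableSet {z : Ω × Ω | z.1 = z.2})
    (p q m : Measure Ω) [IsProbabilityMeasure p] [IsProbabilityMeasure q] (hp : m ≤ p) (hq : m ≤ q) :
    ∃ π : Measure (Ω × Ω), IsProbabilityMeasure π ∧ Measure.map Prod.fst π = p ∧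
      Measure.map Prod.snd π = q ∧ m univ ≤ π {z : Ω × Ω | z.1 = z.2} := by
  have hmf : IsFiniteMeasure m := isFiniteMeasure_of_le p hp
  set a := p - m with ha
  set b := q - m with hb
  have hpa : a + m = p := Measure.sub_add_cancel_of_le hp
  have hqb : b + m = q := Measure.sub_add_cancel_of_le hq
  have haf : IsFiniteMeasure a := isFiniteMeasure_of_le p (Measure.sub_le)
  have hbf : IsFiniteMeasure b := isFiniteMeasure_of_le q (Measure.sub_le)
  have hab : a univ = b univ := by
    have h1 : a univ + m univ = 1 := by
      rw [← Measure.add_apply, hpa]; exact measure_univ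
    have h2 : b univ + m univ = 1 := by
      rw [← Measure.add_apply, hqb]; exact measure_univ
    exact (ENNReal.add_left_inj (measure_ne_top m univ)).1 (h1.trans h2.symm)
  have hdm : Measurable (fun x : Ω => (x, x)) := measurable_id.prodMk measurable_id
  by_cases h0 : a univ = 0
  · have ha0 : a = 0 := Measure.measure_univ_eq_zero.1 h0
    have hb0 : b = 0 := Measure.measure_univ_eq_zero.1 (hab ▸ h0)
    rw [ha0, zero_add] at hpa
    rw [hb0, zero_add] at hqb
    refine ⟨Measure.map (fun x => (x, x)) m, ?_, ?_, ?_, ?_⟩
    · have : IsProbabilityMeasure m := hpa ▸ inferInstance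
      exact Measure.isProbabilityMeasure_map hdm.aemeasurable
    · rw [Measure.map_map measurable_fst hdm, ← hpa]
      exact Measure.map_id
    · rw [Measure.map_map measurable_snd hdm, ← hqb]
      exact Measure.map_id
    · rw [Measure.map_apply hdm hdiag]
      apply measure_mono
      intro x _
      rfl
  · have htop : a univ ≠ ⊤ := measure_ne_top a univ
    have hfst : Measure.map Prod.fst (Measure.map (fun x => (x, x)) m + (a univ)⁻¹ • (a.prod b)) = p := by
      rw [Measure.map_add _ _ measurable_fst, Measure.map_smul, Measure.map_fst_prod, ← hab,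
        smul_smul, ENNReal.inv_mul_cancel h0 htop, one_smul, Measure.map_map measurable_fst hdm]
      have : (Prod.fst ∘ fun x : Ω => (x, x)) = id := rfl
      rw [this, Measure.map_id, add_comm, hpa]
    have hsnd : Measure.map Prod.snd (Measure.map (fun x => (x, x)) m + (a univ)⁻¹ • (a.prod b)) = q := by
      rw [Measure.map_add _ _ measurable_snd, Measure.map_smul, Measure.map_snd_prod,
        smul_smul, ENNReal.inv_mul_cancel h0 htop, one_smul, Measure.map_map measurable_snd hdm]
      have : (Prod.snd ∘ fun x : Ω => (x, x)) = id := rfl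
      rw [this, Measure.map_id, add_comm, hqb]
    refine ⟨Measure.map (fun x => (x, x)) m + (a univ)⁻¹ • (a.prod b), ?_, hfst, hsnd, ?_⟩
    · constructor
      have : (Measure.map (fun x => (x, x)) m + (a univ)⁻¹ • (a.prod b)) univ =
          Measure.map Prod.fst (Measure.map (fun x => (x, x)) m + (a univ)⁻¹ • (a.prod b)) univ := by
        rw [Measure.map_apply measurable_fst MeasurableSet.univ, preimage_univ]
      rw [this, hfst, measure_univ]
    · rw [Measure.add_apply, Measure.map_apply hdm hdiag]
      refine le_trans ?_ le_self_add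
      apply measure_mono
      intro x _
      rfl

lemma coupling_nat (k : ℕ) (p q : Measure ℕ) [IsProbabilityMeasure p] [IsProbabilityMeasure q]
    {δ : ℝ} (hδ : 0 < δ) (hk : (p (Finset.range (k + 1) : Set ℕ)) = 1)
    (h : ∀ n ∈ Finset.range (k + 1), |(q {n}).toReal - (p {n}).toReal| ≤ δ / (k + 1)) :
    ∃ π : Measure (ℕ × ℕ), IsProbabilityMeasure π ∧ Measure.map Prod.fst π = p ∧
      Measure.map Prod.snd π = q ∧ 1 - δ ≤ (π {z : ℕ × ℕ | z.1 = z.2}).toReal := by
  classical
  set m : Measure ℕ := ∑ n ∈ Finset.range (k + 1), (min (p {n}) (q {n})) • Measure.dirac n with hm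
  have hmapply : ∀ s : Set ℕ, m s =
      ∑ n ∈ (Finset.range (k + 1)).filter (fun n => n ∈ s), min (p {n}) (q {n}) := by
    intro s
    rw [hm, Measure.finset_sum_apply, Finset.sum_filter]
    apply Finset.sum_congr rfl
    intro n _
    rw [Measure.smul_apply, Measure.dirac_apply, smul_eq_mul, Set.indicator_apply]
    split_ifs <;> simp
  have hle : ∀ r : Measure ℕ, (∀ n, min (p {n}) (q {n}) ≤ r {n}) → m ≤ r := by
    intro r hr
    rw [Measure.le_iff]
    intro s _
    rw [hmapply s]
    calc _ ≤ ∑ n ∈ (Finset.range (k + 1)).filter (fun n => n ∈ s), r {n} :=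
          Finset.sum_le_sum fun n _ => hr n
      _ = r ((Finset.range (k + 1)).filter (fun n => n ∈ s) : Finset ℕ) := sum_measure_singleton
      _ ≤ r s := by
          apply measure_mono
          intro x hx
          simp only [Finset.coe_filter, mem_setOf_eq] at hx
          exact hx.2
  obtain ⟨π, hπ, h1, h2, h3⟩ := coupling_tv (Ω := ℕ) (MeasurableSet.of_discrete) p q m
    (hle p fun n => min_le_left _ _) (hle q fun n => min_le_right _ _)
  refine ⟨π, hπ, h1, h2, ?_⟩
  have h4 : 1 - δ ≤ (m univ).toReal := by
    rw [hmapply univ]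
    simp only [mem_univ, Finset.filter_true]
    rw [ENNReal.toReal_sum (fun n _ => (lt_of_le_of_lt (min_le_left _ _) (measure_lt_top p {n})).ne)]
    have h5 : ∀ n ∈ Finset.range (k + 1), (p {n}).toReal - δ / (k + 1) ≤ (min (p {n}) (q {n})).toReal := by
      intro n hn
      have := abs_le.1 (h n hn)
      have hpos : (0:ℝ) < δ / (k + 1) := by positivity
      rw [ENNReal.toReal_min (measure_ne_top _ _) (measure_ne_top _ _)]
      apply le_min <;> linarith [this.1]
    have h6 := Finset.sum_le_sum h5
    rw [Finset.sum_sub_distrib, Finset.sum_const, Finset.card_range, nsmul_eq_mul] at h6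
    have h7 : ∑ n ∈ Finset.range (k + 1), (p {n}).toReal = 1 := by
      rw [← ENNReal.toReal_sum (fun n _ => measure_ne_top _ _), sum_measure_singleton, hk]
      simp
    rw [h7] at h6
    have h8 : ((k + 1 : ℕ) : ℝ) * (δ / (k + 1)) = δ := by
      push_cast
      field_simp
    rw [h8] at h6
    exact h6
  exact h4.trans (ENNReal.toReal_mono (measure_ne_top _ _) h3)

end Pool.Agent.V11221.Pyr
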