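import Pool.Agent.V11221.PyrD

/-!
Continuity of the class of an mm-space in the measure (weak topology), compactness of the set of
classes supported in a cube.
-/

open MeasureTheory Set Filter Topology ProbabilityTheory

namespace Pool.Agent.V11221.Pyr

section

variable {W : Type} [MetricSpace W] [CompleteSpace W] [TopologicalSpace.SeparableSpace W]
  [MeasurableSpace W] [BorelSpace W]

omit [CompleteSpace W] in
lemma exists_label (μ : ProbabilityMeasure W) {δ : ℝ} (hδ : 0 < δ) :
    ∃ (k : ℕ) (f : W → ℕ) (u : ℕ → W), Measurable f ∧ (∀ x, f x ≤ k) ∧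
      (∀ x, f x < k → dist x (u (f x)) < δ) ∧
      (∀ n, μ (frontier (f ⁻¹' {n})) = 0) ∧ ((μ : Measure W) (f ⁻¹' {k})).toReal < δ := by
  classical
  haveI : SecondCountableTopology W := UniformSpace.secondCountable_of_separable W
  have hne : Nonempty W := by
    by_contra h
    rw [not_nonempty_iff] at h
    have h1 : (μ : Measure W) Set.univ = 1 := measure_univ
    rw [Set.univ_eq_empty_iff.2 h, measure_empty] at h1
    exact zero_ne_one h1
  set u := TopologicalSpace.denseSeq W with hu
  have hr : ∀ n, ∃ r ∈ Ioo (δ / 2) δ, (μ : Measure W) (frontier (Metric.thickening r {u n})) = 0 :=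
    fun n => exists_null_frontier_thickening _ _ (by linarith)
  choose r hr hfr using hr
  set B : ℕ → Set W := fun n => Metric.thickening (r n) {u n} with hB
  have hBball : ∀ n, B n = Metric.ball (u n) (r n) := fun n => Metric.thickening_singleton _ _
  have hun : ⋃ n, B n = univ := by
    rw [eq_univ_iff_forall]
    intro x
    obtain ⟨i, hi⟩ := (TopologicalSpace.denseRange_denseSeq W).exists_dist_lt x (half_pos hδ)
    rw [mem_iUnion]
    refine ⟨i, ?_⟩
    rw [hBball, Metric.mem_ball]
    exact hi.trans (hr i).1
  set A : ℕ → Set W := fun n => ⋃ i ∈ Finset.range n, B i with hA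
  have hmono : Monotone A := by
    intro m n hmn x hx
    simp only [hA, mem_iUnion, Finset.mem_range] at hx ⊢
    obtain ⟨i, hi, hx⟩ := hx
    exact ⟨i, hi.trans_le hmn, hx⟩
  have hunA : ⋃ n, A n = univ := by
    rw [eq_univ_iff_forall]
    intro x
    have : x ∈ ⋃ n, B n := by rw [hun]; trivial
    obtain ⟨i, hi⟩ := mem_iUnion.1 this
    rw [mem_iUnion]
    refine ⟨i + 1, ?_⟩
    simp only [hA, mem_iUnion, Finset.mem_range]
    exact ⟨i, Nat.lt_succ_self i, hi⟩
  have ht := tendsto_measure_iUnion_atTop (μ := (μ : Measure W)) hmono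
  rw [hunA, measure_univ] at ht
  have ht2 : Tendsto (fun n => ((μ : Measure W) (A n)).toReal) atTop (𝓝 1) := by
    have := (ENNReal.tendsto_toReal ENNReal.one_ne_top).comp ht
    rw [ENNReal.toReal_one] at this
    exact this
  obtain ⟨k, hk⟩ := ((tendsto_order.1 ht2).1 (1 - δ) (by linarith)).exists
  -- the label
  have hex : ∀ x : W, ∃ n, (n = k ∨ x ∈ B n) := fun x => ⟨k, Or.inl rfl⟩
  set f : W → ℕ := fun x => Nat.find (hex x) with hf
  have hBm : ∀ n, MeasurableSet (B n) := fun n => Metric.isOpen_thickening.measurableSet
  have hset : ∀ n, {x : W | n = k ∨ x ∈ B n} = if n = k then univ else B n := by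
    intro n
    split_ifs with h
    · ext x; simp [h]
    · ext x; simp [h]
  have hfm : Measurable f := by
    apply measurable_find
    intro n
    rw [hset n]
    split_ifs
    · exact MeasurableSet.univ
    · exact hBm n
  have hfle : ∀ x, f x ≤ k := fun x => Nat.find_min' (hex x) (Or.inl rfl)
  refine ⟨k, f, u, hfm, hfle, ?_, ?_, ?_⟩
  · intro x hx
    have h1 := Nat.find_spec (hex x)
    rcases h1 with h1 | h1
    · exact absurd h1 hx.ne
    · rw [hBball, Metric.mem_ball] at h1
      exact h1.trans (hr _).2
  · intro n
    have hfib : f ⁻¹' {n} = {x : W | n = k ∨ x ∈ B n} ∩ ⋂ j ∈ Finset.range n, {x : W | j = k ∨ x ∈ B j}ᶜ := by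
      ext x
      simp only [mem_preimage, mem_singleton_iff, hf, mem_inter_iff, mem_iInter, Finset.mem_range,
        Nat.find_eq_iff]
      rfl
    have hnull : ∀ n, μ (frontier {x : W | n = k ∨ x ∈ B n}) = 0 := by
      intro n
      rw [hset n]
      split_ifs
      · simp
      · have := hfr n
        rw [ProbabilityMeasure.null_iff_toMeasure_null]
        exact this
    have hint : ∀ s t : Set W, μ (frontier s) = 0 → μ (frontier t) = 0 → μ (frontier (s ∩ t)) = 0 := by
      intro s t hs ht
      rw [ProbabilityMeasure.null_iff_toMeasure_null] at *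
      have hsub : frontier (s ∩ t) ⊆ frontier s ∪ frontier t :=
        (frontier_inter_subset s t).trans (union_subset_union inter_subset_left inter_subset_right)
      exact measure_mono_null hsub (measure_union_null hs ht)
    rw [hfib]
    apply hint _ _ (hnull n)
    have : ∀ m : ℕ, μ (frontier (⋂ j ∈ Finset.range m, {x : W | j = k ∨ x ∈ B j}ᶜ)) = 0 := by
      intro m
      induction m with
      | zero => simp
      | succ m ih =>
        rw [Finset.range_add_one, Finset.set_biInter_insert]
        apply hint _ _ _ ih
        rw [frontier_compl]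
        exact hnull m
    exact this n
  · have hsub : f ⁻¹' {k} = (A k)ᶜ := by
      ext x
      simp only [mem_preimage, mem_singleton_iff, mem_compl_iff]
      constructor
      · intro h hx
        simp only [hA, mem_iUnion, Finset.mem_range] at hx
        obtain ⟨i, hi, hx⟩ := hx
        have : f x ≤ i := Nat.find_min' (hex x) (Or.inr hx)
        omega
      · intro h
        by_contra hne
        have hlt : f x < k := lt_of_le_of_ne (hfle x) hne
        apply h
        simp only [hA, mem_iUnion, Finset.mem_range]
        refine ⟨f x, hlt, ?_⟩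
        rcases Nat.find_spec (hex x) with h1 | h1
        · exact absurd h1 hne
        · exact h1
    have hAm : MeasurableSet (A k) := by
      apply MeasurableSet.biUnion (Finset.countable_toSet _)
      intro i _
      exact hBm i
    rw [hsub, measure_compl hAm (measure_ne_top _ _), measure_univ,
      ENNReal.toReal_sub_of_le prob_le_one ENNReal.one_ne_top]
    simp only [ENNReal.toReal_one]
    linarith

lemma continuous_cls : Continuous (fun ω : ProbabilityMeasure W => (ofM (ω : Measure W)).cls) := by
  classical
  haveI : SecondCountableTopology W := UniformSpace.secondCountable_of_separable W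
  haveI : PolishSpace W := inferInstance
  rw [continuous_iff_continuousAt]
  intro μ
  rw [ContinuousAt, Metric.tendsto_nhds]
  intro ε hε
  set δ := ε / 6 with hδd
  have hδ : 0 < δ := by positivity
  obtain ⟨k, f, u, hfm, hfk, hdist, hfr, hmk⟩ := exists_label μ hδ
  have hW : Nonempty W := ⟨u 0⟩
  have hev : ∀ᶠ ν : ProbabilityMeasure W in 𝓝 μ, ∀ n ∈ Finset.range (k + 1),
      |((ν : Measure W) (f ⁻¹' {n})).toReal - ((μ : Measure W) (f ⁻¹' {n})).toReal| < δ / (k + 1) := by
    rw [Filter.eventually_all_finset]
    intro n _
    have h1 := ProbabilityMeasure.tendsto_measure_of_null_frontier_of_tendsto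
      (μ := μ) (μs := fun ν => ν) (L := 𝓝 μ) tendsto_id (hfr n)
    have h2 : Tendsto (fun ν : ProbabilityMeasure W => ((ν : Measure W) (f ⁻¹' {n})).toReal) (𝓝 μ)
        (𝓝 ((μ : Measure W) (f ⁻¹' {n})).toReal) :=
      (NNReal.continuous_coe.tendsto _).comp h1
    rw [Metric.tendsto_nhds] at h2
    exact h2 _ (by positivity)
  filter_upwards [hev] with ν hν
  have hum : Measurable (fun n => u n) := measurable_from_nat
  -- chain of three
  have hTm : MeasurableSet {x : W | f x < k} := hfm (MeasurableSet.of_discrete (s := {n | n < k}))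
  have hTc : {x : W | f x < k}ᶜ = f ⁻¹' {k} := by
    ext x
    simp only [mem_compl_iff, mem_setOf_eq, not_lt, mem_preimage, mem_singleton_iff]
    have := hfk x
    omega
  have hT : ∀ ρ : ProbabilityMeasure W, ((ρ : Measure W) {x : W | f x < k}).toReal =
      1 - ((ρ : Measure W) (f ⁻¹' {k})).toReal := by
    intro ρ
    rw [← hTc, measure_compl hTm (measure_ne_top _ _), measure_univ,
      ENNReal.toReal_sub_of_le prob_le_one ENNReal.one_ne_top]
    simp
  have step1 : ∀ ρ : ProbabilityMeasure W, ((ρ : Measure W) (f ⁻¹' {k})).toReal < 2 * δ →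
      ∀ σ : Measure W, ∀ hσ : IsProbabilityMeasure σ, Measure.map (fun x => u (f x)) (ρ : Measure W) = σ →
      BoxLE (ofM (ρ : Measure W)) (ofM σ) (2 * δ) := by
    intro ρ hρ σ hσ hmap
    apply boxLE_ofM_ofM (ρ : Measure W) σ (Ω := W) (ρ : Measure W) (f := id)
      (g := fun x => u (f x)) measurable_id (hum.comp hfm) Measure.map_id hmap
      (S := {x : W | f x < k}) hTm
    · rw [hT ρ]; linarith
    · intro x hx y hy
      have h1 := hdist x hx
      have h2 := hdist y hy
      have h3 := dist_triangle4 x (u (f x)) (u (f y)) y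
      have h4 := dist_triangle4 (u (f x)) x y (u (f y))
      rw [dist_comm (u (f y)) y] at h3
      rw [dist_comm (u (f x)) x] at h4
      simp only [id]
      rw [abs_le]
      constructor <;> linarith
  have hposk : (0:ℝ) < δ / (k + 1) := by positivity
  have hδk : δ / (k + 1) ≤ δ := by
    apply div_le_self hδ.le
    have : (0:ℝ) ≤ k := Nat.cast_nonneg k
    linarith
  have hνk : ((ν : Measure W) (f ⁻¹' {k})).toReal < 2 * δ := by
    have := (abs_lt.1 (hν k (Finset.self_mem_range_succ k))).2
    linarith
  have hpr : ∀ ρ : ProbabilityMeasure W, IsProbabilityMeasure (Measure.map (fun x => u (f x)) (ρ : Measure W)) :=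
    fun ρ => Measure.isProbabilityMeasure_map (hum.comp hfm).aemeasurable
  have hprf : ∀ ρ : ProbabilityMeasure W, IsProbabilityMeasure (Measure.map f (ρ : Measure W)) :=
    fun ρ => Measure.isProbabilityMeasure_map hfm.aemeasurable
  haveI := hpr μ
  haveI := hpr ν
  haveI := hprf μ
  haveI := hprf ν
  have s1 := step1 μ (by linarith) _ (hpr μ) rfl
  have s3 := (step1 ν hνk _ (hpr ν) rfl).symm
  have s2 : BoxLE (ofM (Measure.map (fun x => u (f x)) (μ : Measure W)))
      (ofM (Measure.map (fun x => u (f x)) (ν : Measure W))) δ := by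
    obtain ⟨π, hπ, h1, h2, h3⟩ := coupling_nat k (Measure.map f (μ : Measure W))
      (Measure.map f (ν : Measure W)) hδ
      (by
        rw [Measure.map_apply hfm MeasurableSet.of_discrete]
        have : f ⁻¹' (Finset.range (k + 1) : Set ℕ) = univ := by
          rw [eq_univ_iff_forall]
          intro x
          simp only [mem_preimage, Finset.coe_range, mem_Iio]
          have := hfk x
          omega
        rw [this, measure_univ])
      (by
        intro n hn
        rw [Measure.map_apply hfm (measurableSet_singleton n),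
          Measure.map_apply hfm (measurableSet_singleton n)]
        exact (hν n hn).le)
    apply boxLE_ofM_ofM _ _ (Ω := ℕ × ℕ) π (f := fun z => u z.1) (g := fun z => u z.2)
      (hum.comp measurable_fst) (hum.comp measurable_snd) _ _
      (S := {z : ℕ × ℕ | z.1 = z.2}) MeasurableSet.of_discrete h3
    · rintro p hp q hq
      have hp' : p.1 = p.2 := hp
      have hq' : q.1 = q.2 := hq
      rw [hp', hq', sub_self, abs_zero]
      exact hδ.le
    · have : (fun z : ℕ × ℕ => u z.1) = u ∘ Prod.fst := rfl
      rw [this, ← Measure.map_map hum measurable_fst, h1, Measure.map_map hum hfm]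
      rfl
    · have : (fun z : ℕ × ℕ => u z.2) = u ∘ Prod.snd := rfl
      rw [this, ← Measure.map_map hum measurable_snd, h2, Measure.map_map hum hfm]
      rfl
  have s := (s1.trans s2).trans s3
  rw [dist_comm, dist_cls]
  have := preBox_le (by positivity) s
  have h6 : 2 * δ + δ + 2 * δ = 5 * δ := by ring
  rw [h6] at this
  have : 5 * δ < ε := by rw [hδd]; linarith
  linarith

end

lemma isCompact_cubeSet (N : ℕ) (R : ℝ) : IsCompact (cubeSet N R) :=
  isCompact_range continuous_cls

end Pool.Agent.V11221.Pyr
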