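import Pool.Agent.V11221.PyrE

/-!
Pyramids, weak convergence of pyramids, the Fell and Wijsman topologies, and the key lemmas.
-/

open MeasureTheory Set Filter Topology ProbabilityTheory

namespace Pool.Agent.V11221.Pyr

/-- A pyramid: a nonempty closed set of classes, downward closed under domination, in which any
two elements are dominated by a common element. -/
structure IsPyramid (P : Set MMClass) : Prop where
  nonempty : P.Nonempty
  closed : IsClosed P
  down : ∀ x ∈ P, ∀ y, Dom y x → y ∈ P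
  directed : ∀ x ∈ P, ∀ y ∈ P, ∃ z ∈ P, Dom x z ∧ Dom y z

/-- The set `Π` of pyramids. -/
structure Pyramid where
  toSet : Set MMClass
  isPyramid : IsPyramid toSet

/-- The set `F(𝒳, □)` of closed subsets. -/
structure ClosedSets where
  toSet : Set MMClass
  isClosed : IsClosed toSet

/-- The inclusion of the pyramids in the closed sets. -/
def incl (P : Pyramid) : ClosedSets := ⟨P.toSet, P.isPyramid.closed⟩

/-- The box distance from a point to a set; it is `+∞` for the empty set. -/
noncomputable def boxToSet (x : MMClass) (F : Set MMClass) : ENNReal :=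
  ⨅ y ∈ F, ENNReal.ofReal (box x y)

/-- Weak convergence of pyramids. -/
def WeaklyConverges (P : ℕ → Pyramid) (Q : Pyramid) : Prop :=
  (∀ x ∈ Q.toSet, Tendsto (fun n => boxToSet x (P n).toSet) atTop (𝓝 0)) ∧
  (∀ x ∉ Q.toSet, 0 < liminf (fun n => boxToSet x (P n).toSet) atTop)

/-- The Fell topology on the closed sets. -/
def fellTopology : TopologicalSpace ClosedSets :=
  TopologicalSpace.generateFrom
    ({S | ∃ U : Set MMClass, IsOpen U ∧ S = {F : ClosedSets | (F.toSet ∩ U).Nonempty}} ∪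
     {S | ∃ K : Set MMClass, IsCompact K ∧ S = {F : ClosedSets | F.toSet ∩ K = ∅}})

/-- The Wijsman topology on the closed sets. -/
noncomputable def wijsmanTopology : TopologicalSpace ClosedSets :=
  ⨅ x : MMClass, TopologicalSpace.induced (fun F : ClosedSets => boxToSet x F.toSet) inferInstance

lemma boxToSet_eq (x : MMClass) (F : Set MMClass) : boxToSet x F = Metric.infEDist x F := by
  unfold boxToSet Metric.infEDist
  apply iInf_congr
  intro y
  apply iInf_congr
  intro _
  rw [edist_dist]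
  rfl

lemma boxToSet_lt {x : MMClass} {F : Set MMClass} {c : ℝ} :
    boxToSet x F < ENNReal.ofReal c ↔ ∃ y ∈ F, dist x y < c := by
  rw [boxToSet_eq, Metric.infEDist_lt_iff]
  constructor
  · rintro ⟨y, hy, h⟩
    refine ⟨y, hy, ?_⟩
    rw [edist_dist] at h
    exact (ENNReal.ofReal_lt_ofReal_iff_of_nonneg dist_nonneg).1 h
  · rintro ⟨y, hy, h⟩
    refine ⟨y, hy, ?_⟩
    rw [edist_dist]
    exact (ENNReal.ofReal_lt_ofReal_iff_of_nonneg dist_nonneg).2 h

/-- Inside a pyramid, near elements can be replaced by elements in the compact cube set. -/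
lemma approx_class (x : MMClass) {ε : ℝ} (hε : 0 < ε) :
    ∃ (N : ℕ) (R : ℝ), ∀ (c : ℝ) (P : Pyramid) (y : MMClass), y ∈ P.toSet → dist x y < c →
      ∃ z ∈ P.toSet, z ∈ cubeSet N R ∧ dist x z ≤ c + ε := by
  obtain ⟨X, rfl⟩ := exists_rep x
  obtain ⟨N, R, h⟩ := approx X hε
  refine ⟨N, R, ?_⟩
  intro c P y hy hd
  obtain ⟨Y, rfl⟩ := exists_rep y
  rw [dist_cls] at hd
  have hc : 0 ≤ c := (preBox_nonneg _ _).trans hd.le
  obtain ⟨ω, h1, h2⟩ := h c Y hc (boxLE_of_lt hd)
  refine ⟨(ofM (ω : Measure (Cube N R))).cls, ?_, ⟨ω, rfl⟩, ?_⟩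
  · exact P.isPyramid.down _ hy _ ⟨_, _, rfl, rfl, h1⟩
  · rw [dist_cls]
    exact preBox_le (by linarith) h2

lemma pos_of_notMem {x : MMClass} {F : Set MMClass} (hF : IsClosed F) (hx : x ∉ F) :
    0 < boxToSet x F := by
  rw [boxToSet_eq]
  exact (Metric.infEDist_pos_iff_notMem_closure).2 (by rwa [hF.closure_eq])

/-- Key lemma: if `□(x, P n) < c` frequently and `P n → Q` weakly then `□(x,Q) ≤ c`. -/
lemma liminf_bound {P : ℕ → Pyramid} {Q : Pyramid} (hPQ : WeaklyConverges P Q) {x : MMClass}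
    {c : ℝ} (hc : 0 < c) (hf : ∃ᶠ n in atTop, boxToSet x (P n).toSet < ENNReal.ofReal c) :
    boxToSet x Q.toSet ≤ ENNReal.ofReal c := by
  apply le_of_forall_gt_imp_ge_of_dense
  intro a ha
  by_cases hatop : a = ⊤
  · rw [hatop]; exact le_top
  have ha' : c < a.toReal := by
    rw [← ENNReal.ofReal_toReal hatop] at ha
    exact (ENNReal.ofReal_lt_ofReal_iff_of_nonneg hc.le).1 ha
  set ε := (a.toReal - c) / 2 with hε
  have hεpos : 0 < ε := by rw [hε]; linarith
  obtain ⟨N, R, hNR⟩ := approx_class x hεpos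
  have h1 : ∃ᶠ n in atTop, ∃ z ∈ (P n).toSet, z ∈ cubeSet N R ∩ Metric.closedBall x (c + ε) := by
    apply hf.mono
    intro n hn
    obtain ⟨y, hy, hxy⟩ := boxToSet_lt.1 hn
    obtain ⟨z, hz, hzK, hxz⟩ := hNR c (P n) y hy hxy
    refine ⟨z, hz, hzK, ?_⟩
    rw [Metric.mem_closedBall, dist_comm]
    exact hxz
  have hK : IsCompact (cubeSet N R ∩ Metric.closedBall x (c + ε)) :=
    (isCompact_cubeSet N R).inter_right Metric.isClosed_closedBall
  -- find a point z such that boxToSet z (P n) is frequently small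
  have h2 : ∃ z ∈ cubeSet N R ∩ Metric.closedBall x (c + ε), ∀ δ > 0, ∃ᶠ n in atTop,
      boxToSet z (P n).toSet < ENNReal.ofReal δ := by
    by_contra hcon
    push Not at hcon
    have h3 : ∀ z ∈ cubeSet N R ∩ Metric.closedBall x (c + ε), ∃ δ > 0, ∀ᶠ n in atTop,
        ¬ (boxToSet z (P n).toSet < ENNReal.ofReal δ) := by
      intro z hz
      obtain ⟨δ, hδ, h⟩ := hcon z hz
      refine ⟨δ, hδ, ?_⟩
      simpa [Filter.not_frequently] using h
    choose! δ hδ hev using h3
    obtain ⟨t, htK, htc⟩ := hK.elim_nhds_subcover (fun z => Metric.ball z (δ z))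
      (fun z hz => Metric.ball_mem_nhds z (hδ z hz))
    have h4 : ∀ᶠ n in atTop, ∀ z ∈ t, ¬ (boxToSet z (P n).toSet < ENNReal.ofReal (δ z)) := by
      rw [Filter.eventually_all_finset]
      intro z hz
      exact hev z (htK z hz)
    obtain ⟨n, ⟨w, hw, hwK⟩, hn⟩ := (h1.and_eventually h4).exists
    have h5 := htc hwK
    simp only [mem_iUnion] at h5
    obtain ⟨z, hz, hwz⟩ := h5
    apply hn z hz
    rw [boxToSet_lt]
    exact ⟨w, hw, by rw [dist_comm]; exact hwz⟩
  obtain ⟨z, hz, hzf⟩ := h2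
  have hzQ : z ∈ Q.toSet := by
    by_contra hzn
    have hpos := hPQ.2 z hzn
    obtain ⟨b, hb0, hb⟩ := exists_between hpos
    have hbtop : b ≠ ⊤ := (lt_top_of_lt hb).ne
    have hev := eventually_lt_of_lt_liminf hb
    have hb' : 0 < b.toReal := ENNReal.toReal_pos hb0.ne' hbtop
    obtain ⟨n, hn1, hn2⟩ := ((hzf b.toReal hb').and_eventually hev).exists
    rw [ENNReal.ofReal_toReal hbtop] at hn1
    exact absurd hn1 (not_lt.2 hn2.le)
  have h6 : dist x z < a.toReal := by
    have := hz.2
    rw [Metric.mem_closedBall, dist_comm] at this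
    rw [hε] at this
    linarith
  have h7 := (boxToSet_lt (x := x) (F := Q.toSet) (c := a.toReal)).2 ⟨z, hzQ, h6⟩
  rw [ENNReal.ofReal_toReal hatop] at h7
  exact h7.le

lemma tendsto_boxToSet {P : ℕ → Pyramid} {Q : Pyramid} (hPQ : WeaklyConverges P Q) (x : MMClass) :
    Tendsto (fun n => boxToSet x (P n).toSet) atTop (𝓝 (boxToSet x Q.toSet)) := by
  rw [tendsto_order]
  constructor
  · intro a ha
    obtain ⟨b, hab, hb⟩ := exists_between ha
    obtain ⟨b', hbb', hb'⟩ := exists_between hb
    have hbtop : b ≠ ⊤ := (lt_top_of_lt hb).ne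
    have hb'top : b' ≠ ⊤ := (lt_top_of_lt hb').ne
    have hbpos : 0 < b := lt_of_le_of_lt bot_le hab
    by_contra hcon
    have hf : ∃ᶠ n in atTop, boxToSet x (P n).toSet < ENNReal.ofReal b.toReal := by
      have h1 : ∃ᶠ n in atTop, ¬ a < boxToSet x (P n).toSet := by
        rwa [← Filter.not_eventually]
      apply h1.mono
      intro n hn
      rw [ENNReal.ofReal_toReal hbtop]
      exact (not_lt.1 hn).trans_lt hab
    have h2 := liminf_bound hPQ (ENNReal.toReal_pos hbpos.ne' hbtop) hf
    rw [ENNReal.ofReal_toReal hbtop] at h2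
    exact absurd hb (not_lt.2 h2)
  · intro a ha
    by_cases hatop : a = ⊤
    · -- pyramids are nonempty, so the distance is finite
      refine Eventually.of_forall fun n => ?_
      rw [hatop]
      obtain ⟨y, hy⟩ := (P n).isPyramid.nonempty
      have := (boxToSet_lt (x := x) (F := (P n).toSet) (c := dist x y + 1)).2 ⟨y, hy, by linarith⟩
      exact this.trans ENNReal.ofReal_lt_top
    · rw [← ENNReal.ofReal_toReal hatop] at ha ⊢
      obtain ⟨y, hy, hxy⟩ := boxToSet_lt.1 ha
      have h1 := hPQ.1 y hy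
      have h2 : (0 : ENNReal) < ENNReal.ofReal (a.toReal - dist x y) := by
        rw [ENNReal.ofReal_pos]; linarith
      filter_upwards [(tendsto_order.1 h1).2 _ h2] with n hn
      obtain ⟨z, hz, hyz⟩ := boxToSet_lt.1 hn
      rw [boxToSet_lt]
      refine ⟨z, hz, ?_⟩
      have := dist_triangle x y z
      linarith

lemma wijsman_continuous_boxToSet (x : MMClass) :
    @Continuous _ _ wijsmanTopology _ (fun F : ClosedSets => boxToSet x F.toSet) := by
  rw [continuous_iff_le_induced]
  exact iInf_le _ x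

lemma wijsman_le_fell : wijsmanTopology ≤ fellTopology := by
  letI := wijsmanTopology
  unfold fellTopology
  refine le_generateFrom ?_
  rintro S (⟨U, hU, rfl⟩ | ⟨K, hK, rfl⟩)
  · -- hit sets
    have hop : IsOpen {F : ClosedSets | (F.toSet ∩ U).Nonempty} := by
      have : {F : ClosedSets | (F.toSet ∩ U).Nonempty} =
          ⋃ x : MMClass, ⋃ c : ℝ, ⋃ _ : Metric.ball x c ⊆ U,
            {F : ClosedSets | boxToSet x F.toSet < ENNReal.ofReal c} := by
        ext F
        simp only [mem_setOf_eq, mem_iUnion]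
        constructor
        · rintro ⟨x, hxF, hxU⟩
          obtain ⟨c, hc, hcU⟩ := Metric.isOpen_iff.1 hU x hxU
          exact ⟨x, c, hcU, boxToSet_lt.2 ⟨x, hxF, by rw [dist_self]; exact hc⟩⟩
        · rintro ⟨x, c, hcU, h⟩
          obtain ⟨y, hy, hxy⟩ := boxToSet_lt.1 h
          exact ⟨y, hy, hcU (by rw [Metric.mem_ball, dist_comm]; exact hxy)⟩
      rw [this]
      refine isOpen_iUnion fun x => isOpen_iUnion fun c => isOpen_iUnion fun _ => ?_
      exact isOpen_lt (wijsman_continuous_boxToSet x) continuous_const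
    exact hop
  · have hop : IsOpen {F : ClosedSets | F.toSet ∩ K = ∅} := by
      rw [isOpen_iff_mem_nhds]
      intro F hF
      have hF' : F.toSet ∩ K = ∅ := hF
      have h1 : ∀ x ∈ K, ∃ c : ℝ, 0 < c ∧ ENNReal.ofReal c < boxToSet x F.toSet := by
        intro x hx
        have hxF : x ∉ F.toSet := fun h => by
          have : x ∈ F.toSet ∩ K := ⟨h, hx⟩
          rw [hF'] at this
          exact this
        obtain ⟨b, hb0, hb⟩ := exists_between (pos_of_notMem F.isClosed hxF)
        have hbtop : b ≠ ⊤ := (lt_top_of_lt hb).ne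
        exact ⟨b.toReal, ENNReal.toReal_pos hb0.ne' hbtop, by rwa [ENNReal.ofReal_toReal hbtop]⟩
      choose! c hc hcF using h1
      obtain ⟨t, htK, htc⟩ := hK.elim_nhds_subcover (fun z => Metric.ball z (c z))
        (fun z hz => Metric.ball_mem_nhds z (hc z hz))
      have h2 : {G : ClosedSets | ∀ x ∈ t, ENNReal.ofReal (c x) < boxToSet x G.toSet} ∈ 𝓝 F := by
        have h3 : {G : ClosedSets | ∀ x ∈ t, ENNReal.ofReal (c x) < boxToSet x G.toSet} =
            ⋂ x ∈ t, {G : ClosedSets | ENNReal.ofReal (c x) < boxToSet x G.toSet} := by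
          ext G; simp
        rw [h3, Filter.biInter_finset_mem]
        intro x hx
        exact (isOpen_lt continuous_const (wijsman_continuous_boxToSet x)).mem_nhds (hcF x (htK x hx))
      filter_upwards [h2] with G hG
      rw [eq_empty_iff_forall_notMem]
      rintro w ⟨hwG, hwK⟩
      have h5 := htc hwK
      simp only [mem_iUnion] at h5
      obtain ⟨z, hz, hwz⟩ := h5
      have h6 := hG z hz
      have h7 := (boxToSet_lt (x := z) (F := G.toSet) (c := c z)).2
        ⟨w, hwG, by rw [dist_comm]; exact hwz⟩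
      exact absurd h7 (not_lt.2 h6.le)
    exact hop

/-- Two different pyramids have disjoint neighbourhoods (among pyramids) in the Fell topology. -/
lemma fell_separation {P Q : Pyramid} {x : MMClass} (hxP : x ∈ P.toSet) (hxQ : x ∉ Q.toSet) :
    ∃ A B : Set ClosedSets, @IsOpen _ fellTopology A ∧ @IsOpen _ fellTopology B ∧
      incl P ∈ A ∧ incl Q ∈ B ∧ ∀ R : Pyramid, incl R ∈ A → incl R ∉ B := by
  obtain ⟨b, hb0, hb⟩ := exists_between (pos_of_notMem Q.isPyramid.closed hxQ)
  have hbtop : b ≠ ⊤ := (lt_top_of_lt hb).ne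
  set c := b.toReal with hcdef
  have hc : 0 < c := ENNReal.toReal_pos hb0.ne' hbtop
  have hcQ : ENNReal.ofReal c < boxToSet x Q.toSet := by rwa [hcdef, ENNReal.ofReal_toReal hbtop]
  obtain ⟨N, R, hNR⟩ := approx_class x (ε := c / 4) (by positivity)
  refine ⟨{F : ClosedSets | (F.toSet ∩ Metric.ball x (c / 4)).Nonempty},
    {F : ClosedSets | F.toSet ∩ (cubeSet N R ∩ Metric.closedBall x (c / 2)) = ∅}, ?_, ?_, ?_, ?_, ?_⟩
  · exact TopologicalSpace.isOpen_generateFrom_of_mem (Or.inl ⟨_, Metric.isOpen_ball, rfl⟩)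
  · exact TopologicalSpace.isOpen_generateFrom_of_mem (Or.inr ⟨_,
      (isCompact_cubeSet N R).inter_right Metric.isClosed_closedBall, rfl⟩)
  · exact ⟨x, hxP, Metric.mem_ball_self (by positivity)⟩
  · show Q.toSet ∩ _ = ∅
    rw [eq_empty_iff_forall_notMem]
    rintro y ⟨hyQ, _, hy⟩
    rw [Metric.mem_closedBall, dist_comm] at hy
    have := (boxToSet_lt (x := x) (F := Q.toSet) (c := c)).2 ⟨y, hyQ, by linarith⟩
    exact absurd this (not_lt.2 hcQ.le)
  · rintro S ⟨y, hyS, hy⟩ hS
    rw [Metric.mem_ball, dist_comm] at hy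
    obtain ⟨z, hz, hzK, hxz⟩ := hNR (c / 4) S y hyS hy
    have hS' : S.toSet ∩ (cubeSet N R ∩ Metric.closedBall x (c / 2)) = ∅ := hS
    have : z ∈ S.toSet ∩ (cubeSet N R ∩ Metric.closedBall x (c / 2)) := by
      refine ⟨hz, hzK, ?_⟩
      rw [Metric.mem_closedBall, dist_comm]
      linarith
    rw [hS'] at this
    exact this

lemma incl_injective : Function.Injective incl := by
  intro P Q h
  have : P.toSet = Q.toSet := congrArg ClosedSets.toSet h
  cases P; cases Q
  simp_all

end Pool.Agent.V11221.Pyr
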